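import Pool.Agent.V8H26.YG.All

/-!
# Complements to the law
-/

set_option autoImplicit false
set_option linter.all false

open Polynomial Filter Topology
open scoped Classical

namespace Pool.Agent.V8H26.YG

open Pool.Agent.TH115.GD Pool.Agent.H341R2.Sharp Finset Pool.Agent.Y164.PS Pool.Agent.V8H26.XA
open Pool.Agent.V8H26.XL
open Pool.Agent.V8H26.YA (ga odd_even ga_sum)

/-- the alternating sum of the law vanishes -/
theorem ga_alt : HasSum (fun r => (-1 : ℝ) ^ r * ga r) 0 := by
  have inj2 : Function.Injective fun d : ℕ => 2 * d := fun x y h => by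
    have : 2 * x = 2 * y := h
    omega
  have inj21 : Function.Injective fun d : ℕ => 2 * d + 1 := fun x y h => by
    have : 2 * x + 1 = 2 * y + 1 := h
    omega
  have he : Summable fun d : ℕ => pi' (2 * d) := pi'_sum.comp_injective inj2
  have ho : Summable fun d : ℕ => pi' (2 * d + 1) := pi'_sum.comp_injective inj21
  have g0 : HasSum (fun d => (-1 : ℝ) ^ (2 * d) * ga (2 * d)) ((∑' d, pi' (2 * d)) * cc / 2) := by
    have h2 : HasSum (fun d => pi' (2 * d) * cc / 2) ((∑' d, pi' (2 * d)) * cc / 2) :=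
      (he.hasSum.mul_right cc).div_const 2
    have e : (fun d => (-1 : ℝ) ^ (2 * d) * ga (2 * d)) = fun d => pi' (2 * d) * cc / 2 := by
      funext d
      rw [(even_two_mul d).neg_one_pow, one_mul]
      rfl
    rw [e]
    exact h2
  have g1 : HasSum (fun d => (-1 : ℝ) ^ (2 * d + 1) * ga (2 * d + 1))
      (-((∑' d, pi' (2 * d)) * cc / 2)) := by
    have h2 : HasSum (fun d => pi' (2 * d + 1) * cc / 2) ((∑' d, pi' (2 * d + 1)) * cc / 2) :=
      (ho.hasSum.mul_right cc).div_const 2
    rw [odd_even] at h2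
    have e : (fun d => (-1 : ℝ) ^ (2 * d + 1) * ga (2 * d + 1)) =
        fun d => -(pi' (2 * d + 1) * cc / 2) := by
      funext d
      rw [(odd_two_mul_add_one d).neg_one_pow, neg_one_mul]
      rfl
    rw [e]
    exact h2.neg
  have h := HasSum.even_add_odd (f := fun r => (-1 : ℝ) ^ r * ga r) g0 g1
  rwa [add_neg_cancel] at h

/-- the law has total mass one -/
theorem law_sum (x : ℝ) : HasSum (fun r => ga r * (1 + (-1) ^ r * x)) 1 := by
  have h := ga_sum.add (ga_alt.mul_right x)
  rw [zero_mul, add_zero] at h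
  have e : (fun r => ga r * (1 + (-1) ^ r * x)) = fun r => ga r + (-1) ^ r * ga r * x := by
    funext r
    ring
  rw [e]
  exact h

theorem dlt_pos {k : Type} [Field k] [Finite k] (h2 : (2 : k) ≠ 0) (hi : IsSquare (-1 : k))
    (a b : k[X]) (N : ℕ)
    (hco : IsCoprime a b) (da : a.natDegree = N) (db : b.natDegree = N) (dc : (a - b).natDegree = N)
    (s1 : ∀ (c : k) (h : k[X]), a * b ≠ C c * h ^ 2)
    (s2 : ∀ (c : k) (h : k[X]), a * (a - b) ≠ C c * h ^ 2)
    (s3 : ∀ (c : k) (h : k[X]), b * (a - b) ≠ C c * h ^ 2) : 0 < dlt a b := by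
  letI : Fintype k := Fintype.ofFinite k
  obtain ⟨H, -⟩ := prep h2 hi a b N hco da db dc s1 s2 s3
  rw [← dl_eq H]
  have := q_gt (k := k)
  exact prod_pos fun s _ => by positivity

/-- polynomials of large degree do not divide `a b (a - b)` -/
theorem not_dvd_of_large {k : Type} [Field k] {a b : k[X]} {N : ℕ} (da : a.natDegree = N)
    (db : b.natDegree = N) (dc : (a - b).natDegree = N) (h0 : a * b * (a - b) ≠ 0) {n : ℕ}
    (hn : 3 * N + 1 ≤ n) {D : k[X]} (hD : D.natDegree = n) : ¬ D ∣ a * b * (a - b) := by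
  intro h
  have h1 := natDegree_le_of_dvd h h0
  have h2 : (a * b * (a - b)).natDegree ≤ N + N + N := by
    refine natDegree_mul_le.trans (add_le_add (natDegree_mul_le.trans ?_) dc.le)
    exact add_le_add da.le db.le
  omega

end Pool.Agent.V8H26.YG
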