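import Pool.Agent.V8H26.YG.Chn

/-!
# The data of the bad primes for a twist with bad prime factors
-/

set_option autoImplicit false
set_option linter.all false

namespace Pool.Agent.V8H26.YG

open Module Finset
open Pool.Agent.V8H26.XL (Arr F2s F2c F2n X_self)
open Pool.Agent.Y164.PS (W om om_add_left om_add_right om_comm om_self om_zero_left om_zero_right Oq
  om_smul_left om_smul_right eq_zero_of_om W_add_self om_ks_comm om_ks_self ks ks_add uu Dat om_sum_left
  om_sum_right)
open scoped Classical

/-- the data of the bad primes, with the types -/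
structure DT (τ : Type) [Fintype τ] extends Dat τ where
  ty : τ → W
  hty : ∀ s, ty s ≠ 0
  ht : ∀ s, t s = 0 ∨ t s = ty s
  h1y : ∀ s y, ∑ s', G s s' * (om y (t s') * om (t s') (ty s)) + e s * om (ks l y) (ty s) =
    g s * om y (ty s)

/-- the alternating form as a bilinear form -/
def omB : LinearMap.BilinForm (ZMod 2) W :=
  LinearMap.mk₂ (ZMod 2) om om_add_left om_smul_left om_add_right om_smul_right

theorem omB_apply (x y : W) : omB x y = om x y := rfl

theorem ks_smul (l : ZMod 2 × ZMod 2 × ZMod 2) (c : ZMod 2) (y : W) : ks l (c • y) = c • ks l y := by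
  rcases F2c c with rfl | rfl
  · rw [zero_smul, zero_smul]
    simp [ks]
  · rw [one_smul, one_smul]

/-- the leading coefficients as a linear map -/
def ksL (l : ZMod 2 × ZMod 2 × ZMod 2) : W →ₗ[ZMod 2] W where
  toFun := ks l
  map_add' := ks_add l
  map_smul' := ks_smul l

/-- the dual vector of a type -/
def ud (t : W) : W := if t.2 = 1 then (1, 0) else (0, 1)

theorem om_ud : ∀ t : W, t ≠ 0 → om t (ud t) = 1 := by decide

section
variable {τ : Type} [Fintype τ] (D : DT τ) (m ep : τ → ZMod 2)

/-- the exponents of the points of order two at a bad prime -/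
def th (s : τ) : W →ₗ[ZMod 2] W :=
  m s • LinearMap.id + (omB.flip (D.t s)).smulRight (D.t s)

theorem th_apply (s : τ) (y : W) : th D m s y = m s • y + om y (D.t s) • D.t s := rfl

/-- the symbols of the points of order two at a bad prime -/
noncomputable def Mm (s : τ) : W →ₗ[ZMod 2] W :=
  ∑ s', D.G s s' • th D m s' + D.e s • ksL D.l

theorem Mm_apply (s : τ) (y : W) : Mm D m s y = ∑ s', D.G s s' • th D m s' y + D.e s • ks D.l y := by
  rw [Mm, LinearMap.add_apply, LinearMap.sum_apply]
  rfl

theorem om_th (s : τ) (y y' : W) : om (th D m s y) y' = m s * om y y' + om y (D.t s) * om (D.t s) y' := by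
  rw [th_apply, om_add_left, om_smul_left, om_smul_left]

theorem om_th_comm (s : τ) (y y' : W) : om (th D m s y) y' = om (th D m s y') y := by
  rw [om_th, om_th, om_comm y y', om_comm (D.t s) y', om_comm (D.t s) y]
  ring

theorem om_Mm (s : τ) (y y' : W) : om (Mm D m s y) y' =
    ∑ s', D.G s s' * om (th D m s' y) y' + D.e s * om (ks D.l y) y' := by
  rw [Mm_apply, om_add_left, om_sum_left, om_smul_left]
  congr 1
  exact sum_congr rfl fun s' _ => om_smul_left _ _ _

theorem om_Mm_comm (s : τ) (y y' : W) : om (Mm D m s y) y' = om (Mm D m s y') y := by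
  rw [om_Mm, om_Mm, om_ks_comm]
  congr 1
  exact sum_congr rfl fun s' _ => by rw [om_th_comm]

/-- the residue of the coefficient -/
noncomputable def gg' (s : τ) : ZMod 2 := D.g s + ∑ s', m s' * D.G s s'

theorem Mm_ty (s : τ) (y : W) : om (Mm D m s y) (D.ty s) = gg' D m s * om y (D.ty s) := by
  rw [om_Mm, gg', add_mul, ← D.h1y s y, sum_mul]
  have h : ∀ s', D.G s s' * om (th D m s' y) (D.ty s) =
      D.G s s' * (om y (D.t s') * om (D.t s') (D.ty s)) + m s' * D.G s s' * om y (D.ty s) := by
    intro s'
    rw [om_th]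
    ring
  simp only [h, sum_add_distrib]
  ring

theorem Mm_om_t (s : τ) (y : W) : om (Mm D m s y) (D.t s) = gg' D m s * om y (D.t s) := by
  rcases D.ht s with h | h
  · rw [h, om_zero_right, om_zero_right, mul_zero]
  · rw [h]
    exact Mm_ty D m s y

theorem Mm_t (s : τ) (y : W) : om (Mm D m s (D.t s)) y = gg' D m s * om (D.t s) y := by
  rw [om_Mm_comm, Mm_om_t, om_comm]

theorem Mm_th (s : τ) (y y' : W) : om (Mm D m s (th D m s y)) y' =
    m s * om (Mm D m s y) y' + gg' D m s * (om y (D.t s) * om (D.t s) y') := by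
  rw [th_apply, map_add, map_smul, map_smul, om_add_left, om_smul_left, om_smul_left, Mm_t]
  ring

theorem th_th (s : τ) (hs : m s = 1) (y : W) : th D m s (th D m s y) = y := by
  rw [th_apply D m s (th D m s y), hs, one_smul]
  have h1 : om (th D m s y) (D.t s) = om y (D.t s) := by
    rw [om_th, hs, om_self, one_mul, mul_zero, add_zero]
  rw [h1, th_apply, hs, one_smul, add_assoc, W_add_self, add_zero]

/-- the form at a bad prime -/
noncomputable def kap (s : τ) : LinearMap.BilinForm (ZMod 2) W :=
  if m s = 1 then LinearMap.comp omB ((ep s + gg' D m s) • th D m s + (Mm D m s).comp (th D m s))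
  else ep s • LinearMap.BilinForm.linMulLin (omB.flip (ud (D.ty s))) (omB.flip (ud (D.ty s)))

theorem kap_one {s : τ} (hs : m s = 1) (z z' : W) : kap D m ep s z z' =
    (ep s + gg' D m s) * om (th D m s z) z' + om (Mm D m s (th D m s z)) z' := by
  rw [kap, if_pos hs]
  show om ((ep s + gg' D m s) • th D m s z + Mm D m s (th D m s z)) z' = _
  rw [om_add_left, om_smul_left]

theorem kap_zero {s : τ} (hs : m s ≠ 1) (z z' : W) : kap D m ep s z z' =
    ep s * (om z (ud (D.ty s)) * om z' (ud (D.ty s))) := by
  rw [kap, if_neg hs]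
  rfl

theorem kap_comm (s : τ) (z z' : W) : kap D m ep s z z' = kap D m ep s z' z := by
  by_cases hs : m s = 1
  · rw [kap_one D m ep hs, kap_one D m ep hs, om_th_comm, Mm_th, Mm_th, om_Mm_comm,
      om_comm (D.t s) z, om_comm (D.t s) z']
    ring
  · rw [kap_zero D m ep hs, kap_zero D m ep hs]
    ring

/-- the exponents which occur at a bad prime -/
def Ls (s : τ) : Submodule (ZMod 2) W :=
  if m s = 1 then ⊤ else if ep s = 0 ∨ D.t s ≠ 0 then Submodule.span (ZMod 2) {D.ty s} else ⊥

theorem Ls_cases (s : τ) {z : W} (hz : z ∈ Ls D m ep s) :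
    m s = 1 ∨ (m s ≠ 1 ∧ ∃ c : ZMod 2, z = c • D.ty s ∧ (ep s ≠ 0 → D.t s = 0 → c = 0)) := by
  by_cases hs : m s = 1
  · exact Or.inl hs
  · right
    refine ⟨hs, ?_⟩
    rw [Ls, if_neg hs] at hz
    split_ifs at hz with h
    · obtain ⟨c, rfl⟩ := Submodule.mem_span_singleton.1 hz
      refine ⟨c, rfl, fun h1 h2 => ?_⟩
      rcases h with h | h
      · exact absurd h h1
      · exact absurd h2 h
    · rw [Submodule.mem_bot] at hz
      exact ⟨0, by rw [zero_smul, hz], fun _ _ => rfl⟩

theorem t_mem (s : τ) : D.t s ∈ Ls D m ep s := by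
  rw [Ls]
  split_ifs with h1 h2
  · exact Submodule.mem_top
  · rcases D.ht s with h | h
    · rw [h]
      exact Submodule.zero_mem _
    · rw [h]
      exact Submodule.mem_span_singleton_self _
  · push Not at h2
    rw [h2.2]
    exact Submodule.zero_mem _

theorem th_mem (s : τ) (y : W) : th D m s y ∈ Ls D m ep s := by
  by_cases hs : m s = 1
  · rw [Ls, if_pos hs]
    exact Submodule.mem_top
  · have h1 : m s = 0 := (F2c _).resolve_right hs
    rw [th_apply, h1, zero_smul, zero_add]
    exact Submodule.smul_mem _ _ (t_mem D m ep s)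

/-- the identity at a bad prime -/
theorem kap_th (s : τ) (y : W) {z : W} (hz : z ∈ Ls D m ep s) :
    kap D m ep s (th D m s y) z = (ep s + gg' D m s) * om y z + om (Mm D m s y) z := by
  rcases Ls_cases D m ep s hz with hs | ⟨hs, c, rfl, hc⟩
  · rw [kap_one D m ep hs, th_th D m s hs]
  · have h1 : m s = 0 := (F2c _).resolve_right hs
    have h2 : om (D.ty s) (ud (D.ty s)) = 1 := om_ud _ (D.hty s)
    rw [kap_zero D m ep hs, om_smul_left, om_smul_right, om_smul_right, Mm_ty, om_th, h1, h2]
    rcases D.ht s with h | h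
    · rw [h, om_zero_right, om_zero_left]
      have h3 : ep s * c = 0 := by
        rcases F2c (ep s) with h3 | h3
        · rw [h3, zero_mul]
        · rw [hc (by rw [h3]; exact one_ne_zero) h, mul_zero]
      linear_combination (-om y (D.ty s)) * h3 - (gg' D m s * c * om y (D.ty s)) * F2s 1
    · rw [h, h2]
      linear_combination (-(gg' D m s * c * om y (D.ty s))) * F2s 1

/-- the diagonal at a bad prime -/
theorem kap_diag (s : τ) {z : W} (hz : z ∈ Ls D m ep s) :
    D.e s * om z (uu D.l) + kap D m ep s z z = ∑ s', D.G s s' * om z (D.t s') +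
      kap D m ep s z (D.t s) := by
  have hsq : ∀ x : ZMod 2, x * x = x := by decide
  have hM : ∀ z : W, om (Mm D m s z) z = ∑ s', D.G s s' * om z (D.t s') + D.e s * om z (uu D.l) := by
    intro z
    rw [om_Mm, om_ks_self]
    congr 1
    refine sum_congr rfl fun s' _ => ?_
    rw [om_th, om_self, om_comm (D.t s'), hsq, mul_zero, zero_add]
  rcases Ls_cases D m ep s hz with hs | ⟨hs, c, rfl, hc⟩
  · rw [kap_one D m ep hs, kap_one D m ep hs, Mm_th, Mm_th, hM, hs, om_th, om_th, om_self, om_self,
      om_comm (D.t s) z, hsq, hs, Mm_om_t]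
    linear_combination (D.e s * om z (uu D.l) + gg' D m s * om z (D.t s)) * F2s 1 -
      (gg' D m s * om z (D.t s)) * F2s 1
  · have h2 : om (D.ty s) (ud (D.ty s)) = 1 := om_ud _ (D.hty s)
    have h3 : ∑ s', D.G s s' * om (D.ty s) (D.t s') = D.e s * om (D.ty s) (uu D.l) := by
      have h4 := hM (D.ty s)
      rw [Mm_ty, om_self, mul_zero] at h4
      linear_combination -h4 - (D.e s * om (D.ty s) (uu D.l)) * F2s 1
    have h5 : ∑ s', D.G s s' * om (c • D.ty s) (D.t s') = c * (D.e s * om (D.ty s) (uu D.l)) := by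
      rw [← h3, mul_sum]
      refine sum_congr rfl fun s' _ => ?_
      rw [om_smul_left]
      ring
    have h6 : kap D m ep s (c • D.ty s) (c • D.ty s) = kap D m ep s (c • D.ty s) (D.t s) := by
      rw [kap_zero D m ep hs, kap_zero D m ep hs, om_smul_left, h2, mul_one]
      rcases D.ht s with h | h
      · rw [h, om_zero_left, mul_zero, mul_zero]
        rcases F2c (ep s) with h3 | h3
        · rw [h3, zero_mul]
        · rw [hc (by rw [h3]; exact one_ne_zero) h, mul_zero, mul_zero]
      · rw [h, h2, mul_one, hsq]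
    rw [h5, h6, om_smul_left]
    ring

theorem kap_tt (s : τ) : kap D m ep s (D.t s) (D.t s) =
    if m s = 1 then 0 else if D.t s = 0 then 0 else ep s := by
  split_ifs with h1 h2
  · rw [kap_one D m ep h1, om_th, Mm_th, Mm_t, om_self]
    ring
  · rw [kap_zero D m ep h1, h2, om_zero_left, mul_zero, mul_zero]
  · have h3 : D.t s = D.ty s := (D.ht s).resolve_left h2
    rw [kap_zero D m ep h1, h3, om_ud _ (D.hty s), mul_one, mul_one]

end

end Pool.Agent.V8H26.YG
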