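import Pool.Agent.V8H26.YG.Sec

/-!
# The law for all the squarefree polynomials
-/

set_option autoImplicit false
set_option linter.all false

open Polynomial Filter Topology
open scoped Classical

namespace Pool.Agent.V8H26.YG

open Pool.Agent.TH115.GD Pool.Agent.H341R2.Sharp Finset Pool.Agent.Y164.PS Pool.Agent.V8H26.XA
open Pool.Agent.V8H26.YA (NSpl NSq ga)
open Pool.Agent.V8H26.YB (sum_ratio cs cF isU dvd_c nspl_c so_c)

/-- the squarefree polynomials of degree `n` -/
def SqA (k : Type) [Field k] (n : ℕ) : Set k[X] := {D | D.natDegree = n ∧ Squarefree D}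

/-- the bad primes -/
def bad {k : Type} [Field k] (a b : k[X]) : Set k[X] :=
  {Q | Q.Monic ∧ Irreducible Q ∧ Q ∣ a * b * (a - b)}

/-- the density of the polynomials divisible by all the bad primes -/
noncomputable def dlt {k : Type} [Field k] (a b : k[X]) : ℝ :=
  ∏ᶠ Q ∈ bad a b, 1 / ((Nat.card k : ℝ) ^ Q.natDegree + 1)

/-- the density of a class -/
noncomputable def dns {k : Type} [Field k] (a b : k[X]) (Γ : Set k[X]) : ℝ :=
  ∏ᶠ Q ∈ bad a b, if Q ∈ Γ then 1 / ((Nat.card k : ℝ) ^ Q.natDegree + 1)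
    else (Nat.card k : ℝ) ^ Q.natDegree / (2 * ((Nat.card k : ℝ) ^ Q.natDegree + 1))

section
variable {k : Type} [Field k]

theorem bad_c {c : k} (hc : c ≠ 0) (a b : k[X]) : bad (C c * a) (C c * b) = bad a b := by
  ext Q
  show (Q.Monic ∧ Irreducible Q ∧ Q ∣ C c * a * (C c * b) * (C c * a - C c * b)) ↔
    (Q.Monic ∧ Irreducible Q ∧ Q ∣ a * b * (a - b))
  rw [cF, dvd_c (pow_ne_zero 3 hc)]

theorem ramS_c {c : k} (hc : c ≠ 0) (a b D : k[X]) :
    ramS a b (C c * D) = ramS (C c * a) (C c * b) D := by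
  ext Q
  show (Q.Monic ∧ Irreducible Q ∧ Q ∣ a * b * (a - b) ∧ Q ∣ C c * D) ↔
    (Q.Monic ∧ Irreducible Q ∧ Q ∣ C c * a * (C c * b) * (C c * a - C c * b) ∧ Q ∣ D)
  rw [cF, dvd_c (pow_ne_zero 3 hc), dvd_c hc]

theorem splT_c {c : k} (hc : c ≠ 0) (a b D : k[X]) :
    splT a b (C c * D) = splT (C c * a) (C c * b) D := by
  ext Q
  show (Q.Monic ∧ Irreducible Q ∧ Q ∣ a * b * (a - b) ∧ ¬ Q ∣ C c * D ∧
      ¬ NSpl a b (C c * D) Q) ↔
    (Q.Monic ∧ Irreducible Q ∧ Q ∣ C c * a * (C c * b) * (C c * a - C c * b) ∧ ¬ Q ∣ D ∧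
      ¬ NSpl (C c * a) (C c * b) D Q)
  rw [cF, dvd_c (pow_ne_zero 3 hc), dvd_c hc, nspl_c hc]

end

section
variable {k : Type} [Field k] [Fintype k] [DecidableEq k]
variable {a b : k[X]} {N : ℕ} (H : Hyp a b N)

include H in
theorem bad_eq : bad a b = Set.range (QQ a b) := by
  ext Q
  constructor
  · intro h
    obtain ⟨s, hs⟩ := bad_ex H h
    exact ⟨s, hs⟩
  · rintro ⟨s, rfl⟩
    exact (mem_bp H).1 s.2

include H in
theorem dl_eq : dl a b = dlt a b := by
  rw [dlt, bad_eq H, finprod_mem_range QQ_inj, finprod_eq_prod_of_fintype, dl,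
    Nat.card_eq_fintype_card]

include H in
theorem dn_dns (Γ : Set k[X]) : dn a b Γ = dns a b Γ := by
  rw [dns, bad_eq H, finprod_mem_range QQ_inj, finprod_eq_prod_of_fintype, dn,
    Nat.card_eq_fintype_card]

omit [DecidableEq k] in
theorem mem_cs {c : k} : c ∈ cs k ↔ c ≠ 0 := by
  rw [cs, mem_filter]
  exact ⟨fun h => h.2, fun h => ⟨mem_univ _, h⟩⟩

theorem SqA_split (n : ℕ) (G : k[X] → Prop) : ({D ∈ SqA k n | G D}).ncard =
    ∑ c ∈ cs k, ct (fun D => G (C c * D)) n := by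
  have h1 : {D ∈ SqA k n | G D} = (((cs k).biUnion fun c =>
      ((Sf k n).filter fun D => G (C c * D)).image fun D => C c * D : Finset k[X]) : Set k[X]) := by
    ext D
    rw [Finset.mem_coe, mem_biUnion]
    constructor
    · rintro ⟨⟨h1, h2⟩, h3⟩
      have hD0 : D ≠ 0 := h2.ne_zero
      have hl : D.leadingCoeff ≠ 0 := leadingCoeff_ne_zero.2 hD0
      have e : C D.leadingCoeff * (C D.leadingCoeff⁻¹ * D) = D := by
        rw [← mul_assoc, ← C_mul, mul_inv_cancel₀ hl, C_1, one_mul]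
      have hm : (C D.leadingCoeff⁻¹ * D).Monic := by
        rw [mul_comm]
        exact monic_mul_leadingCoeff_inv hD0
      refine ⟨D.leadingCoeff, mem_cs.2 hl, mem_image.2
        ⟨C D.leadingCoeff⁻¹ * D, mem_filter.2 ⟨mem_Sf.2 ⟨hm, ?_, ?_⟩, ?_⟩, e⟩⟩
      · rw [natDegree_C_mul (inv_ne_zero hl)]
        exact h1
      · have h5 : Associated (C D.leadingCoeff⁻¹ * D) D :=
          associated_unit_mul_left D _ (isU (inv_ne_zero hl))
        exact h5.squarefree_iff.2 h2
      · rw [e]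
        exact h3
    · rintro ⟨c, hc, hD⟩
      obtain ⟨D', h1, rfl⟩ := mem_image.1 hD
      have hc' : c ≠ 0 := mem_cs.1 hc
      obtain ⟨h2, h3⟩ := mem_filter.1 h1
      obtain ⟨m1, m2, m3⟩ := mem_Sf.1 h2
      refine ⟨⟨?_, ?_⟩, h3⟩
      · rw [natDegree_C_mul hc']
        exact m2
      · have h5 : Associated (C c * D') D' := associated_unit_mul_left D' _ (isU hc')
        exact h5.squarefree_iff.2 m3
  rw [h1, Set.ncard_coe_finset, card_biUnion]
  · refine sum_congr rfl fun c hc => ?_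
    have hc' : c ≠ 0 := mem_cs.1 hc
    rw [card_image_of_injective _ (fun D D' h => mul_left_cancel₀ (C_ne_zero.2 hc') h), ct_of]
  · intro c hc c' hc' hne
    rw [Function.onFun, disjoint_left]
    intro D hD hD'
    obtain ⟨D1, h1, h2⟩ := mem_image.1 hD
    obtain ⟨D2, h3, h4⟩ := mem_image.1 hD'
    apply hne
    have h5 := congrArg leadingCoeff (h2.trans h4.symm)
    simp only [leadingCoeff_mul, leadingCoeff_C] at h5
    rw [(mem_Sf.1 (mem_filter.1 h1).1).1.leadingCoeff, (mem_Sf.1 (mem_filter.1 h3).1).1.leadingCoeff,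
      mul_one, mul_one] at h5
    exact h5

omit [DecidableEq k] in
theorem card_four (h2 : (2 : k) ≠ 0) (hi : IsSquare (-1 : k)) : 4 ≤ Fintype.card k := by
  by_contra hlt
  push Not at hlt
  obtain ⟨i, hi'⟩ := hi
  have n0 : (0 : k) ≠ 1 := zero_ne_one
  have n1 : (1 : k) ≠ -1 := by
    intro h
    apply h2
    have : (2 : k) = 1 + 1 := by norm_num
    rw [this]
    nth_rewrite 2 [h]
    ring
  have i0 : i ≠ 0 := by
    rintro rfl
    rw [mul_zero] at hi'
    exact neg_ne_zero.2 one_ne_zero hi'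
  have i1 : i ≠ 1 := by
    rintro rfl
    rw [mul_one] at hi'
    exact n1 hi'.symm
  have i2 : i ≠ -1 := by
    rintro rfl
    apply n1
    rw [hi']
    ring
  have hcard : ({0, 1, -1, i} : Finset k).card = 4 := by
    rw [card_insert_of_notMem, card_insert_of_notMem, card_insert_of_notMem, card_singleton]
    · rw [mem_singleton]; exact fun h => i2 h.symm
    · rw [mem_insert, mem_singleton]
      push Not
      exact ⟨n1, fun h => i1 h.symm⟩
    · rw [mem_insert, mem_insert, mem_singleton]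
      push Not
      exact ⟨n0, fun h => neg_ne_zero.2 one_ne_zero h.symm, fun h => i0 h.symm⟩
  have := card_le_univ ({0, 1, -1, i} : Finset k)
  rw [hcard] at this
  omega

theorem prep (h2 : (2 : k) ≠ 0) (hi : IsSquare (-1 : k)) (a b : k[X]) (N : ℕ)
    (hco : IsCoprime a b) (da : a.natDegree = N) (db : b.natDegree = N) (dc : (a - b).natDegree = N)
    (s1 : ∀ (c : k) (h : k[X]), a * b ≠ C c * h ^ 2)
    (s2 : ∀ (c : k) (h : k[X]), a * (a - b) ≠ C c * h ^ 2)
    (s3 : ∀ (c : k) (h : k[X]), b * (a - b) ≠ C c * h ^ 2) :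
    ∃ H : Hyp a b N, ∀ u : W, u ≠ 0 → ∃ s, om u ((datum H).t s) ≠ 0 := by
  have ha0 : a ≠ 0 := by
    rintro rfl
    exact s1 0 0 (by simp)
  have hb0 : b ≠ 0 := by
    rintro rfl
    exact s1 0 0 (by simp)
  have hab : a ≠ b := by
    rintro rfl
    exact s2 0 0 (by simp)
  have hchar : ringChar k ≠ 2 := by
    intro h
    apply h2
    have := ringChar.Nat.cast_ringChar (R := k)
    rw [h] at this
    exact_mod_cast this
  have H : Hyp a b N := ⟨hchar, hi, ha0, hb0, hab, hco, da, db, dc⟩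
  exact ⟨H, two_types H s1 s2 s3⟩

theorem sq_c {c : k} (hc : c ≠ 0) {x y : k[X]} (s1 : ∀ (e : k) (h : k[X]), x * y ≠ C e * h ^ 2)
    (e : k) (h : k[X]) : C c * x * (C c * y) ≠ C e * h ^ 2 := by
  intro he
  apply s1 (e / c ^ 2) h
  have h5 : C (c ^ 2) * (x * y) = C (c ^ 2) * (C (e / c ^ 2) * h ^ 2) := by
    rw [← mul_assoc (C (c ^ 2)) (C _), ← C_mul, mul_div_cancel₀ _ (pow_ne_zero 2 hc),
      ← he, C_pow]
    ring
  exact mul_left_cancel₀ (C_ne_zero.2 (pow_ne_zero 2 hc)) h5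

theorem prepC (h2 : (2 : k) ≠ 0) (hi : IsSquare (-1 : k)) (a b : k[X]) (N : ℕ)
    (hco : IsCoprime a b) (da : a.natDegree = N) (db : b.natDegree = N) (dc : (a - b).natDegree = N)
    (s1 : ∀ (c : k) (h : k[X]), a * b ≠ C c * h ^ 2)
    (s2 : ∀ (c : k) (h : k[X]), a * (a - b) ≠ C c * h ^ 2)
    (s3 : ∀ (c : k) (h : k[X]), b * (a - b) ≠ C c * h ^ 2) {c : k} (hc : c ≠ 0) :
    ∃ H : Hyp (C c * a) (C c * b) N, ∀ u : W, u ≠ 0 → ∃ s, om u ((datum H).t s) ≠ 0 :=
  prep h2 hi (C c * a) (C c * b) N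
    ((isCoprime_mul_unit_left_left (isU hc) _ _).2
      ((isCoprime_mul_unit_left_right (isU hc) _ _).2 hco))
    ((natDegree_C_mul hc).trans da) ((natDegree_C_mul hc).trans db)
    (by rw [← mul_sub]; exact (natDegree_C_mul hc).trans dc)
    (sq_c hc s1)
    (by rw [← mul_sub]; exact sq_c hc s2)
    (by rw [← mul_sub]; exact sq_c hc s3)

end

/-- the final form -/
theorem finalG {k : Type} [Field k] [Finite k] (h2 : (2 : k) ≠ 0) (hi : IsSquare (-1 : k))
    (K : Type) [Field K] [Algebra k[X] K] [IsFractionRing k[X] K] (a b : k[X]) (N : ℕ)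
    (hco : IsCoprime a b) (da : a.natDegree = N) (db : b.natDegree = N) (dc : (a - b).natDegree = N)
    (s1 : ∀ (c : k) (h : k[X]), a * b ≠ C c * h ^ 2)
    (s2 : ∀ (c : k) (h : k[X]), a * (a - b) ≠ C c * h ^ 2)
    (s3 : ∀ (c : k) (h : k[X]), b * (a - b) ≠ C c * h ^ 2) :
    (∀ r : ℕ, Tendsto (fun n : ℕ => (({D ∈ SqA k n | so k K a b D = 2 ^ (r + 2)}).ncard : ℝ) /
      ((SqA k n).ncard : ℝ)) atTop (𝓝 (ga r * (1 + (-1) ^ r * dlt a b)))) ∧
    (∀ D : k[X], Squarefree D → ¬ D ∣ a * b * (a - b) →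
      (∃ r : ℕ, Even (r + (splT a b D).ncard) ∧ so k K a b D = 2 ^ (r + 2)) ∧
      (so k K a b D = 4 ↔
        Finite (Pt (crv (algebraMap k[X] K (a * D)) (algebraMap k[X] K (b * D))) K) ∧
        ShaTwo k (crv (algebraMap k[X] K (a * D)) (algebraMap k[X] K (b * D))))) ∧
    ∀ Γ T : Set k[X], Γ ⊆ bad a b → T ⊆ bad a b → Disjoint Γ T →
      Tendsto (fun n : ℕ => (({D ∈ SqA k n | ramS a b D = Γ ∧ splT a b D = T}).ncard : ℝ) /
          ((SqA k n).ncard : ℝ)) atTop (𝓝 (dns a b Γ)) ∧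
      ∀ r : ℕ, Even (r + T.ncard) → Tendsto (fun n : ℕ =>
        (({D ∈ SqA k n | ramS a b D = Γ ∧ splT a b D = T ∧
          so k K a b D = 2 ^ (r + 2)}).ncard : ℝ) /
          (({D ∈ SqA k n | ramS a b D = Γ ∧ splT a b D = T}).ncard : ℝ))
        atTop (𝓝 (2 * ga r)) := by
  letI : Fintype k := Fintype.ofFinite k
  have hc0 : ∀ c ∈ cs k, c ≠ 0 := fun c hc => (mem_filter.1 hc).2
  have hcs : (cs k).Nonempty := ⟨1, mem_filter.2 ⟨mem_univ _, one_ne_zero⟩⟩
  have hq := card_four h2 hi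
  have hkp := kap_pos (k := k)
  have hq1 := q_gt (k := k)
  have hq0 : (Fintype.card k : ℝ) ≠ 0 := by positivity
  have hP : ∀ c ∈ cs k, _ := fun c hc => prepC h2 hi a b N hco da db dc s1 s2 s3 (hc0 c hc)
  have hall : ∀ n, ((SqA k n).ncard : ℝ) = ∑ c ∈ cs k, (ct (fun _ : k[X] => True) n : ℝ) := by
    intro n
    have h1 := SqA_split (k := k) n (fun _ => True)
    have e1 : {D ∈ SqA k n | True} = SqA k n := by
      ext D
      exact ⟨fun h => h.1, fun h => ⟨h, trivial⟩⟩
    rw [e1] at h1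
    rw [h1]
    push_cast
    rfl
  have hposT : ∀ᶠ n : ℕ in atTop, 0 < (ct (fun _ : k[X] => True) n : ℝ) := by
    obtain ⟨H, -⟩ := hP 1 (mem_filter.2 ⟨mem_univ _, one_ne_zero⟩)
    filter_upwards [(all_lim H).eventually_const_lt hkp] with n hn
    by_contra h
    push Not at h
    have h3 : (0 : ℝ) < (Fintype.card k : ℝ) ^ n := by positivity
    have := div_nonpos_of_nonpos_of_nonneg h h3.le
    linarith
  refine ⟨?_, ?_, ?_⟩
  · intro r
    have h1 := sum_ratio (cs k)
      (x := fun c n => (ct (fun D => so k K (C c * a) (C c * b) D = 2 ^ (r + 2)) n : ℝ))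
      (y := fun c n => (ct (fun _ : k[X] => True) n : ℝ)) (L := ga r * (1 + (-1) ^ r * dlt a b))
      (fun c _ => hposT) hcs
      (fun c hc => by
        obtain ⟨H, h2t⟩ := hP c hc
        have h3 := law_tot K H hq h2t r
        rw [dl_eq H, dlt, bad_c (hc0 c hc)] at h3
        exact h3)
    refine h1.congr fun n => ?_
    rw [hall, SqA_split n (fun D => so k K a b D = 2 ^ (r + 2))]
    simp only [so_c]
    push_cast
    rfl
  · intro D hs hF
    have hD0 : D ≠ 0 := hs.ne_zero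
    have hl : D.leadingCoeff ≠ 0 := leadingCoeff_ne_zero.2 hD0
    have e : C D.leadingCoeff * (C D.leadingCoeff⁻¹ * D) = D := by
      rw [← mul_assoc, ← C_mul, mul_inv_cancel₀ hl, C_1, one_mul]
    have hm : (C D.leadingCoeff⁻¹ * D).Monic := by
      rw [mul_comm]
      exact monic_mul_leadingCoeff_inv hD0
    have hs' : Squarefree (C D.leadingCoeff⁻¹ * D) := by
      have h5 : Associated (C D.leadingCoeff⁻¹ * D) D :=
        associated_unit_mul_left D _ (isU (inv_ne_zero hl))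
      exact h5.squarefree_iff.2 hs
    obtain ⟨c, hc⟩ : ∃ c, c = D.leadingCoeff := ⟨_, rfl⟩
    obtain ⟨D', hD'⟩ : ∃ D', D' = C D.leadingCoeff⁻¹ * D := ⟨_, rfl⟩
    rw [← hc] at hl
    rw [← hD'] at hm e hs'
    rw [← hc] at e
    obtain ⟨H, h2t⟩ := hP c (mem_filter.2 ⟨mem_univ _, hl⟩)
    have hF' : ¬ D' ∣ C c * a * (C c * b) * (C c * a - C c * b) := by
      rw [cF, dvd_c (pow_ne_zero 3 hl)]
      intro h
      apply hF
      rw [← e]
      exact ((associated_unit_mul_left D' _ (isU hl)).dvd).trans h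
    obtain ⟨⟨r, m1, m2⟩, m3⟩ := one_D K H h2t hm hs' hF'
    rw [← so_c] at m2 m3
    rw [← splT_c hl] at m1
    have e1 : b * D = C c * b * D' := by rw [← e]; ring
    have e2 : a * D = C c * a * D' := by rw [← e]; ring
    rw [← e1, ← e2] at m3
    rw [e] at m1 m2 m3
    exact ⟨⟨r, m1, m2⟩, m3⟩
  · intro Γ T hΓ hT hd
    have hΓc : ∀ c ∈ cs k, ∀ Q ∈ Γ, Q.Monic ∧ Irreducible Q ∧
        Q ∣ C c * a * (C c * b) * (C c * a - C c * b) := fun c hc Q hQ => by
      have h3 : Q ∈ bad (C c * a) (C c * b) := by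
        rw [bad_c (hc0 c hc)]
        exact hΓ hQ
      exact h3
    have hTc : ∀ c ∈ cs k, ∀ Q ∈ T, Q.Monic ∧ Irreducible Q ∧
        Q ∣ C c * a * (C c * b) * (C c * a - C c * b) := fun c hc Q hQ => by
      have h3 : Q ∈ bad (C c * a) (C c * b) := by
        rw [bad_c (hc0 c hc)]
        exact hT hQ
      exact h3
    have htrue : ∀ n, (({D ∈ SqA k n | ramS a b D = Γ ∧ splT a b D = T}).ncard : ℝ) =
        ∑ c ∈ cs k, (ct (fun D => ramS (C c * a) (C c * b) D = Γ ∧
          splT (C c * a) (C c * b) D = T ∧ True) n : ℝ) := by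
      intro n
      rw [SqA_split n (fun D => ramS a b D = Γ ∧ splT a b D = T)]
      push_cast
      refine sum_congr rfl fun c hc => ?_
      congr 1
      apply ct_congr
      intro D _
      rw [ramS_c (hc0 c hc), splT_c (hc0 c hc), and_true]
    constructor
    · have h1 := sum_ratio (cs k)
        (x := fun c n => (ct (fun D => ramS (C c * a) (C c * b) D = Γ ∧
          splT (C c * a) (C c * b) D = T ∧ True) n : ℝ))
        (y := fun c n => (ct (fun _ : k[X] => True) n : ℝ)) (L := dns a b Γ)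
        (fun c _ => hposT) hcs
        (fun c hc => by
          obtain ⟨H, h2t⟩ := hP c hc
          have h3 := quot hq0 hkp.ne' (GT_true H (hΓc c hc) (hTc c hc) hd hq) (all_lim H)
          rw [mul_div_cancel_left₀ _ hkp.ne', dn_dns H, dns, bad_c (hc0 c hc)] at h3
          exact h3)
      refine h1.congr fun n => ?_
      rw [hall, htrue]
    · intro r hr
      have hx : ∀ c ∈ cs k, 0 < (1 - 1 / (Fintype.card k : ℝ)) * dn (C c * a) (C c * b) Γ := by
        intro c hc
        obtain ⟨H, -⟩ := hP c hc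
        exact mul_pos hkp (dn_pos H Γ)
      have h1 := sum_ratio (cs k)
        (x := fun c n => (ct (fun D => ramS (C c * a) (C c * b) D = Γ ∧
          splT (C c * a) (C c * b) D = T ∧ so k K (C c * a) (C c * b) D = 2 ^ (r + 2)) n : ℝ))
        (y := fun c n => (ct (fun D => ramS (C c * a) (C c * b) D = Γ ∧
          splT (C c * a) (C c * b) D = T ∧ True) n : ℝ)) (L := 2 * ga r)
        (fun c hc => by
          obtain ⟨H, h2t⟩ := hP c hc
          filter_upwards [(GT_true H (hΓc c hc) (hTc c hc) hd hq).eventually_const_lt (hx c hc)]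
            with n hn
          by_contra h
          push Not at h
          have h3 : (0 : ℝ) < (Fintype.card k : ℝ) ^ n := by positivity
          have := div_nonpos_of_nonpos_of_nonneg h h3.le
          linarith) hcs
        (fun c hc => by
          obtain ⟨H, h2t⟩ := hP c hc
          have h3 := quot hq0 (hx c hc).ne' (GT_law K H (hΓc c hc) (hTc c hc) hd hq h2t hr)
            (GT_true H (hΓc c hc) (hTc c hc) hd hq)
          rw [mul_div_cancel_right₀ _ (hx c hc).ne'] at h3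
          have h4 : 2 * ga r = Pool.Agent.V8H26.YL.be r := by
            rw [ga]
            ring
          rw [h4]
          exact h3)
      refine h1.congr fun n => ?_
      have h5 : (({D ∈ SqA k n | ramS a b D = Γ ∧ splT a b D = T ∧
          so k K a b D = 2 ^ (r + 2)}).ncard : ℝ) =
          ∑ c ∈ cs k, (ct (fun D => ramS (C c * a) (C c * b) D = Γ ∧
            splT (C c * a) (C c * b) D = T ∧ so k K (C c * a) (C c * b) D = 2 ^ (r + 2)) n : ℝ) := by
        rw [SqA_split n (fun D => ramS a b D = Γ ∧ splT a b D = T ∧ so k K a b D = 2 ^ (r + 2))]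
        push_cast
        refine sum_congr rfl fun c hc => ?_
        congr 1
        apply ct_congr
        intro D _
        rw [ramS_c (hc0 c hc), splT_c (hc0 c hc), so_c]
      rw [h5, htrue]

end Pool.Agent.V8H26.YG
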