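import Pool.Agent.V8H26.YG.Chn
import Pool.Agent.V8H26.YM.Trv
import Pool.Agent.V8H26.YL.Cnt

/-!
# The law of a function of the symbols in a cell
-/

set_option autoImplicit false
set_option linter.all false

namespace Pool.Agent.V8H26.YG

open Finset Polynomial Pool.Agent.H341R2.Sharp
open Pool.Agent.V8H26.XL hiding fm fm_symm fm_rep fm_x fm_xj fm_rest fm_new fm_diag fm_va fm_self
  Ph MM_Ph_le Lf kr_zero fm_ws FB FB_apply r0 clA Ps Ps_abs rT XF cell_law model_cl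
open Pool.Agent.V8H26.YL (DE clA clE YYE YYE_ge dA)
open Pool.Agent.Y164.PS (Tau QQ Hyp W Dat V sg sg_add sg_zero sg_one abs_sg L L_comm L_of_not_coprime AT BT AT_comm
  ok cl Cell om YY OK YY_nonneg OK_nonneg OK_ge YY_ge om_zero_left om_zero_right)
open scoped Classical

/-- the functions of the arrays -/
abbrev RkF (τ : Type) := ∀ (ι : Type) [Fintype ι], (ι → ZMod 2) → Arr ι τ → ℕ

section
variable {k : Type} [Field k] [Fintype k] [DecidableEq k]
variable {a b : k[X]} {ι : Type} [Fintype ι]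
variable {ep : Tau a b → ZMod 2} {Ψ : RkF (Tau a b)} {d : ι → ZMod 2} {𝒞 : ι → Finset k[X]}
  {lg : Finset ι} {Nd : ℕ} {η : ℝ}

/-- the function of an array -/
noncomputable def PsG (ep : Tau a b → ZMod 2) (Ψ : RkF (Tau a b)) (d : ι → ZMod 2) (F : ℕ → ℝ)
    (c : ℝ) (a' : Arr ι (Tau a b)) : ℝ :=
  ind (clA (dA ep) a') * (F (Ψ ι d a') - c)

/-- the sum of the values of `F` at the dimension -/
noncomputable def XG (hm : IsSquare (-1 : k)) (ep : Tau a b → ZMod 2) (Ψ : RkF (Tau a b))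
    (d : ι → ZMod 2) (𝒞 : ι → Finset k[X]) (F : ℕ → ℝ) : ℝ :=
  ∑ T ∈ Fintype.piFinset 𝒞, (if ok (QQ a b) T ∧ clE (dA ep) (QQ a b) T then
    F (Ψ ι d (arr hm (QQ a b) T)) else 0)

theorem PsG_abs {F : ℕ → ℝ} (h0 : ∀ r, 0 ≤ F r) (h1 : ∀ r, F r ≤ 1) {c : ℝ} (hc0 : 0 ≤ c)
    (hc1 : c ≤ 1) (a' : Arr ι (Tau a b)) : |PsG ep Ψ d F c a'| ≤ 1 := by
  have h2 := h0 (Ψ ι d a')
  have h3 := h1 (Ψ ι d a')
  rw [PsG]
  by_cases h : clA (dA ep) a'
  · rw [ind_pos h, one_mul, abs_le]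
    constructor <;> linarith
  · rw [ind_neg h, zero_mul, abs_zero]
    norm_num

/-- **the law in a cell** -/
theorem cell_lawG (hc : Cell (dA ep).toDat (QQ a b) 𝒞 lg Nd η) (hsing : ∀ i, i ∉ lg → ∃ p, 𝒞 i = {p}) {F : ℕ → ℝ}
    (h0 : ∀ r, 0 ≤ F r) (h1 : ∀ r, F r ≤ 1) {c : ℝ} (hc0 : 0 ≤ c) (hc1 : c ≤ 1) {ε : ℝ}
    (hε : 0 < ε) (hε2 : ε ≤ 1 / 2)
    (hmod : ∃ l : List ι, l.Nodup ∧ l.length = lg.card ∧ (∀ j ∈ l, j ∈ lg) ∧
      ∀ a' : Arr ι (Tau a b), |MM l (PsG ep Ψ d F c) a'| ≤ ε / 2 ^ Fintype.card (Tau a b))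
    (h2 : lg.card * (2 ^ (Fintype.card ι + Fintype.card (Tau a b)) * η) * 2 ^ Fintype.card (Tau a b) ≤ ε)
    (h3 : (lg.card + 2 ^ Fintype.card (Tau a b)) * η ≤ ε) :
    |XG hc.hm ep Ψ d 𝒞 F - c * YYE (dA ep) (QQ a b) 𝒞| ≤ 4 * ε * YYE (dA ep) (QQ a b) 𝒞 ∧
      (1 - ε) * OK (QQ a b) 𝒞 ≤ 2 ^ Fintype.card (Tau a b) * YYE (dA ep) (QQ a b) 𝒞 := by
  set t2 : ℝ := 2 ^ Fintype.card (Tau a b) with ht2
  have ht2p : 0 < t2 := by positivity
  have hη := hc.eta0
  obtain ⟨ll, ll1, ll2, ll3, ll4⟩ := hmod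
  by_cases hsm : ∀ T ∈ Fintype.piFinset 𝒞, ∀ x y : ι ⊕ Tau a b, (∀ j ∈ lg, x ≠ Sum.inl j) →
    (∀ j ∈ lg, y ≠ Sum.inl j) → Sum.elim T (QQ a b) x = Sum.elim T (QQ a b) y → x = y
  · have e1 := OK_ge hc hsm
    have e2 := YYE_ge hc
    set N0 : ℝ := ((Fintype.piFinset 𝒞).card : ℝ) with hN0
    have hN0n : 0 ≤ N0 := by rw [hN0]; positivity
    have e11 : (1 - ε) * N0 ≤ YYE (dA ep) (QQ a b) 𝒞 * t2 := by
      have h5 := mul_le_mul_of_nonneg_right h3 hN0n
      linarith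
    constructor
    · have e3 := hyb hc ll (Φ := PsG ep Ψ d F c) (PsG_abs h0 h1 hc0 hc1) ll3
      have e4 : XG hc.hm ep Ψ d 𝒞 F - c * YYE (dA ep) (QQ a b) 𝒞 =
          ∑ T ∈ Fintype.piFinset 𝒞, (if ok (QQ a b) T then PsG ep Ψ d F c (arr hc.hm (QQ a b) T) else 0) := by
        rw [XG, YYE, mul_sum, ← sum_sub_distrib]
        refine sum_congr rfl fun T _ => ?_
        by_cases h4 : ok (QQ a b) T
        · rw [if_pos h4, PsG]
          by_cases h5 : clE (dA ep) (QQ a b) T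
          · have h6 : clA (dA ep) (arr hc.hm (QQ a b) T) := h5
            rw [if_pos ⟨h4, h5⟩, if_pos ⟨h4, h5⟩, ind_pos h6]
            ring
          · have h6 : ¬ clA (dA ep) (arr hc.hm (QQ a b) T) := h5
            rw [if_neg (fun h => h5 h.2), if_neg (fun h => h5 h.2), ind_neg h6]
            ring
        · rw [if_neg (fun h => h4 h.1), if_neg (fun h => h4 h.1), if_neg h4]
          ring
      have e5 : ∑ T ∈ Fintype.piFinset 𝒞, (if ok (QQ a b) T then PsG ep Ψ d F c (arr hc.hm (QQ a b) T) else 0) =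
          ∑ T ∈ Fintype.piFinset 𝒞, (if ok (QQ a b) T then
            (PsG ep Ψ d F c (arr hc.hm (QQ a b) T) - MM ll (PsG ep Ψ d F c) (arr hc.hm (QQ a b) T)) else 0) +
          ∑ T ∈ Fintype.piFinset 𝒞, (if ok (QQ a b) T then
            MM ll (PsG ep Ψ d F c) (arr hc.hm (QQ a b) T) else 0) := by
        rw [← sum_add_distrib]
        refine sum_congr rfl fun T _ => ?_
        split_ifs <;> ring
      have e6 : |∑ T ∈ Fintype.piFinset 𝒞, (if ok (QQ a b) T then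
            MM ll (PsG ep Ψ d F c) (arr hc.hm (QQ a b) T) else 0)| ≤ N0 * (ε / t2) := by
        refine (abs_sum_le_sum_abs _ _).trans ?_
        rw [hN0, ← nsmul_eq_mul, ← sum_const]
        refine sum_le_sum fun T _ => ?_
        split_ifs
        · exact ll4 _
        · rw [abs_zero]
          positivity
      have e7 : (ll.length : ℝ) * (2 ^ (Fintype.card ι + Fintype.card (Tau a b)) *
          (η * N0)) ≤ N0 * (ε / t2) := by
        rw [ll2]
        have h4 : lg.card * (2 ^ (Fintype.card ι + Fintype.card (Tau a b)) * η) ≤ ε / t2 := by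
          rw [le_div_iff₀ ht2p]
          exact h2
        have h5 := mul_le_mul_of_nonneg_left h4 hN0n
        linarith
      have e8 : |XG hc.hm ep Ψ d 𝒞 F - c * YYE (dA ep) (QQ a b) 𝒞| ≤ 2 * (N0 * (ε / t2)) := by
        rw [e4, e5]
        refine (abs_add_le _ _).trans ?_
        linarith
      refine e8.trans ?_
      have h4 : N0 ≤ 2 * (YYE (dA ep) (QQ a b) 𝒞 * t2) := by
        have : 1 / 2 * N0 ≤ (1 - ε) * N0 := mul_le_mul_of_nonneg_right (by linarith) hN0n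
        linarith
      calc 2 * (N0 * (ε / t2)) ≤ 2 * ((2 * (YYE (dA ep) (QQ a b) 𝒞 * t2)) * (ε / t2)) := by
            apply mul_le_mul_of_nonneg_left _ (by norm_num)
            exact mul_le_mul_of_nonneg_right h4 (by positivity)
        _ = 4 * ε * YYE (dA ep) (QQ a b) 𝒞 := by
            field_simp
            ring
    · have h5 : t2 * η ≤ ε * (1 - lg.card * η) := by
        have h6 : (0 : ℝ) ≤ (lg.card : ℝ) * η := mul_nonneg (Nat.cast_nonneg _) hη
        nlinarith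
      have h6 := mul_le_mul_of_nonneg_right h5 hN0n
      have h7 := mul_le_mul_of_nonneg_left e1 hε.le
      nlinarith
  · push Not at hsm
    obtain ⟨T0, hT0, x, y, hx, hy, hxy, hne⟩ := hsm
    have hno : ∀ T ∈ Fintype.piFinset 𝒞, ¬ ok (QQ a b) T := by
      intro T hT hok
      apply hne
      apply hok
      have key : ∀ x : ι ⊕ Tau a b, (∀ j ∈ lg, x ≠ Sum.inl j) → Sum.elim T (QQ a b) x = Sum.elim T0 (QQ a b) x := by
        rintro (i | s) hx
        · have hi : i ∉ lg := fun h => hx i h rfl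
          obtain ⟨p, hp⟩ := hsing i hi
          have h5 := Fintype.mem_piFinset.1 hT i
          have h6 := Fintype.mem_piFinset.1 hT0 i
          rw [hp, mem_singleton] at h5 h6
          show T i = T0 i
          rw [h5, h6]
        · rfl
      rw [key x hx, key y hy, hxy]
    have h5 : YYE (dA ep) (QQ a b) 𝒞 = 0 := sum_eq_zero fun T hT => if_neg fun h => hno T hT h.1
    have h6 : OK (QQ a b) 𝒞 = 0 := sum_eq_zero fun T hT => if_neg fun h => hno T hT h
    have h7 : XG hc.hm ep Ψ d 𝒞 F = 0 := sum_eq_zero fun T hT => if_neg fun h => hno T hT h.1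
    rw [h5, h6, h7, mul_zero, mul_zero, mul_zero, mul_zero, sub_zero, abs_zero]
    exact ⟨le_rfl, le_rfl⟩

end

end Pool.Agent.V8H26.YG
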