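import Pool.Agent.V8H26.YG.Ngb

/-!
# The random model
-/

set_option autoImplicit false
set_option linter.all false

namespace Pool.Agent.V8H26.YG

open Module Finset Filter Topology
open Pool.Agent.V8H26.XL (Arr rep rep_rep vh va F2s F2c F2n X_self ex mem_ex Wc kr rho rho_congr kr_congr
  ind ind_congr ind_pos ind_neg ind_nonneg ind_le_one psi_ex finrank_ex gg gg_bd gg_two av av_congr
  av_shift av_ind Mop MM two_sum av_add av_mul av_mul' av_const av_comm av_half av_nonneg av_mono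
  abs_av_le av_sub fun_self MM_sum MM_mono MM_mul CX av_sum MM_abs MM_const parity geo_le pow50)
open Pool.Agent.V8H26.YL (Cvp)
open Pool.Agent.Y164.PS (W om om_add_left om_add_right om_comm om_self om_zero_left om_zero_right Oq
  om_smul_left om_smul_right eq_zero_of_om W_add_self sg sg_add sg_zero sg_one abs_sg)
open scoped Classical

section
variable {ι τ Z : Type} [AddCommGroup Z] [Module (ZMod 2) Z] [Fintype ι] [Fintype τ] [Fintype Z]
  {D : DZ τ Z}

theorem NGZ_rep (R : RZ ι D) {S : Finset ι} {j : ι} (hj : j ∉ S) (a : Arr ι τ) :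
    av (fun x : ι → ZMod 2 => ind (NGZ R S (rep j 0 a) x)) =
      av (fun x : ι → ZMod 2 => ind (NGZ R S a x)) := by
  rw [← av_shift (vh j (va j a)) fun x : ι → ZMod 2 => ind (NGZ R S a x)]
  refine av_congr fun x => ind_congr ?_
  apply NGZ_congr
  intro u hu w hw
  rw [fz_va R j a, fz_rest R j _ a x u w (hu j hj) (hw j hj)]

/-- **the chain** -/
theorem chainZ (h2t : ∀ u : W, u ≠ 0 → ∃ s, om u (D.t s) ≠ 0) (R : RZ ι D) {F : ℕ → ℝ}
    (h0 : ∀ r, 0 ≤ F r) (h1 : ∀ r, F r ≤ 1) (l₂ : List ι) (a : Arr ι τ) :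
    ∀ (l₁ : List ι) (S : Finset ι) (n : ℕ),
    (l₁ ++ l₂).Nodup → (∀ j ∈ l₁ ++ l₂, j ∈ S) → HI R (S \ (l₁ ++ l₂).toFinset) →
    |MM (l₁ ++ l₂) (EZ R F S n) a - MM l₂ (EZ R F (S \ l₁.toFinset) (n + 2 * l₁.length)) a| ≤
      CX * Fintype.card Z ^ 2 * 16 ^ (S.card - (l₁ ++ l₂).length) *
        ∑ u ∈ Ico l₂.length (l₁ ++ l₂).length, (15 / 16 : ℝ) ^ u := by
  intro l₁
  induction l₁ with
  | nil =>
    intro S n _ _ _
    simp
  | cons j l₁ ih =>
    intro S n hnd hS hI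
    have hnd' : (l₁ ++ l₂).Nodup := (List.nodup_cons.1 hnd).2
    have hj : j ∉ l₁ ++ l₂ := (List.nodup_cons.1 hnd).1
    have hjS : j ∈ S := hS j (by simp)
    have hS' : ∀ i ∈ l₁ ++ l₂, i ∈ S.erase j := fun i hi =>
      mem_erase.2 ⟨fun h => hj (h ▸ hi), hS i (List.mem_cons_of_mem _ hi)⟩
    have hcard : (S.erase j).card = S.card - 1 := card_erase_of_mem hjS
    have hlen : (l₁ ++ l₂).length ≤ (S.erase j).card := by
      rw [← List.toFinset_card_of_nodup hnd']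
      exact card_le_card fun i hi => hS' i (List.mem_toFinset.1 hi)
    have hIe : S.erase j \ (l₁ ++ l₂).toFinset = S \ (j :: l₁ ++ l₂).toFinset := by
      ext i
      simp only [Finset.mem_sdiff, mem_erase, List.mem_toFinset, List.mem_cons, List.cons_append]
      tauto
    have hI' : HI R (S.erase j \ (l₁ ++ l₂).toFinset) := by rw [hIe]; exact hI
    have hI2 : HI R (S.erase j) := HI_mono sdiff_subset hI'
    have e1 := ih (S.erase j) (n + 2) hnd' hS' hI'
    have e2 : |MM (l₁ ++ l₂) (Mop j (EZ R F S n)) a -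
        MM (l₁ ++ l₂) (EZ R F (S.erase j) (n + 2)) a| ≤
        CX * Fintype.card Z ^ 2 * ((15 / 16) ^ (l₁ ++ l₂).length *
          16 ^ ((S.erase j).card - (l₁ ++ l₂).length)) := by
      refine (MM_abs _ (Θ := fun a => av fun x : ι → ZMod 2 => ind (NGZ R (S.erase j) a x)) ?_ a).trans
        (ng_boundZ h2t hI2 hnd' hS' a)
      intro b
      have h2 := stepZ (R := R) h0 h1 (notMem_erase j S) n b
      rw [insert_erase hjS, NGZ_rep R (notMem_erase j S)] at h2
      exact h2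
    have e3 : (S.erase j) \ l₁.toFinset = S \ (j :: l₁).toFinset := by
      ext i
      simp only [Finset.mem_sdiff, mem_erase, List.mem_toFinset, List.mem_cons]
      tauto
    have e4 : n + 2 + 2 * l₁.length = n + 2 * (j :: l₁).length := by
      rw [List.length_cons]; ring
    have e5 : (j :: l₁ ++ l₂).length = (l₁ ++ l₂).length + 1 := by simp
    have e6 : S.card - (j :: l₁ ++ l₂).length = (S.erase j).card - (l₁ ++ l₂).length := by
      rw [e5, hcard]; omega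
    rw [e3, e4] at e1
    rw [e6, e5, sum_Ico_succ_top (by simp)]
    have e7 : MM (j :: l₁ ++ l₂) (EZ R F S n) a = MM (l₁ ++ l₂) (Mop j (EZ R F S n)) a := rfl
    rw [e7]
    have e8 : MM (l₁ ++ l₂) (Mop j (EZ R F S n)) a -
        MM l₂ (EZ R F (S \ (j :: l₁).toFinset) (n + 2 * (j :: l₁).length)) a =
        (MM (l₁ ++ l₂) (Mop j (EZ R F S n)) a -
          MM (l₁ ++ l₂) (EZ R F (S.erase j) (n + 2)) a) +
        (MM (l₁ ++ l₂) (EZ R F (S.erase j) (n + 2)) a -
          MM l₂ (EZ R F (S \ (j :: l₁).toFinset) (n + 2 * (j :: l₁).length)) a) := by ring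
    rw [e8]
    refine (abs_add_le _ _).trans ?_
    rw [mul_add]
    have e9 : (CX : ℝ) * Fintype.card Z ^ 2 * ((15 / 16) ^ (l₁ ++ l₂).length *
        16 ^ ((S.erase j).card - (l₁ ++ l₂).length)) =
        CX * Fintype.card Z ^ 2 * 16 ^ ((S.erase j).card - (l₁ ++ l₂).length) *
          (15 / 16) ^ (l₁ ++ l₂).length := by ring
    rw [e9] at e2
    linarith

theorem wc_ne (h2t : ∀ u : W, u ≠ 0 → ∃ s, om u (D.t s) ≠ 0) : (wc D : VZ ι Z) ≠ 0 := by
  obtain ⟨s, hs⟩ := h2t (1, 0) (by decide)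
  intro h
  have h1 : D.c = 0 := congrArg Prod.snd h
  have h2 := D.hc s
  rw [h1, map_zero] at h2
  rw [← h2] at hs
  exact hs (om_zero_right _)

theorem rho_modZ (h2t : ∀ u : W, u ≠ 0 → ∃ s, om u (D.t s) ≠ 0) (R : RZ ι D) {p : ℕ}
    (hp : R.B (0, D.c) (0, D.c) + finrank (ZMod 2) Z = (p : ZMod 2)) (a : Arr ι τ)
    (x : ι → ZMod 2) (S : Finset ι) :
    rho (fz R a x) (SZ S) % 2 = p % 2 := by
  have h1 := parity (fz_symm R a x) (fz_diag R a x) (wc_ne h2t) (SZ S) (wc_mem S)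
  rw [finrank_SZ, fz_wc] at h1
  have h2 : R.B (0, D.c) (0, D.c) = (p : ZMod 2) + (finrank (ZMod 2) Z : ZMod 2) := by
    rw [← hp, add_assoc, F2s, add_zero]
  rw [h2, ← Nat.cast_add, ZMod.natCast_eq_zero_iff_even, Nat.even_iff, Nat.even_iff] at h1
  omega

theorem rho_leZ (R : RZ ι D) (a : Arr ι τ) (x : ι → ZMod 2) (S : Finset ι) :
    rho (fz R a x) (SZ S) ≤ 2 * S.card + finrank (ZMod 2) Z := by
  rw [← finrank_SZ]
  exact Submodule.finrank_mono fun u hu => hu.1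

theorem EZ_lim (h2t : ∀ u : W, u ≠ 0 → ∃ s, om u (D.t s) ≠ 0) (R : RZ ι D) {p : ℕ}
    (hp : R.B (0, D.c) (0, D.c) + finrank (ZMod 2) Z = (p : ZMod 2)) {F : ℕ → ℝ} {c ε : ℝ} {k₀ : ℕ}
    (hk : ∀ t s : ℕ, 4 * s + k₀ ≤ t → |gg F (2 * t) (2 * s + p % 2) - c| ≤ ε) (S : Finset ι) {t : ℕ}
    (ht : 4 * (S.card + finrank (ZMod 2) Z) + k₀ ≤ t) (a : Arr ι τ) :
    |EZ R F S (2 * t) a - c| ≤ ε := by
  have h1 : EZ R F S (2 * t) a - c =
      av fun x : ι → ZMod 2 => gg F (2 * t) (rho (fz R a x) (SZ S)) - c := by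
    rw [av_sub, av_const]
    rfl
  rw [h1]
  refine (abs_av_le (g := fun _ => ε) fun x => ?_).trans (le_of_eq (av_const ε))
  have hs := rho_modZ h2t R hp a x S
  have h2 := rho_leZ R a x S
  have h3 : rho (fz R a x) (SZ S) = 2 * (rho (fz R a x) (SZ S) / 2) + p % 2 := by
    omega
  rw [h3]
  exact hk t _ (by omega)

/-- **the random model** -/
theorem modelZ (h2t : ∀ u : W, u ≠ 0 → ∃ s, om u (D.t s) ≠ 0) {p : ℕ} {F : ℕ → ℝ} {c : ℝ}
    (h0 : ∀ r, 0 ≤ F r) (h1 : ∀ r, F r ≤ 1) (hc : Cvp (p % 2) F c) {ε : ℝ} (hε : 0 < ε) :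
    ∃ K : ℕ, ∀ (ι : Type) [Fintype ι] (R : RZ ι D) (S : Finset ι) (l : List ι),
      R.B (0, D.c) (0, D.c) + finrank (ZMod 2) Z = (p : ZMod 2) → HI R (S \ l.toFinset) →
      l.Nodup → (∀ j ∈ l, j ∈ S) → 254 * (S.card - l.length) + K ≤ l.length →
      ∀ a : Arr ι τ, |MM l (EZ R F S 0) a - c| ≤ ε := by
  obtain ⟨k₀, hk⟩ := hc (ε / 2) (by positivity)
  have h3 : Tendsto (fun K : ℕ => ((CX : ℝ) * Fintype.card Z ^ 2 * 16) * (15 / 16) ^ K)
      atTop (𝓝 0) := by
    have := (tendsto_pow_atTop_nhds_zero_of_lt_one (r := (15 / 16 : ℝ)) (by norm_num)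
      (by norm_num)).const_mul ((CX : ℝ) * Fintype.card Z ^ 2 * 16)
    rw [mul_zero] at this
    exact this
  obtain ⟨K₁, hK₁⟩ := (h3.eventually_le_const (show (0 : ℝ) < ε / 2 by positivity)).exists
  refine ⟨5 * K₁ + 4 * finrank (ZMod 2) Z + k₀, fun ι _ R S l hp hI hnd hS hlen a => ?_⟩
  set s := S.card - l.length with hs
  have hle : l.length ≤ S.card := by
    rw [← List.toFinset_card_of_nodup hnd]
    exact card_le_card fun i hi => hS i (List.mem_toFinset.1 hi)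
  set r₀ := 50 * s + K₁ with hr₀
  set t := l.length - r₀ with ht
  set l₁ := l.take t with hl₁
  set l₂ := l.drop t with hl₂
  have hl : l₁ ++ l₂ = l := List.take_append_drop t l
  have hlen₁ : l₁.length = t := by rw [hl₁, List.length_take]; omega
  have hlen₂ : l₂.length = r₀ := by rw [hl₂, List.length_drop]; omega
  have e1 := chainZ (D := D) h2t R h0 h1 l₂ a l₁ S 0 (by rw [hl]; exact hnd) (by rw [hl]; exact hS)
    (by rw [hl]; exact hI)
  rw [hl, zero_add, hlen₁, hlen₂] at e1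
  have hcard : (S \ l₁.toFinset).card = s + r₀ := by
    have h4 : l₁.toFinset ⊆ S := fun i hi => hS i (by
      rw [← hl]
      exact List.mem_append_left _ (List.mem_toFinset.1 hi))
    have h5 : l₁.Nodup := by
      rw [← hl] at hnd
      exact hnd.of_append_left
    rw [card_sdiff_of_subset h4, List.toFinset_card_of_nodup h5, hlen₁]
    omega
  have e2 : |MM l₂ (EZ R F (S \ l₁.toFinset) (2 * t)) a - c| ≤ ε / 2 := by
    have h6 := MM_abs l₂ (Φ := EZ R F (S \ l₁.toFinset) (2 * t)) (Ψ := fun _ => c)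
      (Θ := fun _ => ε / 2) (fun b => EZ_lim h2t R hp hk _ (by rw [hcard]; omega) b) a
    rw [MM_const, MM_const] at h6
    exact h6
  have e3 : (CX : ℝ) * Fintype.card Z ^ 2 * 16 ^ s * ∑ u ∈ Ico r₀ l.length, (15 / 16 : ℝ) ^ u ≤
      ε / 2 := by
    refine le_trans ?_ hK₁
    have h6 := geo_le r₀ l.length
    have h7 : (16 : ℝ) ^ s * (15 / 16) ^ (50 * s) ≤ 1 := by
      rw [pow_mul, ← mul_pow]
      exact pow_le_one₀ (by norm_num) pow50
    have h8 : (0 : ℝ) ≤ CX * Fintype.card Z ^ 2 := by positivity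
    calc (CX : ℝ) * Fintype.card Z ^ 2 * 16 ^ s * ∑ u ∈ Ico r₀ l.length, (15 / 16 : ℝ) ^ u ≤
        CX * Fintype.card Z ^ 2 * 16 ^ s * (16 * (15 / 16) ^ r₀) :=
          mul_le_mul_of_nonneg_left h6 (by positivity)
      _ = CX * Fintype.card Z ^ 2 * 16 * (15 / 16) ^ K₁ * (16 ^ s * (15 / 16) ^ (50 * s)) := by
          rw [hr₀, pow_add]; ring
      _ ≤ CX * Fintype.card Z ^ 2 * 16 * (15 / 16) ^ K₁ * 1 :=
          mul_le_mul_of_nonneg_left h7 (by positivity)
      _ = _ := mul_one _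
  have e4 : MM l (EZ R F S 0) a - c =
      (MM l (EZ R F S 0) a - MM l₂ (EZ R F (S \ l₁.toFinset) (2 * t)) a) +
      (MM l₂ (EZ R F (S \ l₁.toFinset) (2 * t)) a - c) := by ring
  rw [e4]
  refine (abs_add_le _ _).trans ?_
  have e5 := e1.trans e3
  linarith

end

end Pool.Agent.V8H26.YG
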