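import Pool.Agent.V8H26.YG.Crd

/-!
# The law of the 2-Selmer groups in a class, for the twists with bad prime factors
-/

set_option autoImplicit false
set_option linter.all false

open Polynomial IsDedekindDomain WeierstrassCurve WeierstrassCurve.Affine Filter Topology
open scoped Classical

namespace Pool.Agent.V8H26.YG

open Pool.Agent.TH115.GD Pool.Agent.H341R2.Sharp Finset Pool.Agent.Y164.PS Pool.Agent.V8H26.XA
open Pool.Agent.V8H26.XL (Arr arr dm F2s F2c kr mem_kr rho rho_congr)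
open Pool.Agent.V8H26.YL (P1E P2E gclE clE clA dA clA_iff be be_mem be_even cnt_law Cvp_Fe)

theorem SZ_univ {ι Z : Type} [Fintype ι] [AddCommGroup Z] [Module (ZMod 2) Z] :
    SZ (Z := Z) (univ : Finset ι) = ⊤ := by
  rw [eq_top_iff]
  intro w _ i hi
  exact absurd (mem_univ i) hi

section
variable {k : Type} [Field k] [Fintype k] [DecidableEq k]
variable {a b : k[X]} {N : ℕ} (H : Hyp a b N) (m ep : Tau a b → F2)
variable {ι : Type} [Fintype ι]

theorem rho_par_o (h2t : ∀ u : W, u ≠ 0 → ∃ s, om u ((datum H).t s) ≠ 0) (d : ι → F2)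
    (a' : Arr ι (Tau a b)) :
    rho (fz (Ro (dT H) m ep d) a' 0) ⊤ % 2 = spz m ep % 2 := by
  rw [← SZ_univ]
  exact rho_modZ h2t (Ro (dT H) m ep d) (par_o (dT H) m ep d) a' 0 univ

theorem rho_par_e (h2t : ∀ u : W, u ≠ 0 → ∃ s, om u ((datum H).t s) ≠ 0) (d : ι → F2)
    (a' : Arr ι (Tau a b)) :
    rho (fz (Re (dT H) m ep d) a' 0) ⊤ % 2 = spz m ep % 2 := by
  rw [← SZ_univ]
  exact rho_modZ h2t (Re (dT H) m ep d) (par_e (dT H) m ep d) a' 0 univ

theorem hcl_of {T : ι → k[X]} (h : clE (dA (epc m ep)) (QQ a b) T) :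
    ∀ s, ∑ i, BT (QQ a b) T i s = ep s + gg' (dT H) m s :=
  (clA_epc H m ep (arr H.hm (QQ a b) T)).1 h

end

section
variable {k : Type} [Field k] [Fintype k] [DecidableEq k] (K : Type) [Field K] [Algebra k[X] K]
  [IsFractionRing k[X] K]
variable {a b : k[X]} {N : ℕ} (H : Hyp a b N) (m ep : Tau a b → F2)
variable {ι : Type} [Fintype ι]

/-- the order of the Selmer group of a tuple, if the reduction at infinity is additive -/
theorem so_o (h2t : ∀ u : W, u ≠ 0 → ∃ s, om u ((datum H).t s) ≠ 0) {T : ι → k[X]}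
    (hR : Fam (RR a b T)) (hcl : clE (dA (epc m ep)) (QQ a b) T) (j : ι)
    (hN : ∑ i, ((T i).natDegree : F2) + (N : F2) = 1 + ∑ s, m s * (dT H).e s) :
    so k K a b (gm m * ∏ i, T i) = 2 ^ (rG H.hm (Ψo H m ep) T + 2) ∧
      rG H.hm (Ψo H m ep) T % 2 = spz m ep % 2 ∧
      (so k K a b (gm m * ∏ i, T i) = 4 ↔
        Finite (Pt (crv (algebraMap k[X] K (a * (gm m * ∏ i, T i)))
          (algebraMap k[X] K (b * (gm m * ∏ i, T i)))) K) ∧
        ShaTwo k (crv (algebraMap k[X] K (a * (gm m * ∏ i, T i)))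
          (algebraMap k[X] K (b * (gm m * ∏ i, T i))))) := by
  have hcl' := hcl_of H m ep hcl
  have hN1 : ∑ i, dm T i + (N : F2) + ∑ s, m s * ((QQ a b s).natDegree : F2) = 1 := by
    have h1 : ∑ i, dm T i + (N : F2) = 1 + ∑ s, m s * ((QQ a b s).natDegree : F2) := hN
    rw [h1, add_assoc, F2s, add_zero]
  have hN2 : ∑ i, dm T i + (dT H).N + ∑ s, m s * (dT H).e s = 1 := hN1
  obtain ⟨h1, h3⟩ := case_o (K := K) H m ep hR hcl' j hN1
  have h4 := rho_o (dT H) m ep (dm T) (a := arr H.hm (QQ a b) T) hcl' hN2 j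
  have h5 := rho_par_o H m ep h2t (dm T) (arr H.hm (QQ a b) T)
  have h6 : rG H.hm (Ψo H m ep) T = rho (fz (Ro (dT H) m ep (dm T)) (arr H.hm (QQ a b) T) 0) ⊤ - 2 :=
    rfl
  have h7 : rG H.hm (Ψo H m ep) T + 2 =
      rho (fz (Ro (dT H) m ep (dm T)) (arr H.hm (QQ a b) T) 0) ⊤ := by omega
  refine ⟨?_, by omega, h3⟩
  rw [h7]
  exact h1

/-- the order of the Selmer group of a tuple, if the reduction at infinity is good -/
theorem so_e (h2t : ∀ u : W, u ≠ 0 → ∃ s, om u ((datum H).t s) ≠ 0) {T : ι → k[X]}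
    (hR : Fam (RR a b T)) (hcl : clE (dA (epc m ep)) (QQ a b) T) (j : ι)
    (hN : ∑ i, ((T i).natDegree : F2) + (N : F2) = ∑ s, m s * (dT H).e s) :
    so k K a b (gm m * ∏ i, T i) = 2 ^ (rG H.hm (Ψe H m ep) T + 2) ∧
      rG H.hm (Ψe H m ep) T % 2 = spz m ep % 2 ∧
      (so k K a b (gm m * ∏ i, T i) = 4 ↔
        Finite (Pt (crv (algebraMap k[X] K (a * (gm m * ∏ i, T i)))
          (algebraMap k[X] K (b * (gm m * ∏ i, T i)))) K) ∧
        ShaTwo k (crv (algebraMap k[X] K (a * (gm m * ∏ i, T i)))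
          (algebraMap k[X] K (b * (gm m * ∏ i, T i))))) := by
  have hcl' := hcl_of H m ep hcl
  have hN1 : ∑ i, dm T i + (N : F2) + ∑ s, m s * ((QQ a b s).natDegree : F2) = 0 := by
    have h1 : ∑ i, dm T i + (N : F2) = ∑ s, m s * ((QQ a b s).natDegree : F2) := hN
    rw [h1, F2s]
  have hN2 : ∑ i, dm T i + (dT H).N + ∑ s, m s * (dT H).e s = 0 := hN1
  obtain ⟨h1, h3⟩ := case_e (K := K) H m ep hR hcl' j hN1
  have h4 := rho_e (dT H) m ep (dm T) (a := arr H.hm (QQ a b) T) hcl' hN2 j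
  have h5 := rho_par_e H m ep h2t (dm T) (arr H.hm (QQ a b) T)
  have h6 : rG H.hm (Ψe H m ep) T = rho (fz (Re (dT H) m ep (dm T)) (arr H.hm (QQ a b) T) 0) ⊤ - 2 :=
    rfl
  have h7 : rG H.hm (Ψe H m ep) T + 2 =
      rho (fz (Re (dT H) m ep (dm T)) (arr H.hm (QQ a b) T) 0) ⊤ := by omega
  refine ⟨?_, by omega, h3⟩
  rw [h7]
  exact h1

include H in
/-- the statement for one polynomial in a class -/
theorem one_clsG (h2t : ∀ u : W, u ≠ 0 → ∃ s, om u ((datum H).t s) ≠ 0) {n : ℕ} (hn : 1 ≤ n)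
    {D : k[X]} (hSf : D ∈ Sf k n) (hP1 : P1E a b (epc m ep) D) :
    (∃ r : ℕ, r % 2 = spz m ep % 2 ∧ so k K a b (gm m * D) = 2 ^ (r + 2)) ∧
      (so k K a b (gm m * D) = 4 ↔
        Finite (Pt (crv (algebraMap k[X] K (a * (gm m * D))) (algebraMap k[X] K (b * (gm m * D)))) K) ∧
        ShaTwo k (crv (algebraMap k[X] K (a * (gm m * D))) (algebraMap k[X] K (b * (gm m * D))))) := by
  obtain ⟨m1, m2, m3⟩ := mem_Sf.1 hSf
  have hmp := fun P => (mem_pf (P := P) m1.ne_zero)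
  have hTp : (fun i : pf D => (i : k[X])) ∈ Tp k (pf D) n := by
    rw [mem_Tp]
    refine ⟨fun i => ?_, ?_⟩
    · have := (hmp i.1).1 i.2
      exact ⟨this.1, this.2.1⟩
    · rw [Finset.sum_coe_sort (pf D) (fun P : k[X] => P.natDegree)]
      exact deg_pf hSf
  have hprod : ∏ i : pf D, (i : k[X]) = D := by
    rw [Finset.prod_coe_sort (pf D) (fun P : k[X] => P)]
    exact prod_pf hSf
  have hnb : nb a b (∏ i : pf D, (i : k[X])) := by rw [hprod]; exact hP1.1
  have hok : ok (QQ a b) (fun i : pf D => (i : k[X])) :=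
    (ok_iff H hTp).2 ⟨Subtype.val_injective, hnb⟩
  have hcl : clE (dA (epc m ep)) (QQ a b) (fun i : pf D => (i : k[X])) :=
    (clA_iff H (epc m ep) hTp hnb).2 (by rw [hprod]; exact hP1.2)
  have h7 := (mem_Tp.1 hTp)
  have hR : Fam (Sum.elim (fun i : pf D => (i : k[X])) (QQ a b)) := by
    refine ⟨?_, ?_, hok⟩
    · rintro (i | s)
      · exact (h7.1 i).1
      · exact H.fam.mon s
    · rintro (i | s)
      · exact (h7.1 i).2
      · exact H.fam.irr s
  obtain ⟨j⟩ : Nonempty (pf D) := by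
    by_contra h
    rw [not_nonempty_iff] at h
    have h11 := h7.2
    rw [Finset.univ_eq_empty, Finset.sum_empty] at h11
    omega
  have hcase : ∑ i : pf D, (((i : k[X]).natDegree : F2)) + (N : F2) = 1 + ∑ s, m s * (dT H).e s ∨
      ∑ i : pf D, (((i : k[X]).natDegree : F2)) + (N : F2) = ∑ s, m s * (dT H).e s := by
    have key : ∀ x y : F2, x = 1 + y ∨ x = y := by decide
    exact key _ _
  rcases hcase with h | h
  · obtain ⟨k1, k2, k3⟩ := so_o K H m ep h2t hR hcl j h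
    rw [hprod] at k1 k3
    exact ⟨⟨_, k2, k1⟩, k3⟩
  · obtain ⟨k1, k2, k3⟩ := so_e K H m ep h2t hR hcl j h
    rw [hprod] at k1 k3
    exact ⟨⟨_, k2, k1⟩, k3⟩

include H in
/-- the law in a class, for one parity -/
theorem law_par (ν : F2) (Ψ : RkF (Tau a b)) {r : ℕ} (hr : r % 2 = spz m ep % 2)
    (hmain : (∃ c : ℝ, 0 < c ∧ ∀ᶠ n : ℕ in atTop, (n : F2) + (N : F2) = ν →
      c * (Fintype.card k : ℝ) ^ n ≤ (((Sf k n).filter (P1E a b (epc m ep))).card : ℝ)) ∧
    ∀ (r : ℕ) (G : k[X] → Prop) (α : ℝ), 0 ≤ α → α ≤ 1 →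
      Pool.Agent.V8H26.YL.Cvp (spz m ep % 2) (Pool.Agent.V8H26.XL.Fe r) α →
      (Im1 H (epc m ep) ν Ψ r G → ∀ ε : ℝ, 0 < ε → ∀ᶠ n : ℕ in atTop, (n : F2) + (N : F2) = ν →
        (α - ε) * (((Sf k n).filter (P1E a b (epc m ep))).card : ℝ) ≤
          (((Sf k n).filter (P2E G a b (epc m ep))).card : ℝ)) ∧
      (Im2 H (epc m ep) ν Ψ r G → ∀ ε : ℝ, 0 < ε → ∀ᶠ n : ℕ in atTop, (n : F2) + (N : F2) = ν →
        (((Sf k n).filter (P2E G a b (epc m ep))).card : ℝ) ≤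
          (α + ε) * (((Sf k n).filter (P1E a b (epc m ep))).card : ℝ)))
    (hso : ∀ (ι : Type) [Fintype ι] (T : ι → k[X]), Fam (Sum.elim T (QQ a b)) →
      clE (dA (epc m ep)) (QQ a b) T → ∑ i, ((T i).natDegree : F2) + (N : F2) = ν →
      Pool.Agent.V8H26.YM.oddT T → so k K a b (gm m * ∏ i, T i) = 2 ^ (rG H.hm Ψ T + 2)) :
    Tendsto (fun n : ℕ => (((Sf k n).filter
      (P2E (fun D => so k K a b (gm m * D) = 2 ^ (r + 2)) a b (epc m ep))).card
      : ℝ) / (((Sf k n).filter (P1E a b (epc m ep))).card : ℝ))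
      (atTop ⊓ 𝓟 {n | (n : F2) + (N : F2) = ν}) (𝓝 (be r)) := by
  have i1 : Im1 H (epc m ep) ν Ψ r (fun D => so k K a b (gm m * D) = 2 ^ (r + 2)) := by
    intro ι _ T hR hcl hN hodd hT
    show so k K a b (gm m * ∏ i, T i) = _
    rw [hso ι T hR hcl hN hodd, hT]
  have i2 : Im2 H (epc m ep) ν Ψ r (fun D => so k K a b (gm m * D) = 2 ^ (r + 2)) := by
    intro ι _ T hR hcl hN hodd hT
    have h3 : so k K a b (gm m * ∏ i, T i) = _ := hT
    rw [hso ι T hR hcl hN hodd] at h3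
    have h4 := Nat.pow_right_injective (le_refl 2) h3
    have h6 : rG H.hm Ψ T + 2 = r + 2 := h4
    omega
  obtain ⟨m1, m2⟩ := hmain.2 r (fun D => so k K a b (gm m * D) = 2 ^ (r + 2)) (be r) (be_mem r).1
    (be_mem r).2 (by
      rw [← hr]
      exact Cvp_Fe r)
  obtain ⟨c, hc, hpos⟩ := hmain.1
  rw [Metric.tendsto_nhds]
  intro ε hε
  have hε' : 0 < ε / 2 := half_pos hε
  rw [eventually_inf_principal]
  filter_upwards [m1 i1 _ hε', m2 i2 _ hε', hpos] with n h1 h3 h4 ho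
  have h5 : (0 : ℝ) < (((Sf k n).filter (P1E a b (epc m ep))).card : ℝ) := by
    refine lt_of_lt_of_le ?_ (h4 ho)
    have : (0 : ℝ) < Fintype.card k := by exact_mod_cast Fintype.card_pos
    positivity
  rw [Real.dist_eq]
  have h6 := h1 ho
  have h7 := h3 ho
  have h8 : |(((Sf k n).filter (P2E (fun D => so k K a b (gm m * D) = 2 ^ (r + 2)) a b
      (epc m ep))).card : ℝ) /
      (((Sf k n).filter (P1E a b (epc m ep))).card : ℝ) - be r| ≤ ε / 2 := by
    rw [abs_le]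
    constructor
    · have := (le_div_iff₀ h5).2 h6
      linarith
    · have := (div_le_iff₀ h5).2 h7
      linarith
  exact h8.trans_lt (half_lt_self hε)

include H in
/-- **the law in a class** -/
theorem law_clsG (hq : 4 ≤ Fintype.card k)
    (h2t : ∀ u : W, u ≠ 0 → ∃ s, om u ((datum H).t s) ≠ 0) {r : ℕ} (hr : r % 2 = spz m ep % 2) :
    Tendsto (fun n : ℕ => (((Sf k n).filter
      (P2E (fun D => so k K a b (gm m * D) = 2 ^ (r + 2)) a b (epc m ep))).card
      : ℝ) / (((Sf k n).filter (P1E a b (epc m ep))).card : ℝ)) atTop (𝓝 (be r)) := by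
  have h1 := law_par K H m ep (1 + ∑ s, m s * (dT H).e s) (Ψo H m ep) hr
    (main_lawG H (epc m ep) (1 + ∑ s, m s * (dT H).e s) (Ψo H m ep) (spz m ep) hq
      fun F c h0 h1 hc => md_o H m ep h2t F c h0 h1 hc)
    (fun ι _ T hR hcl hN hodd => by
      obtain ⟨j, -⟩ := hodd
      exact (so_o K H m ep h2t hR hcl j hN).1)
  have h0 := law_par K H m ep (∑ s, m s * (dT H).e s) (Ψe H m ep) hr
    (main_lawG H (epc m ep) (∑ s, m s * (dT H).e s) (Ψe H m ep) (spz m ep) hq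
      fun F c h0 h1 hc => md_e H m ep h2t F c h0 h1 hc)
    (fun ι _ T hR hcl hN hodd => by
      obtain ⟨j, -⟩ := hodd
      exact (so_e K H m ep h2t hR hcl j hN).1)
  have h2 := h1.sup h0
  have h3 : (atTop ⊓ 𝓟 {n : ℕ | (n : F2) + (N : F2) = 1 + ∑ s, m s * (dT H).e s}) ⊔
      (atTop ⊓ 𝓟 {n : ℕ | (n : F2) + (N : F2) = ∑ s, m s * (dT H).e s}) = (atTop : Filter ℕ) := by
    rw [← inf_sup_left, sup_principal]
    have h4 : {n : ℕ | (n : F2) + (N : F2) = 1 + ∑ s, m s * (dT H).e s} ∪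
        {n : ℕ | (n : F2) + (N : F2) = ∑ s, m s * (dT H).e s} = Set.univ := by
      ext n
      simp only [Set.mem_union, Set.mem_setOf_eq, Set.mem_univ, iff_true]
      have key : ∀ x y : F2, x = 1 + y ∨ x = y := by decide
      exact key _ _
    rw [h4, principal_univ, inf_top_eq]
  rwa [h3] at h2

end

end Pool.Agent.V8H26.YG
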