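import Pool.Agent.V8H26.YG.Sel

/-!
# The order of the 2-Selmer group of the twists with bad prime factors
-/

set_option autoImplicit false
set_option linter.all false

open Polynomial IsDedekindDomain WeierstrassCurve WeierstrassCurve.Affine
open scoped Classical

namespace Pool.Agent.V8H26.YG

open Pool.Agent.TH115.GD Pool.Agent.H341R2.Sharp Finset Pool.Agent.Y164.PS Pool.Agent.V8H26.XA
open Pool.Agent.V8H26.XL (Arr arr dm F2s F2c kr mem_kr rho)
open Pool.Agent.V8H26.YA (split_pl locSol_congr el_even)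
open Pool.Agent.V8H26.YB (rr rr_ne ch_rr sq_lc sqEq_inf good_inf par_inf)

section
variable {k K : Type} [Field k] [Fintype k] [DecidableEq k] [Field K] [Algebra k[X] K]
  [IsFractionRing k[X] K]
variable {a b : k[X]} {N : ℕ} (H : Hyp a b N) (m ep : Tau a b → F2)
variable {ι : Type} [Fintype ι] {P : ι → k[X]} (hR : Fam (RR a b P))
variable (hcl : ∀ s, ∑ i, BT (QQ a b) P i s = ep s + gg' (dT H) m s)

/-- the conditions of a solution, with a condition at infinity -/
def SI (P : ι → k[X]) (IN : UU ι (Tau a b) × W → Prop) (p : UU ι (Tau a b) × W) : Prop :=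
  SolG (dT H) m ep (dm P) (arr H.hm (QQ a b) P) p.1 p.2 ∧ IN p

variable {IN : UU ι (Tau a b) × W → Prop}
  (nec : ∀ (p : UU ι (Tau a b) × W) (x y : K), SolG (dT H) m ep (dm P) (arr H.hm (QQ a b) P) p.1 p.2 →
    SqEq x (algebraMap k[X] K (g0 H P p)) → SqEq y (algebraMap k[X] K (g1 H P p)) →
    LSg (F := K) k (crv (am K m a P) (am K m b P)) (am K m a P) (am K m b P) x y → IN p)
  (suf : ∀ p : UU ι (Tau a b) × W, SI H m ep P IN p →
    LocSol (F := K) (crv (am K m a P) (am K m b P)) (am K m a P) (am K m b P) (CompInf k K)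
      (algebraMap k[X] K (g0 H P p)) (algebraMap k[X] K (g1 H P p)))

include H hR hcl nec in
/-- a locally soluble pair comes from a solution -/
theorem sel_ptG {x y : K} (hx : x ≠ 0) (hy : y ≠ 0)
    (hls : LSg (F := K) k (crv (am K m a P) (am K m b P)) (am K m a P) (am K m b P) x y) :
    ∃ p, SI H m ep P IN p ∧ SqEq x (algebraMap k[X] K (g0 H P p)) ∧
      SqEq y (algebraMap k[X] K (g1 H P p)) := by
  obtain ⟨r0, r1, n0, n1, c0', c1', w, hr0, hr1, hc0, hc1, e0, e1, hexp, hsol⟩ :=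
    sel_vecG H m ep hR hcl hx hy hls
  set p : UU ι (Tau a b) × W := (w, (ch r0, ch r1)) with hp
  have s0 : SqEq x (algebraMap k[X] K (g0 H P p)) :=
    SqEq.trans ⟨c0', hc0, e0⟩ (glob_el hR hr0 (rr_ne H.hk _) _ _
      (fun x => congrArg Prod.fst (hexp x)) (ch_rr H.hk _).symm)
  have s1 : SqEq y (algebraMap k[X] K (g1 H P p)) :=
    SqEq.trans ⟨c1', hc1, e1⟩ (glob_el hR hr1 (rr_ne H.hk _) _ _
      (fun x => congrArg Prod.snd (hexp x)) (ch_rr H.hk _).symm)
  exact ⟨p, ⟨hsol, nec p x y hsol s0 s1 hls⟩, s0, s1⟩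

include H hR hcl suf in
theorem ls_SI {p : UU ι (Tau a b) × W} (hp : SI H m ep P IN p) :
    LSg (F := K) k (crv (am K m a P) (am K m b P)) (am K m a P) (am K m b P)
      (algebraMap k[X] K (g0 H P p)) (algebraMap k[X] K (g1 H P p)) := by
  refine ls_sol (K := K) H m ep hR hcl (rr_ne H.hk _) (rr_ne H.hk _) ?_ (suf p hp)
  rw [ch_g H p]
  exact hp.1

include H hR hcl nec suf in
/-- **the order of the 2-Selmer group** -/
theorem sel_cardG : (Sl k (am K m a P) (am K m b P)).ncard = Nat.card {p // SI H m ep P IN p} := by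
  let Ψ : {p // SI H m ep P IN p} → MS K × MS K := fun p =>
    ((un K (g_ne H hR p.1).1 : MS K), (un K (g_ne H hR p.1).2 : MS K))
  have hinj : Function.Injective Ψ := by
    rintro ⟨p, hp⟩ ⟨p', hp'⟩ h
    have s0 := (ms_eq _ _).1 (congrArg Prod.fst h)
    have s1 := (ms_eq _ _).1 (congrArg Prod.snd h)
    have s0' : SqEq (algebraMap k[X] K (g0 H P p)) (algebraMap k[X] K (g0 H P p')) := s0
    have s1' : SqEq (algebraMap k[X] K (g1 H P p)) (algebraMap k[X] K (g1 H P p')) := s1
    obtain ⟨k0, c0⟩ := el_inj H.hk hR (rr_ne H.hk _) (rr_ne H.hk _) _ _ s0'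
    obtain ⟨k1, c1⟩ := el_inj H.hk hR (rr_ne H.hk _) (rr_ne H.hk _) _ _ s1'
    rw [ch_rr, ch_rr] at c0 c1
    have hv : p.1 = p'.1 := by
      refine Prod.ext (funext fun i => ?_) (funext fun s => ?_)
      · rw [← ne_inl, ← ne_inl p'.1, k0, k1]
      · rw [← ne_inr, ← ne_inr p'.1, k0, k1]
    exact Subtype.ext (Prod.ext hv (Prod.ext c0 c1))
  have hrange : Sl k (am K m a P) (am K m b P) = Set.range Ψ := by
    ext c
    constructor
    · rintro ⟨x, y, rfl, hls⟩
      obtain ⟨p, hp, s0, s1⟩ := sel_ptG H m ep hR hcl nec x.ne_zero y.ne_zero hls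
      exact ⟨⟨p, hp⟩, Prod.ext ((ms_eq _ _).2 s0).symm ((ms_eq _ _).2 s1).symm⟩
    · rintro ⟨⟨p, hp⟩, rfl⟩
      exact ⟨_, _, rfl, ls_SI (K := K) H m ep hR hcl suf hp⟩
  rw [hrange, ← Nat.card_coe_set_eq, Nat.card_range_of_injective hinj]

variable (hT : ∀ y : W, IN (Th (dT H) m y, ks (datum H).l y))

include hcl hT in
theorem SI_T (y : W) : SI H m ep P IN (Th (dT H) m y, ks (datum H).l y) :=
  ⟨sol_Th (dT H) m ep (dm P) hcl y, hT y⟩

include hcl hT in
/-- the points of order two give four solutions -/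
theorem four_le (j : ι) : 4 ≤ Nat.card {p // SI H m ep P IN p} := by
  have hinj : Function.Injective (fun y : W =>
      (⟨_, SI_T H m ep hcl hT y⟩ : {p // SI H m ep P IN p})) := by
    intro y y' h
    have h1 := congrArg Subtype.val h
    exact congrFun (congrArg (fun p : UU ι (Tau a b) × W => p.1.1) h1) j
  have h2 := Nat.card_le_card_of_injective _ hinj
  rwa [Nat.card_eq_fintype_card (α := W)] at h2

include hcl hT in
theorem T_surj (j : ι) (h4 : Nat.card {p // SI H m ep P IN p} = 4) {p : UU ι (Tau a b) × W}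
    (hp : SI H m ep P IN p) : ∃ y : W, p = (Th (dT H) m y, ks (datum H).l y) := by
  have hinj : Function.Injective (fun y : W =>
      (⟨_, SI_T H m ep hcl hT y⟩ : {p // SI H m ep P IN p})) := by
    intro y y' h
    have h1 := congrArg Subtype.val h
    exact congrFun (congrArg (fun p : UU ι (Tau a b) × W => p.1.1) h1) j
  have hc : Nat.card W = Nat.card {p // SI H m ep P IN p} := by
    rw [h4, Nat.card_eq_fintype_card]
    rfl
  have hbij := (Nat.bijective_iff_injective_and_card _).2 ⟨hinj, hc⟩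
  obtain ⟨y, hy⟩ := hbij.2 ⟨p, hp⟩
  exact ⟨y, (congrArg Subtype.val hy).symm⟩

include H hR hcl nec hT in
/-- with four solutions every locally soluble pair is the pair of a point of order two -/
theorem sel_mainG (j : ι) (h4 : Nat.card {p // SI H m ep P IN p} = 4) {a0 a1 : K}
    (ha0 : a0 ≠ 0) (ha1 : a1 ≠ 0)
    (hls : LSg (F := K) k (crv (am K m a P) (am K m b P)) (am K m a P) (am K m b P) a0 a1) :
    ∃ T : Pt (crv (am K m a P) (am K m b P)) K, T + T = 0 ∧
      SqEq a0 (d0 (am K m a P) (am K m b P) T) ∧ SqEq a1 (d1 (am K m a P) (am K m b P) T) := by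
  obtain ⟨p, hp, s0, s1⟩ := sel_ptG H m ep hR hcl nec ha0 ha1 hls
  obtain ⟨y, hy⟩ := T_surj H m ep hcl hT j h4 hp
  obtain ⟨T, hT', e0, e1⟩ := tor_Tm (K := K) H m hR y
  have hn : ∀ x : ι ⊕ Tau a b, (((ne0 p.1 x : F2), (ne1 p.1 x : F2)) : W) =
      ((nq0 m ι y x : F2), (nq1 m ι y x : F2)) := by
    rw [hy]
    rintro (i | s)
    · rw [ne_inl, nq_inl]
      rfl
    · rw [ne_inr, nq_inr H]
      rfl
  have hch : ((ch (rr (k := k) H.hk p.2.1), ch (rr (k := k) H.hk p.2.2)) : W) =
      (ch (rp0 a b y), ch (rp1 a b y)) := by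
    rw [ch_g H p, rp_ch H, hy]
  refine ⟨T, hT', ?_, ?_⟩
  · rw [e0]
    exact s0.trans (glob_el hR (rr_ne H.hk _) (rp_ne H y).1 _ _
      (fun x => congrArg Prod.fst (hn x)) (congrArg Prod.fst hch))
  · rw [e1]
    exact s1.trans (glob_el hR (rr_ne H.hk _) (rp_ne H y).2 _ _
      (fun x => congrArg Prod.snd (hn x)) (congrArg Prod.snd hch))

include H hR hcl nec hT in
theorem good_of_trivG (j : ι) (h4 : Nat.card {p // SI H m ep P IN p} = 4) :
    ShaTwo k (crv (am K m a P) (am K m b P)) ∧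
      ∀ Q : Pt (crv (am K m a P) (am K m b P)) K, ∃ R T : Pt (crv (am K m a P) (am K m b P)) K,
        T + T = 0 ∧ Q = R + R + T := by
  have h2 := two_ne H
  have h2K : (2 : K) ≠ 0 := tt h2
  obtain ⟨haK, hbK, habK⟩ := ne_tm (K := K) H m hR
  constructor
  · apply sha_of_points h2K haK hbK habK
    intro a0 a1 n0 n1 hls
    obtain ⟨T, -, q0, q1⟩ := sel_mainG H m ep hR hcl nec hT j h4 n0 n1 hls
    exact ⟨T, q0, q1⟩
  · intro Q
    have hE := isE (am K m a P) (am K m b P) K h2K haK hbK habK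
    obtain ⟨T, hTT, q0, q1⟩ := sel_mainG H m ep hR hcl nec hT j h4 (d0_ne hE Q) (d1_ne hE Q)
      (ls_of_point (k := k) h2K haK hbK habK Q)
    obtain ⟨u0, u1, m0, m1, f0, f1⟩ := d_add (K := K) (F := K) (Ω := Sep K)
      (crv (am K m a P) (am K m b P)) (isE (am K m a P) (am K m b P) (Sep K) h2K haK hbK habK) Q T
    have s0 : SqEq (d0 (am K m a P) (am K m b P) (Q + T)) 1 := by
      refine SqEq.trans ⟨u0, m0, f0⟩ ?_
      have h3 := q0.mul (SqEq.refl (d0 (am K m a P) (am K m b P) T))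
      refine h3.trans ?_
      rw [← pow_two]
      exact SqEq.sq (d0_ne hE T)
    have s1 : SqEq (d1 (am K m a P) (am K m b P) (Q + T)) 1 := by
      refine SqEq.trans ⟨u1, m1, f1⟩ ?_
      have h3 := q1.mul (SqEq.refl (d1 (am K m a P) (am K m b P) T))
      refine h3.trans ?_
      rw [← pow_two]
      exact SqEq.sq (d1_ne hE T)
    obtain ⟨R, hRR⟩ := half_F h2K haK hbK habK (Q + T) s0 s1
    refine ⟨R, T, hTT, ?_⟩
    rw [hRR, add_assoc, hTT, add_zero]

include H hR hcl nec suf hT in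
/-- there are four solutions if and only if the group of points is finite and the
Tate-Shafarevich group has no 2-primary part -/
theorem four_iff (j : ι) : Nat.card {p // SI H m ep P IN p} = 4 ↔
      Finite (Pt (crv (am K m a P) (am K m b P)) K) ∧ ShaTwo k (crv (am K m a P) (am K m b P)) := by
  have h2 := two_ne H
  have h2K : (2 : K) ≠ 0 := tt h2
  obtain ⟨haK, hbK, habK⟩ := ne_tm (K := K) H m hR
  obtain ⟨t1, t2, t3⟩ := tm_ne H m hR
  constructor
  · intro h
    obtain ⟨g1, g2⟩ := good_of_trivG (K := K) H m ep hR hcl nec hT j h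
    exact ⟨fin_points h2 t1 t2 t3 g2, g1⟩
  · rintro ⟨h, h'⟩
    have h3 := sl_le (k := k) h2K haK hbK habK h h'
    rw [sel_cardG H m ep hR hcl nec suf] at h3
    have h5 := four_le H m ep hcl hT j
    omega

end

/-! ### The two cases -/

section
variable {k K : Type} [Field k] [Fintype k] [DecidableEq k] [Field K] [Algebra k[X] K]
  [IsFractionRing k[X] K]
variable {a b : k[X]} {N : ℕ} (H : Hyp a b N) (m ep : Tau a b → F2)
variable {ι : Type} [Fintype ι] {P : ι → k[X]} (hR : Fam (RR a b P))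
variable (hcl : ∀ s, ∑ i, BT (QQ a b) P i s = ep s + gg' (dT H) m s)

include H hR hcl in
/-- the Selmer group and the group of points, if the reduction at infinity is additive -/
theorem case_o (j : ι)
    (hN : ∑ i, dm P i + (N : F2) + ∑ s, m s * ((QQ a b s).natDegree : F2) = 1) :
    (Sl k (am K m a P) (am K m b P)).ncard =
        2 ^ rho (fz (Ro (dT H) m ep (dm P)) (arr H.hm (QQ a b) P) 0) ⊤ ∧
      ((Sl k (am K m a P) (am K m b P)).ncard = 4 ↔
        Finite (Pt (crv (am K m a P) (am K m b P)) K) ∧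
          ShaTwo k (crv (am K m a P) (am K m b P))) := by
  have nec : ∀ (p : UU ι (Tau a b) × W) (x y : K),
      SolG (dT H) m ep (dm P) (arr H.hm (QQ a b) P) p.1 p.2 →
      SqEq x (algebraMap k[X] K (g0 H P p)) → SqEq y (algebraMap k[X] K (g1 H P p)) →
      LSg (F := K) k (crv (am K m a P) (am K m b P)) (am K m a P) (am K m b P) x y →
      (fun _ : UU ι (Tau a b) × W => True) p := fun _ _ _ _ _ _ _ => trivial
  have suf : ∀ p : UU ι (Tau a b) × W, SI H m ep P (fun _ => True) p →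
      LocSol (F := K) (crv (am K m a P) (am K m b P)) (am K m a P) (am K m b P) (CompInf k K)
        (algebraMap k[X] K (g0 H P p)) (algebraMap k[X] K (g1 H P p)) := fun p hp =>
    inf_o H m hR hN (sol_x0 (dT H) m ep (dm P) hcl hN hp.1)
  have hT : ∀ y : W, (fun _ : UU ι (Tau a b) × W => True) (Th (dT H) m y, ks (datum H).l y) :=
    fun _ => trivial
  have h1 := sel_cardG (K := K) H m ep hR hcl nec suf
  have h2 : Nat.card {p // SI H m ep P (fun _ => True) p} =
      Nat.card {p : UU ι (Tau a b) × W // SolG (dT H) m ep (dm P) (arr H.hm (QQ a b) P) p.1 p.2} :=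
    Nat.card_congr (Equiv.subtypeEquivRight fun p => Iff.of_eq (and_true _))
  have h3 := card_o (dT H) m ep (dm P) (a := arr H.hm (QQ a b) P) hcl hN
  refine ⟨by rw [h1, h2, h3], ?_⟩
  rw [h1]
  exact four_iff H m ep hR hcl nec suf hT j

include H hR hcl in
/-- the Selmer group and the group of points, if the reduction at infinity is good -/
theorem case_e (j : ι)
    (hN : ∑ i, dm P i + (N : F2) + ∑ s, m s * ((QQ a b s).natDegree : F2) = 0) :
    (Sl k (am K m a P) (am K m b P)).ncard =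
        2 ^ rho (fz (Re (dT H) m ep (dm P)) (arr H.hm (QQ a b) P) 0) ⊤ ∧
      ((Sl k (am K m a P) (am K m b P)).ncard = 4 ↔
        Finite (Pt (crv (am K m a P) (am K m b P)) K) ∧
          ShaTwo k (crv (am K m a P) (am K m b P))) := by
  have nec : ∀ (p : UU ι (Tau a b) × W) (x y : K),
      SolG (dT H) m ep (dm P) (arr H.hm (QQ a b) P) p.1 p.2 →
      SqEq x (algebraMap k[X] K (g0 H P p)) → SqEq y (algebraMap k[X] K (g1 H P p)) →
      LSg (F := K) k (crv (am K m a P) (am K m b P)) (am K m a P) (am K m b P) x y →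
      (fun p : UU ι (Tau a b) × W => dL (dT H) (dm P) p.1 = 0) p := fun p x y _ s0 s1 hls =>
    nec_e H m hR hN s0 s1 hls
  have suf : ∀ p : UU ι (Tau a b) × W,
      SI H m ep P (fun p : UU ι (Tau a b) × W => dL (dT H) (dm P) p.1 = 0) p →
      LocSol (F := K) (crv (am K m a P) (am K m b P)) (am K m a P) (am K m b P) (CompInf k K)
        (algebraMap k[X] K (g0 H P p)) (algebraMap k[X] K (g1 H P p)) := fun p hp =>
    inf_e H m hR hN hp.2
  have hN' : ∑ i, dm P i + (dT H).N + ∑ s, m s * (dT H).e s = 0 := hN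
  have hT : ∀ y : W, (fun p : UU ι (Tau a b) × W => dL (dT H) (dm P) p.1 = 0)
      (Th (dT H) m y, ks (datum H).l y) := fun y => by
    show dL (dT H) (dm P) (Th (dT H) m y) = 0
    rw [dL_Th, hN', zero_smul]
  have h1 := sel_cardG (K := K) H m ep hR hcl nec suf
  have h3 := card_e (dT H) m ep (dm P) (a := arr H.hm (QQ a b) P)
  refine ⟨by rw [h1]; exact h3, ?_⟩
  rw [h1]
  exact four_iff H m ep hR hcl nec suf hT j

end

end Pool.Agent.V8H26.YG
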