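import Pool.Agent.V8H26.YG.Frm
import Pool.Agent.V8H26.YG.Man
import Pool.Agent.V8H26.YA.Cla

/-!
# The data of the bad primes of the curve
-/

set_option autoImplicit false
set_option linter.all false

namespace Pool.Agent.V8H26.YG

open Finset Polynomial Pool.Agent.H341R2.Sharp UniqueFactorizationMonoid
open Pool.Agent.Y164.PS
open scoped Classical

variable {k : Type} [Field k] [Fintype k] [DecidableEq k]
variable {a b : k[X]} {N : ℕ} (H : Hyp a b N)

/-- the types of the bad primes -/
noncomputable def tyv (a b : k[X]) (s : Tau a b) : W :=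
  if QQ a b s ∣ a then (1, 1) else if QQ a b s ∣ b then (1, 0) else (0, 1)

theorem tyv_ne (s : Tau a b) : tyv a b s ≠ 0 := by
  rw [tyv]
  split_ifs <;> decide

include H in
theorem tv_ty (s : Tau a b) : tv a b s = 0 ∨ tv a b s = tyv a b s := by
  have h01 : ∀ x : F2, x = 0 ∨ x = 1 := by decide
  rcases tri H s with ⟨h1, h2, h3⟩ | ⟨h1, h2, h3⟩ | ⟨h1, h2, h3⟩
  · have e2 : mu b s.1 = 0 := mu_eq_zero h2
    have e3 : mu (a - b) s.1 = 0 := mu_eq_zero h3
    rw [tv, tyv, if_pos h1, e2, e3, Nat.cast_zero, add_zero]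
    rcases h01 (mu a s.1 : F2) with h | h
    · left; rw [h]; rfl
    · right; rw [h]
  · have e1 : mu a s.1 = 0 := mu_eq_zero h1
    have e3 : mu (a - b) s.1 = 0 := mu_eq_zero h3
    rw [tv, tyv, if_neg h1, if_pos h2, e1, e3, Nat.cast_zero, zero_add]
    rcases h01 (mu b s.1 : F2) with h | h
    · left; rw [h]; rfl
    · right; rw [h]; rfl
  · have e1 : mu a s.1 = 0 := mu_eq_zero h1
    have e2 : mu b s.1 = 0 := mu_eq_zero h2
    rw [tv, tyv, if_neg h1, if_neg h2, e1, e2, Nat.cast_zero, zero_add]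
    rcases h01 (mu (a - b) s.1 : F2) with h | h
    · left; rw [h]; rfl
    · right; rw [h]; rfl

include H in
theorem h1y' (s : Tau a b) (y : W) :
    ∑ s', L (QQ a b s) (QQ a b s') * (om y (tv a b s') * om (tv a b s') (tyv a b s)) +
      ((QQ a b s).natDegree : F2) * om (ks (ch a.leadingCoeff, ch b.leadingCoeff,
        ch (a - b).leadingCoeff) y) (tyv a b s) = gv a b s * om y (tyv a b s) := by
  have hc : a - b ≠ 0 := sub_ne_zero.2 H.hab
  obtain ⟨da, db, dc⟩ := dvd3 H
  have S : ∀ {f : k[X]}, f ≠ 0 → (∀ Q : k[X], Q ∣ f → Q ∣ a * b * (a - b)) → ¬ QQ a b s ∣ f →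
      ∑ s', L (QQ a b s) (QQ a b s') * (mu f s'.1 : F2) =
      L f (QQ a b s) + ((QQ a b s).natDegree : F2) * ch f.leadingCoeff := by
    intro f hf hd hs
    rw [L_fac H hf hd s hs]
    have h1 : ∑ s', L (QQ a b s) (QQ a b s') * (mu f s'.1 : F2) =
        ∑ s', (mu f s'.1 : F2) * L (QQ a b s') (QQ a b s) :=
      sum_congr rfl fun s' _ => by rw [L_comm H.hm, mul_comm]
    rw [h1]
    have := F2_add_self (((QQ a b s).natDegree : F2) * ch f.leadingCoeff)
    rw [add_assoc, this, add_zero]
  have hirr := (H.fam).irr s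
  have hmon := (H.fam).mon s
  rcases tri H s with ⟨h1, h2, h3⟩ | ⟨h1, h2, h3⟩ | ⟨h1, h2, h3⟩
  · have hL : L (a - b) (QQ a b s) = L b (QQ a b s) := by
      rw [← L_neg_left H.hk H.hm hmon hirr]
      apply L_congr H.hk hmon hirr
      have : -(a - b) - b = -a := by ring
      rw [this]
      exact (dvd_neg).2 h1
    have hty : tyv a b s = (1, 1) := if_pos h1
    have k1 : ∀ s', L (QQ a b s) (QQ a b s') * (om y (tv a b s') * om (tv a b s') (tyv a b s)) =
        (y.1 * (L (QQ a b s) (QQ a b s') * (mu (a - b) s'.1 : F2)) +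
          y.2 * (L (QQ a b s) (QQ a b s') * (mu b s'.1 : F2))) := by
      intro s'
      obtain ⟨c1, c2, c3⟩ := cross H s'
      have := id1 (mu a s'.1) (mu b s'.1) (mu (a - b) s'.1) y.1 y.2 c1 c2 c3
      rw [hty]
      simp only [om, tv]
      linear_combination (L (QQ a b s) (QQ a b s')) * this +
        (L (QQ a b s) (QQ a b s') * (mu a s'.1 : F2) *
          (y.1 * (mu a s'.1 + mu (a - b) s'.1) + y.2 * (mu a s'.1 + mu b s'.1))) * F2_add_self 1
    rw [sum_congr rfl (fun s' _ => k1 s'), sum_add_distrib, ← mul_sum, ← mul_sum,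
      S hc dc h3, S H.hb db h2, hL, gv, if_pos h1, hty]
    simp only [om, ks]
    linear_combination ((QQ a b s).natDegree : F2) *
      (y.1 * ch (a - b).leadingCoeff + y.2 * ch b.leadingCoeff + y.1 * ch a.leadingCoeff +
        y.2 * ch a.leadingCoeff) * F2_add_self 1
  · have hL : L (a - b) (QQ a b s) = L a (QQ a b s) := by
      apply L_congr H.hk hmon hirr
      have : a - b - a = -b := by ring
      rw [this]
      exact (dvd_neg).2 h2
    have hty : tyv a b s = (1, 0) := by rw [tyv, if_neg h1, if_pos h2]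
    have k1 : ∀ s', L (QQ a b s) (QQ a b s') * (om y (tv a b s') * om (tv a b s') (tyv a b s)) =
        (y.1 * (L (QQ a b s) (QQ a b s') * (mu a s'.1 : F2)) +
          y.1 * (L (QQ a b s) (QQ a b s') * (mu (a - b) s'.1 : F2)) +
          y.2 * (L (QQ a b s) (QQ a b s') * (mu a s'.1 : F2))) := by
      intro s'
      obtain ⟨c1, c2, c3⟩ := cross H s'
      have := id2 (mu a s'.1) (mu b s'.1) (mu (a - b) s'.1) y.1 y.2 c1 c2 c3
      rw [hty]
      simp only [om, tv]
      linear_combination (L (QQ a b s) (QQ a b s')) * this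
    rw [sum_congr rfl (fun s' _ => k1 s'), sum_add_distrib, sum_add_distrib, ← mul_sum,
      ← mul_sum, ← mul_sum, S hc dc h3, S H.ha da h1, hL, gv, if_neg h1, hty]
    simp only [om, ks]
    linear_combination (((QQ a b s).natDegree : F2) *
      (y.1 * ch (a - b).leadingCoeff + y.1 * ch a.leadingCoeff +
        y.2 * ch a.leadingCoeff) + y.1 * L a (QQ a b s)) * F2_add_self 1
  · have hL : L b (QQ a b s) = L a (QQ a b s) := by
      symm
      apply L_congr H.hk hmon hirr
      exact h3
    have hty : tyv a b s = (0, 1) := by rw [tyv, if_neg h1, if_neg h2]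
    have k1 : ∀ s', L (QQ a b s) (QQ a b s') * (om y (tv a b s') * om (tv a b s') (tyv a b s)) =
        (y.1 * (L (QQ a b s) (QQ a b s') * (mu a s'.1 : F2)) +
          y.2 * (L (QQ a b s) (QQ a b s') * (mu a s'.1 : F2)) +
          y.2 * (L (QQ a b s) (QQ a b s') * (mu b s'.1 : F2))) := by
      intro s'
      obtain ⟨c1, c2, c3⟩ := cross H s'
      have := id3 (mu a s'.1) (mu b s'.1) (mu (a - b) s'.1) y.1 y.2 c1 c2 c3
      rw [hty]
      simp only [om, tv]
      linear_combination (L (QQ a b s) (QQ a b s')) * this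
    rw [sum_congr rfl (fun s' _ => k1 s'), sum_add_distrib, sum_add_distrib, ← mul_sum,
      ← mul_sum, ← mul_sum, S H.hb db h2, S H.ha da h1, hL, gv, if_neg h1, hty]
    simp only [om, ks]
    linear_combination (((QQ a b s).natDegree : F2) *
      (y.1 * ch a.leadingCoeff + y.2 * ch a.leadingCoeff +
        y.2 * ch b.leadingCoeff) + y.2 * L a (QQ a b s)) * F2_add_self 1

/-- the data of the bad primes -/
noncomputable def dT : DT (Tau a b) where
  toDat := datum H
  ty := tyv a b
  hty := tyv_ne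
  ht := tv_ty H
  h1y := h1y' H

end Pool.Agent.V8H26.YG
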