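import Pool.Agent.V8H26.YL.Chn

/-!
# Forms of arrays of symbols, the bad primes having arbitrary local conditions
-/

set_option autoImplicit false
set_option linter.all false

namespace Pool.Agent.V8H26.YG

open Module Finset
open Pool.Agent.V8H26.XL (Arr rep rep_rep vh va F2s F2c F2n X_self ex mem_ex Wc kr rho rho_congr kr_congr
  ind ind_congr ind_pos ind_neg ind_nonneg ind_le_one psi_ex finrank_ex gg gg_bd gg_two av av_congr
  av_shift av_ind Mop MM two_sum av_add av_mul av_mul' av_const av_comm av_half av_nonneg av_mono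
  abs_av_le av_sub)
open Pool.Agent.Y164.PS (W om om_add_left om_add_right om_comm om_self om_zero_left om_zero_right Oq
  om_smul_left om_smul_right eq_zero_of_om W_add_self)
open scoped Classical

/-- the vectors -/
abbrev VZ (ι Z : Type) := (ι → W) × Z

/-- the function of a bad prime -/
def ez (t : W) (m : ZMod 2) (z z' : W) (X : W × W) : ZMod 2 :=
  om z X.2 + om X.1 z' + m * om X.1 X.2 + om X.1 t * om X.2 t

/-- the data of the bad primes -/
structure DZ (τ Z : Type) [AddCommGroup Z] [Module (ZMod 2) Z] where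
  xh : Z →ₗ[ZMod 2] (τ → W)
  t : τ → W
  m : τ → ZMod 2
  c : Z
  hc : ∀ s, xh c s = t s

/-- the constant part of the form -/
structure RZ (ι : Type) {τ Z : Type} [AddCommGroup Z] [Module (ZMod 2) Z] (D : DZ τ Z) where
  B : LinearMap.BilinForm (ZMod 2) (VZ ι Z)
  symm : ∀ u v, B u v = B v u
  diag : ∀ u, B u u = B u (0, D.c)

section
variable {ι τ Z : Type} [AddCommGroup Z] [Module (ZMod 2) Z]

/-- the pair of components -/
def lz (w w' : VZ ι Z) (i : ι) : W × W := (w.1 i, w'.1 i)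

variable [Fintype ι] [Fintype τ] (D : DZ τ Z)

/-- the symbols of the primes of the twist -/
noncomputable def AZ (a : Arr ι τ) (w w' : VZ ι Z) : ZMod 2 :=
  ∑ i, ∑ j, a.A i j * (om (w.1 j) (w'.1 i) + om (w.1 i) (w'.1 i))

/-- the symbols of the bad primes -/
noncomputable def BZ (a : Arr ι τ) (w w' : VZ ι Z) : ZMod 2 :=
  ∑ i, ∑ s, a.B i s * ez (D.t s) (D.m s) (D.xh w.2 s) (D.xh w'.2 s) (w.1 i, w'.1 i)

theorem AZ_comm (a : Arr ι τ) (w w' : VZ ι Z) : AZ a w w' = AZ a w' w := by
  have h1 : ∀ u u' : VZ ι Z, AZ a u u' = ∑ i, ∑ j, a.A i j * om (u.1 j) (u'.1 i) +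
      ∑ i, ∑ j, a.A i j * om (u.1 i) (u'.1 i) := by
    intro u u'
    rw [AZ, ← sum_add_distrib]
    refine sum_congr rfl fun i _ => ?_
    rw [← sum_add_distrib]
    exact sum_congr rfl fun j _ => mul_add _ _ _
  rw [h1, h1]
  congr 1
  · rw [sum_comm]
    refine sum_congr rfl fun i _ => sum_congr rfl fun j _ => ?_
    rw [a.symm, om_comm]
  · refine sum_congr rfl fun i _ => sum_congr rfl fun j _ => ?_
    rw [om_comm]

theorem AZ_add (a : Arr ι τ) (u v w : VZ ι Z) : AZ a (u + v) w = AZ a u w + AZ a v w := by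
  simp only [AZ]
  rw [← sum_add_distrib]
  refine sum_congr rfl fun i _ => ?_
  rw [← sum_add_distrib]
  refine sum_congr rfl fun j _ => ?_
  show a.A i j * (om (u.1 j + v.1 j) (w.1 i) + om (u.1 i + v.1 i) (w.1 i)) = _
  rw [om_add_left, om_add_left]
  ring

theorem AZ_smul (c : ZMod 2) (a : Arr ι τ) (u w : VZ ι Z) : AZ a (c • u) w = c • AZ a u w := by
  simp only [AZ]
  rw [smul_sum]
  refine sum_congr rfl fun i _ => ?_
  rw [smul_sum]
  refine sum_congr rfl fun j _ => ?_
  show a.A i j * (om (c • u.1 j) (w.1 i) + om (c • u.1 i) (w.1 i)) = c * _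
  rw [om_smul_left, om_smul_left]
  ring

theorem ez_comm (t : W) (m : ZMod 2) (z z' u u' : W) : ez t m z z' (u, u') = ez t m z' z (u', u) := by
  simp only [ez]
  rw [om_comm z u', om_comm u z', om_comm u u']
  ring

theorem BZ_comm (a : Arr ι τ) (w w' : VZ ι Z) : BZ D a w w' = BZ D a w' w := by
  simp only [BZ]
  refine sum_congr rfl fun i _ => sum_congr rfl fun s _ => ?_
  rw [ez_comm]

theorem BZ_add (a : Arr ι τ) (u v w : VZ ι Z) : BZ D a (u + v) w = BZ D a u w + BZ D a v w := by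
  simp only [BZ]
  rw [← sum_add_distrib]
  refine sum_congr rfl fun i _ => ?_
  rw [← sum_add_distrib]
  refine sum_congr rfl fun s _ => ?_
  have h : D.xh (u + v).2 s = D.xh u.2 s + D.xh v.2 s := by
    show D.xh (u.2 + v.2) s = _
    rw [map_add]; rfl
  show a.B i s * ez (D.t s) (D.m s) (D.xh (u + v).2 s) (D.xh w.2 s) (u.1 i + v.1 i, w.1 i) = _
  rw [h]
  simp only [ez, om_add_left]
  ring

theorem BZ_smul (c : ZMod 2) (a : Arr ι τ) (u w : VZ ι Z) : BZ D a (c • u) w = c • BZ D a u w := by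
  simp only [BZ]
  rw [smul_sum]
  refine sum_congr rfl fun i _ => ?_
  rw [smul_sum]
  refine sum_congr rfl fun s _ => ?_
  have h : D.xh (c • u).2 s = c • D.xh u.2 s := by
    show D.xh (c • u.2) s = _
    rw [map_smul]; rfl
  show a.B i s * ez (D.t s) (D.m s) (D.xh (c • u).2 s) (D.xh w.2 s) (c • u.1 i, w.1 i) = c * _
  rw [h]
  simp only [ez, om_smul_left]
  ring

variable {D}

/-- the form of an array -/
noncomputable def fz (R : RZ ι D) (a : Arr ι τ) (x : ι → ZMod 2) :
    LinearMap.BilinForm (ZMod 2) (VZ ι Z) :=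
  LinearMap.mk₂ (ZMod 2) (fun w w' => AZ a w w' + BZ D a w w' + ∑ i, x i * om (w.1 i) (w'.1 i) +
    R.B w w')
    (fun u v w => by
      have h : ∑ i, x i * om ((u + v).1 i) (w.1 i) = ∑ i, x i * om (u.1 i) (w.1 i) +
          ∑ i, x i * om (v.1 i) (w.1 i) := by
        rw [← sum_add_distrib]
        refine sum_congr rfl fun i _ => ?_
        show x i * om (u.1 i + v.1 i) (w.1 i) = _
        rw [om_add_left, mul_add]
      rw [AZ_add, BZ_add, h, map_add, LinearMap.add_apply]
      ring)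
    (fun c u w => by
      have h : ∑ i, x i * om ((c • u).1 i) (w.1 i) = c * ∑ i, x i * om (u.1 i) (w.1 i) := by
        rw [mul_sum]
        refine sum_congr rfl fun i _ => ?_
        show x i * om (c • u.1 i) (w.1 i) = _
        rw [om_smul_left]
        ring
      rw [AZ_smul, BZ_smul, h, map_smul, LinearMap.smul_apply]
      simp only [smul_eq_mul]
      ring)
    (fun w u v => by
      have h : ∑ i, x i * om (w.1 i) ((u + v).1 i) = ∑ i, x i * om (w.1 i) (u.1 i) +
          ∑ i, x i * om (w.1 i) (v.1 i) := by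
        rw [← sum_add_distrib]
        refine sum_congr rfl fun i _ => ?_
        show x i * om (w.1 i) (u.1 i + v.1 i) = _
        rw [om_add_right, mul_add]
      rw [AZ_comm a w (u + v), BZ_comm D a w (u + v), AZ_add, BZ_add, h, map_add, AZ_comm a u w,
        AZ_comm a v w, BZ_comm D a u w, BZ_comm D a v w]
      ring)
    (fun c w u => by
      have h : ∑ i, x i * om (w.1 i) ((c • u).1 i) = c * ∑ i, x i * om (w.1 i) (u.1 i) := by
        rw [mul_sum]
        refine sum_congr rfl fun i _ => ?_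
        show x i * om (w.1 i) (c • u.1 i) = _
        rw [om_smul_right]
        ring
      rw [AZ_comm a w (c • u), BZ_comm D a w (c • u), AZ_smul, BZ_smul, h, map_smul, AZ_comm a u w,
        BZ_comm D a u w]
      simp only [smul_eq_mul]
      ring)

variable (R : RZ ι D)

theorem fz_apply (a : Arr ι τ) (x : ι → ZMod 2) (w w' : VZ ι Z) :
    fz R a x w w' = AZ a w w' + BZ D a w w' + ∑ i, x i * om (w.1 i) (w'.1 i) + R.B w w' := rfl

theorem fz_symm (a : Arr ι τ) (x : ι → ZMod 2) (w w' : VZ ι Z) :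
    fz R a x w w' = fz R a x w' w := by
  rw [fz_apply, fz_apply, AZ_comm, BZ_comm, R.symm]
  congr 2
  exact sum_congr rfl fun i _ => by rw [om_comm]

variable (D) in
/-- the coefficients of the symbols of the index `j` -/
noncomputable def coz (j : ι) (w w' : VZ ι Z) : ι ⊕ τ → ZMod 2 :=
  Sum.elim (fun i => if i = j then 0 else Oq (lz w w' i + lz w w' j))
    (fun s => ez (D.t s) (D.m s) (D.xh w.2 s) (D.xh w'.2 s) (lz w w' j))

theorem AZ_split (a : Arr ι τ) (w w' : VZ ι Z) (j : ι) :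
    AZ a w w' = AZ (rep j 0 a) w w' +
      ∑ i, (if i = j then 0 else Oq (lz w w' i + lz w w' j)) * a.A i j := by
  have e0 : ∑ i, (if i = j then 0 else Oq (lz w w' i + lz w w' j)) * a.A i j =
      ∑ i ∈ univ.erase j, a.A i j * Oq (lz w w' i + lz w w' j) := by
    rw [← add_sum_erase univ _ (mem_univ j), if_pos rfl, zero_mul, zero_add]
    refine sum_congr rfl fun i hi => ?_
    rw [if_neg (ne_of_mem_erase hi)]
    ring
  have e9 : (rep j 0 a : Arr ι τ).A = fun i i' => if i = j ∨ i' = j then (0 : ZMod 2) else a.A i i' := by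
    funext i i'
    by_cases h : i = j <;> by_cases h' : i' = j <;> simp [rep, h, h']
  rw [e0, AZ, AZ, e9]
  set c : ι → ι → ZMod 2 := fun i i' => om (w.1 i') (w'.1 i) + om (w.1 i) (w'.1 i) with hc
  have hcc : ∀ i, c i i = 0 := fun i => F2s _
  have h1 : ∀ i i', a.A i i' * c i i' = (if i = j ∨ i' = j then 0 else a.A i i') * c i i' +
      (if i = j ∨ i' = j then a.A i i' * c i i' else 0) := by
    intro i i'
    split_ifs
    · rw [zero_mul, zero_add]
    · rw [add_zero]
  have h2 : ∑ i, ∑ i', (if i = j ∨ i' = j then a.A i i' * c i i' else 0) =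
      ∑ i ∈ univ.erase j, a.A i j * Oq (lz w w' i + lz w w' j) := by
    rw [← add_sum_erase univ _ (mem_univ j)]
    have h3 : ∑ i', (if j = j ∨ i' = j then a.A j i' * c j i' else 0) =
        ∑ i' ∈ univ.erase j, a.A j i' * c j i' := by
      rw [← add_sum_erase univ _ (mem_univ j), if_pos (Or.inl rfl), hcc, mul_zero, zero_add]
      exact sum_congr rfl fun i' _ => if_pos (Or.inl rfl)
    have h4 : ∀ i ∈ univ.erase j, ∑ i', (if i = j ∨ i' = j then a.A i i' * c i i' else 0) =
        a.A i j * c i j := by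
      intro i hi
      have hij : i ≠ j := ne_of_mem_erase hi
      rw [sum_eq_single j]
      · rw [if_pos (Or.inr rfl)]
      · intro b _ hb
        rw [if_neg]
        rintro (h | h)
        · exact hij h
        · exact hb h
      · intro h
        exact absurd (mem_univ _) h
    rw [h3, sum_congr rfl h4, ← sum_add_distrib]
    refine sum_congr rfl fun i _ => ?_
    rw [a.symm j i, ← mul_add]
    congr 1
    simp only [hc, Oq, lz, Prod.fst_add, Prod.snd_add, om_add_left, om_add_right]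
    ring
  rw [← h2, ← sum_add_distrib]
  refine sum_congr rfl fun i _ => ?_
  rw [← sum_add_distrib]
  exact sum_congr rfl fun i' _ => h1 i i'

theorem BZ_split (a : Arr ι τ) (w w' : VZ ι Z) (j : ι) :
    BZ D a w w' = BZ D (rep j 0 a) w w' +
      ∑ s, ez (D.t s) (D.m s) (D.xh w.2 s) (D.xh w'.2 s) (lz w w' j) * a.B j s := by
  rw [BZ, BZ, ← add_sum_erase univ _ (mem_univ j), ← add_sum_erase univ
    (fun i => ∑ s, (rep j 0 a).B i s * ez (D.t s) (D.m s) (D.xh w.2 s) (D.xh w'.2 s)
      (w.1 i, w'.1 i)) (mem_univ j)]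
  have h1 : ∑ s, (rep j 0 a : Arr ι τ).B j s * ez (D.t s) (D.m s) (D.xh w.2 s) (D.xh w'.2 s)
      (w.1 j, w'.1 j) = 0 := by
    refine sum_eq_zero fun s _ => ?_
    have : (rep j 0 a : Arr ι τ).B j s = 0 := by simp [rep]
    rw [this, zero_mul]
  have h2 : ∑ i ∈ univ.erase j, ∑ s, (rep j 0 a : Arr ι τ).B i s *
      ez (D.t s) (D.m s) (D.xh w.2 s) (D.xh w'.2 s) (w.1 i, w'.1 i) =
      ∑ i ∈ univ.erase j, ∑ s, a.B i s *
      ez (D.t s) (D.m s) (D.xh w.2 s) (D.xh w'.2 s) (w.1 i, w'.1 i) := by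
    refine sum_congr rfl fun i hi => sum_congr rfl fun s _ => ?_
    have : (rep j 0 a : Arr ι τ).B i s = a.B i s := by simp [rep, ne_of_mem_erase hi]
    rw [this]
  have h3 : ∑ s, ez (D.t s) (D.m s) (D.xh w.2 s) (D.xh w'.2 s) (lz w w' j) * a.B j s =
      ∑ s, a.B j s * ez (D.t s) (D.m s) (D.xh w.2 s) (D.xh w'.2 s) (w.1 j, w'.1 j) :=
    sum_congr rfl fun s _ => mul_comm _ _
  rw [h1, h2, h3, zero_add, add_comm]

theorem fz_self (j : ι) (a : Arr ι τ) (x : ι → ZMod 2) (w w' : VZ ι Z) :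
    fz R a x w w' = fz R (rep j 0 a) x w w' + ∑ y, coz D j w w' y * va j a y := by
  rw [fz_apply, fz_apply, AZ_split a w w' j, BZ_split a w w' j, Fintype.sum_sum_type]
  simp only [coz, va, Sum.elim_inl, Sum.elim_inr]
  ring

theorem fz_rep (j : ι) (v : ι ⊕ τ → ZMod 2) (a : Arr ι τ) (x : ι → ZMod 2) (w w' : VZ ι Z) :
    fz R (rep j v a) x w w' = fz R (rep j 0 a) x w w' + ∑ y, coz D j w w' y * v y := by
  rw [fz_self R j (rep j v a), rep_rep]
  congr 1
  refine sum_congr rfl fun y _ => ?_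
  rcases y with i | s
  · by_cases h : i = j
    · have : coz D j w w' (Sum.inl i) = 0 := if_pos h
      rw [this, zero_mul, zero_mul]
    · congr 1
      show (rep j v a).A i j = _
      simp [rep, h]
  · congr 1
    show (rep j v a).B j s = _
    simp [rep]

theorem fz_va (j : ι) (a : Arr ι τ) (x : ι → ZMod 2) (w w' : VZ ι Z) :
    fz R a x w w' = fz R (rep j (va j a) a) x w w' := by
  rw [fz_self R j a, fz_rep R j (va j a) a]

theorem fz_x (a : Arr ι τ) (x x' : ι → ZMod 2) (w w' : VZ ι Z) :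
    fz R a (x + x') w w' = fz R a x w w' + ∑ i, x' i * om (w.1 i) (w'.1 i) := by
  rw [fz_apply, fz_apply]
  have : ∑ i, (x + x') i * om (w.1 i) (w'.1 i) = ∑ i, x i * om (w.1 i) (w'.1 i) +
      ∑ i, x' i * om (w.1 i) (w'.1 i) := by
    rw [← sum_add_distrib]
    exact sum_congr rfl fun i _ => by rw [Pi.add_apply, add_mul]
  rw [this]
  ring

theorem fz_xj (a : Arr ι τ) (x : ι → ZMod 2) (j : ι) (w w' : VZ ι Z) :
    fz R a (x + Pi.single j 1) w w' = fz R a x w w' + om (w.1 j) (w'.1 j) := by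
  rw [fz_x, sum_eq_single j]
  · rw [Pi.single_eq_same, one_mul]
  · intro i _ hi
    rw [Pi.single_eq_of_ne hi, zero_mul]
  · intro h
    exact absurd (mem_univ _) h

/-- the form on the vectors without `j` -/
theorem fz_rest (j : ι) (v : ι ⊕ τ → ZMod 2) (a : Arr ι τ) (x : ι → ZMod 2) (w w' : VZ ι Z)
    (h : w.1 j = 0) (h' : w'.1 j = 0) :
    fz R (rep j v a) (x + vh j v) w w' = fz R (rep j 0 a) x w w' := by
  have e1 : ∑ y, coz D j w w' y * v y = ∑ i, vh j v i * om (w.1 i) (w'.1 i) := by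
    rw [Fintype.sum_sum_type]
    have e2 : ∑ s, coz D j w w' (Sum.inr s) * v (Sum.inr s) = 0 := by
      refine sum_eq_zero fun s _ => ?_
      have : coz D j w w' (Sum.inr s) = 0 := by
        show ez (D.t s) (D.m s) (D.xh w.2 s) (D.xh w'.2 s) (w.1 j, w'.1 j) = 0
        rw [h, h', ez]
        simp only [om_zero_left, om_zero_right, mul_zero, add_zero, zero_mul]
      rw [this, zero_mul]
    rw [e2, add_zero]
    refine sum_congr rfl fun i _ => ?_
    show (if i = j then 0 else Oq (lz w w' i + lz w w' j)) * v (Sum.inl i) = _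
    by_cases hij : i = j
    · rw [if_pos hij, zero_mul, vh, if_pos hij, zero_mul]
    · rw [if_neg hij, vh, if_neg hij]
      have : lz w w' i + lz w w' j = (w.1 i, w'.1 i) := by
        show (w.1 i + w.1 j, w'.1 i + w'.1 j) = _
        rw [h, h', add_zero, add_zero]
      rw [this, mul_comm]
      rfl
  rw [fz_rep, fz_x, e1, add_assoc, F2s, add_zero]

/-- the vector with the component `y` at `j` -/
noncomputable def vz (j : ι) (y : W) : VZ ι Z := (Pi.single j y, 0)

theorem vz_fst (j : ι) (y : W) (i : ι) : (vz (Z := Z) j y).1 i = if i = j then y else 0 := by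
  show (Pi.single j y : ι → W) i = _
  by_cases h : i = j
  · subst h
    rw [Pi.single_eq_same, if_pos rfl]
  · rw [Pi.single_eq_of_ne h, if_neg h]

theorem vz_snd (j : ι) (y : W) : (vz (Z := Z) (ι := ι) j y).2 = 0 := rfl

/-- the value of the form at a new vector -/
theorem fz_new (j : ι) (v : ι ⊕ τ → ZMod 2) (a : Arr ι τ) (x : ι → ZMod 2) (w : VZ ι Z) (y : W) :
    fz R (rep j v a) (x + vh j v) w (vz j y) =
      ∑ z, coz D j w (vz j y) z * v z + fz R (rep j 0 a) x w (vz j y) := by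
  have h : ∑ i, vh j v i * om (w.1 i) ((vz (Z := Z) j y).1 i) = 0 := by
    refine sum_eq_zero fun i _ => ?_
    by_cases hij : i = j
    · rw [vh, if_pos hij, zero_mul]
    · rw [vz_fst, if_neg hij, om_zero_right, mul_zero]
  rw [fz_x, fz_rep, h, add_zero, add_comm]

variable (D) in
/-- the characteristic vector -/
def wc : VZ ι Z := (0, D.c)

/-- the characteristic vector -/
theorem fz_diag (a : Arr ι τ) (x : ι → ZMod 2) (w : VZ ι Z) :
    fz R a x w w = fz R a x w (wc D) := by
  rw [fz_apply, fz_apply]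
  have h1 : AZ a w w = 0 := by
    -- symmetric sum
    rw [AZ]
    have : ∀ i j, a.A i j * (om (w.1 j) (w.1 i) + om (w.1 i) (w.1 i)) = a.A i j * om (w.1 j) (w.1 i) :=
      fun i j => by rw [om_self, add_zero]
    simp only [this]
    rw [← sum_product']
    refine sum_involution (fun p _ => (p.2, p.1)) ?_ ?_ (fun _ _ => by simp) (fun _ _ => rfl)
    · intro p _
      show a.A p.1 p.2 * om (w.1 p.2) (w.1 p.1) + a.A p.2 p.1 * om (w.1 p.1) (w.1 p.2) = 0
      rw [a.symm p.2 p.1, om_comm (w.1 p.1), F2s]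
    · intro p _ hp h
      have h2 : p.2 = p.1 := congrArg Prod.fst h
      apply hp
      show a.A p.1 p.2 * om (w.1 p.2) (w.1 p.1) = 0
      rw [h2, om_self, mul_zero]
  have h2 : AZ a w (wc D) = 0 := by
    rw [AZ]
    refine sum_eq_zero fun i _ => sum_eq_zero fun j _ => ?_
    show a.A i j * (om (w.1 j) 0 + om (w.1 i) 0) = 0
    rw [om_zero_right, om_zero_right, add_zero, mul_zero]
  have h3 : BZ D a w w = BZ D a w (wc D) := by
    rw [BZ, BZ]
    refine sum_congr rfl fun i _ => sum_congr rfl fun s _ => ?_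
    congr 1
    show ez (D.t s) (D.m s) (D.xh w.2 s) (D.xh w.2 s) (w.1 i, w.1 i) =
      ez (D.t s) (D.m s) (D.xh w.2 s) (D.xh D.c s) (w.1 i, 0)
    rw [D.hc, ez, ez]
    simp only [om_zero_right, om_zero_left, om_self, mul_zero, add_zero, zero_mul, zero_add]
    rw [om_comm (D.xh w.2 s), F2s, zero_add]
    rcases F2c (om (w.1 i) (D.t s)) with h | h <;> rw [h] <;> rfl
  have h4 : ∑ i, x i * om (w.1 i) (w.1 i) = 0 :=
    sum_eq_zero fun i _ => by rw [om_self, mul_zero]
  have h5 : ∑ i, x i * om (w.1 i) ((wc D : VZ ι Z).1 i) = 0 :=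
    sum_eq_zero fun i _ => by
      show x i * om (w.1 i) 0 = 0
      rw [om_zero_right, mul_zero]
  rw [h1, h2, h3, h4, h5, R.diag]
  rfl

theorem fz_wc (a : Arr ι τ) (x : ι → ZMod 2) :
    fz R a x (wc D) (wc D) = R.B (0, D.c) (0, D.c) := by
  rw [fz_apply]
  have h1 : AZ a (wc D : VZ ι Z) (wc D) = 0 := by
    rw [AZ]
    refine sum_eq_zero fun i _ => sum_eq_zero fun j _ => ?_
    show a.A i j * (om 0 0 + om 0 0) = 0
    rw [om_zero_right, add_zero, mul_zero]
  have h2 : BZ D a (wc D : VZ ι Z) (wc D) = 0 := by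
    rw [BZ]
    refine sum_eq_zero fun i _ => sum_eq_zero fun s _ => ?_
    show a.B i s * ez (D.t s) (D.m s) (D.xh D.c s) (D.xh D.c s) (0, 0) = 0
    rw [ez]
    simp only [om_zero_right, om_zero_left, mul_zero, add_zero, zero_mul]
  have h3 : ∑ i, x i * om ((wc D : VZ ι Z).1 i) ((wc D : VZ ι Z).1 i) = 0 :=
    sum_eq_zero fun i _ => by rw [om_self, mul_zero]
  rw [h1, h2, h3, zero_add, zero_add, zero_add]
  rfl

/-! ### The subspaces -/

/-- the vectors supported in `S` -/
def SZ (S : Finset ι) : Submodule (ZMod 2) (VZ ι Z) where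
  carrier := {w | ∀ i, i ∉ S → w.1 i = 0}
  add_mem' := by
    intro w w' h h' i hi
    show w.1 i + w'.1 i = 0
    rw [h i hi, h' i hi, add_zero]
  zero_mem' := fun i _ => rfl
  smul_mem' := by
    intro c w h i hi
    show c • w.1 i = 0
    rw [h i hi, smul_zero]

theorem mem_SZ {S : Finset ι} {w : VZ ι Z} : w ∈ SZ S ↔ ∀ i, i ∉ S → w.1 i = 0 := Iff.rfl

theorem wc_mem (S : Finset ι) : (wc D : VZ ι Z) ∈ SZ S := fun i _ => rfl

/-- the coordinates at `j` -/
def feZ (j : ι) : VZ ι Z →ₗ[ZMod 2] ZMod 2 where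
  toFun w := (w.1 j).1
  map_add' _ _ := rfl
  map_smul' _ _ := rfl

/-- the coordinates at `j` -/
def ffZ (j : ι) : VZ ι Z →ₗ[ZMod 2] ZMod 2 where
  toFun w := (w.1 j).2
  map_add' _ _ := rfl
  map_smul' _ _ := rfl

theorem feZ_S {S : Finset ι} {j : ι} (hj : j ∉ S) : ∀ u ∈ SZ (Z := Z) S, feZ j u = 0 := by
  intro u hu
  show (u.1 j).1 = 0
  rw [hu j hj]
  rfl

theorem ffZ_S {S : Finset ι} {j : ι} (hj : j ∉ S) : ∀ u ∈ SZ (Z := Z) S, ffZ j u = 0 := by
  intro u hu
  show (u.1 j).2 = 0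
  rw [hu j hj]
  rfl

theorem feZ_e (j : ι) : feZ (Z := Z) j (vz j (1, 0)) = 1 := by
  show ((vz (Z := Z) j (1, 0)).1 j).1 = 1
  rw [vz_fst, if_pos rfl]

theorem ffZ_e (j : ι) : ffZ (Z := Z) j (vz j (1, 0)) = 0 := by
  show ((vz (Z := Z) j (1, 0)).1 j).2 = 0
  rw [vz_fst, if_pos rfl]

theorem ffZ_f (j : ι) : ffZ (Z := Z) j (vz j (0, 1)) = 1 := by
  show ((vz (Z := Z) j (0, 1)).1 j).2 = 1
  rw [vz_fst, if_pos rfl]

theorem vz_add (j : ι) (y y' : W) : vz (Z := Z) j (y + y') = vz j y + vz j y' := by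
  refine Prod.ext ?_ ?_
  · exact Pi.single_add (f := fun _ : ι => W) j y y'
  · exact (add_zero (0 : Z)).symm

theorem SZ_insert {S : Finset ι} {j : ι} (hj : j ∉ S) :
    SZ (Z := Z) (insert j S) = ex (ex (SZ S) (vz j (1, 0))) (vz j (0, 1)) := by
  have hvj : ∀ (y : W) (w : VZ ι Z), (∀ i, i ∉ insert j S → w.1 i = 0) → w.1 j = y →
      w + vz j y ∈ SZ (Z := Z) S := by
    intro y w hw hy i hi
    show w.1 i + (vz (Z := Z) j y).1 i = 0
    rw [vz_fst]
    split_ifs with hij
    · rw [hij, hy, W_add_self]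
    · rw [add_zero]
      exact hw i (by rw [mem_insert]; tauto)
  have hmem : ∀ y : W, vz (Z := Z) j y ∈ SZ (Z := Z) (insert j S) := by
    intro y i hi
    rw [vz_fst, if_neg (by rintro rfl; exact hi (mem_insert_self _ _))]
  have hsub : ∀ w ∈ SZ (Z := Z) S, w ∈ SZ (Z := Z) (insert j S) :=
    fun w hw i hi => hw i fun h => hi (mem_insert_of_mem h)
  have hadd := vz_add (Z := Z) (ι := ι) j
  ext w
  rw [mem_ex, mem_ex, mem_ex]
  constructor
  · intro hw
    rcases Wc (w.1 j) with h | h | h | h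
    · left; left
      intro i hi
      by_cases hij : i = j
      · rw [hij, h]
      · exact hw i (by rw [mem_insert]; tauto)
    · left; right
      exact hvj _ w hw h
    · right; left
      exact hvj _ w hw h
    · right; right
      have := hvj _ w hw h
      rw [hadd, add_comm (vz j (1, 0)), ← add_assoc] at this
      exact this
  · have back : ∀ (y : W), w + vz j y ∈ SZ (Z := Z) S → w ∈ SZ (Z := Z) (insert j S) := by
      intro y h
      have := (SZ (Z := Z) (insert j S)).add_mem (hsub _ h) (hmem y)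
      rw [add_assoc, X_self, add_zero] at this
      exact this
    rintro ((h | h) | (h | h))
    · exact hsub w h
    · exact back _ h
    · exact back _ h
    · rw [add_assoc, ← hadd] at h
      exact back _ h

variable [Fintype Z]

theorem finrank_SZ (S : Finset ι) :
    finrank (ZMod 2) (SZ (Z := Z) S) = 2 * S.card + finrank (ZMod 2) Z := by
  induction S using Finset.induction_on with
  | empty =>
    rw [card_empty, mul_zero, zero_add]
    refine LinearEquiv.finrank_eq (LinearEquiv.ofBijective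
      ((LinearMap.snd (ZMod 2) (ι → W) Z).comp (SZ (Z := Z) (∅ : Finset ι)).subtype)
      ⟨?_, ?_⟩)
    · rintro ⟨⟨x, z⟩, hx⟩ ⟨⟨x', z'⟩, hx'⟩ h
      have h2 : z = z' := h
      have h3 : x = x' := by
        funext i
        have e1 : x i = 0 := hx i (notMem_empty i)
        have e2 : x' i = 0 := hx' i (notMem_empty i)
        rw [e1, e2]
      subst h2 h3
      rfl
    · intro z
      exact ⟨⟨(0, z), fun i _ => rfl⟩, rfl⟩
  | insert j S hj ih =>
    have hE : ∀ u ∈ ex (SZ (Z := Z) S) (vz j (1, 0)), ffZ j u = 0 := psi_ex (ffZ_S hj) (ffZ_e j)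
    rw [SZ_insert hj, finrank_ex hE (ffZ_f j), finrank_ex (feZ_S hj) (feZ_e j), ih,
      card_insert_of_notMem hj]
    ring

theorem card_Z : Fintype.card Z = 2 ^ finrank (ZMod 2) Z := by
  have := Module.card_eq_pow_finrank (K := ZMod 2) (V := Z)
  rw [ZMod.card] at this
  exact this

theorem card_SZ (S : Finset ι) : Fintype.card (SZ (Z := Z) S) = 4 ^ S.card * Fintype.card Z := by
  have := Module.card_eq_pow_finrank (K := ZMod 2) (V := SZ (Z := Z) S)
  rw [ZMod.card, finrank_SZ, pow_add, pow_mul] at this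
  rw [this, card_Z]
  norm_num

end

end Pool.Agent.V8H26.YG
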