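import Pool.Agent.V8H26.YG.Sqf

/-!
# The number of the squarefree polynomials prime to given primes
-/

set_option autoImplicit false
set_option linter.all false

open Polynomial Filter Topology
open scoped Classical

namespace Pool.Agent.V8H26.YG

open Pool.Agent.H341R2.Sharp Finset Pool.Agent.Y164.PS

section
variable {k : Type} [Field k] [Fintype k] [DecidableEq k]

/-- the number of squarefree polynomials prime to `Z` -/
noncomputable def cZ (Z : Finset k[X]) (n : ℕ) : ℕ :=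
  ((Sf k n).filter fun D => ∀ Q ∈ Z, ¬ Q ∣ D).card

theorem mulSf {g D : k[X]} {n : ℕ} (hg : g.Monic) (hs : Squarefree g) (hD : D ∈ Sf k n)
    (hc : IsCoprime g D) : g * D ∈ Sf k (g.natDegree + n) := by
  have h := mem_Sf.1 hD
  refine mem_Sf.2 ⟨hg.mul h.1, ?_, ?_⟩
  · rw [hg.natDegree_mul h.1, h.2.1]
  · exact squarefree_mul_iff.2 ⟨hc.isRelPrime, hs, h.2.2⟩

theorem cZ_insert {Z : Finset k[X]} (hZ : ∀ Q ∈ Z, Q.Monic ∧ Irreducible Q) {Q0 : k[X]}
    (hm : Q0.Monic) (hi : Irreducible Q0) (hn : Q0 ∉ Z) (n : ℕ) :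
    cZ Z (Q0.natDegree + n) = cZ (insert Q0 Z) (Q0.natDegree + n) + cZ (insert Q0 Z) n := by
  have h1 := Finset.card_filter_add_card_filter_not
    (s := (Sf k (Q0.natDegree + n)).filter fun D => ∀ Q ∈ Z, ¬ Q ∣ D) (fun D => ¬ Q0 ∣ D)
  rw [filter_filter, filter_filter] at h1
  have h2 : ((Sf k (Q0.natDegree + n)).filter fun D => (∀ Q ∈ Z, ¬ Q ∣ D) ∧ ¬ Q0 ∣ D).card =
      cZ (insert Q0 Z) (Q0.natDegree + n) := by
    rw [cZ]
    congr 1
    apply filter_congr
    intro D _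
    rw [forall_mem_insert]
    exact and_comm
  have h3 : cZ (insert Q0 Z) n =
      ((Sf k (Q0.natDegree + n)).filter fun D => (∀ Q ∈ Z, ¬ Q ∣ D) ∧ ¬ ¬ Q0 ∣ D).card := by
    refine Finset.card_bij (fun E _ => Q0 * E) ?_ ?_ ?_
    · intro E hE
      obtain ⟨h4, h5⟩ := mem_filter.1 hE
      have h6 : ¬ Q0 ∣ E := h5 _ (mem_insert_self _ _)
      refine mem_filter.2 ⟨mulSf hm hi.squarefree h4 ((hi.coprime_iff_not_dvd).2 h6),
        fun Q hQ hd => ?_, not_not.2 (dvd_mul_right _ _)⟩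
      rcases (hZ Q hQ).2.prime.dvd_or_dvd hd with h | h
      · apply hn
        rw [← eq_of_monic_of_associated (hZ Q hQ).1 hm ((hZ Q hQ).2.associated_of_dvd hi h)]
        exact hQ
      · exact h5 Q (mem_insert_of_mem hQ) h
    · intro E _ E' _ h
      exact mul_left_cancel₀ hm.ne_zero h
    · intro D hD
      obtain ⟨h4, h5, h6⟩ := mem_filter.1 hD
      obtain ⟨E, rfl⟩ := not_not.1 h6
      obtain ⟨m1, m2, m3⟩ := mul_mem_Sf hm hi h4
      rw [Nat.add_sub_cancel_left] at m1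
      refine ⟨E, mem_filter.2 ⟨m1, fun Q hQ => ?_⟩, rfl⟩
      rcases mem_insert.1 hQ with rfl | hQ
      · intro hd
        exact m3 ((mem_pf (mem_Sf.1 m1).1.ne_zero).2 ⟨hm, hi, hd⟩)
      · exact fun hd => h5 Q hQ (hd.mul_left _)
  rw [h2, ← h3] at h1
  rw [h1]
  rfl

theorem Sf_le (hk : ringChar k ≠ 2) (n : ℕ) : ((Sf k n).card : ℝ) ≤ (Fintype.card k : ℝ) ^ n := by
  have h : (Sf k n).card ≤ (Mon k n).card := card_le_card (filter_subset _ _)
  rw [card_Mon hk] at h
  exact_mod_cast h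

theorem cZ_lim (hk : ringChar k ≠ 2) (Z : Finset k[X]) (hZ : ∀ Q ∈ Z, Q.Monic ∧ Irreducible Q) :
    Tendsto (fun n : ℕ => (cZ Z n : ℝ) / (Fintype.card k : ℝ) ^ n) atTop
      (𝓝 ((1 - 1 / (Fintype.card k : ℝ)) *
        ∏ Q ∈ Z, 1 / (1 + 1 / (Fintype.card k : ℝ) ^ Q.natDegree))) := by
  obtain ⟨q, hq⟩ : ∃ q : ℝ, q = (Fintype.card k : ℝ) := ⟨_, rfl⟩
  have hq1 : 1 < q := by
    rw [hq]
    exact_mod_cast Fintype.one_lt_card
  have hle : ∀ (Z : Finset k[X]) n, (cZ Z n : ℝ) ≤ q ^ n := fun Z n => by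
    rw [hq]
    refine le_trans ?_ (Sf_le hk n)
    exact_mod_cast card_le_card (filter_subset _ _)
  rw [← hq]
  induction Z using Finset.induction_on with
  | empty =>
    rw [prod_empty, mul_one, hq]
    have h1 : ∀ n, cZ (∅ : Finset k[X]) n = (Sf k n).card := fun n => by
      rw [cZ]
      congr 1
      apply filter_true_of_mem
      intro D _ Q hQ
      exact absurd hQ (notMem_empty Q)
    simp only [h1]
    exact Sf_lim hk
  | insert Q0 Z hn ih =>
    have hQ0 := hZ Q0 (mem_insert_self _ _)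
    have hZ' : ∀ Q ∈ Z, Q.Monic ∧ Irreducible Q := fun Q hQ => hZ Q (mem_insert_of_mem hQ)
    have hd : 0 < Q0.natDegree := hQ0.2.natDegree_pos
    have hqd : 1 < q ^ Q0.natDegree := one_lt_pow₀ hq1 hd.ne'
    have h1 := contr (x := fun n => (cZ (insert Q0 Z) n : ℝ) / q ^ n)
      (y := fun n => (cZ Z n : ℝ) / q ^ n) (c := 1 / q ^ Q0.natDegree) (d := Q0.natDegree) (M := 1)
      (by positivity) (by rw [div_lt_one (by positivity)]; exact hqd) (fun n => by
        have hp : 0 < q ^ n := by positivity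
        rw [abs_of_nonneg (by positivity), div_le_one hp]
        exact hle _ n) (fun n hn' => by
        obtain ⟨j, rfl⟩ : ∃ j, n = Q0.natDegree + j := ⟨n - Q0.natDegree, by omega⟩
        have h2 := cZ_insert hZ' hQ0.1 hQ0.2 hn j
        show (cZ (insert Q0 Z) (Q0.natDegree + j) : ℝ) / q ^ (Q0.natDegree + j) +
          1 / q ^ Q0.natDegree * ((cZ (insert Q0 Z) (Q0.natDegree + j - Q0.natDegree) : ℝ) /
            q ^ (Q0.natDegree + j - Q0.natDegree)) = (cZ Z (Q0.natDegree + j) : ℝ) /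
            q ^ (Q0.natDegree + j)
        rw [h2, Nat.add_sub_cancel_left, pow_add]
        push_cast
        have hp : q ^ j ≠ 0 := by positivity
        have hp' : q ^ Q0.natDegree ≠ 0 := by positivity
        field_simp) (ih hZ')
    rw [prod_insert hn]
    have h3 : (1 - 1 / q) * (1 / (1 + 1 / q ^ Q0.natDegree) *
        ∏ Q ∈ Z, 1 / (1 + 1 / q ^ Q.natDegree)) =
        (1 - 1 / q) * (∏ Q ∈ Z, 1 / (1 + 1 / q ^ Q.natDegree)) / (1 + 1 / q ^ Q0.natDegree) := by
      ring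
    rw [h3]
    exact h1

end

section
variable {k : Type} [Field k] [Fintype k] [DecidableEq k]
variable {a b : k[X]} {N : ℕ} (H : Hyp a b N)

/-- the density of the polynomials prime to the bad primes among the squarefree ones -/
noncomputable def rh (a b : k[X]) : ℝ :=
  ∏ s : Tau a b, 1 / (1 + 1 / (Fintype.card k : ℝ) ^ (QQ a b s).natDegree)

theorem QQ_inj : Function.Injective (QQ a b) := fun x y h => Subtype.ext h

include H in
theorem nb_lim : Tendsto (fun n : ℕ => (((Sf k n).filter (nb a b)).card : ℝ) /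
    (Fintype.card k : ℝ) ^ n) atTop (𝓝 ((1 - 1 / (Fintype.card k : ℝ)) * rh a b)) := by
  have h1 := cZ_lim (k := k) H.hk (univ.image (QQ a b)) (fun Q hQ => by
    obtain ⟨s, -, rfl⟩ := mem_image.1 hQ
    exact ⟨H.fam.mon s, H.fam.irr s⟩)
  rw [prod_image (fun x _ y _ h => QQ_inj h)] at h1
  refine h1.congr fun n => ?_
  congr 2
  rw [cZ]
  congr 1
  apply filter_congr
  intro D _
  constructor
  · intro h s
    exact h _ (mem_image_of_mem _ (mem_univ s))
  · intro h Q hQ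
    obtain ⟨s, -, rfl⟩ := mem_image.1 hQ
    exact h s

end

end Pool.Agent.V8H26.YG
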