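import Pool.Agent.V8H26.YG.Frm

/-!
# The kernels of the forms are the solutions of the local equations
-/

set_option autoImplicit false
set_option linter.all false

namespace Pool.Agent.V8H26.YG

open Module Finset
open Pool.Agent.V8H26.XL (Arr F2s F2c F2n kr mem_kr rho)
open Pool.Agent.Y164.PS (W om om_add_left om_add_right om_comm om_self om_zero_left om_zero_right Oq
  om_smul_left om_smul_right eq_zero_of_om W_add_self om_ks_comm om_ks_self ks ks_add uu Dat om_sum_left
  om_sum_right)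
open scoped Classical

section
variable {ι τ : Type} [Fintype ι] [Fintype τ] (D : DT τ) (m ep : τ → ZMod 2) (d : ι → ZMod 2)
  (a : Arr ι τ)

/-- the equation at a prime of the twist -/
noncomputable def E1z (w : UU ι τ) (x0 : W) (i : ι) : W :=
  ∑ j, a.A i j • (w.1 j + w.1 i) + ∑ s, a.B i s • (w.2 s + th D m s (w.1 i)) +
    d i • (x0 + ks D.l (w.1 i))

/-- the symbols at a bad prime -/
noncomputable def V2z (w : UU ι τ) (x0 : W) (s : τ) : W :=
  ∑ i, a.B i s • w.1 i + ∑ s', D.G s s' • w.2 s' + D.e s • x0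

/-- the solutions of the local equations -/
structure SolG (w : UU ι τ) (x0 : W) : Prop where
  mem : ∀ s, w.2 s ∈ Ls D m ep s
  e1 : ∀ i, E1z D m d a w x0 i = 0
  e2 : ∀ s, ∀ z ∈ Ls D m ep s, om (V2z D a w x0 s) z + kap D m ep s (w.2 s) z = 0

/-- the data with all exponents -/
noncomputable def DU : DZ τ (τ → W) where
  xh := LinearMap.id
  t := D.t
  m := m
  c := D.t
  hc := fun _ => rfl

/-- the form without the place at infinity -/
noncomputable def NU (w w' : UU ι τ) : ZMod 2 :=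
  AZ a w w' + BZ (DU D m) a w w' + RB D m ep d w w'

theorem NU_comm (w w' : UU ι τ) : NU D m ep d a w w' = NU D m ep d a w' w := by
  rw [NU, NU, AZ_comm, BZ_comm, RB_comm]

theorem NU_key (w w' : UU ι τ) (x0 : W) : NU D m ep d a w w' + om x0 (dL D d w') =
    ∑ i, om (E1z D m d a w x0 i) (w'.1 i) +
      ∑ s, (om (V2z D a w x0 s) (w'.2 s) + kap D m ep s (w.2 s) (w'.2 s)) := by
  have a1 : ∀ i, om (E1z D m d a w x0 i) (w'.1 i) =
      ∑ j, a.A i j * (om (w.1 j) (w'.1 i) + om (w.1 i) (w'.1 i)) +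
      ∑ s, a.B i s * (om (w.2 s) (w'.1 i) + om (th D m s (w.1 i)) (w'.1 i)) +
      (d i * om (ks D.l (w.1 i)) (w'.1 i) + d i * om x0 (w'.1 i)) := by
    intro i
    simp only [E1z, om_add_left, om_sum_left, om_smul_left]
    ring
  have a2 : ∀ s, om (V2z D a w x0 s) (w'.2 s) = ∑ i, a.B i s * om (w.1 i) (w'.2 s) +
      ∑ s', D.G s s' * om (w.2 s') (w'.2 s) + D.e s * om x0 (w'.2 s) := by
    intro s
    simp only [V2z, om_add_left, om_sum_left, om_smul_left]
  have a3 : om x0 (dL D d w') = ∑ i, d i * om x0 (w'.1 i) + ∑ s, D.e s * om x0 (w'.2 s) := by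
    rw [dL_apply]
    simp only [om_add_right, om_sum_right, om_smul_right]
  have a4 : BZ (DU D m) a w w' =
      ∑ i, ∑ s, a.B i s * (om (w.2 s) (w'.1 i) + om (th D m s (w.1 i)) (w'.1 i)) +
      ∑ s, ∑ i, a.B i s * om (w.1 i) (w'.2 s) := by
    rw [BZ, sum_comm (s := (univ : Finset τ)) (t := (univ : Finset ι)), ← sum_add_distrib]
    refine sum_congr rfl fun i _ => ?_
    rw [← sum_add_distrib]
    refine sum_congr rfl fun s _ => ?_
    show a.B i s * ez (D.t s) (m s) (w.2 s) (w'.2 s) (w.1 i, w'.1 i) = _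
    rw [ez, om_th, om_comm (w'.1 i) (D.t s)]
    ring
  rw [NU, a4, AZ, RB_apply, a3]
  simp only [a1, a2, sum_add_distrib]
  ring

theorem fz_o (u u' : VZ ι (ZL D m ep)) : fz (Ro D m ep d) a 0 u u' =
    NU D m ep d a (iO D m ep u) (iO D m ep u') +
      om (ks D.l (dL D d (iO D m ep u))) (dL D d (iO D m ep u')) := by
  rw [fz_apply]
  have h1 : ∑ i, (0 : ι → ZMod 2) i * om (u.1 i) (u'.1 i) = 0 :=
    sum_eq_zero fun i _ => by rw [Pi.zero_apply, zero_mul]
  have h2 : (Ro D m ep d).B u u' = RB D m ep d (iO D m ep u) (iO D m ep u') +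
      om (ks D.l (dL D d (iO D m ep u))) (dL D d (iO D m ep u')) := rfl
  have h3 : BZ (Do D m ep) a u u' = BZ (DU D m) a (iO D m ep u) (iO D m ep u') := rfl
  have h4 : AZ a u u' = AZ a (iO D m ep u) (iO D m ep u') := rfl
  rw [h1, h2, h3, h4, NU]
  ring

theorem fz_e (u u' : VZ ι (ZL D m ep × W)) : fz (Re D m ep d) a 0 u u' =
    NU D m ep d a (iE D m ep u) (iE D m ep u') +
      om (xE D m ep u) (dL D d (iE D m ep u')) + om (dL D d (iE D m ep u)) (xE D m ep u') := by
  rw [fz_apply]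
  have h1 : ∑ i, (0 : ι → ZMod 2) i * om (u.1 i) (u'.1 i) = 0 :=
    sum_eq_zero fun i _ => by rw [Pi.zero_apply, zero_mul]
  have h2 : (Re D m ep d).B u u' = RB D m ep d (iE D m ep u) (iE D m ep u') +
      om (xE D m ep u) (dL D d (iE D m ep u')) + om (dL D d (iE D m ep u)) (xE D m ep u') := rfl
  have h3 : BZ (De D m ep) a u u' = BZ (DU D m) a (iE D m ep u) (iE D m ep u') := rfl
  have h4 : AZ a u u' = AZ a (iE D m ep u) (iE D m ep u') := rfl
  rw [h1, h2, h3, h4, NU]
  ring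

theorem om_piS {κ : Type} [Fintype κ] (i : κ) (f : κ → W) (z : W) :
    ∑ j, om (f j) ((Pi.single i z : κ → W) j) = om (f i) z := by
  rw [sum_eq_single i]
  · rw [Pi.single_eq_same]
  · intro j _ hj
    rw [Pi.single_eq_of_ne hj, om_zero_right]
  · intro h
    exact absurd (mem_univ _) h

/-- the test vectors give the equations -/
theorem sol_of {w : UU ι τ} (hw : ∀ s, w.2 s ∈ Ls D m ep s) {x0 : W}
    (h : ∀ w' : UU ι τ, (∀ s, w'.2 s ∈ Ls D m ep s) →
      NU D m ep d a w w' + om x0 (dL D d w') = 0) : SolG D m ep d a w x0 := by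
  refine ⟨hw, fun i => ?_, fun s z hz => ?_⟩
  · apply eq_zero_of_om
    intro z
    have h1 := h (Pi.single i z, 0) (fun s => Submodule.zero_mem _)
    rw [NU_key] at h1
    have h2 : ∑ s, (om (V2z D a w x0 s) ((0 : τ → W) s) + kap D m ep s (w.2 s) ((0 : τ → W) s)) = 0 :=
      sum_eq_zero fun s _ => by rw [Pi.zero_apply, om_zero_right, map_zero, add_zero]
    have h3 : ∑ j, om (E1z D m d a w x0 j) ((Pi.single i z : ι → W) j) +
      ∑ s, (om (V2z D a w x0 s) ((0 : τ → W) s) + kap D m ep s (w.2 s) ((0 : τ → W) s)) = 0 := h1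
    rw [h2, add_zero, om_piS] at h3
    exact h3
  · have h1 := h (0, Pi.single s z) (fun s' => by
      show (Pi.single s z : τ → W) s' ∈ _
      by_cases hs : s' = s
      · subst hs
        rw [Pi.single_eq_same]
        exact hz
      · rw [Pi.single_eq_of_ne hs]
        exact Submodule.zero_mem _)
    rw [NU_key] at h1
    have h2 : ∑ i, om (E1z D m d a w x0 i) ((0 : ι → W) i) = 0 :=
      sum_eq_zero fun i _ => by rw [Pi.zero_apply, om_zero_right]
    have h3 : ∑ i, om (E1z D m d a w x0 i) ((0 : ι → W) i) +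
      ∑ s', (om (V2z D a w x0 s') ((Pi.single s z : τ → W) s') +
        kap D m ep s' (w.2 s') ((Pi.single s z : τ → W) s')) = 0 := h1
    rw [h2, zero_add, sum_eq_single s] at h3
    · rw [Pi.single_eq_same] at h3
      exact h3
    · intro j _ hj
      rw [Pi.single_eq_of_ne hj, om_zero_right, map_zero, add_zero]
    · intro h
      exact absurd (mem_univ _) h

theorem of_sol {w : UU ι τ} {x0 : W} (h : SolG D m ep d a w x0) (w' : UU ι τ)
    (hw' : ∀ s, w'.2 s ∈ Ls D m ep s) : NU D m ep d a w w' + om x0 (dL D d w') = 0 := by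
  rw [NU_key]
  have h1 : ∑ i, om (E1z D m d a w x0 i) (w'.1 i) = 0 :=
    sum_eq_zero fun i _ => by rw [h.e1, om_zero_left]
  have h2 : ∑ s, (om (V2z D a w x0 s) (w'.2 s) + kap D m ep s (w.2 s) (w'.2 s)) = 0 :=
    sum_eq_zero fun s _ => h.e2 s _ (hw' s)
  rw [h1, h2, add_zero]

variable {a}

/-- the points of order two -/
theorem NU_Th (hcl : ∀ s, ∑ i, a.B i s = ep s + gg' D m s) (y : W) (w : UU ι τ)
    (hw : ∀ s, w.2 s ∈ Ls D m ep s) : NU D m ep d a (Th D m y) w = om (ks D.l y) (dL D d w) := by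
  have h1 : AZ a (Th (ι := ι) D m y) w = 0 := AZ_Th a y _ w
  have h2 : BZ (DU D m) a (Th D m y) w = ∑ s, (∑ i, a.B i s) * om y (w.2 s) :=
    BZ_Th D m (DU D m) rfl rfl a y _ (fun s => rfl) w
  have h3 : ∑ s, (∑ i, a.B i s) * om y (w.2 s) = ∑ s, (ep s + gg' D m s) * om y (w.2 s) :=
    sum_congr rfl fun s _ => by rw [hcl]
  rw [NU, h1, h2, h3, RB_Th D m ep d y w hw]
  linear_combination (∑ s, (ep s + gg' D m s) * om y (w.2 s)) * F2s 1

/-- the symbols at infinity, if the reduction there is additive -/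
theorem sol_x0 (hcl : ∀ s, ∑ i, a.B i s = ep s + gg' D m s)
    (hN : ∑ i, d i + D.N + ∑ s, m s * D.e s = 1) {w : UU ι τ} {x0 : W}
    (h : SolG D m ep d a w x0) : x0 = ks D.l (dL D d w) := by
  have h1 : x0 + ks D.l (dL D d w) = 0 := by
    apply eq_zero_of_om
    intro y
    have h2 := of_sol D m ep d a h (Th D m y) (fun s => th_mem D m ep s y)
    rw [NU_comm, NU_Th D m ep d hcl y w h.mem, dL_Th, hN, one_smul, om_ks_comm] at h2
    rw [om_add_left, add_comm]
    exact h2
  have h2 : ∀ x y : W, x + y = 0 → x = y := by decide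
  exact h2 _ _ h1

/-- the solutions, if the reduction at infinity is additive -/
theorem kr_o (u : VZ ι (ZL D m ep)) : u ∈ kr (fz (Ro D m ep d) a 0) ⊤ ↔
    SolG D m ep d a (iO D m ep u) (ks D.l (dL D d (iO D m ep u))) := by
  rw [mem_kr]
  constructor
  · rintro ⟨-, h⟩
    refine sol_of D m ep d a (fun s => u.2.2 s) fun w' hw' => ?_
    have h1 := h (w'.1, ⟨w'.2, hw'⟩) Submodule.mem_top
    rw [fz_o] at h1
    exact h1
  · intro h
    refine ⟨Submodule.mem_top, fun v _ => ?_⟩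
    rw [fz_o]
    exact of_sol D m ep d a h _ fun s => v.2.2 s

/-- the solutions, if the reduction at infinity is good -/
theorem kr_e (u : VZ ι (ZL D m ep × W)) : u ∈ kr (fz (Re D m ep d) a 0) ⊤ ↔
    SolG D m ep d a (iE D m ep u) (xE D m ep u) ∧ dL D d (iE D m ep u) = 0 := by
  rw [mem_kr]
  constructor
  · rintro ⟨-, h⟩
    constructor
    · refine sol_of D m ep d a (fun s => u.2.1.2 s) fun w' hw' => ?_
      have h1 := h (w'.1, (⟨w'.2, hw'⟩, 0)) Submodule.mem_top
      rw [fz_e] at h1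
      have h2 : xE D m ep (((w'.1, ((⟨w'.2, hw'⟩ : ZL D m ep), (0 : W))) :
        VZ ι (ZL D m ep × W))) = 0 := rfl
      rw [h2, om_zero_right, add_zero] at h1
      exact h1
    · apply eq_zero_of_om
      intro y
      have h1 := h ((0 : ι → W), ((0 : ZL D m ep), y)) Submodule.mem_top
      rw [fz_e] at h1
      have h2 : iE D m ep (((0 : ι → W), ((0 : ZL D m ep), y)) : VZ ι (ZL D m ep × W)) = 0 := rfl
      have h3 : xE D m ep (((0 : ι → W), ((0 : ZL D m ep), y)) : VZ ι (ZL D m ep × W)) = y := rfl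
      have h4 : NU D m ep d a (iE D m ep u) 0 = 0 := by
        have h5 := NU_key D m ep d a (iE D m ep u) 0 0
        rw [map_zero, om_zero_left, add_zero] at h5
        rw [h5]
        have h6 : ∑ i, om (E1z D m d a (iE D m ep u) 0 i) ((0 : UU ι τ).1 i) = 0 :=
          sum_eq_zero fun i _ => om_zero_right _
        have h7 : ∑ s, (om (V2z D a (iE D m ep u) 0 s) ((0 : UU ι τ).2 s) +
            kap D m ep s ((iE D m ep u).2 s) ((0 : UU ι τ).2 s)) = 0 :=
          sum_eq_zero fun s _ => by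
            show om _ 0 + kap D m ep s _ 0 = 0
            rw [om_zero_right, map_zero, add_zero]
        rw [h6, h7, add_zero]
      rw [h2, h3, h4, map_zero, om_zero_right, add_zero, zero_add] at h1
      exact h1
  · rintro ⟨h, h'⟩
    refine ⟨Submodule.mem_top, fun v _ => ?_⟩
    rw [fz_e, h', om_zero_left, add_zero]
    exact of_sol D m ep d a h _ fun s => v.2.1.2 s

/-- the number of the solutions -/
theorem card_o (hcl : ∀ s, ∑ i, a.B i s = ep s + gg' D m s)
    (hN : ∑ i, d i + D.N + ∑ s, m s * D.e s = 1) :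
    Nat.card {p : UU ι τ × W // SolG D m ep d a p.1 p.2} =
      2 ^ rho (fz (Ro D m ep d) a 0) ⊤ := by
  have e : Nat.card {p : UU ι τ × W // SolG D m ep d a p.1 p.2} =
      Nat.card (kr (fz (Ro D m ep d) a 0) ⊤) := by
    refine Nat.card_congr (Equiv.ofBijective (fun p => ⟨(p.1.1.1, ⟨p.1.1.2, p.2.mem⟩), ?_⟩) ⟨?_, ?_⟩)
    · rw [kr_o]
      have h := p.2
      have h1 := sol_x0 D m ep d hcl hN h
      rw [h1] at h
      exact h
    · rintro ⟨⟨w, x0⟩, h⟩ ⟨⟨w', x0'⟩, h'⟩ e
      have e1 : w = w' := by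
        have e2 : ((w.1, (⟨w.2, h.mem⟩ : ZL D m ep)) : VZ ι (ZL D m ep)) = (w'.1, ⟨w'.2, h'.mem⟩) :=
          congrArg Subtype.val e
        have e3 : w.1 = w'.1 := congrArg (fun z : VZ ι (ZL D m ep) => z.1) e2
        have e4 : w.2 = w'.2 := congrArg (fun z : VZ ι (ZL D m ep) => z.2.1) e2
        exact Prod.ext e3 e4
      subst e1
      have e3 : x0 = x0' := (sol_x0 D m ep d hcl hN h).trans (sol_x0 D m ep d hcl hN h').symm
      subst e3
      rfl
    · rintro ⟨u, hu⟩
      exact ⟨⟨(iO D m ep u, ks D.l (dL D d (iO D m ep u))), (kr_o D m ep d u).1 hu⟩, rfl⟩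
  rw [e, Module.natCard_eq_pow_finrank (K := ZMod 2), Nat.card_zmod]
  rfl

theorem card_e : Nat.card {p : UU ι τ × W // SolG D m ep d a p.1 p.2 ∧ dL D d p.1 = 0} =
      2 ^ rho (fz (Re D m ep d) a 0) ⊤ := by
  have e : Nat.card {p : UU ι τ × W // SolG D m ep d a p.1 p.2 ∧ dL D d p.1 = 0} =
      Nat.card (kr (fz (Re D m ep d) a 0) ⊤) := by
    refine Nat.card_congr (Equiv.ofBijective
      (fun p => ⟨(p.1.1.1, (⟨p.1.1.2, p.2.1.mem⟩, p.1.2)), ?_⟩) ⟨?_, ?_⟩)
    · rw [kr_e]
      exact p.2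
    · rintro ⟨⟨w, x0⟩, h⟩ ⟨⟨w', x0'⟩, h'⟩ e
      have e2 : ((w.1, ((⟨w.2, h.1.mem⟩ : ZL D m ep), x0)) : VZ ι (ZL D m ep × W)) =
          (w'.1, (⟨w'.2, h'.1.mem⟩, x0')) := congrArg Subtype.val e
      have e5 : w.1 = w'.1 := congrArg (fun z : VZ ι (ZL D m ep × W) => z.1) e2
      have e4 : w.2 = w'.2 := congrArg (fun z : VZ ι (ZL D m ep × W) => z.2.1.1) e2
      have e1 : w = w' := Prod.ext e5 e4
      have e3 : x0 = x0' := congrArg (fun z : VZ ι (ZL D m ep × W) => z.2.2) e2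
      subst e1
      subst e3
      rfl
    · rintro ⟨u, hu⟩
      exact ⟨⟨(iE D m ep u, xE D m ep u), (kr_e D m ep d u).1 hu⟩, rfl⟩
  rw [e, Module.natCard_eq_pow_finrank (K := ZMod 2), Nat.card_zmod]
  rfl

theorem sol_zero : SolG D m ep d a 0 0 := by
  refine sol_of D m ep d a (fun s => Submodule.zero_mem _) fun w' hw' => ?_
  have h5 := NU_comm D m ep d a 0 w'
  rw [om_zero_left, add_zero, h5]
  have h6 := NU_key D m ep d a w' 0 0
  rw [map_zero, om_zero_left, add_zero] at h6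
  rw [h6]
  have h6 : ∑ i, om (E1z D m d a w' 0 i) ((0 : UU ι τ).1 i) = 0 :=
    sum_eq_zero fun i _ => om_zero_right _
  have h7 : ∑ s, (om (V2z D a w' 0 s) ((0 : UU ι τ).2 s) +
      kap D m ep s (w'.2 s) ((0 : UU ι τ).2 s)) = 0 :=
    sum_eq_zero fun s _ => by
      show om _ 0 + kap D m ep s _ 0 = 0
      rw [om_zero_right, map_zero, add_zero]
  rw [h6, h7, add_zero]

/-- the points of order two are solutions -/
theorem sol_Th (hcl : ∀ s, ∑ i, a.B i s = ep s + gg' D m s) (y : W) :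
    SolG D m ep d a (Th D m y) (ks D.l y) := by
  refine sol_of D m ep d a (fun s => th_mem D m ep s y) fun w' hw' => ?_
  rw [NU_Th D m ep d hcl y w' hw']
  exact F2s _

end

end Pool.Agent.V8H26.YG
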