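import Pool.Agent.V8H26.YG.Fin

/-!
# The evaluation of the limit
-/

set_option autoImplicit false
set_option linter.all false

open Polynomial Filter Topology
open scoped Classical

namespace Pool.Agent.V8H26.YG

open Pool.Agent.TH115.GD Pool.Agent.H341R2.Sharp Finset Pool.Agent.Y164.PS Pool.Agent.V8H26.XA
open Pool.Agent.V8H26.YL (P1E P2E gclE be be_mem cnt_law)
open Pool.Agent.V8H26.YA (sgn NSpl NSq gclE_iff nspl_iff sgT ga)

open Pool.Agent.V8H26.YA (flip_flip)
open Pool.Agent.V8H26.XL (F2s F2c)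

section
variable {k : Type} [Field k] [Fintype k] [DecidableEq k]
variable {a b : k[X]} {N : ℕ} (H : Hyp a b N) (m : Tau a b → F2)

theorem spz_cast (ep : Tau a b → F2) : (spz m ep : F2) = ∑ s, (1 + m s) * (1 + ep s) := by
  have h11 : (1 : F2) + 1 = 0 := F2s 1
  rw [spz, card_filter]
  push_cast
  refine sum_congr rfl fun s _ => ?_
  by_cases h1 : m s = 1
  · rw [if_neg (fun h => h.1 h1), h1, h11, zero_mul]
  · have h0 : m s = 0 := (F2c (m s)).resolve_right h1
    by_cases h2 : ep s = 0
    · rw [if_pos ⟨h1, h2⟩, h0, h2, add_zero, mul_one]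
    · rw [if_neg (fun h => h2 h.2), (F2c (ep s)).resolve_left h2, h11, mul_zero]

theorem flip_spz {s0 : Tau a b} (h0 : m s0 ≠ 1) (ep : Tau a b → F2) :
    spz m (YA.flip s0 ep) % 2 = (spz m ep + 1) % 2 := by
  have h1 : (spz m (YA.flip s0 ep) : F2) = ((spz m ep + 1 : ℕ) : F2) := by
    rw [Nat.cast_add, spz_cast, spz_cast, ← add_sum_erase univ _ (mem_univ s0),
      ← add_sum_erase univ (fun s => (1 + m s) * (1 + ep s)) (mem_univ s0)]
    have h2 : ∑ s ∈ univ.erase s0, (1 + m s) * (1 + YA.flip s0 ep s) =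
        ∑ s ∈ univ.erase s0, (1 + m s) * (1 + ep s) :=
      sum_congr rfl fun s hs => by rw [YA.flip, Function.update_of_ne (ne_of_mem_erase hs)]
    rw [h2, YA.flip, Function.update_self, (F2c (m s0)).resolve_right h0]
    push_cast
    ring
  exact F2_mod h1

theorem par_half {s0 : Tau a b} (h0 : m s0 ≠ 1) (r : ℕ) :
    2 * (univ.filter fun ep : Tau a b → F2 => r % 2 = spz m ep % 2).card =
      2 ^ Fintype.card (Tau a b) := by
  have h1 : (univ.filter fun ep : Tau a b → F2 => r % 2 = spz m ep % 2).card =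
      (univ.filter fun ep : Tau a b → F2 => ¬ r % 2 = spz m ep % 2).card := by
    apply card_nbij' (YA.flip s0) (YA.flip s0)
    · intro ep hep
      rw [mem_coe, mem_filter] at hep ⊢
      have := flip_spz m h0 ep
      exact ⟨mem_univ _, by omega⟩
    · intro ep hep
      rw [mem_coe, mem_filter] at hep ⊢
      have := flip_spz m h0 ep
      exact ⟨mem_univ _, by omega⟩
    · intro ep _
      exact flip_flip s0 ep
    · intro ep _
      exact flip_flip s0 ep
  have h2 := card_filter_add_card_filter_not (s := (univ : Finset (Tau a b → F2)))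
    (fun ep => r % 2 = spz m ep % 2)
  have h3 : (univ : Finset (Tau a b → F2)).card = 2 ^ Fintype.card (Tau a b) := by
    rw [card_univ, Fintype.card_fun, ZMod.card]
  omega

/-- the indicator of the full type -/
noncomputable def Iv (m : Tau a b → F2) : ℝ := if ∀ s, m s = 1 then 1 else 0

theorem par_card (r : ℕ) :
    ((univ.filter fun ep : Tau a b → F2 => r % 2 = spz m ep % 2).card : ℝ) =
      2 ^ Fintype.card (Tau a b) / 2 * (1 + (-1) ^ r * Iv m) := by
  by_cases h : ∀ s, m s = 1
  · have h0 : ∀ ep, spz m ep = 0 := by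
      intro ep
      rw [spz, card_eq_zero, filter_eq_empty_iff]
      intro s _ h1
      exact h1.1 (h s)
    have h3 : (univ : Finset (Tau a b → F2)).card = 2 ^ Fintype.card (Tau a b) := by
      rw [card_univ, Fintype.card_fun, ZMod.card]
    rw [Iv, if_pos h]
    rcases Nat.even_or_odd r with hr | hr
    · rw [hr.neg_one_pow]
      have e : (univ.filter fun ep : Tau a b → F2 => r % 2 = spz m ep % 2) = univ := by
        apply filter_true_of_mem
        intro ep _
        rw [h0]
        exact Nat.even_iff.1 hr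
      rw [e, h3]
      push_cast
      ring
    · rw [hr.neg_one_pow]
      have e : (univ.filter fun ep : Tau a b → F2 => r % 2 = spz m ep % 2) = ∅ := by
        rw [filter_eq_empty_iff]
        intro ep _ h1
        rw [h0, Nat.odd_iff.1 hr] at h1
        omega
      rw [e, card_empty]
      push_cast
      ring
  · rw [Iv, if_neg h]
    push Not at h
    obtain ⟨s0, hs0⟩ := h
    have h1 := par_half m hs0 r
    have h2 : (2 : ℝ) * ((univ.filter fun ep : Tau a b → F2 => r % 2 = spz m ep % 2).card : ℝ) =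
        2 ^ Fintype.card (Tau a b) := by exact_mod_cast h1
    linarith

theorem lE_sum (r : ℕ) : ∑ ep, lE m ep r = c00 a b * 2 ^ Fintype.card (Tau a b) * ga r *
    (1 + (-1) ^ r * Iv m) := by
  simp only [lE]
  rw [← sum_filter, sum_const, nsmul_eq_mul, par_card, ga]
  ring

include H in
theorem dg_eq : dg m = ∑ s, (m s).val * (QQ a b s).natDegree := by
  rw [dg, gm, natDegree_prod_of_monic _ _ fun s _ => (H.fam.mon s).pow _]
  exact sum_congr rfl fun s _ => natDegree_pow _ _

include H in
theorem w_eq : 1 / (Fintype.card k : ℝ) ^ dg m =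
    ∏ s, 1 / (Fintype.card k : ℝ) ^ ((m s).val * (QQ a b s).natDegree) := by
  rw [dg_eq H, prod_div_distrib, prod_const_one, prod_pow_eq_pow_sum]

include H in
theorem w_sum : ∑ m : Tau a b → F2, 1 / (Fintype.card k : ℝ) ^ dg m = (rh a b)⁻¹ := by
  have h1 := Finset.prod_univ_sum (fun _ : Tau a b => (univ : Finset F2))
    (fun s x => 1 / (Fintype.card k : ℝ) ^ (x.val * (QQ a b s).natDegree))
  rw [Fintype.piFinset_univ] at h1
  have h2 : ∑ m : Tau a b → F2, 1 / (Fintype.card k : ℝ) ^ dg m =
      ∑ m : Tau a b → F2, ∏ s, 1 / (Fintype.card k : ℝ) ^ ((m s).val * (QQ a b s).natDegree) :=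
    sum_congr rfl fun m _ => w_eq H m
  rw [h2, ← h1, rh, ← prod_inv_distrib]
  refine prod_congr rfl fun s _ => ?_
  have h3 : (univ : Finset F2) = {0, 1} := by decide
  rw [h3, sum_pair zero_ne_one, one_div (1 + _), inv_inv]
  have h4 : (0 : F2).val = 0 := rfl
  have h5 : (1 : F2).val = 1 := rfl
  rw [h4, h5, zero_mul, pow_zero, one_mul, div_one]

/-- the density of the polynomials divisible by all the bad primes -/
noncomputable def dl (a b : k[X]) : ℝ :=
  ∏ s : Tau a b, 1 / ((Fintype.card k : ℝ) ^ (QQ a b s).natDegree + 1)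

include H in
theorem w_one : rh a b * (1 / (Fintype.card k : ℝ) ^ dg (fun _ : Tau a b => (1 : F2))) = dl a b := by
  have hq := q_gt (k := k)
  rw [w_eq H, rh, dl, ← prod_mul_distrib]
  refine prod_congr rfl fun s _ => ?_
  have h5 : (1 : F2).val = 1 := rfl
  rw [h5, one_mul]
  have h6 : (0 : ℝ) < (Fintype.card k : ℝ) ^ (QQ a b s).natDegree := by positivity
  field_simp

include H in
/-- the value of the limit -/
theorem tot_val (r : ℕ) : ∑ m : Tau a b → F2, (∑ ep, lE m ep r) / (Fintype.card k : ℝ) ^ dg m =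
    (1 - 1 / (Fintype.card k : ℝ)) * (ga r * (1 + (-1) ^ r * dl a b)) := by
  have hr := rh_pos a b
  have h1 : ∀ m : Tau a b → F2, (∑ ep, lE m ep r) / (Fintype.card k : ℝ) ^ dg m =
      (1 - 1 / (Fintype.card k : ℝ)) * rh a b * ga r * (1 / (Fintype.card k : ℝ) ^ dg m) +
      (1 - 1 / (Fintype.card k : ℝ)) * rh a b * ga r * (-1) ^ r *
        (Iv m * (1 / (Fintype.card k : ℝ) ^ dg m)) := by
    intro m
    rw [lE_sum, c00]
    have : (2 : ℝ) ^ Fintype.card (Tau a b) ≠ 0 := by positivity
    field_simp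
  rw [sum_congr rfl fun m _ => h1 m, sum_add_distrib, ← mul_sum, ← mul_sum, w_sum H]
  have h2 : ∑ m : Tau a b → F2, Iv m * (1 / (Fintype.card k : ℝ) ^ dg m) =
      1 / (Fintype.card k : ℝ) ^ dg (fun _ : Tau a b => (1 : F2)) := by
    rw [sum_eq_single (fun _ => (1 : F2))]
    · rw [Iv, if_pos (fun _ => rfl), one_mul]
    · intro m _ hm
      rw [Iv, if_neg (fun h => hm (funext h)), zero_mul]
    · intro h
      exact absurd (mem_univ _) h
  rw [h2]
  have h3 := w_one H
  have h4 : rh a b * (rh a b)⁻¹ = 1 := mul_inv_cancel₀ hr.ne'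
  calc _ = (1 - 1 / (Fintype.card k : ℝ)) * ga r * (rh a b * (rh a b)⁻¹) +
        (1 - 1 / (Fintype.card k : ℝ)) * ga r * (-1) ^ r *
          (rh a b * (1 / (Fintype.card k : ℝ) ^ dg (fun _ : Tau a b => (1 : F2)))) := by ring
    _ = _ := by
      rw [h3, h4]
      ring

end

section
variable {k : Type} [Field k] [Fintype k] [DecidableEq k] (K : Type) [Field K] [Algebra k[X] K]
  [IsFractionRing k[X] K]
variable {a b : k[X]} {N : ℕ} (H : Hyp a b N)

theorem ct_true : ∀ n, (ct (fun _ : k[X] => True) n) = (Sf k n).card := fun n => by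
  rw [ct]
  simp only [filter_true]

include H in
theorem all_lim : Tendsto (fun n : ℕ => (ct (fun _ : k[X] => True) n : ℝ) /
    (Fintype.card k : ℝ) ^ n) atTop (𝓝 (1 - 1 / (Fintype.card k : ℝ))) := by
  simp only [ct_true]
  exact Sf_lim H.hk

/-- the quotient of two limits -/
theorem quot {x y : ℕ → ℝ} {q u v : ℝ} (hq : q ≠ 0) (hv : v ≠ 0)
    (h1 : Tendsto (fun n => x n / q ^ n) atTop (𝓝 u))
    (h2 : Tendsto (fun n => y n / q ^ n) atTop (𝓝 v)) :
    Tendsto (fun n => x n / y n) atTop (𝓝 (u / v)) :=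
  (h1.div h2 hv).congr fun n => div_div_div_cancel_right₀ (pow_ne_zero n hq) _ _

include H in
/-- **the law for all the monic squarefree polynomials** -/
theorem law_tot (hq : 4 ≤ Fintype.card k)
    (h2t : ∀ u : W, u ≠ 0 → ∃ s, om u ((datum H).t s) ≠ 0) (r : ℕ) :
    Tendsto (fun n : ℕ => (ct (fun D => so k K a b D = 2 ^ (r + 2)) n : ℝ) /
      (ct (fun _ : k[X] => True) n : ℝ)) atTop (𝓝 (ga r * (1 + (-1) ^ r * dl a b))) := by
  have hk := kap_pos (k := k)
  have h1 := quot (by have := q_gt (k := k); positivity) hk.ne' (tot_lim K H hq h2t r) (all_lim H)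
  rw [tot_val H, mul_div_cancel_left₀ _ hk.ne'] at h1
  exact h1

end

end Pool.Agent.V8H26.YG
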