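import Pool.Agent.V8H26.YG.Spl
import Pool.Agent.V8H26.YB.All

/-!
# The law for all the monic squarefree polynomials
-/

set_option autoImplicit false
set_option linter.all false

open Polynomial Filter Topology
open scoped Classical

namespace Pool.Agent.V8H26.YG

open Pool.Agent.TH115.GD Pool.Agent.H341R2.Sharp Finset Pool.Agent.Y164.PS Pool.Agent.V8H26.XA
open Pool.Agent.V8H26.YL (P1E P2E gclE be be_mem cnt_law)
open Pool.Agent.V8H26.YA (sgn NSpl NSq gclE_iff nspl_iff sgT ga)

/-- a shift of the degree -/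
theorem shift {u f : ℕ → ℝ} {q x : ℝ} {d : ℕ} (hf : ∀ n, f (d + n) = u n)
    (h : Tendsto (fun n => u n / q ^ n) atTop (𝓝 x)) :
    Tendsto (fun n => f n / q ^ n) atTop (𝓝 (x / q ^ d)) := by
  rw [← tendsto_add_atTop_iff_nat d]
  have h1 := h.div_const (q ^ d)
  refine h1.congr fun n => ?_
  show u n / q ^ n / q ^ d = f (n + d) / q ^ (n + d)
  rw [add_comm n d, hf, pow_add, div_div, mul_comm]

section
variable {k : Type} [Field k] [Fintype k] [DecidableEq k] (K : Type) [Field K] [Algebra k[X] K]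
  [IsFractionRing k[X] K]
variable {a b : k[X]} {N : ℕ} (H : Hyp a b N) (m : Tau a b → F2)

/-- the density of a class -/
noncomputable def c00 (a b : k[X]) : ℝ :=
  (1 - 1 / (Fintype.card k : ℝ)) * rh a b / 2 ^ Fintype.card (Tau a b)

omit [DecidableEq k] in
theorem q_gt : (1 : ℝ) < (Fintype.card k : ℝ) := by exact_mod_cast Fintype.one_lt_card

theorem rh_pos (a b : k[X]) : 0 < rh a b := prod_pos fun s _ => by
  have := q_gt (k := k)
  positivity

theorem kap_pos : 0 < 1 - 1 / (Fintype.card k : ℝ) := by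
  have := q_gt (k := k)
  have h1 : 1 / (Fintype.card k : ℝ) < 1 := by
    rw [div_lt_one (by linarith)]
    exact this
  linarith

theorem c00_pos (a b : k[X]) : 0 < c00 a b := by
  have h1 := rh_pos a b
  have h2 := kap_pos (k := k)
  rw [c00]
  positivity

include H in
theorem cE_true (hq : 4 ≤ Fintype.card k) (ep : Tau a b → F2) :
    Tendsto (fun n : ℕ => (cE m ep (fun _ => True) n : ℝ) / (Fintype.card k : ℝ) ^ n) atTop
      (𝓝 (c00 a b)) := by
  have h1 := (cnt_law H (epc m ep) hq).mul (nb_lim H)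
  have h2 : 1 / 2 ^ Fintype.card (Tau a b) * ((1 - 1 / (Fintype.card k : ℝ)) * rh a b) =
      c00 a b := by
    rw [c00]
    ring
  rw [h2] at h1
  refine h1.congr' ?_
  obtain ⟨c0, hc0, hlow⟩ := nb_lower H hq
  filter_upwards [hlow] with n hn
  have hp : 0 < (((Sf k n).filter (nb a b)).card : ℝ) := by
    refine lt_of_lt_of_le ?_ hn
    have := q_gt (k := k)
    positivity
  rw [div_mul_div_cancel₀ hp.ne', cE]
  congr 3
  ext D
  rw [mem_filter, mem_filter, P2E]
  tauto

include H in
theorem cE_law (hq : 4 ≤ Fintype.card k)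
    (h2t : ∀ u : W, u ≠ 0 → ∃ s, om u ((datum H).t s) ≠ 0) (ep : Tau a b → F2) (r : ℕ) :
    Tendsto (fun n : ℕ => (cE m ep (fun D => so k K a b D = 2 ^ (r + 2)) n : ℝ) /
      (Fintype.card k : ℝ) ^ n) atTop
      (𝓝 (if r % 2 = spz m ep % 2 then be r * c00 a b else 0)) := by
  split_ifs with hr
  · have h1 := (law_clsG K H m ep hq h2t hr).mul (cE_true H m hq ep)
    refine h1.congr' ?_
    filter_upwards [(cE_true H m hq ep).eventually_const_lt (c00_pos a b)] with n hn
    have e1 : ((Sf k n).filter (P1E a b (epc m ep))).card = cE m ep (fun _ => True) n := by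
      rw [cE]
      congr 1
      ext D
      rw [mem_filter, mem_filter, P2E]
      tauto
    rw [e1]
    have hq0 : 0 < (Fintype.card k : ℝ) ^ n := by
      have := q_gt (k := k)
      positivity
    have hp : (cE m ep (fun _ => True) n : ℝ) ≠ 0 := by
      intro h
      rw [h, zero_div] at hn
      exact lt_irrefl _ hn
    rw [div_mul_div_cancel₀ hp]
    rfl
  · refine (tendsto_const_nhds (x := (0 : ℝ))).congr' ?_
    filter_upwards [eventually_ge_atTop 1] with n hn
    have h1 : cE m ep (fun D => so k K a b D = 2 ^ (r + 2)) n = 0 := by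
      rw [cE, card_eq_zero, filter_eq_empty_iff]
      rintro D hD ⟨h3, h4⟩
      obtain ⟨⟨r', h5, h6⟩, -⟩ := one_clsG K H m ep h2t hn hD h3
      have h7 : 2 ^ (r' + 2) = 2 ^ (r + 2) := h6.symm.trans h4
      have h8 := Nat.pow_right_injective (le_refl 2) h7
      apply hr
      have h9 : r' + 2 = r + 2 := h8
      omega
    rw [h1, Nat.cast_zero, zero_div]

/-- the type of a polynomial -/
noncomputable def tyOf (D : k[X]) (s : Tau a b) : F2 := if QQ a b s ∣ D then 1 else 0

theorem tyOf_iff {D : k[X]} : tyOf D = m ↔ Ty m D := by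
  rw [funext_iff]
  apply forall_congr'
  intro s
  rw [tyOf]
  have h : ∀ x : F2, (1 = x ↔ x = 1) ∧ (0 = x ↔ ¬ x = 1) := by decide
  split_ifs with h1
  · rw [(h _).1]
    exact ⟨fun h => ⟨fun _ => h, fun _ => h1⟩, fun h => h.1 h1⟩
  · rw [(h _).2]
    exact ⟨fun h => ⟨fun h2 => absurd h2 h1, fun h2 => absurd h2 h⟩, fun h h2 => h1 (h.2 h2)⟩

/-- the number of the squarefree polynomials with a property -/
noncomputable def ct (G : k[X] → Prop) (n : ℕ) : ℕ := ((Sf k n).filter G).card

theorem ct_of (G : k[X] → Prop) [inst : DecidablePred G] (n : ℕ) :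
    ((Sf k n).filter G).card = ct G n := by
  rw [ct]
  congr

theorem ct_congr {G G' : k[X] → Prop} {n : ℕ} (h : ∀ D ∈ Sf k n, G D ↔ G' D) :
    ct G n = ct G' n := by
  rw [ct, ct]
  congr 1
  exact filter_congr h

theorem ty_sum (a b : k[X]) (G : k[X] → Prop) (n : ℕ) : ct G n =
    ∑ m : Tau a b → F2, ct (fun D => Ty m D ∧ G D) n := by
  rw [ct, Finset.card_eq_sum_card_fiberwise (f := tyOf (a := a) (b := b)) (t := univ)
    (fun _ _ => mem_coe.2 (mem_univ _))]
  refine sum_congr rfl fun m _ => ?_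
  rw [filter_filter, ct_of]
  apply ct_congr
  intro D _
  rw [tyOf_iff]
  exact and_comm

include H in
theorem ty_cls (G : k[X] → Prop) (n : ℕ) :
    ct (fun D => Ty m D ∧ G D) (dg m + n) = ∑ ep, cE m ep G n := by
  have h0 := cnt_ty H m G n
  rw [ct_of, ct_of] at h0
  rw [h0]
  have h1 := cnt_cls m (fun _ => True) G n
  rw [ct_of] at h1
  simp only [filter_true] at h1
  rw [← h1]
  apply ct_congr
  intro D _
  tauto

/-- the limit of a class -/
noncomputable def lE (m ep : Tau a b → F2) (r : ℕ) : ℝ :=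
  if r % 2 = spz m ep % 2 then be r * c00 a b else 0

include H in
theorem tot_lim (hq : 4 ≤ Fintype.card k)
    (h2t : ∀ u : W, u ≠ 0 → ∃ s, om u ((datum H).t s) ≠ 0) (r : ℕ) :
    Tendsto (fun n : ℕ => (ct (fun D => so k K a b D = 2 ^ (r + 2)) n : ℝ) /
      (Fintype.card k : ℝ) ^ n) atTop
      (𝓝 (∑ m : Tau a b → F2, (∑ ep, lE m ep r) / (Fintype.card k : ℝ) ^ dg m)) := by
  have h1 : (fun n : ℕ => (ct (fun D => so k K a b D = 2 ^ (r + 2)) n : ℝ) /
      (Fintype.card k : ℝ) ^ n) = fun n => ∑ m : Tau a b → F2,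
        (ct (fun D => Ty m D ∧ so k K a b D = 2 ^ (r + 2)) n : ℝ) /
          (Fintype.card k : ℝ) ^ n := by
    funext n
    rw [ty_sum a b (fun D => so k K a b D = 2 ^ (r + 2)) n]
    push_cast
    rw [sum_div]
  rw [h1]
  refine tendsto_finset_sum _ fun m _ => ?_
  refine shift (u := fun n => ∑ ep, (cE m ep (fun D => so k K a b D = 2 ^ (r + 2)) n : ℝ)) ?_ ?_
  · intro n
    rw [ty_cls H m (fun D => so k K a b D = 2 ^ (r + 2)) n]
    push_cast
    rfl
  · simp only [sum_div]
    exact tendsto_finset_sum _ fun ep _ => cE_law K H m hq h2t ep r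

end

end Pool.Agent.V8H26.YG
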