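import Pool.Agent.V8H26.YG.Chn
import Pool.Agent.V8H26.XL.Trv

/-!
# The kernel of the form, with one index eliminated, and the class condition
-/

set_option autoImplicit false
set_option linter.all false

namespace Pool.Agent.V8H26.YG

open Module Finset
open Pool.Agent.V8H26.XL (Arr rep rep_rep vh va F2s F2c F2n X_self ex mem_ex Wc kr mem_kr rho rho_congr kr_congr
  ind ind_congr ind_pos ind_neg ind_nonneg ind_le_one gg gg_bd av av_congr
  av_shift av_ind Mop MM av_add av_mul av_mul' av_const av_comm av_sub fun_self MM_sum MM_mono MM_mul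
  MM_sub MM_append CX av_sum MM_abs MM_const av_prod av_equiv av_point)
open Pool.Agent.V8H26.YL (Cvp)
open Pool.Agent.Y164.PS (W om om_add_left om_add_right om_comm om_self om_zero_left om_zero_right Oq
  om_smul_left om_smul_right eq_zero_of_om W_add_self sg sg_add sg_zero sg_one abs_sg)
open scoped Classical

section
variable {ι τ Z : Type} [AddCommGroup Z] [Module (ZMod 2) Z] [Fintype ι] [Fintype τ] [Fintype Z]

/-- a radical of dimension two -/
theorem rho_split {B : LinearMap.BilinForm (ZMod 2) (VZ ι Z)} (hs : ∀ u v, B u v = B v u)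
    (T : W →ₗ[ZMod 2] VZ ι Z) (hT : ∀ y i, (T y).1 i = y) (hB : ∀ y w, B (T y) w = 0) (j : ι) :
    rho B ⊤ = rho B (SZ (univ.erase j)) + 2 := by
  have hsplit : ∀ v : VZ ι Z, v + T (v.1 j) ∈ SZ (Z := Z) (univ.erase j) := by
    intro v i hi
    have hij : i = j := by
      by_contra h
      exact hi (mem_erase.2 ⟨h, mem_univ _⟩)
    show v.1 i + (T (v.1 j)).1 i = 0
    rw [hT, hij]
    exact W_add_self _
  obtain ⟨Ψ, hΨ⟩ : ∃ Ψ : (W × kr B (SZ (univ.erase j))) →ₗ[ZMod 2] VZ ι Z,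
      ∀ p, Ψ p = T p.1 + p.2.1 :=
    ⟨{ toFun := fun p => T p.1 + p.2.1
       map_add' := fun p q => by
         show T (p.1 + q.1) + (p.2.1 + q.2.1) = _
         rw [map_add]
         abel
       map_smul' := fun c p => by
         show T (c • p.1) + c • p.2.1 = c • (T p.1 + p.2.1)
         rw [map_smul, smul_add] }, fun p => rfl⟩
  have hmem : ∀ p, Ψ p ∈ kr B ⊤ := by
    intro p
    rw [hΨ]
    refine ⟨Submodule.mem_top, fun v _ => ?_⟩
    have e1 : B p.2.1 (v + T (v.1 j)) = B p.2.1 v := by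
      rw [map_add, hs _ (T _), hB, add_zero]
    rw [map_add, LinearMap.add_apply, hB, zero_add, ← e1]
    exact p.2.2.2 _ (hsplit v)
  have hker' : ∀ v : VZ ι Z, v ∈ kr B ⊤ → v + T (v.1 j) ∈ kr B (SZ (univ.erase j)) := by
    intro v hv
    refine ⟨hsplit v, fun w' _ => ?_⟩
    rw [map_add, LinearMap.add_apply, hB, add_zero]
    exact hv.2 w' Submodule.mem_top
  have hbij : Function.Bijective (LinearMap.codRestrict (kr B ⊤) Ψ hmem) := by
    constructor
    · rintro ⟨y, ⟨w, hw⟩⟩ ⟨y', ⟨w', hw'⟩⟩ h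
      have h1 : Ψ (y, ⟨w, hw⟩) = Ψ (y', ⟨w', hw'⟩) := congrArg Subtype.val h
      rw [hΨ, hΨ] at h1
      have h2 : w.1 j = 0 := hw.1 j (notMem_erase j _)
      have h3 : w'.1 j = 0 := hw'.1 j (notMem_erase j _)
      have h4 : (T y).1 j + w.1 j = (T y').1 j + w'.1 j := congrFun (congrArg Prod.fst h1) j
      rw [h2, h3, add_zero, add_zero, hT, hT] at h4
      subst h4
      have h5 : w = w' := add_left_cancel h1
      subst h5
      rfl
    · rintro ⟨v, hv⟩
      refine ⟨(v.1 j, ⟨v + T (v.1 j), hker' v hv⟩), Subtype.ext ?_⟩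
      have h6 : Ψ (v.1 j, ⟨v + T (v.1 j), hker' v hv⟩) = v := by
        rw [hΨ, add_comm]
        show v + T (v.1 j) + T (v.1 j) = v
        rw [add_assoc, X_self, add_zero]
      exact h6
  have h3 := LinearEquiv.finrank_eq (LinearEquiv.ofBijective _ hbij)
  rw [finrank_prod] at h3
  have h4 : finrank (ZMod 2) W = 2 := by
    show finrank (ZMod 2) (ZMod 2 × ZMod 2) = 2
    rw [finrank_prod, finrank_self]
  rw [h4] at h3
  rw [rho, rho, ← h3, add_comm]

/-- the function of an array -/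
noncomputable def PsA (b : τ → ZMod 2) (Φ : Arr ι τ → ℕ) (F : ℕ → ℝ) (c : ℝ) (a : Arr ι τ) : ℝ :=
  ind (∀ s, ∑ i, a.B i s = b s) * (F (Φ a) - c)

variable {D : DZ τ Z}

theorem Mop_PsA (R : RZ ι D) (b : τ → ZMod 2) (Φ : Arr ι τ → ℕ) (j : ι)
    (hΦ : ∀ a : Arr ι τ, (∀ s, ∑ i, a.B i s = b s) → Φ a = rho (fz R a 0) (SZ (univ.erase j)))
    (F : ℕ → ℝ) (c : ℝ) (a : Arr ι τ) :
    Mop j (PsA b Φ F c) a = 1 / 2 ^ Fintype.card τ * (EZ R F (univ.erase j) 0 a - c) := by
  set b' : τ → ZMod 2 := fun s => ∑ i ∈ univ.erase j, a.B i s + b s with hb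
  set G : (ι → ZMod 2) → ℝ := fun x => F (rho (fz R (rep j 0 a) x) (SZ (univ.erase j))) - c
    with hG
  have hcl : ∀ v : ι ⊕ τ → ZMod 2, (∀ s, ∑ i, (rep j v a).B i s = b s) ↔
      (fun s => v (Sum.inr s)) = b' := by
    intro v
    rw [funext_iff]
    apply forall_congr'
    intro s
    have h1 : ∑ i, (rep j v a).B i s = v (Sum.inr s) + ∑ i ∈ univ.erase j, a.B i s := by
      rw [← add_sum_erase univ _ (mem_univ j)]
      congr 1
      · simp [rep]
      · refine sum_congr rfl fun i hi => ?_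
        simp [rep, ne_of_mem_erase hi]
    rw [h1, hb]
    have h2 : ∀ x y z : ZMod 2, x + y = z ↔ x = y + z := by decide
    exact h2 _ _ _
  have h1 : ∀ v : ι ⊕ τ → ZMod 2, PsA b Φ F c (rep j v a) =
      ind ((fun s => v (Sum.inr s)) = b') * G (fun i => v (Sum.inl i)) := by
    intro v
    rw [PsA]
    by_cases h : ∀ s, ∑ i, (rep j v a).B i s = b s
    · rw [ind_pos h, ind_pos ((hcl v).1 h), one_mul, one_mul, hΦ _ h, hG]
      show F _ - c = F _ - c
      congr 2
      apply rho_congr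
      intro u hu w hw
      have hu' := hu j (notMem_erase j _)
      have hw' := hw j (notMem_erase j _)
      have h2 := fz_rest R j v a (vh j v) u w hu' hw'
      rw [fun_self] at h2
      rw [h2]
      have h3 := fz_x R (rep j 0 a) 0 (vh j v) u w
      have h4 := fz_x R (rep j 0 a) 0 (fun i => v (Sum.inl i)) u w
      rw [zero_add] at h3 h4
      rw [h3, h4]
      congr 1
      refine sum_congr rfl fun i _ => ?_
      by_cases hij : i = j
      · rw [hij, hu', om_zero_left, mul_zero, mul_zero]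
      · rw [vh, if_neg hij]
    · rw [ind_neg h, ind_neg (fun h' => h ((hcl v).2 h')), zero_mul, zero_mul]
  rw [Mop, av_congr h1]
  have h2 := av_equiv (Equiv.sumArrowEquivProdArrow ι τ (ZMod 2))
    (fun p : (ι → ZMod 2) × (τ → ZMod 2) => ind (p.2 = b') * G p.1)
  have h3 : av (fun v : ι ⊕ τ → ZMod 2 => ind ((fun s => v (Sum.inr s)) = b') *
      G (fun i => v (Sum.inl i))) = av (fun p : (ι → ZMod 2) × (τ → ZMod 2) =>
        ind (p.2 = b') * G p.1) := h2
  rw [h3, av_prod]
  have h4 : ∀ x : ι → ZMod 2, av (fun y : τ → ZMod 2 => ind (y = b') * G x) =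
      1 / 2 ^ Fintype.card τ * G x := fun x => by rw [av_mul', av_point]
  have h5 : av (fun x : ι → ZMod 2 => av fun y : τ → ZMod 2 =>
      ind ((x, y).2 = b') * G (x, y).1) = av fun x : ι → ZMod 2 => 1 / 2 ^ Fintype.card τ * G x :=
    av_congr h4
  rw [h5, av_mul, hG]
  congr 1
  rw [av_sub, av_const, EZ_self R F (notMem_erase j univ)]
  rfl

/-- **the random model for the class** -/
theorem model_clZ (h2t : ∀ u : W, u ≠ 0 → ∃ s, om u (D.t s) ≠ 0) {p : ℕ} {F : ℕ → ℝ} {c : ℝ}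
    (h0 : ∀ r, 0 ≤ F r) (h1 : ∀ r, F r ≤ 1) (hc : Cvp (p % 2) F c) {ε : ℝ} (hε : 0 < ε) :
    ∃ K : ℕ, ∀ (ι : Type) [Fintype ι] (R : RZ ι D) (b : τ → ZMod 2) (Φ : Arr ι τ → ℕ)
      (lg : Finset ι) (j₁ : ι),
      R.B (0, D.c) (0, D.c) + finrank (ZMod 2) Z = (p : ZMod 2) → (∀ S, j₁ ∈ S → HI R S) →
      (∀ (j : ι) (a : Arr ι τ), (∀ s, ∑ i, a.B i s = b s) →
        Φ a = rho (fz R a 0) (SZ (univ.erase j))) →
      254 * (Fintype.card ι - lg.card) + K ≤ lg.card →
      ∃ l : List ι, l.Nodup ∧ l.length = lg.card ∧ (∀ j ∈ l, j ∈ lg) ∧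
        ∀ a : Arr ι τ, |MM l (PsA b Φ F c) a| ≤ ε / 2 ^ Fintype.card τ := by
  obtain ⟨K, hK⟩ := modelZ (D := D) h2t (p := p) h0 h1 hc hε
  refine ⟨K + 256, fun ι _ R b Φ lg j₁ hp hI hΦ hlen => ?_⟩
  have hlgle : lg.card ≤ Fintype.card ι := card_le_univ _
  have hE : lg.card - 1 ≤ (lg.erase j₁).card := pred_card_le_card_erase
  obtain ⟨j, l', hl'⟩ : ∃ j l', (lg.erase j₁).toList = j :: l' := by
    apply List.exists_cons_of_ne_nil
    intro h
    have h2 := length_toList (lg.erase j₁)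
    rw [h, List.length_nil] at h2
    omega
  have hnd : (j :: l').Nodup := by rw [← hl']; exact nodup_toList _
  have hmem : ∀ i ∈ j :: l', i ∈ lg ∧ i ≠ j₁ := by
    intro i hi
    rw [← hl', mem_toList, mem_erase] at hi
    exact ⟨hi.2, hi.1⟩
  have hlen' : (j :: l').length = (lg.erase j₁).card := by rw [← hl', length_toList]
  rw [List.length_cons] at hlen'
  have hjj : j₁ ≠ j := (hmem j (by simp)).2.symm
  have hnd' := (List.nodup_cons.1 hnd)
  have hbd : ∀ a : Arr ι τ, |MM (j :: l') (PsA b Φ F c) a| ≤ ε / 2 ^ Fintype.card τ := by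
    intro a
    have h2 : MM (j :: l') (PsA b Φ F c) a =
        1 / 2 ^ Fintype.card τ * (MM l' (EZ R F (univ.erase j) 0) a - c) := by
      show MM l' (Mop j (PsA b Φ F c)) a = _
      have h3 : Mop j (PsA b Φ F c) = fun a => 1 / 2 ^ Fintype.card τ *
          (EZ R F (univ.erase j) 0 a - (fun _ => c) a) := by
        funext a'
        exact Mop_PsA R b Φ j (hΦ j) F c a'
      rw [h3, MM_mul, MM_sub, MM_const]
    have h4 := hK ι R (univ.erase j) l' hp (hI _ (by
        rw [Finset.mem_sdiff, mem_erase]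
        exact ⟨⟨hjj, mem_univ _⟩, fun h => (hmem j₁ (List.mem_cons_of_mem _
          (List.mem_toFinset.1 h))).2 rfl⟩)) hnd'.2 (fun i hi => mem_erase.2
      ⟨fun h => hnd'.1 (h ▸ hi), mem_univ _⟩) (by
        rw [card_erase_of_mem (mem_univ _), card_univ]
        omega) a
    rw [h2, abs_mul, abs_of_nonneg (by positivity : (0 : ℝ) ≤ 1 / 2 ^ Fintype.card τ)]
    rw [div_mul_eq_mul_div, one_mul]
    exact div_le_div_of_nonneg_right h4 (by positivity)
  by_cases h1g : j₁ ∈ lg
  · refine ⟨(j :: l') ++ [j₁], ?_, ?_, ?_, fun a => ?_⟩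
    · rw [List.nodup_append]
      refine ⟨hnd, List.nodup_singleton _, ?_⟩
      intro x hx y hy
      rw [List.mem_singleton] at hy
      rw [hy]
      exact (hmem x hx).2
    · rw [List.length_append, List.length_cons, List.length_singleton, hlen', card_erase_of_mem h1g]
      have : 0 < lg.card := card_pos.2 ⟨_, h1g⟩
      omega
    · intro i hi
      rw [List.mem_append, List.mem_singleton] at hi
      rcases hi with hi | rfl
      · exact (hmem i hi).1
      · exact h1g
    · rw [MM_append]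
      have h5 := MM_abs [j₁] (Φ := MM (j :: l') (PsA b Φ F c)) (Ψ := fun _ => 0)
        (Θ := fun _ => ε / 2 ^ Fintype.card τ) (fun b => by rw [sub_zero]; exact hbd b) a
      rw [MM_const, MM_const, sub_zero] at h5
      exact h5
  · refine ⟨j :: l', hnd, ?_, fun i hi => (hmem i hi).1, hbd⟩
    rw [List.length_cons, hlen', erase_eq_of_notMem h1g]

end

end Pool.Agent.V8H26.YG
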