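import Pool.Agent.V8H26.YG.Alg
import Pool.Agent.V8H26.YG.Trv

/-!
# The forms of a twist with bad prime factors
-/

set_option autoImplicit false
set_option linter.all false

namespace Pool.Agent.V8H26.YG

open Module Finset
open Pool.Agent.V8H26.XL (Arr rep rep_rep vh va F2s F2c F2n X_self kr mem_kr rho rho_congr kr_congr
  ind ind_congr MM)
open Pool.Agent.V8H26.YL (Cvp)
open Pool.Agent.Y164.PS (W om om_add_left om_add_right om_comm om_self om_zero_left om_zero_right Oq
  om_smul_left om_smul_right eq_zero_of_om W_add_self om_ks_comm om_ks_self ks ks_add uu Dat om_sum_left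
  om_sum_right)
open scoped Classical

section
variable {ι τ : Type} [Fintype ι] [Fintype τ] (D : DT τ) (m ep : τ → ZMod 2) (d : ι → ZMod 2)

/-- all exponents -/
abbrev UU (ι τ : Type) := (ι → W) × (τ → W)

/-- the component at a prime of the twist -/
def pI (i : ι) : UU ι τ →ₗ[ZMod 2] W :=
  (LinearMap.proj i).comp (LinearMap.fst (ZMod 2) (ι → W) (τ → W))

/-- the component at a bad prime -/
def pS (s : τ) : UU ι τ →ₗ[ZMod 2] W :=
  (LinearMap.proj s).comp (LinearMap.snd (ZMod 2) (ι → W) (τ → W))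

/-- the degree -/
noncomputable def dL : UU ι τ →ₗ[ZMod 2] W := ∑ i, d i • pI i + ∑ s, D.e s • pS s

theorem dL_apply (w : UU ι τ) : dL D d w = ∑ i, d i • w.1 i + ∑ s, D.e s • w.2 s := by
  rw [dL, LinearMap.add_apply, LinearMap.sum_apply, LinearMap.sum_apply]
  rfl

/-- the constant part of the form, without the place at infinity -/
noncomputable def RB : LinearMap.BilinForm (ZMod 2) (UU ι τ) :=
  ∑ i, d i • omB.compl₁₂ ((ksL D.l).comp (pI i)) (pI i) +
  ∑ s, ∑ s', D.G s s' • omB.compl₁₂ (pS s') (pS s) +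
  ∑ s, (kap D m ep s).compl₁₂ (pS s) (pS s)

theorem RB_apply (w w' : UU ι τ) : RB D m ep d w w' =
    ∑ i, d i * om (ks D.l (w.1 i)) (w'.1 i) + ∑ s, ∑ s', D.G s s' * om (w.2 s') (w'.2 s) +
    ∑ s, kap D m ep s (w.2 s) (w'.2 s) := by
  simp only [RB, LinearMap.add_apply, LinearMap.sum_apply, LinearMap.smul_apply,
    LinearMap.compl₁₂_apply]
  rfl

theorem RB_comm (w w' : UU ι τ) : RB D m ep d w w' = RB D m ep d w' w := by
  rw [RB_apply, RB_apply]
  congr 1
  · congr 1
    · exact sum_congr rfl fun i _ => by rw [om_ks_comm]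
    · rw [sum_comm]
      refine sum_congr rfl fun s _ => sum_congr rfl fun s' _ => ?_
      rw [D.symm, om_comm]
  · exact sum_congr rfl fun s _ => kap_comm D m ep s _ _

theorem G_alt (z : τ → W) : ∑ s, ∑ s', D.G s s' * om (z s') (z s) = 0 := by
  rw [← sum_product']
  refine sum_involution (fun p _ => (p.2, p.1)) ?_ ?_ (fun _ _ => by simp) (fun _ _ => rfl)
  · intro p _
    show D.G p.1 p.2 * om (z p.2) (z p.1) + D.G p.2 p.1 * om (z p.1) (z p.2) = 0
    rw [D.symm p.2 p.1, om_comm (z p.1), F2s]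
  · intro p _ hp h
    have h2 : p.2 = p.1 := congrArg Prod.fst h
    apply hp
    show D.G p.1 p.2 * om (z p.2) (z p.1) = 0
    rw [h2, om_self, mul_zero]

theorem RB_diag (w : UU ι τ) (hw : ∀ s, w.2 s ∈ Ls D m ep s) :
    RB D m ep d w w + om (dL D d w) (uu D.l) = RB D m ep d w (0, D.t) := by
  rw [RB_apply, RB_apply, G_alt D w.2, dL_apply, om_add_left, om_sum_left, om_sum_left]
  have e1 : ∑ i, d i * om (ks D.l (w.1 i)) (w.1 i) = ∑ i, om (d i • w.1 i) (uu D.l) :=
    sum_congr rfl fun i _ => by rw [om_ks_self, om_smul_left]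
  have e2 : ∑ i, d i * om (ks D.l (w.1 i)) ((0 : ι → W) i) = 0 :=
    sum_eq_zero fun i _ => by rw [Pi.zero_apply, om_zero_right, mul_zero]
  have e3 : ∑ s, ∑ s', D.G s s' * om (w.2 s') (D.t s) =
      ∑ s, ∑ s', D.G s s' * om (w.2 s) (D.t s') := by
    rw [sum_comm]
    exact sum_congr rfl fun s _ => sum_congr rfl fun s' _ => by rw [D.symm]
  have e4 : ∑ s, om (D.e s • w.2 s) (uu D.l) + ∑ s, kap D m ep s (w.2 s) (w.2 s) =
      ∑ s, ∑ s', D.G s s' * om (w.2 s) (D.t s') + ∑ s, kap D m ep s (w.2 s) (D.t s) := by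
    rw [← sum_add_distrib, ← sum_add_distrib]
    refine sum_congr rfl fun s _ => ?_
    rw [om_smul_left]
    exact kap_diag D m ep s (hw s)
  rw [e1, e2, e3]
  linear_combination e4 + (∑ i, om (d i • w.1 i) (uu D.l)) * F2s 1

theorem dL_t : dL D d ((0 : ι → W), D.t) = 0 := by
  rw [dL_apply]
  have e1 : ∑ i, d i • (0 : ι → W) i = 0 := sum_eq_zero fun i _ => smul_zero _
  rw [e1, zero_add]
  exact D.h3

theorem RB_tt : RB D m ep d ((0 : ι → W), D.t) ((0 : ι → W), D.t) = ∑ s, kap D m ep s (D.t s) (D.t s) := by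
  rw [RB_apply, G_alt D D.t]
  have e1 : ∑ i, d i * om (ks D.l ((0 : ι → W) i)) ((0 : ι → W) i) = 0 :=
    sum_eq_zero fun i _ => by rw [Pi.zero_apply, om_zero_right, mul_zero]
  rw [e1, zero_add, zero_add]

/-- the exponents of the points of order two -/
def Th (y : W) : UU ι τ := (fun _ => y, fun s => th D m s y)

theorem dL_Th (y : W) : dL D d (Th D m y) = (∑ i, d i + D.N + ∑ s, m s * D.e s) • y := by
  rw [dL_apply]
  have e1 : ∑ i, d i • (Th (ι := ι) D m y).1 i = (∑ i, d i) • y := by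
    rw [sum_smul]
    rfl
  have e2 : ∑ s, D.e s • (Th (ι := ι) D m y).2 s = D.N • y + (∑ s, m s * D.e s) • y := by
    rw [← D.h4 y, sum_smul, ← sum_add_distrib]
    refine sum_congr rfl fun s _ => ?_
    show D.e s • th D m s y = _
    rw [th_apply, smul_add, smul_smul, smul_smul, mul_comm (m s)]
    abel
  rw [e1, e2, add_smul, add_smul]
  abel

theorem RB_Th (y : W) (w : UU ι τ) (hw : ∀ s, w.2 s ∈ Ls D m ep s) :
    RB D m ep d (Th D m y) w = om (ks D.l y) (dL D d w) +
      ∑ s, (ep s + gg' D m s) * om y (w.2 s) := by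
  rw [RB_apply, dL_apply, om_add_right, om_sum_right, om_sum_right]
  have e1 : ∑ i, d i * om (ks D.l ((Th (ι := ι) D m y).1 i)) (w.1 i) =
      ∑ i, om (ks D.l y) (d i • w.1 i) := sum_congr rfl fun i _ => by rw [om_smul_right]; rfl
  have e2 : ∑ s, kap D m ep s ((Th (ι := ι) D m y).2 s) (w.2 s) =
      ∑ s, (ep s + gg' D m s) * om y (w.2 s) + (∑ s, ∑ s', D.G s s' * om (th D m s' y) (w.2 s) +
        ∑ s, om (ks D.l y) (D.e s • w.2 s)) := by
    rw [← sum_add_distrib, ← sum_add_distrib]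
    refine sum_congr rfl fun s _ => ?_
    have h := kap_th D m ep s y (hw s)
    rw [om_Mm] at h
    rw [om_smul_right]
    exact h
  have e3 : ∑ s, ∑ s', D.G s s' * om ((Th (ι := ι) D m y).2 s') (w.2 s) =
      ∑ s, ∑ s', D.G s s' * om (th D m s' y) (w.2 s) := rfl
  rw [e1, e2, e3]
  linear_combination (∑ s, ∑ s', D.G s s' * om (th D m s' y) (w.2 s)) * F2s 1

/-- the symbols at the points of order two -/
theorem BZ_Th {Z : Type} [AddCommGroup Z] [Module (ZMod 2) Z] (E : DZ τ Z) (ht : E.t = D.t)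
    (hm : E.m = m) (a : Arr ι τ) (y : W) (z : Z) (hz : ∀ s, E.xh z s = th D m s y) (w : VZ ι Z) :
    BZ E a (fun _ => y, z) w = ∑ s, (∑ i, a.B i s) * om y (E.xh w.2 s) := by
  rw [BZ, sum_comm]
  refine sum_congr rfl fun s _ => ?_
  rw [sum_mul]
  refine sum_congr rfl fun i _ => ?_
  congr 1
  show ez (E.t s) (E.m s) (E.xh z s) (E.xh w.2 s) (y, w.1 i) = _
  rw [hz, ht, hm, ez, om_th]
  show m s * om y (w.1 i) + om y (D.t s) * om (D.t s) (w.1 i) + om y (E.xh w.2 s) +
    m s * om y (w.1 i) + om y (D.t s) * om (w.1 i) (D.t s) = _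
  rw [om_comm (D.t s) (w.1 i)]
  linear_combination (m s * om y (w.1 i) + om y (D.t s) * om (w.1 i) (D.t s)) * F2s 1

theorem AZ_Th {Z : Type} [AddCommGroup Z] [Module (ZMod 2) Z] (a : Arr ι τ) (y : W) (z : Z)
    (w : VZ ι Z) : AZ a (fun _ => y, z) w = 0 := by
  rw [AZ]
  refine sum_eq_zero fun i _ => sum_eq_zero fun j _ => ?_
  show a.A i j * (om y (w.1 i) + om y (w.1 i)) = 0
  rw [F2s, mul_zero]

/-! ### The two spaces -/

/-- the exponents at the bad primes -/
def ZL : Submodule (ZMod 2) (τ → W) where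
  carrier := {z | ∀ s, z s ∈ Ls D m ep s}
  add_mem' := fun h h' s => Submodule.add_mem _ (h s) (h' s)
  zero_mem' := fun s => Submodule.zero_mem _
  smul_mem' := fun c z h s => Submodule.smul_mem _ _ (h s)

theorem t_ZL : D.t ∈ ZL D m ep := fun s => t_mem D m ep s

theorem th_ZL (y : W) : (fun s => th D m s y) ∈ ZL D m ep := fun s => th_mem D m ep s y

/-- the data, if the reduction at infinity is additive -/
noncomputable def Do : DZ τ (ZL D m ep) where
  xh := (ZL D m ep).subtype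
  t := D.t
  m := m
  c := ⟨D.t, t_ZL D m ep⟩
  hc := fun _ => rfl

/-- the data, if the reduction at infinity is good -/
noncomputable def De : DZ τ (ZL D m ep × W) where
  xh := (ZL D m ep).subtype.comp (LinearMap.fst (ZMod 2) (ZL D m ep) W)
  t := D.t
  m := m
  c := (⟨D.t, t_ZL D m ep⟩, uu D.l)
  hc := fun _ => rfl

/-- the inclusion -/
def iO : VZ ι (ZL D m ep) →ₗ[ZMod 2] UU ι τ :=
  LinearMap.prodMap LinearMap.id (ZL D m ep).subtype

/-- the inclusion -/
def iE : VZ ι (ZL D m ep × W) →ₗ[ZMod 2] UU ι τ :=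
  LinearMap.prodMap LinearMap.id ((ZL D m ep).subtype.comp (LinearMap.fst (ZMod 2) (ZL D m ep) W))

/-- the constants -/
def xE : VZ ι (ZL D m ep × W) →ₗ[ZMod 2] W :=
  (LinearMap.snd (ZMod 2) (ZL D m ep) W).comp (LinearMap.snd (ZMod 2) (ι → W) (ZL D m ep × W))

/-- the constant part of the form, if the reduction at infinity is additive -/
noncomputable def Ro : RZ ι (Do D m ep) where
  B := (RB D m ep d).compl₁₂ (iO D m ep) (iO D m ep) +
    omB.compl₁₂ ((ksL D.l).comp ((dL D d).comp (iO D m ep))) ((dL D d).comp (iO D m ep))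
  symm := by
    intro u v
    show RB D m ep d (iO D m ep u) (iO D m ep v) + om (ks D.l (dL D d (iO D m ep u)))
      (dL D d (iO D m ep v)) = RB D m ep d (iO D m ep v) (iO D m ep u) +
      om (ks D.l (dL D d (iO D m ep v))) (dL D d (iO D m ep u))
    rw [RB_comm, om_ks_comm]
  diag := by
    intro u
    have h1 := RB_diag D m ep d (iO D m ep u) (fun s => u.2.2 s)
    show RB D m ep d (iO D m ep u) (iO D m ep u) + om (ks D.l (dL D d (iO D m ep u)))
      (dL D d (iO D m ep u)) = RB D m ep d (iO D m ep u) (0, D.t) +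
      om (ks D.l (dL D d (iO D m ep u))) (dL D d (0, D.t))
    rw [om_ks_self, dL_t, om_zero_right, add_zero, h1]

/-- the constant part of the form, if the reduction at infinity is good -/
noncomputable def Re : RZ ι (De D m ep) where
  B := (RB D m ep d).compl₁₂ (iE D m ep) (iE D m ep) +
    omB.compl₁₂ (xE D m ep) ((dL D d).comp (iE D m ep)) +
    omB.compl₁₂ ((dL D d).comp (iE D m ep)) (xE D m ep)
  symm := by
    intro u v
    show RB D m ep d _ _ + om _ (dL D d _) + om (dL D d _) _ =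
      RB D m ep d _ _ + om _ (dL D d _) + om (dL D d _) _
    rw [RB_comm, om_comm (xE D m ep u), om_comm (dL D d (iE D m ep u))]
    ring
  diag := by
    intro u
    have h1 := RB_diag D m ep d (iE D m ep u) (fun s => u.2.1.2 s)
    show RB D m ep d (iE D m ep u) (iE D m ep u) + om (xE D m ep u) (dL D d (iE D m ep u)) +
      om (dL D d (iE D m ep u)) (xE D m ep u) = RB D m ep d (iE D m ep u) (0, D.t) +
      om (xE D m ep u) (dL D d (0, D.t)) + om (dL D d (iE D m ep u)) (uu D.l)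
    rw [dL_t, om_zero_right, add_zero, ← h1, om_comm (xE D m ep u)]
    linear_combination (om (dL D d (iE D m ep u)) (xE D m ep u) -
      om (dL D d (iE D m ep u)) (uu D.l)) * F2s 1

theorem HI_o (S : Finset ι) : HI (Ro D m ep d) S := by
  intro z hz _
  exact Subtype.ext hz

theorem HI_e {j₁ : ι} (hd : d j₁ = 1) {S : Finset ι} (hj : j₁ ∈ S) : HI (Re D m ep d) S := by
  rintro ⟨z, x0⟩ hz hw
  have hz0 : z = 0 := Subtype.ext hz
  subst hz0
  refine Prod.ext rfl ?_
  apply eq_zero_of_om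
  intro y
  have h1 := hw (vz j₁ y) (fun i hi => by
    rw [vz_fst, if_neg (by rintro rfl; exact hi hj)])
  have h2 : iE D m ep (((0 : ι → W), ((0 : ZL D m ep), x0)) : VZ ι (ZL D m ep × W)) = 0 := rfl
  have h3 : RB D m ep d (iE D m ep ((0 : ι → W), ((0 : ZL D m ep), x0))) (iE D m ep (vz j₁ y)) +
      om x0 (dL D d (iE D m ep (vz j₁ y))) +
      om (dL D d (iE D m ep ((0 : ι → W), ((0 : ZL D m ep), x0)))) (xE D m ep (vz j₁ y)) = 0 := h1
  rw [h2, map_zero, map_zero, LinearMap.zero_apply, om_zero_left, zero_add, add_zero, dL_apply] at h3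
  have h4 : ∑ i, d i • (iE D m ep (vz j₁ y)).1 i = y := by
    rw [sum_eq_single j₁]
    · show d j₁ • (vz (Z := ZL D m ep × W) j₁ y).1 j₁ = y
      rw [vz_fst, if_pos rfl, hd, one_smul]
    · intro i _ hi
      show d i • (vz (Z := ZL D m ep × W) j₁ y).1 i = 0
      rw [vz_fst, if_neg hi, smul_zero]
    · intro h
      exact absurd (mem_univ _) h
  have h5 : ∑ s, D.e s • (iE (ι := ι) D m ep (vz j₁ y)).2 s = 0 :=
    sum_eq_zero fun s _ => smul_zero _
  rw [h4, h5, add_zero] at h3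
  exact h3

/-- the points of order two -/
def TO : W →ₗ[ZMod 2] VZ ι (ZL D m ep) where
  toFun y := (fun _ => y, ⟨fun s => th D m s y, th_ZL D m ep y⟩)
  map_add' y y' := Prod.ext rfl (Subtype.ext (funext fun s => map_add (th D m s) y y'))
  map_smul' c y := Prod.ext rfl (Subtype.ext (funext fun s => map_smul (th D m s) c y))

/-- the points of order two -/
def TE : W →ₗ[ZMod 2] VZ ι (ZL D m ep × W) where
  toFun y := (fun _ => y, (⟨fun s => th D m s y, th_ZL D m ep y⟩, ks D.l y))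
  map_add' y y' := Prod.ext rfl (Prod.ext (Subtype.ext (funext fun s => map_add (th D m s) y y'))
    (ks_add D.l y y'))
  map_smul' c y := Prod.ext rfl (Prod.ext (Subtype.ext (funext fun s => map_smul (th D m s) c y))
    (ks_smul D.l c y))

variable {a : Arr ι τ} (hcl : ∀ s, ∑ i, a.B i s = ep s + gg' D m s)

include hcl in
theorem rad_o (hN : ∑ i, d i + D.N + ∑ s, m s * D.e s = 1) (y : W) (w : VZ ι (ZL D m ep)) :
    fz (Ro D m ep d) a 0 (TO D m ep y) w = 0 := by
  rw [fz_apply]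
  have h1 : AZ a (TO (ι := ι) D m ep y) w = 0 := AZ_Th a y _ w
  have h2 : BZ (Do D m ep) a (TO D m ep y) w = ∑ s, (∑ i, a.B i s) * om y (w.2.1 s) :=
    BZ_Th D m (Do D m ep) rfl rfl a y _ (fun s => rfl) w
  have h3 : ∑ i, (0 : ι → ZMod 2) i * om ((TO (ι := ι) D m ep y).1 i) (w.1 i) = 0 := by simp
  have h4 : (Ro D m ep d).B (TO D m ep y) w = RB D m ep d (Th D m y) (iO D m ep w) +
      om (ks D.l (dL D d (Th D m y))) (dL D d (iO D m ep w)) := rfl
  have h5 := RB_Th D m ep d y (iO D m ep w) (fun s => w.2.2 s)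
  have h6 : ∑ s, (∑ i, a.B i s) * om y (w.2.1 s) = ∑ s, (ep s + gg' D m s) * om y (w.2.1 s) :=
    sum_congr rfl fun s _ => by rw [hcl]
  have h7 : ∑ s, (ep s + gg' D m s) * om y ((iO D m ep w).2 s) =
      ∑ s, (ep s + gg' D m s) * om y (w.2.1 s) := rfl
  rw [h1, h2, h3, h4, h5, h6, h7, dL_Th, hN, one_smul]
  linear_combination (∑ s, (ep s + gg' D m s) * om y (w.2.1 s) +
    om (ks D.l y) (dL D d (iO D m ep w))) * F2s 1

include hcl in
theorem rad_e (hN : ∑ i, d i + D.N + ∑ s, m s * D.e s = 0) (y : W) (w : VZ ι (ZL D m ep × W)) :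
    fz (Re D m ep d) a 0 (TE D m ep y) w = 0 := by
  rw [fz_apply]
  have h1 : AZ a (TE (ι := ι) D m ep y) w = 0 := AZ_Th a y _ w
  have h2 : BZ (De D m ep) a (TE D m ep y) w = ∑ s, (∑ i, a.B i s) * om y (w.2.1.1 s) :=
    BZ_Th D m (De D m ep) rfl rfl a y _ (fun s => rfl) w
  have h3 : ∑ i, (0 : ι → ZMod 2) i * om ((TE (ι := ι) D m ep y).1 i) (w.1 i) = 0 := by simp
  have h4 : (Re D m ep d).B (TE D m ep y) w = RB D m ep d (Th D m y) (iE D m ep w) +
      om (ks D.l y) (dL D d (iE D m ep w)) + om (dL D d (Th D m y)) (xE D m ep w) := rfl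
  have h5 := RB_Th D m ep d y (iE D m ep w) (fun s => w.2.1.2 s)
  have h6 : ∑ s, (∑ i, a.B i s) * om y (w.2.1.1 s) = ∑ s, (ep s + gg' D m s) * om y (w.2.1.1 s) :=
    sum_congr rfl fun s _ => by rw [hcl]
  have h7 : ∑ s, (ep s + gg' D m s) * om y ((iE D m ep w).2 s) =
      ∑ s, (ep s + gg' D m s) * om y (w.2.1.1 s) := rfl
  rw [h1, h2, h3, h4, h5, h6, h7, dL_Th, hN, zero_smul, om_zero_left]
  linear_combination (∑ s, (ep s + gg' D m s) * om y (w.2.1.1 s) +
    om (ks D.l y) (dL D d (iE D m ep w))) * F2s 1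

include hcl in
theorem rho_o (hN : ∑ i, d i + D.N + ∑ s, m s * D.e s = 1) (j : ι) :
    rho (fz (Ro D m ep d) a 0) ⊤ = rho (fz (Ro D m ep d) a 0) (SZ (univ.erase j)) + 2 :=
  rho_split (fz_symm _ _ _) (TO D m ep) (fun _ _ => rfl) (rad_o D m ep d hcl hN) j

include hcl in
theorem rho_e (hN : ∑ i, d i + D.N + ∑ s, m s * D.e s = 0) (j : ι) :
    rho (fz (Re D m ep d) a 0) ⊤ = rho (fz (Re D m ep d) a 0) (SZ (univ.erase j)) + 2 :=
  rho_split (fz_symm _ _ _) (TE D m ep) (fun _ _ => rfl) (rad_e D m ep d hcl hN) j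

/-! ### The parity -/

/-- the number of the bad primes with split reduction -/
noncomputable def spz : ℕ := (univ.filter fun s => m s ≠ 1 ∧ ep s = 0).card

theorem finrank_Ls (s : τ) : (finrank (ZMod 2) (Ls D m ep s) : ZMod 2) +
    kap D m ep s (D.t s) (D.t s) = if m s ≠ 1 ∧ ep s = 0 then 1 else 0 := by
  rw [kap_tt, Ls]
  by_cases h1 : m s = 1
  · rw [if_pos h1, if_pos h1, if_neg (fun h : m s ≠ 1 ∧ ep s = 0 => h.1 h1), add_zero, finrank_top]
    have h4 : finrank (ZMod 2) W = 2 := by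
      show finrank (ZMod 2) (ZMod 2 × ZMod 2) = 2
      rw [finrank_prod, finrank_self]
    rw [h4]
    rfl
  · rw [if_neg h1, if_neg h1]
    have h5 := finrank_span_singleton (K := ZMod 2) (D.hty s)
    rcases F2c (ep s) with h2 | h2
    · rw [if_pos (show ep s = 0 ∨ D.t s ≠ 0 from Or.inl h2),
        if_pos (show m s ≠ 1 ∧ ep s = 0 from ⟨h1, h2⟩), h5, h2]
      split_ifs <;> simp
    · have h6 : ep s ≠ 0 := by rw [h2]; exact one_ne_zero
      rw [if_neg (fun h : m s ≠ 1 ∧ ep s = 0 => h6 h.2)]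
      by_cases h3 : D.t s = 0
      · rw [if_neg (show ¬ (ep s = 0 ∨ D.t s ≠ 0) from fun h => h.elim h6 fun h' => h' h3),
          if_pos h3, finrank_bot]
        simp
      · rw [if_pos (show ep s = 0 ∨ D.t s ≠ 0 from Or.inr h3), if_neg h3, h5, h2]
        exact F2s 1

theorem finrank_ZL : finrank (ZMod 2) (ZL D m ep) = ∑ s, finrank (ZMod 2) (Ls D m ep s) := by
  rw [← Module.finrank_pi_fintype (ZMod 2)]
  refine LinearEquiv.finrank_eq (LinearEquiv.ofBijective
    (LinearMap.pi fun s => LinearMap.codRestrict (Ls D m ep s)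
      ((LinearMap.proj s).comp (ZL D m ep).subtype) fun z => z.2 s) ⟨?_, ?_⟩)
  · rintro ⟨z, hz⟩ ⟨z', hz'⟩ h
    apply Subtype.ext
    funext s
    exact congrArg Subtype.val (congrFun h s)
  · intro z
    exact ⟨⟨fun s => (z s).1, fun s => (z s).2⟩, rfl⟩

theorem par_o : (Ro D m ep d).B (0, (Do D m ep).c) (0, (Do D m ep).c) +
    (finrank (ZMod 2) (ZL D m ep) : ZMod 2) = (spz m ep : ZMod 2) := by
  have h1 : (Ro D m ep d).B (0, (Do D m ep).c) (0, (Do D m ep).c) =
      RB D m ep d ((0 : ι → W), D.t) ((0 : ι → W), D.t) +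
      om (ks D.l (dL D d ((0 : ι → W), D.t))) (dL D d ((0 : ι → W), D.t)) := rfl
  rw [h1, dL_t, om_zero_right, add_zero, RB_tt, finrank_ZL, spz, card_filter]
  push_cast
  rw [← sum_add_distrib]
  refine sum_congr rfl fun s _ => ?_
  rw [← finrank_Ls D m ep s, add_comm]

theorem par_e : (Re D m ep d).B (0, (De D m ep).c) (0, (De D m ep).c) +
    (finrank (ZMod 2) (ZL D m ep × W) : ZMod 2) = (spz m ep : ZMod 2) := by
  have h1 : (Re D m ep d).B (0, (De D m ep).c) (0, (De D m ep).c) =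
      RB D m ep d ((0 : ι → W), D.t) ((0 : ι → W), D.t) + om (uu D.l) (dL D d ((0 : ι → W), D.t)) +
      om (dL D d ((0 : ι → W), D.t)) (uu D.l) := rfl
  have h4 : finrank (ZMod 2) W = 2 := by
    show finrank (ZMod 2) (ZMod 2 × ZMod 2) = 2
    rw [finrank_prod, finrank_self]
  rw [h1, dL_t, om_zero_right, om_zero_left, add_zero, add_zero, RB_tt, finrank_prod, h4,
    finrank_ZL, spz, card_filter]
  have h6 : ((∑ s, finrank (ZMod 2) (Ls D m ep s) + 2 : ℕ) : ZMod 2) =
      ∑ s, (finrank (ZMod 2) (Ls D m ep s) : ZMod 2) := by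
    push_cast
    rw [show (2 : ZMod 2) = 0 from rfl, add_zero]
  rw [h6]
  push_cast
  rw [← sum_add_distrib]
  refine sum_congr rfl fun s _ => ?_
  rw [← finrank_Ls D m ep s, add_comm]

end

end Pool.Agent.V8H26.YG
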