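import Pool.Agent.V8H26.YB.Sel

/-!
# Local points at the places of split multiplicative reduction, of any multiplicity
-/

set_option autoImplicit false
set_option linter.all false

open WeierstrassCurve WeierstrassCurve.Affine
open scoped Classical

namespace Pool.Agent.V8H26.YG

open Pool.Agent.TH115.GD

section
variable {L : Type} [Field L] {w : Valuation L (WithZero (Multiplicative ℤ))} (hH : Hens w)

section
variable {W : Affine L} {a b : L} (hE : IsE W a b)

include hH hE in
theorem spA (wa : w a < 1) (wb : w b = 1) (sq : SqEq (-b) 1) (Q : W.Point) :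
    SqEq (d0 a b Q * d1 a b Q) 1 := by
  have hb0 : b ≠ 0 := hE.neb
  have ha0 : a ≠ 0 := hE.nea
  rcases Q with _ | ⟨x, y, hxy⟩
  · simp only [d0, d1, mul_one]
    exact SqEq.refl 1
  have he : y ^ 2 = x * (x - a) * (x - b) := hE.nonsingular.1 hxy
  simp only [d0, d1]
  by_cases x0 : x = 0
  · rw [if_pos x0, if_neg (by rw [x0]; exact Ne.symm ha0), x0]
    exact SqEq.trans ⟨a, ha0, by ring⟩ sq
  by_cases xa : x = a
  · rw [if_neg x0, if_pos xa, xa]
    have h1 : SqEq (a - b) (-b) := near hH (by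
      rw [sub_neg_eq_add, sub_add_cancel, Valuation.map_neg, wb]; exact wa)
    have h3 := (SqEq.sq ha0).mul (h1.trans sq)
    rw [one_mul] at h3
    have e : a * (a * (a - b)) = a ^ 2 * (a - b) := by ring
    rw [e]
    exact h3
  rw [if_neg x0, if_neg xa]
  have nxa : x - a ≠ 0 := sub_ne_zero.2 xa
  rcases lt_or_ge (w x) 1 with hx | hx
  · have wxb : w (x - b) = 1 := sub_eq_one hx wb
    have h1 : SqEq (x - b) (-b) := near hH (by
      rw [sub_neg_eq_add, sub_add_cancel, Valuation.map_neg, wb]; exact hx)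
    have nxb : x - b ≠ 0 := fun h => by rw [h, map_zero] at wxb; exact zero_ne_one wxb
    have ny : y ≠ 0 := by
      rintro rfl
      have : x * (x - a) * (x - b) = 0 := by rw [← he]; ring
      exact (mul_ne_zero (mul_ne_zero x0 nxa) nxb) this
    have h2 := (SqEq.refl (x * (x - a))).mul (h1.trans sq)
    rw [← he, mul_one] at h2
    exact h2.symm.trans (SqEq.sq ny)
  · have h1 : SqEq (x - a) x := near_add hH (z := -a) (by ring) (by
      rw [Valuation.map_neg]; exact wa.trans_le hx)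
    have h3 := (SqEq.refl x).mul h1
    rw [← pow_two] at h3
    exact h3.trans (SqEq.sq x0)

include hH hE in
theorem spB (wa : w a = 1) (wb : w b < 1) (sq : SqEq (-a) 1) (Q : W.Point) :
    SqEq (d1 a b Q) 1 := by
  have hb0 : b ≠ 0 := hE.neb
  have ha0 : a ≠ 0 := hE.nea
  rcases Q with _ | ⟨x, y, hxy⟩
  · simp only [d1]
    exact SqEq.refl 1
  have he : y ^ 2 = x * (x - a) * (x - b) := hE.nonsingular.1 hxy
  simp only [d1]
  by_cases xa : x = a
  · rw [if_pos xa]
    have h1 : SqEq (a - b) a := near_add hH (z := -b) (by ring) (by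
      rw [Valuation.map_neg, wa]; exact wb)
    have h3 := (SqEq.refl a).mul h1
    rw [← pow_two] at h3
    exact h3.trans (SqEq.sq ha0)
  rw [if_neg xa]
  have nxa : x - a ≠ 0 := sub_ne_zero.2 xa
  rcases lt_or_ge (w x) 1 with hx | hx
  · have h1 : SqEq (x - a) (-a) := near hH (by
      rw [sub_neg_eq_add, sub_add_cancel, Valuation.map_neg, wa]; exact hx)
    exact h1.trans sq
  · have h1 : SqEq (x - b) x := near_add hH (z := -b) (by ring) (by
      rw [Valuation.map_neg]; exact wb.trans_le hx)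
    have x0 : x ≠ 0 := by
      rintro rfl
      rw [map_zero] at hx
      exact absurd hx (not_le.2 zero_lt_one)
    have nxb : x - b ≠ 0 := h1.ne x0
    have ny : y ≠ 0 := by
      rintro rfl
      have : x * (x - a) * (x - b) = 0 := by rw [← he]; ring
      exact (mul_ne_zero (mul_ne_zero x0 nxa) nxb) this
    have h3 := (SqEq.refl (x * (x - a))).mul h1
    rw [← he] at h3
    have h4 : SqEq (x ^ 2 * (x - a)) (x ^ 2 * 1) := by
      have e : x ^ 2 * (x - a) = x * (x - a) * x := by ring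
      rw [e]
      refine h3.symm.trans ((SqEq.sq ny).trans ?_)
      rw [mul_one]
      exact (SqEq.sq x0).symm
    exact h4.cancel (pow_ne_zero 2 x0)

include hH hE in
theorem spC (wa : w a = 1) (wb : w b = 1) (wab : w (a - b) < 1) (sq : SqEq a 1) (Q : W.Point) :
    SqEq (d0 a b Q) 1 := by
  have hb0 : b ≠ 0 := hE.neb
  have ha0 : a ≠ 0 := hE.nea
  rcases Q with _ | ⟨x, y, hxy⟩
  · simp only [d0]
    exact SqEq.refl 1
  have he : y ^ 2 = x * (x - a) * (x - b) := hE.nonsingular.1 hxy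
  simp only [d0]
  by_cases x0 : x = 0
  · rw [if_pos x0]
    have h1 : SqEq b a := near hH (by rw [Valuation.map_sub_swap, wa]; exact wab)
    have h3 := (SqEq.refl a).mul h1
    rw [← pow_two] at h3
    exact h3.trans (SqEq.sq ha0)
  rw [if_neg x0]
  rcases lt_or_ge (w (x - a)) 1 with hx | hx
  · have h1 : SqEq x a := near hH (by rw [wa]; exact hx)
    exact h1.trans sq
  · have h1 : SqEq (x - b) (x - a) := near_add hH (z := a - b) (by ring) (wab.trans_le hx)
    have nxa : x - a ≠ 0 := by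
      intro h
      rw [h, map_zero] at hx
      exact absurd hx (not_le.2 zero_lt_one)
    have nxb : x - b ≠ 0 := h1.ne nxa
    have ny : y ≠ 0 := by
      rintro rfl
      have : x * (x - a) * (x - b) = 0 := by rw [← he]; ring
      exact (mul_ne_zero (mul_ne_zero x0 nxa) nxb) this
    have h3 := (SqEq.refl (x * (x - a))).mul h1
    rw [← he] at h3
    have h4 : SqEq ((x - a) ^ 2 * x) ((x - a) ^ 2 * 1) := by
      have e : (x - a) ^ 2 * x = x * (x - a) * (x - a) := by ring
      rw [e]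
      refine h3.symm.trans ((SqEq.sq ny).trans ?_)
      rw [mul_one]
      exact (SqEq.sq nxa).symm
    exact h4.cancel (pow_ne_zero 2 nxa)

end

section
variable {a b : L}

theorem of_sq {x y : L} (h : SqEq (x * y) 1) : ∃ z : L, z ^ 2 = x * y := by
  obtain ⟨c, -, e⟩ := h
  exact ⟨c, by rw [e, mul_one]⟩

include hH in
theorem ramA {x : L} (h : w a < w x) (h' : w x < w b) (sq : SqEq (-b) 1) :
    ∃ y, y ^ 2 = x * (x - a) * (x - b) ∧ x ≠ 0 ∧ x ≠ a ∧ SqEq x (x - a) := by
  have x0 : x ≠ 0 := by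
    rintro rfl
    rw [map_zero] at h
    exact not_lt_zero' h
  have h1 : SqEq (x - a) x := near_add hH (z := -a) (by ring) (by rwa [Valuation.map_neg])
  have h2 : SqEq (x - b) (-b) := near hH (by
    rw [sub_neg_eq_add, sub_add_cancel, Valuation.map_neg]; exact h')
  have h3 : SqEq (x * (x - a) * (x - b)) 1 := by
    have h4 := ((SqEq.refl x).mul h1).mul (h2.trans sq)
    rw [mul_one, ← pow_two] at h4
    exact h4.trans (SqEq.sq x0)
  obtain ⟨y, hy⟩ := of_sq h3
  exact ⟨y, hy, x0, fun e => h1.ne x0 (sub_eq_zero.2 e), h1.symm⟩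

include hH in
theorem ramB {x : L} (h : w b < w x) (h' : w x < w a) (sq : SqEq (-a) 1) :
    ∃ y, y ^ 2 = x * (x - a) * (x - b) ∧ x ≠ 0 ∧ x ≠ a ∧ SqEq 1 (x - a) := by
  have x0 : x ≠ 0 := by
    rintro rfl
    rw [map_zero] at h
    exact not_lt_zero' h
  have h1 : SqEq (x - b) x := near_add hH (z := -b) (by ring) (by rwa [Valuation.map_neg])
  have h2 : SqEq (x - a) (-a) := near hH (by
    rw [sub_neg_eq_add, sub_add_cancel, Valuation.map_neg]; exact h')
  have h3 : SqEq (x * (x - a) * (x - b)) 1 := by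
    have h4 := ((SqEq.refl x).mul (h2.trans sq)).mul h1
    rw [mul_one, ← pow_two] at h4
    exact h4.trans (SqEq.sq x0)
  obtain ⟨y, hy⟩ := of_sq h3
  refine ⟨y, hy, x0, ?_, (h2.trans sq).symm⟩
  rintro rfl
  exact lt_irrefl _ h'

include hH in
theorem ramC {e : L} (h : w (a - b) < w e) (h' : w e < w a) (sq : SqEq a 1) :
    ∃ y, y ^ 2 = (a + e) * ((a + e) - a) * ((a + e) - b) ∧ a + e ≠ 0 ∧ a + e ≠ a ∧
      SqEq 1 (a + e) := by
  have e0 : e ≠ 0 := by
    rintro rfl
    rw [map_zero] at h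
    exact not_lt_zero' h
  have a0 : a ≠ 0 := by
    rintro rfl
    rw [map_zero] at h'
    exact not_lt_zero' h'
  have h1 : SqEq (a + e) a := near_add hH rfl h'
  have h2 : SqEq (a + e - b) e := near_add hH (z := a - b) (by ring) h
  have h3 : SqEq ((a + e) * ((a + e) - a) * ((a + e) - b)) 1 := by
    have h4 := ((h1.trans sq).mul (SqEq.refl e)).mul h2
    rw [one_mul, ← pow_two] at h4
    rw [add_sub_cancel_left]
    exact h4.trans (SqEq.sq e0)
  obtain ⟨y, hy⟩ := of_sq h3
  refine ⟨y, hy, h1.ne a0, ?_, (h1.trans sq).symm⟩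
  intro h5
  exact e0 (by linear_combination h5)

end

section
variable {K : Type} [Field K] {j : K →+* L} {v : Valuation K (WithZero (Multiplicative ℤ))}
  (hwv : ∀ x, w (j x) = v x) {α β a0 a1 : K} (hs : LocR j α β a0 a1)

include hwv hs hH in
theorem spRA (wa : v α < 1) (wb : v β = 1) (sq : SqEq (-(j β)) 1) : SqEq (j (a0 * a1)) 1 := by
  obtain ⟨W, Q, c0, c1, hL, n0, n1, e0, e1⟩ := hs
  have k0 := spA hH hL (by rwa [hwv]) (by rwa [hwv]) sq Q
  have e : SqEq (j (a0 * a1)) (d0 (j α) (j β) Q * d1 (j α) (j β) Q) :=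
    ⟨c0 * c1, mul_ne_zero n0 n1, by rw [map_mul, e0, e1]; ring⟩
  exact e.trans k0

include hwv hs hH in
theorem spRB (wa : v α = 1) (wb : v β < 1) (sq : SqEq (-(j α)) 1) : SqEq (j a1) 1 := by
  obtain ⟨W, Q, c0, c1, hL, n0, n1, e0, e1⟩ := hs
  have k0 := spB hH hL (by rwa [hwv]) (by rwa [hwv]) sq Q
  exact SqEq.trans ⟨c1, n1, e1⟩ k0

include hwv hs hH in
theorem spRC (wa : v α = 1) (wb : v β = 1) (wab : v (α - β) < 1) (sq : SqEq (j α) 1) :
    SqEq (j a0) 1 := by
  obtain ⟨W, Q, c0, c1, hL, n0, n1, e0, e1⟩ := hs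
  have k0 := spC hH hL (by rwa [hwv]) (by rwa [hwv]) (by rwa [← map_sub, hwv]) sq Q
  exact SqEq.trans ⟨c0, n0, e0⟩ k0

end

end

end Pool.Agent.V8H26.YG
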