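import Pool.Agent.V8H26.YG.Dat

/-!
# The random model for the twists
-/

set_option autoImplicit false
set_option linter.all false

namespace Pool.Agent.V8H26.YG

open Finset Polynomial Pool.Agent.H341R2.Sharp Module
open Pool.Agent.V8H26.XL (Arr MM rho ind ind_congr F2s F2c kr)
open Pool.Agent.V8H26.YL (dA clA Cvp)
open Pool.Agent.Y164.PS
open scoped Classical

variable {k : Type} [Field k] [Fintype k] [DecidableEq k]
variable {a b : k[X]} {N : ℕ} (H : Hyp a b N) (m ep : Tau a b → ZMod 2)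

/-- the dimension of the kernel minus two, if the reduction at infinity is additive -/
noncomputable def Ψo : RkF (Tau a b) := fun ι _ d a' => rho (fz (Ro (dT H) m ep d) a' 0) ⊤ - 2

/-- the dimension of the kernel minus two, if the reduction at infinity is good -/
noncomputable def Ψe : RkF (Tau a b) := fun ι _ d a' => rho (fz (Re (dT H) m ep d) a' 0) ⊤ - 2

/-- the class -/
noncomputable def epc (s : Tau a b) : ZMod 2 := ep s + ∑ s', m s' * L (QQ a b s) (QQ a b s')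

theorem clA_epc {ι : Type} [Fintype ι] (a' : Arr ι (Tau a b)) : clA (dA (epc m ep)) a' ↔
    ∀ s, ∑ i, a'.B i s = ep s + gg' (dT H) m s := by
  apply forall_congr'
  intro s
  have h : gg' (dT H) m s = gv a b s + ∑ s', m s' * L (QQ a b s) (QQ a b s') := rfl
  rw [h]
  show 1 + ∑ i, a'.B i s + (1 + epc m ep s + gv a b s) = 0 ↔ _
  rw [epc]
  have h3 : ∀ x y z u : ZMod 2, 1 + y + (1 + (x + u) + z) = 0 ↔ y = x + (z + u) := by decide
  exact h3 _ _ _ _

theorem md_o (h2t : ∀ u : W, u ≠ 0 → ∃ s, om u ((datum H).t s) ≠ 0) (F : ℕ → ℝ) (c : ℝ)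
    (h0 : ∀ r, 0 ≤ F r) (h1 : ∀ r, F r ≤ 1) (hc : Cvp (spz m ep % 2) F c) :
    MdG (epc m ep) N (1 + ∑ s, m s * (dT H).e s) (Ψo H m ep) F c := by
  intro ε hε
  obtain ⟨K, hK⟩ := model_clZ (D := Do (dT H) m ep) h2t (p := spz m ep) h0 h1 hc hε
  refine ⟨K, fun ι _ d lg hN hj hlen => ?_⟩
  obtain ⟨j₁, hj₁⟩ := hj
  have hN' : ∑ i, d i + (dT H).N + ∑ s, m s * (dT H).e s = 1 := by
    have h2 : (dT H).N = (N : ZMod 2) := rfl
    rw [h2, hN, add_assoc, F2s, add_zero]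
  obtain ⟨l, l1, l2, l3, l4⟩ := hK ι (Ro (dT H) m ep d) (fun s => ep s + gg' (dT H) m s)
    (Ψo H m ep ι d) lg j₁ (par_o (dT H) m ep d) (fun S _ => HI_o (dT H) m ep d S)
    (fun j a' ha' => by
      rw [Ψo, rho_o (dT H) m ep d ha' hN' j, Nat.add_sub_cancel]) hlen
  refine ⟨l, l1, l2, l3, fun a' => ?_⟩
  have h3 : (PsG (epc m ep) (Ψo H m ep) d F c : Arr ι (Tau a b) → ℝ) =
      PsA (fun s => ep s + gg' (dT H) m s) (Ψo H m ep ι d) F c := by
    funext a''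
    rw [PsG, PsA, ind_congr (clA_epc H m ep a'')]
  rw [h3]
  exact l4 a'

theorem md_e (h2t : ∀ u : W, u ≠ 0 → ∃ s, om u ((datum H).t s) ≠ 0) (F : ℕ → ℝ) (c : ℝ)
    (h0 : ∀ r, 0 ≤ F r) (h1 : ∀ r, F r ≤ 1) (hc : Cvp (spz m ep % 2) F c) :
    MdG (epc m ep) N (∑ s, m s * (dT H).e s) (Ψe H m ep) F c := by
  intro ε hε
  obtain ⟨K, hK⟩ := model_clZ (D := De (dT H) m ep) h2t (p := spz m ep) h0 h1 hc hε
  refine ⟨K, fun ι _ d lg hN hj hlen => ?_⟩
  obtain ⟨j₁, hj₁⟩ := hj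
  have hN' : ∑ i, d i + (dT H).N + ∑ s, m s * (dT H).e s = 0 := by
    have h2 : (dT H).N = (N : ZMod 2) := rfl
    rw [h2, hN, F2s]
  obtain ⟨l, l1, l2, l3, l4⟩ := hK ι (Re (dT H) m ep d) (fun s => ep s + gg' (dT H) m s)
    (Ψe H m ep ι d) lg j₁ (par_e (dT H) m ep d) (fun S hS => HI_e (dT H) m ep d hj₁ hS)
    (fun j a' ha' => by
      rw [Ψe, rho_e (dT H) m ep d ha' hN' j, Nat.add_sub_cancel]) hlen
  refine ⟨l, l1, l2, l3, fun a' => ?_⟩
  have h3 : (PsG (epc m ep) (Ψe H m ep) d F c : Arr ι (Tau a b) → ℝ) =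
      PsA (fun s => ep s + gg' (dT H) m s) (Ψe H m ep ι d) F c := by
    funext a''
    rw [PsG, PsA, ind_congr (clA_epc H m ep a'')]
  rw [h3]
  exact l4 a'

end Pool.Agent.V8H26.YG
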