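import Pool.Agent.V8H26.YG.Tw

/-!
# The classes of the local points
-/

set_option autoImplicit false
set_option linter.all false

open Polynomial IsDedekindDomain WeierstrassCurve WeierstrassCurve.Affine
open scoped Classical

namespace Pool.Agent.V8H26.YG

open Pool.Agent.TH115.GD Pool.Agent.H341R2.Sharp Finset Pool.Agent.Y164.PS Pool.Agent.V8H26.XA
open Pool.Agent.V8H26.XL (Arr arr dm F2s F2c)

section
variable {k K : Type} [Field k] [Fintype k] [DecidableEq k] [Field K] [Algebra k[X] K]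
  [IsFractionRing k[X] K]
variable {a b : k[X]} {N : ℕ} (H : Hyp a b N) (m : Tau a b → F2)
variable {ι : Type} [Fintype ι] {P : ι → k[X]} (hR : Fam (RR a b P))

include H hR in
theorem val_tm (x : ι ⊕ Tau a b) :
    (plK (hR.irr x)).valuation K (am K m a P) = WithZero.exp (-(nm m ι a x : ℤ)) ∧
    (plK (hR.irr x)).valuation K (am K m b P) = WithZero.exp (-(nm m ι b x : ℤ)) ∧
    (plK (hR.irr x)).valuation K (am K m a P - am K m b P) =
      WithZero.exp (-(nm m ι (a - b) x : ℤ)) := by
  obtain ⟨ea, eb, ec⟩ := tm_el (K := K) (P := P) H m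
  have hcne : a - b ≠ 0 := sub_ne_zero.2 H.hab
  have la : a.leadingCoeff ≠ 0 := leadingCoeff_ne_zero.2 H.ha
  have lb : b.leadingCoeff ≠ 0 := leadingCoeff_ne_zero.2 H.hb
  have lc : (a - b).leadingCoeff ≠ 0 := leadingCoeff_ne_zero.2 hcne
  refine ⟨?_, ?_, ?_⟩
  · rw [ea, val_el hR _ la]
  · rw [eb, val_el hR _ lb]
  · rw [ec, val_el hR _ lc]

section pair

variable {a0 a1 : K} (hls : LSg (F := K) k (crv (am K m a P) (am K m b P)) (am K m a P)
    (am K m b P) a0 a1)
  {r0 r1 : k} {n0 n1 : ι ⊕ Tau a b → ℕ} {c0' c1' : K} (hr0 : r0 ≠ 0) (hr1 : r1 ≠ 0) (hc0 : c0' ≠ 0)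
  (hc1 : c1' ≠ 0) (e0 : a0 = c0' ^ 2 * algebraMap k[X] K (el (RR a b P) r0 n0))
  (e1 : a1 = c1' ^ 2 * algebraMap k[X] K (el (RR a b P) r1 n1))

include H hR hls hr0 hr1 hc0 hc1 e0 e1 in
/-- the places of additive reduction -/
theorem locAd (x : ι ⊕ Tau a b)
    (hM : (Odd (nm m ι a x) ∧ nm m ι b x = nm m ι a x) ∨
      (Odd (nm m ι a x) ∧ nm m ι (a - b) x = nm m ι a x) ∨
      (Odd (nm m ι b x) ∧ nm m ι (a - b) x = nm m ι b x)) :
    ∃ y : W, (((n0 x : F2), (n1 x : F2)) : W) = ((nq0 m ι y x : F2), (nq1 m ι y x : F2)) ∧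
    LW (RR a b P) r0 r1 n0 n1 (RR a b P x) = TM m P y (RR a b P x) := by
  have h2 := two_ne H
  obtain ⟨t1, t2, t3⟩ := tm_ne H m hR
  obtain ⟨va, vb, vc⟩ := val_tm (K := K) H m hR x
  set v := plK (hR.irr x) with hv
  obtain ⟨W', Q, u0, u1, hL, m0, m1, f0, f1⟩ := locR_fin h2 t1 t2 t3 hls v
  have hH : Hens (wv v (F := K)) := hensK v h2
  have wa : wv v (algebraMap K (Comp k[X] K v) (am K m a P)) = WithZero.exp (-(nm m ι a x : ℤ)) := by
    rw [wv_coe, va]
  have wb : wv v (algebraMap K (Comp k[X] K v) (am K m b P)) = WithZero.exp (-(nm m ι b x : ℤ)) := by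
    rw [wv_coe, vb]
  have wc : wv v (algebraMap K (Comp k[X] K v) (am K m a P) -
      algebraMap K (Comp k[X] K v) (am K m b P)) = WithZero.exp (-(nm m ι (a - b) x : ℤ)) := by
    rw [← map_sub, wv_coe, vc]
  have ns : ∀ {n : ℕ}, Odd n → ¬ IsSquare (WithZero.exp (-(n : ℤ)) : WithZero (Multiplicative ℤ)) := by
    intro n hn h
    rw [isSquare_exp, even_neg, Int.even_coe_nat] at h
    exact (Nat.not_even_iff_odd.2 hn) h
  have hM' : (¬ IsSquare (wv v (algebraMap K (Comp k[X] K v) (am K m a P))) ∧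
        wv v (algebraMap K (Comp k[X] K v) (am K m b P)) =
          wv v (algebraMap K (Comp k[X] K v) (am K m a P))) ∨
      (¬ IsSquare (wv v (algebraMap K (Comp k[X] K v) (am K m a P))) ∧
        wv v (algebraMap K (Comp k[X] K v) (am K m a P) -
          algebraMap K (Comp k[X] K v) (am K m b P)) =
          wv v (algebraMap K (Comp k[X] K v) (am K m a P))) ∨
      (¬ IsSquare (wv v (algebraMap K (Comp k[X] K v) (am K m b P))) ∧
        wv v (algebraMap K (Comp k[X] K v) (am K m a P) -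
          algebraMap K (Comp k[X] K v) (am K m b P)) =
          wv v (algebraMap K (Comp k[X] K v) (am K m b P))) := by
    rw [wa, wb, wc]
    rcases hM with ⟨h, h'⟩ | ⟨h, h'⟩ | ⟨h, h'⟩
    · exact Or.inl ⟨ns h, by rw [h']⟩
    · exact Or.inr (Or.inl ⟨ns h, by rw [h']⟩)
    · exact Or.inr (Or.inr ⟨ns h, by rw [h']⟩)
  obtain ⟨p, q, htor, g0, g1⟩ := locInf hH hL hM' Q
  have hy : ∃ y : W, p = algebraMap K (Comp k[X] K v)
      (algebraMap k[X] K (el (RR a b P) (rp0 a b y) (nq0 m ι y))) ∧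
      q = algebraMap K (Comp k[X] K v)
      (algebraMap k[X] K (el (RR a b P) (rp1 a b y) (nq1 m ι y))) := by
    rcases htor with ⟨rfl, rfl⟩ | ⟨rfl, rfl⟩ | ⟨rfl, rfl⟩ | ⟨rfl, rfl⟩
    · refine ⟨(0, 0), ?_, ?_⟩
      · rw [((tor_em H m (0, 0)).1 rfl).1, map_one, map_one]
      · rw [((tor_em H m (0, 0)).1 rfl).2, map_one, map_one]
    · refine ⟨(0, 1), ?_, ?_⟩
      · rw [((tor_em H m (0, 1)).2.1 rfl).1]
        simp only [map_mul]
      · rw [((tor_em H m (0, 1)).2.1 rfl).2, map_neg, map_neg]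
    · refine ⟨(1, 0), ?_, ?_⟩
      · rw [((tor_em H m (1, 0)).2.2.1 rfl).1]
      · rw [((tor_em H m (1, 0)).2.2.1 rfl).2, sub_mul]
        simp only [map_mul, map_sub]
    · refine ⟨(1, 1), ?_, ?_⟩
      · rw [((tor_em H m (1, 1)).2.2.2 rfl).1]
      · rw [((tor_em H m (1, 1)).2.2.2 rfl).2, map_neg, map_neg, sub_mul, map_sub, map_sub, neg_sub]
  obtain ⟨y, rfl, rfl⟩ := hy
  have j0 : algebraMap K (Comp k[X] K v) c0' ≠ 0 := (_root_.map_ne_zero _).2 hc0
  have j1 : algebraMap K (Comp k[X] K v) c1' ≠ 0 := (_root_.map_ne_zero _).2 hc1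
  have s0 : SqEq (algebraMap K (Comp k[X] K v) (algebraMap k[X] K (el (RR a b P) r0 n0)))
      (algebraMap K (Comp k[X] K v) (algebraMap k[X] K (el (RR a b P) (rp0 a b y) (nq0 m ι y)))) := by
    refine SqEq.trans (SqEq.symm ⟨_, j0, ?_⟩) (SqEq.trans ⟨u0, m0, f0⟩ g0)
    rw [e0, map_mul, map_pow]
  have s1 : SqEq (algebraMap K (Comp k[X] K v) (algebraMap k[X] K (el (RR a b P) r1 n1)))
      (algebraMap K (Comp k[X] K v) (algebraMap k[X] K (el (RR a b P) (rp1 a b y) (nq1 m ι y)))) := by
    refine SqEq.trans (SqEq.symm ⟨_, j1, ?_⟩) (SqEq.trans ⟨u1, m1, f1⟩ g1)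
    rw [e1, map_mul, map_pow]
  obtain ⟨k0, k1⟩ := loc_el H.hk hR x hr0 (rp_ne H y).1 _ _ s0
  obtain ⟨k2, k3⟩ := loc_el H.hk hR x hr1 (rp_ne H y).2 _ _ s1
  exact ⟨y, by rw [k0, k2], Prod.ext k1 k3⟩

include H in
theorem Lm_es {s : Tau a b} {es : F2} (hcs : ∑ i, BT (QQ a b) P i s = es + gg' (dT H) m s)
    {f : k[X]} (hf : f ≠ 0) (hd : ∀ Q : k[X], Q ∣ f → Q ∣ a * b * (a - b)) (hs : ¬ QQ a b s ∣ f)
    (hg : gv a b s = L f (QQ a b s)) :
    Lm (RR a b P) f.leadingCoeff (nm m ι f) (QQ a b s) = es := by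
  rw [Lm_tm H m hf hd s hs, hcs]
  have h : gg' (dT H) m s = L f (QQ a b s) + ∑ s', m s' * L (QQ a b s) (QQ a b s') := by
    rw [← hg]
    rfl
  rw [h, add_assoc, F2s, add_zero]

include H hR hls hr0 hr1 hc0 hc1 e0 e1 in
/-- the places of multiplicative reduction -/
theorem locQm (s : Tau a b) (hs1 : m s ≠ 1) {es : F2}
    (hcs : ∑ i, BT (QQ a b) P i s = es + gg' (dT H) m s) :
    ∃ c : F2, (es ≠ 0 → tv a b s = 0 → c = 0) ∧
      (((n0 (Sum.inr s) : F2), (n1 (Sum.inr s) : F2)) : W) = c • tyv a b s ∧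
      ((es = 0 ∨ tv a b s ≠ 0) →
        om (LW (RR a b P) r0 r1 n0 n1 (QQ a b s)) (tyv a b s) = es * c) := by
  have h2 := two_ne H
  obtain ⟨t1, t2, t3⟩ := tm_ne H m hR
  obtain ⟨ea, eb, ec⟩ := tm_el (K := K) (P := P) H m
  obtain ⟨da, db, dc⟩ := dvd3 H
  have hcne : a - b ≠ 0 := sub_ne_zero.2 H.hab
  have la : a.leadingCoeff ≠ 0 := leadingCoeff_ne_zero.2 H.ha
  have lb : b.leadingCoeff ≠ 0 := leadingCoeff_ne_zero.2 H.hb
  have lc : (a - b).leadingCoeff ≠ 0 := leadingCoeff_ne_zero.2 hcne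
  have m1 : (-1 : k) ≠ 0 := by simp
  have hm0 : m s = 0 := (F2c _).resolve_right hs1
  have nmr : ∀ f : k[X], nm m ι f (Sum.inr s) = mu f s.1 := by
    intro f
    rw [nm_inr, hm0, ZMod.val_zero, add_zero]
  obtain ⟨va, vb, vc⟩ := val_tm (K := K) H m hR (Sum.inr s)
  rw [nmr] at va vb vc
  set v := plK (hR.irr (Sum.inr s)) with hv
  have hs := locR_fin h2 t1 t2 t3 hls v
  have hs' := hs
  obtain ⟨W', Q, u0, u1, hL, v0, v1, f0, f1⟩ := hs'
  have hH : Hens (wv v (F := K)) := hensK v h2
  have va1 : v.valuation K (am K m a P) ≤ 1 := v.valuation_le_one _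
  have vb1 : v.valuation K (am K m b P) ≤ 1 := v.valuation_le_one _
  have vc1 : v.valuation K (am K m a P - am K m b P) ≤ 1 := by
    rw [ec]
    exact v.valuation_le_one _
  have z1 : ∀ {m : ℕ}, m = 0 → (WithZero.exp (-(m : ℤ)) : WithZero (Multiplicative ℤ)) = 1 := by
    rintro m rfl
    rfl
  have sqm : ∀ {m : ℕ}, IsSquare (WithZero.exp (-(m : ℤ)) : WithZero (Multiplicative ℤ)) ↔
      (m : F2) = 0 := by
    intro m
    rw [isSquare_exp, even_neg, Int.even_coe_nat, cast_eq_zero_iff_even]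
  have p0 := par_el (K := K) hR s hr0 hc0 e0
  have p1 := par_el (K := K) hR s hr1 hc1 e1
  have e01 : a0 * a1 = (c0' * c1') ^ 2 *
      algebraMap k[X] K (el (RR a b P) (r0 * r1) (n0 + n1)) := by
    rw [e0, e1, ← el_mul, map_mul]
    ring
  have p01 := par_el (K := K) hR s (mul_ne_zero hr0 hr1) (mul_ne_zero hc0 hc1) e01
  have hpar := parR (wv_coe (F := K) v) hs (M := 1) sq_one one_ne_zero va1 vb1
  have one_el : (1 : Comp k[X] K v) = algebraMap K (Comp k[X] K v) (algebraMap k[X] K
      (el (RR a b P) (1 : k) (0 : ι ⊕ Tau a b → ℕ))) := by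
    rw [el_one, map_one, map_one]
  have hes : es = 0 ∨ es = 1 := F2c es
  have ltA : ∀ {f : k[X]}, QQ a b s ∣ f → v.valuation K (am K m f P) < 1 := by
    intro f hf
    rw [valK_lt, mem_plK]
    exact hf.mul_right _
  rcases tri H s with ⟨h1, h2', h3⟩ | ⟨h1, h2', h3⟩ | ⟨h1, h2', h3⟩
  · -- type `a`
    have mb : mu b s.1 = 0 := mu_eq_zero h2'
    have mc : mu (a - b) s.1 = 0 := mu_eq_zero h3
    rw [z1 mb] at vb
    rw [z1 mc] at vc
    have hg : gv a b s = L b (QQ a b s) := if_pos h1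
    have hLm : Lm (RR a b P) (-1 * b.leadingCoeff) (nm m ι b) (QQ a b s) = es := by
      rw [Lm_neg H lb, Lm_es H m hcs H.hb db h2' hg]
    have negb : algebraMap K (Comp k[X] K v) (-(am K m b P)) = algebraMap K (Comp k[X] K v)
        (algebraMap k[X] K (el (RR a b P) (-1 * b.leadingCoeff) (nm m ι b))) := by
      rw [el_neg, map_neg (algebraMap k[X] K), ← eb]
    have hty : tyv a b s = (1, 1) := if_pos h1
    have htv : tv a b s = ((mu a s.1 : F2), (mu a s.1 : F2)) := by
      simp only [tv, mb, mc, Nat.cast_zero, add_zero]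
    have k5 : (nm m ι b (Sum.inr s) : F2) = 0 := by rw [nmr, mb, Nat.cast_zero]
    have hom : om (LW (RR a b P) r0 r1 n0 n1 (QQ a b s)) (1, 1) =
        Lm (RR a b P) (r0 * r1) (n0 + n1) (QQ a b s) := by
      rw [Lm_mul hr0 hr1]
      simp only [om, LW, mul_one]
    rw [hty, hom]
    rcases hes with rfl | rfl
    · -- split
      have sq : SqEq (-(algebraMap K (Comp k[X] K v) (am K m b P))) 1 := by
        rw [← map_neg, negb, one_el]
        exact loc_el' H.hk hR (Sum.inr s) (mul_ne_zero m1 lb) one_ne_zero _ _ (by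
          rw [k5, Pi.zero_apply, Nat.cast_zero]) (hLm.trans (Lm_one _).symm)
      have k2 := spRA hH (wv_coe (F := K) v) hs (ltA h1) vb sq
      rw [one_el] at k2
      obtain ⟨k3, k4⟩ := cmp_el hR H.hk s (mul_ne_zero hr0 hr1) one_ne_zero
        (mul_ne_zero hc0 hc1) e01 k2
      rw [Pi.add_apply, Nat.cast_add, Pi.zero_apply, Nat.cast_zero] at k3
      have k6 : (n0 (Sum.inr s) : F2) = (n1 (Sum.inr s) : F2) := F2_eq_of_add k3
      refine ⟨n0 (Sum.inr s), fun h => absurd rfl h, ?_, fun _ => ?_⟩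
      · rw [← k6]
        show _ = ((n0 (Sum.inr s) : F2) * 1, (n0 (Sum.inr s) : F2) * 1)
        rw [mul_one]
      · rw [k4, Lm_one, zero_mul]
    · rcases F2_cases (mu a s.1 : F2) with hm | hm
      · -- even
        rw [hm] at htv
        refine ⟨0, fun _ _ => rfl, ?_, fun h => absurd h (by rw [htv]; decide)⟩
        have q01 := hpar.2.2 vb vc
        rw [p01, Pi.add_apply, Nat.cast_add] at q01
        have q0 : IsSquare (v.valuation K a0) := by
          rw [← wv_coe (F := K) v, f0, map_mul, map_pow, pow_two]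
          refine IsSquare.mul ⟨_, rfl⟩ (evA hH hL ?_ ?_ ?_ ?_ Q)
          · show IsSquare (wv v (algebraMap K (Comp k[X] K v) (am K m a P)))
            rw [wv_coe, va, sqm]
            exact hm
          · show wv v (algebraMap K (Comp k[X] K v) (am K m a P)) < 1
            rw [wv_coe]
            exact ltA h1
          · show wv v (algebraMap K (Comp k[X] K v) (am K m b P)) = 1
            rw [wv_coe, vb]
          · exact not_sq_of_Lm hR H.hk s (mul_ne_zero m1 lb) hLm (by rw [← map_neg]; exact negb)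
        rw [p0] at q0
        rw [q0, zero_add] at q01
        rw [q0, q01, zero_smul]
        rfl
      · -- odd
        rw [hm] at htv
        obtain ⟨k0, k1⟩ := oddRA (wv_coe (F := K) v) hs hH (by rw [va, sqm, hm]; exact one_ne_zero)
          va1 vb vc
        refine ⟨n0 (Sum.inr s), ?_, ?_⟩
        · intro _ h
          rw [htv] at h
          exact absurd (congrArg Prod.fst h) (one_ne_zero)
        rcases F2_cases (n0 (Sum.inr s) : F2) with hn | hn
        · have k2 := k0 (p0.2 hn)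
          rw [one_el] at k2
          obtain ⟨k3, k4⟩ := cmp_el hR H.hk s (mul_ne_zero hr0 hr1) one_ne_zero
            (mul_ne_zero hc0 hc1) e01 k2
          rw [Pi.add_apply, Nat.cast_add, hn, zero_add] at k3
          rw [k4, Lm_one, hn, k3, zero_smul, mul_zero]
          exact ⟨by simp, fun _ => rfl⟩
        · have k2 := k1 (fun h => by rw [p0.1 h] at hn; exact zero_ne_one hn)
          rw [negb] at k2
          obtain ⟨k3, k4⟩ := cmp_el hR H.hk s (mul_ne_zero hr0 hr1) (mul_ne_zero m1 lb)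
            (mul_ne_zero hc0 hc1) e01 k2
          rw [Pi.add_apply, Nat.cast_add, hn] at k3
          rw [k5] at k3
          have k6 : (n1 (Sum.inr s) : F2) = 1 := (F2_eq_of_add k3).symm
          rw [k4, hLm, hn, k6, one_smul, mul_one]
          exact ⟨rfl, fun _ => rfl⟩
  · -- type `b`
    have ma : mu a s.1 = 0 := mu_eq_zero h1
    have mc : mu (a - b) s.1 = 0 := mu_eq_zero h3
    rw [z1 ma] at va
    rw [z1 mc] at vc
    have hg : gv a b s = L a (QQ a b s) := if_neg h1
    have hLm : Lm (RR a b P) (-1 * a.leadingCoeff) (nm m ι a) (QQ a b s) = es := by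
      rw [Lm_neg H la, Lm_es H m hcs H.ha da h1 hg]
    have nega : algebraMap K (Comp k[X] K v) (-(am K m a P)) = algebraMap K (Comp k[X] K v)
        (algebraMap k[X] K (el (RR a b P) (-1 * a.leadingCoeff) (nm m ι a))) := by
      rw [el_neg, map_neg (algebraMap k[X] K), ← ea]
    have hty : tyv a b s = (1, 0) := by rw [tyv, if_neg h1, if_pos h2']
    have htv : tv a b s = ((mu b s.1 : F2), 0) := by
      simp only [tv, ma, mc, Nat.cast_zero, add_zero, zero_add]
    have k5 : (nm m ι a (Sum.inr s) : F2) = 0 := by rw [nmr, ma, Nat.cast_zero]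
    have hom : om (LW (RR a b P) r0 r1 n0 n1 (QQ a b s)) (1, 0) =
        Lm (RR a b P) r1 n1 (QQ a b s) := by
      simp only [om, LW, mul_one, mul_zero, zero_add]
    rw [hty, hom]
    rcases hes with rfl | rfl
    · -- split
      have sq : SqEq (-(algebraMap K (Comp k[X] K v) (am K m a P))) 1 := by
        rw [← map_neg, nega, one_el]
        exact loc_el' H.hk hR (Sum.inr s) (mul_ne_zero m1 la) one_ne_zero _ _ (by
          rw [k5, Pi.zero_apply, Nat.cast_zero]) (hLm.trans (Lm_one _).symm)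
      have k2 := spRB hH (wv_coe (F := K) v) hs va (ltA h2') sq
      rw [one_el] at k2
      obtain ⟨k3, k4⟩ := cmp_el hR H.hk s hr1 one_ne_zero hc1 e1 k2
      rw [Pi.zero_apply, Nat.cast_zero] at k3
      refine ⟨n0 (Sum.inr s), fun h => absurd rfl h, ?_, fun _ => ?_⟩
      · rw [k3]
        show _ = ((n0 (Sum.inr s) : F2) * 1, (n0 (Sum.inr s) : F2) * 0)
        rw [mul_one, mul_zero]
      · rw [k4, Lm_one, zero_mul]
    · rcases F2_cases (mu b s.1 : F2) with hm | hm
      · -- even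
        rw [hm] at htv
        refine ⟨0, fun _ _ => rfl, ?_, fun h => absurd h (by rw [htv]; decide)⟩
        have q1 := hpar.2.1 va vc
        rw [p1] at q1
        have q0 : IsSquare (v.valuation K a0) := by
          rw [← wv_coe (F := K) v, f0, map_mul, map_pow, pow_two]
          refine IsSquare.mul ⟨_, rfl⟩ (evB hH hL ?_ ?_ ?_ ?_ Q)
          · show wv v (algebraMap K (Comp k[X] K v) (am K m a P)) = 1
            rw [wv_coe, va]
          · show IsSquare (wv v (algebraMap K (Comp k[X] K v) (am K m b P)))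
            rw [wv_coe, vb, sqm]
            exact hm
          · show wv v (algebraMap K (Comp k[X] K v) (am K m b P)) < 1
            rw [wv_coe]
            exact ltA h2'
          · exact not_sq_of_Lm hR H.hk s (mul_ne_zero m1 la) hLm (by rw [← map_neg]; exact nega)
        rw [p0] at q0
        rw [q0, q1, zero_smul]
        rfl
      · -- odd
        rw [hm] at htv
        obtain ⟨k0, k1⟩ := oddRB (wv_coe (F := K) v) hs hH va
          (by rw [vb, sqm, hm]; exact one_ne_zero) vb1 vc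
        refine ⟨n0 (Sum.inr s), ?_, ?_⟩
        · intro _ h
          rw [htv] at h
          exact absurd (congrArg Prod.fst h) (one_ne_zero)
        rcases F2_cases (n0 (Sum.inr s) : F2) with hn | hn
        · have k2 := k0 (p0.2 hn)
          rw [one_el] at k2
          obtain ⟨k3, k4⟩ := cmp_el hR H.hk s hr1 one_ne_zero hc1 e1 k2
          rw [Pi.zero_apply, Nat.cast_zero] at k3
          rw [k4, Lm_one, hn, k3, zero_smul, mul_zero]
          exact ⟨by simp, fun _ => rfl⟩
        · have k2 := k1 (fun h => by rw [p0.1 h] at hn; exact zero_ne_one hn)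
          rw [nega] at k2
          obtain ⟨k3, k4⟩ := cmp_el hR H.hk s hr1 (mul_ne_zero m1 la) hc1 e1 k2
          rw [k5] at k3
          rw [k4, hLm, hn, k3, one_smul, mul_one]
          exact ⟨rfl, fun _ => rfl⟩
  · -- type `a - b`
    have ma : mu a s.1 = 0 := mu_eq_zero h1
    have mb : mu b s.1 = 0 := mu_eq_zero h2'
    rw [z1 ma] at va
    rw [z1 mb] at vb
    have hg : gv a b s = L a (QQ a b s) := if_neg h1
    have hLm : Lm (RR a b P) a.leadingCoeff (nm m ι a) (QQ a b s) = es :=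
      Lm_es H m hcs H.ha da h1 hg
    have posa : algebraMap K (Comp k[X] K v) (am K m a P) = algebraMap K (Comp k[X] K v)
        (algebraMap k[X] K (el (RR a b P) (a.leadingCoeff) (nm m ι a))) := by
      rw [← ea]
    have hty : tyv a b s = (0, 1) := by rw [tyv, if_neg h1, if_neg h2']
    have htv : tv a b s = (0, (mu (a - b) s.1 : F2)) := by
      simp only [tv, ma, mb, Nat.cast_zero, add_zero, zero_add]
    have k5 : (nm m ι a (Sum.inr s) : F2) = 0 := by rw [nmr, ma, Nat.cast_zero]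
    have hom : om (LW (RR a b P) r0 r1 n0 n1 (QQ a b s)) (0, 1) =
        Lm (RR a b P) r0 n0 (QQ a b s) := by
      simp only [om, LW, mul_one, mul_zero, add_zero]
    have ltC : v.valuation K (am K m a P - am K m b P) < 1 := by
      rw [am, am, ← map_sub, ← sub_mul]
      exact ltA h3
    rw [hty, hom]
    rcases hes with rfl | rfl
    · -- split
      have sq : SqEq (algebraMap K (Comp k[X] K v) (am K m a P)) 1 := by
        rw [posa, one_el]
        exact loc_el' H.hk hR (Sum.inr s) la one_ne_zero _ _ (by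
          rw [k5, Pi.zero_apply, Nat.cast_zero]) (hLm.trans (Lm_one _).symm)
      have k2 := spRC hH (wv_coe (F := K) v) hs va vb ltC sq
      rw [one_el] at k2
      obtain ⟨k3, k4⟩ := cmp_el hR H.hk s hr0 one_ne_zero hc0 e0 k2
      rw [Pi.zero_apply, Nat.cast_zero] at k3
      refine ⟨n1 (Sum.inr s), fun h => absurd rfl h, ?_, fun _ => ?_⟩
      · rw [k3]
        show _ = ((n1 (Sum.inr s) : F2) * 0, (n1 (Sum.inr s) : F2) * 1)
        rw [mul_one, mul_zero]
      · rw [k4, Lm_one, zero_mul]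
    · rcases F2_cases (mu (a - b) s.1 : F2) with hm | hm
      · -- even
        rw [hm] at htv
        refine ⟨0, fun _ _ => rfl, ?_, fun h => absurd h (by rw [htv]; decide)⟩
        have q0 := hpar.1 va vb
        rw [p0] at q0
        have q1 : IsSquare (v.valuation K a1) := by
          rw [← wv_coe (F := K) v, f1, map_mul, map_pow, pow_two]
          refine IsSquare.mul ⟨_, rfl⟩ (evC hH hL ?_ ?_ ?_ ?_ ?_ Q)
          · show wv v (algebraMap K (Comp k[X] K v) (am K m a P)) = 1
            rw [wv_coe, va]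
          · show wv v (algebraMap K (Comp k[X] K v) (am K m b P)) = 1
            rw [wv_coe, vb]
          · rw [← map_sub]
            show IsSquare (wv v (algebraMap K (Comp k[X] K v) (am K m a P - am K m b P)))
            rw [wv_coe, vc, sqm]
            exact hm
          · rw [← map_sub]
            show wv v (algebraMap K (Comp k[X] K v) (am K m a P - am K m b P)) < 1
            rw [wv_coe]
            exact ltC
          · exact not_sq_of_Lm hR H.hk s la hLm posa
        rw [p1] at q1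
        rw [q0, q1, zero_smul]
        rfl
      · -- odd
        rw [hm] at htv
        obtain ⟨k0, k1⟩ := oddRC (wv_coe (F := K) v) hs hH va vb (by
          show ¬ IsSquare (v.valuation K (am K m a P - am K m b P))
          rw [vc, sqm, hm]; exact one_ne_zero) vc1
        refine ⟨n1 (Sum.inr s), ?_, ?_⟩
        · intro _ h
          rw [htv] at h
          exact absurd (congrArg Prod.snd h) (one_ne_zero)
        rcases F2_cases (n1 (Sum.inr s) : F2) with hn | hn
        · have k2 := k0 (p1.2 hn)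
          rw [one_el] at k2
          obtain ⟨k3, k4⟩ := cmp_el hR H.hk s hr0 one_ne_zero hc0 e0 k2
          rw [Pi.zero_apply, Nat.cast_zero] at k3
          rw [k4, Lm_one, hn, k3, zero_smul, mul_zero]
          exact ⟨by simp, fun _ => rfl⟩
        · have k2 := k1 (fun h => by rw [p1.1 h] at hn; exact zero_ne_one hn)
          rw [posa] at k2
          obtain ⟨k3, k4⟩ := cmp_el hR H.hk s hr0 la hc0 e0 k2
          rw [k5] at k3
          rw [k4, hLm, hn, k3, one_smul, mul_one]
          exact ⟨rfl, fun _ => rfl⟩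

end pair

end

end Pool.Agent.V8H26.YG
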