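import Pool.Agent.V8H26.YG.Stp
import Pool.Agent.V8H26.XL.Ngb

/-!
# Kernels are generic with high probability
-/

set_option autoImplicit false
set_option linter.all false

namespace Pool.Agent.V8H26.YG

open Module Finset
open Pool.Agent.V8H26.XL (Arr rep rep_rep vh va F2s F2c F2n X_self ex mem_ex Wc kr rho rho_congr kr_congr
  ind ind_congr ind_pos ind_neg ind_nonneg ind_le_one psi_ex finrank_ex gg gg_bd gg_two av av_congr
  av_shift av_ind Mop MM two_sum av_add av_mul av_mul' av_const av_comm av_half av_nonneg av_mono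
  abs_av_le av_sub fun_self Lb qf qf_self qf_add_left qf_smul_left qf_comm qB finrank_orth Tt om_indep
  av_char MM_sum MM_mono MM_mul XS mem_XS CX card_XS sum_hom av_sum)
open Pool.Agent.Y164.PS (W om om_add_left om_add_right om_comm om_self om_zero_left om_zero_right Oq
  om_smul_left om_smul_right eq_zero_of_om W_add_self sg sg_add sg_zero sg_one abs_sg)
open scoped Classical

/-! ### Few labels -/

/-- the function of the bad prime of type `t` -/
def bez (t : W) (m : ZMod 2) (z₁ y₁ z₂ y₂ : W) (x : Lb) : ZMod 2 := ez t m z₁ y₁ x.1 + ez t m z₂ y₂ x.2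

theorem bez_polar (t : W) (m : ZMod 2) (z₁ y₁ z₂ y₂ : W) (x y : Lb) :
    bez t m z₁ y₁ z₂ y₂ (x + y) + bez t m z₁ y₁ z₂ y₂ x + bez t m z₁ y₁ z₂ y₂ y =
      m * qf x y + qf x (Tt t y) := by
  simp only [bez, ez, qf, Tt, Prod.fst_add, Prod.snd_add, om_add_left, om_add_right, om_smul_left,
    om_smul_right]
  have e := om_comm t
  rw [e x.1.2, e x.2.2]
  have h : ∀ a : ZMod 2, a + a = 0 := F2s
  linear_combination h (om z₁ x.1.2) + h (om z₁ y.1.2) + h (om x.1.1 y₁) + h (om y.1.1 y₁) +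
    h (om z₂ x.2.2) + h (om z₂ y.2.2) + h (om x.2.1 y₂) + h (om y.2.1 y₂) +
    h (m * om x.1.1 x.1.2) + h (m * om y.1.1 y.1.2) + h (m * om x.2.1 x.2.2) + h (m * om y.2.1 y.2.2) +
    h (om x.1.1 t * om x.1.2 t) + h (om y.1.1 t * om y.1.2 t) +
    h (om x.2.1 t * om x.2.2 t) + h (om y.2.1 t * om y.2.2 t)

/-- **few labels** -/
theorem fewz {τ : Type} {t : τ → W} {m : τ → ZMod 2} (h2t : ∀ u : W, u ≠ 0 → ∃ s, om u (t s) ≠ 0)
    {X : Finset Lb}
    (hq : ∀ x ∈ X, ∀ y ∈ X, qf x y = 0) {z : Lb} (hz : ∀ x ∈ X, qf x z = 0)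
    (hz0 : z.1.1 ≠ 0 ∨ z.2.1 ≠ 0) (hrel : ∀ x ∈ X, x.1.1.2 = x.2.1.1)
    {z₁ y₁ z₂ y₂ : τ → W}
    (hb : ∀ s, ∀ x ∈ X, bez (t s) (m s) (z₁ s) (y₁ s) (z₂ s) (y₂ s) x = 0) :
    X.card < 16 := by
  classical
  by_contra hlt
  push Not at hlt
  set Z : Submodule (ZMod 2) Lb := Submodule.span (ZMod 2) (X : Set Lb) with hZ
  have hXZ : ∀ x ∈ X, x ∈ Z := fun x hx => Submodule.subset_span hx
  -- the span is isotropic
  have h1 : ∀ y, (∀ x ∈ X, qf x y = 0) → y ∈ qB.orthogonal Z := by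
    intro y hy x hx
    rw [hZ] at hx
    show qf x y = 0
    induction hx using Submodule.span_induction with
    | mem x hx => exact hy x hx
    | zero => simp [qf, om_zero_left, om_zero_right]
    | add a b _ _ h1 h2 => rw [qf_add_left, h1, h2, add_zero]
    | smul c a _ h1 => rw [qf_smul_left, h1, mul_zero]
  have h2 : Z ≤ qB.orthogonal Z := by
    rw [hZ, Submodule.span_le]
    intro y hy
    exact h1 y fun x hx => hq x hx y hy
  have h3 := finrank_orth Z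
  have h4 := Submodule.finrank_mono h2
  have h5 : finrank (ZMod 2) Z ≤ 4 := by omega
  have h6 : Fintype.card Z = 2 ^ finrank (ZMod 2) Z := by
    have := Module.card_eq_pow_finrank (K := ZMod 2) (V := Z)
    rw [ZMod.card] at this
    exact this
  let inj : X → Z := fun x => ⟨x.1, hXZ x.1 x.2⟩
  have hinj : Function.Injective inj := by
    intro x y h
    have h' : (inj x).1 = (inj y).1 := by rw [h]
    exact Subtype.ext h'
  have h7 : X.card ≤ Fintype.card Z := by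
    rw [← Fintype.card_coe]
    exact Fintype.card_le_of_injective inj hinj
  have h8 : finrank (ZMod 2) Z = 4 := by
    by_contra hne
    have h9 : finrank (ZMod 2) Z ≤ 3 := by omega
    have h10 : (2 : ℕ) ^ finrank (ZMod 2) Z ≤ 2 ^ 3 := Nat.pow_le_pow_right (by norm_num) h9
    omega
  have h9 : Z = qB.orthogonal Z := Submodule.eq_of_le_of_finrank_eq h2 (by omega)
  -- all the elements of `Z` are in `X`
  have h10 : ∀ x ∈ Z, x ∈ X := by
    intro x hx
    have h11 : X.card = Fintype.card Z := by rw [h6, h8] at h7 ⊢; omega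
    have h12 : Function.Bijective inj := by
      rw [Fintype.bijective_iff_injective_and_card]
      exact ⟨hinj, by rw [Fintype.card_coe, h11]⟩
    obtain ⟨y, hy⟩ := h12.2 ⟨x, hx⟩
    have h13 : (inj y).1 = x := by rw [hy]
    rw [← h13]
    exact y.2
  have h11 : ∀ y, (∀ x ∈ X, qf x y = 0) → y ∈ Z := fun y hy => by rw [h9]; exact h1 y hy
  -- closed under the operators
  have h12 : ∀ s, ∀ y ∈ Z, Tt (t s) y ∈ Z := by
    intro s y hy
    apply h11
    intro x hx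
    have h14 := bez_polar (t s) (m s) (z₁ s) (y₁ s) (z₂ s) (y₂ s) x y
    rw [hb s x hx, hb s y (h10 y hy),
      hb s (x + y) (h10 _ (Z.add_mem (hXZ x hx) hy)), add_zero, add_zero, hq x hx y (h10 y hy),
      mul_zero, zero_add] at h14
    exact h14.symm
  have h13 : z ∈ Z := h11 z hz
  obtain ⟨s, hs⟩ : ∃ s, om z.1.1 (t s) ≠ 0 ∨ om z.2.1 (t s) ≠ 0 := by
    rcases hz0 with h | h
    · obtain ⟨s, hs⟩ := h2t _ h
      exact ⟨s, Or.inl hs⟩
    · obtain ⟨s, hs⟩ := h2t _ h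
      exact ⟨s, Or.inr hs⟩
  have hts : t s ≠ 0 := by
    intro h
    rw [h, om_zero_right, om_zero_right] at hs
    simp at hs
  obtain ⟨s', hs'⟩ := h2t _ hts
  have r1 := hrel _ (h10 _ (h12 s z h13))
  have r2 := hrel _ (h10 _ (h12 s' _ (h12 s z h13)))
  have r3 : om (om z.1.1 (t s), om z.2.1 (t s)) (t s) = 0 := by
    have : om z.1.1 (t s) * (t s).2 = om z.2.1 (t s) * (t s).1 := r1
    show om z.1.1 (t s) * (t s).2 + om z.2.1 (t s) * (t s).1 = 0
    rw [this, F2s]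
  have r4 : om (om z.1.1 (t s), om z.2.1 (t s)) (t s') = 0 := by
    have : om (om z.1.1 (t s) • t s) (t s') * (t s').2 =
      om (om z.2.1 (t s) • t s) (t s') * (t s').1 := r2
    rw [om_smul_left, om_smul_left, F2n hs', mul_one, mul_one] at this
    show om z.1.1 (t s) * (t s').2 + om z.2.1 (t s) * (t s').1 = 0
    rw [this, F2s]
  have r5 := om_indep _ _ _ r3 r4 hs'
  have r6 : om z.1.1 (t s) = 0 := congrArg Prod.fst r5
  have r7 : om z.2.1 (t s) = 0 := congrArg Prod.snd r5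
  rw [r6, r7] at hs
  simp at hs

/-- few labels, second case -/
theorem fewz' {t : W} {m : ZMod 2} {z₁ y₁ z₂ y₂ : W} (hσ : z₁ ≠ 0 ∨ z₂ ≠ 0) {X : Finset Lb}
    (h1 : ∀ x ∈ X, x.1.1 = 0) (h2 : ∀ x ∈ X, x.2.1 = 0) (hb : ∀ x ∈ X, bez t m z₁ y₁ z₂ y₂ x = 0) :
    X.card < 16 := by
  classical
  have hcard : (X.image fun x => (x.1.2, x.2.2)).card = X.card := by
    apply card_image_of_injOn
    rintro ⟨⟨a, b⟩, ⟨c, d⟩⟩ hx ⟨⟨a', b'⟩, ⟨c', d'⟩⟩ hy h
    have e1 : a = 0 := h1 _ hx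
    have e2 : c = 0 := h2 _ hx
    have e3 : a' = 0 := h1 _ hy
    have e4 : c' = 0 := h2 _ hy
    simp only [Prod.mk.injEq] at h
    rw [e1, e2, e3, e4, h.1, h.2]
  have h3 : ∃ p : W × W, p ∉ X.image fun x => (x.1.2, x.2.2) := by
    rcases hσ with h | h
    · obtain ⟨w, hw⟩ := Pool.Agent.V8H26.XL.om_ex z₁ h
      refine ⟨(w, 0), fun hm => ?_⟩
      obtain ⟨x, hx, hxp⟩ := mem_image.1 hm
      have h4 := hb x hx
      simp only [Prod.mk.injEq] at hxp
      rw [bez, ez, ez, h1 x hx, h2 x hx, hxp.1, hxp.2, hw] at h4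
      simp only [om_zero_left, om_zero_right, zero_mul, mul_zero, add_zero, zero_add, mul_one] at h4
      exact one_ne_zero h4
    · obtain ⟨w, hw⟩ := Pool.Agent.V8H26.XL.om_ex z₂ h
      refine ⟨(0, w), fun hm => ?_⟩
      obtain ⟨x, hx, hxp⟩ := mem_image.1 hm
      have h4 := hb x hx
      simp only [Prod.mk.injEq] at hxp
      rw [bez, ez, ez, h1 x hx, h2 x hx, hxp.1, hxp.2, hw] at h4
      simp only [om_zero_left, om_zero_right, zero_mul, mul_zero, add_zero, zero_add, mul_one] at h4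
      exact one_ne_zero h4
  obtain ⟨p, hp⟩ := h3
  rw [← hcard]
  have := card_lt_univ_of_notMem hp
  simpa using this

section
variable {ι τ Z : Type} [AddCommGroup Z] [Module (ZMod 2) Z] [Fintype ι] [Fintype τ] [Fintype Z]
  {D : DZ τ Z}

/-- the value of two pairs -/
noncomputable def LfZ (R : RZ ι D) (c : (VZ ι Z × VZ ι Z) × (VZ ι Z × VZ ι Z)) (a : Arr ι τ)
    (x : ι → ZMod 2) : ZMod 2 :=
  fz R a x c.1.1 c.2.1 + fz R a x c.1.2 c.2.2

variable (D) in
/-- the coefficients of `j` -/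
noncomputable def cjZ (c : (VZ ι Z × VZ ι Z) × (VZ ι Z × VZ ι Z)) (j : ι) : ι ⊕ τ → ZMod 2 :=
  fun y => coz D j c.1.1 c.2.1 y + coz D j c.1.2 c.2.2 y

/-- the coefficients of the diagonal -/
def cqZ (c : (VZ ι Z × VZ ι Z) × (VZ ι Z × VZ ι Z)) : ι → ZMod 2 :=
  fun i => om (c.1.1.1 i) (c.2.1.1 i) + om (c.1.2.1 i) (c.2.2.1 i)

variable (R : RZ ι D)

theorem LfZ_rep (c : (VZ ι Z × VZ ι Z) × (VZ ι Z × VZ ι Z)) (j : ι) (v : ι ⊕ τ → ZMod 2)
    (a : Arr ι τ) (x : ι → ZMod 2) :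
    LfZ R c (rep j v a) x = LfZ R c (rep j 0 a) x + ∑ y, cjZ D c j y * v y := by
  rw [LfZ, LfZ, fz_rep, fz_rep R j v a x c.1.2 c.2.2]
  simp only [cjZ, add_mul, sum_add_distrib]
  ring

theorem LfZ_self (c : (VZ ι Z × VZ ι Z) × (VZ ι Z × VZ ι Z)) (j : ι) (a : Arr ι τ)
    (x : ι → ZMod 2) (h : cjZ D c j = 0) : LfZ R c a x = LfZ R c (rep j 0 a) x := by
  have h1 : LfZ R c a x = LfZ R c (rep j 0 a) x + ∑ y, cjZ D c j y * va j a y := by
    rw [LfZ, LfZ, fz_self R j a, fz_self R j a x c.1.2 c.2.2]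
    simp only [cjZ, add_mul, sum_add_distrib]
    ring
  rw [h1, h]
  simp

theorem LfZ_x (c : (VZ ι Z × VZ ι Z) × (VZ ι Z × VZ ι Z)) (a : Arr ι τ) (x : ι → ZMod 2) :
    LfZ R c a x = LfZ R c a 0 + ∑ i, cqZ c i * x i := by
  have h1 := fz_x R a 0 x c.1.1 c.2.1
  have h2 := fz_x R a 0 x c.1.2 c.2.2
  rw [zero_add] at h1 h2
  rw [LfZ, LfZ, h1, h2]
  have h3 : ∑ i, cqZ c i * x i = ∑ i, x i * om (c.1.1.1 i) (c.2.1.1 i) +
      ∑ i, x i * om (c.1.2.1 i) (c.2.2.1 i) := by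
    rw [← sum_add_distrib]
    exact sum_congr rfl fun i _ => by rw [cqZ]; ring
  rw [h3]
  ring

/-- the average over the diagonal -/
noncomputable def PhZ (c : (VZ ι Z × VZ ι Z) × (VZ ι Z × VZ ι Z)) (a : Arr ι τ) : ℝ :=
  av fun x : ι → ZMod 2 => sg (LfZ R c a x)

theorem PhZ_eq (c : (VZ ι Z × VZ ι Z) × (VZ ι Z × VZ ι Z)) (a : Arr ι τ) :
    PhZ R c a = ind (cqZ c = 0) * sg (LfZ R c a 0) := by
  have h1 : ∀ x : ι → ZMod 2, sg (LfZ R c a x) = sg (LfZ R c a 0) * sg (∑ i, cqZ c i * x i) :=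
    fun x => by rw [LfZ_x, sg_add]
  rw [PhZ, av_congr h1, av_mul, av_char]
  by_cases h : cqZ c = 0
  · rw [if_pos h, ind_pos h]; ring
  · rw [if_neg h, ind_neg h]; ring

theorem Mop_PhZ (c : (VZ ι Z × VZ ι Z) × (VZ ι Z × VZ ι Z)) (j : ι) :
    Mop j (PhZ R c) = fun a => ind (cjZ D c j = 0) * PhZ R c a := by
  funext a
  have h1 : ∀ v : ι ⊕ τ → ZMod 2, PhZ R c (rep j v a) =
      (ind (cqZ c = 0) * sg (LfZ R c (rep j 0 a) 0)) * sg (∑ y, cjZ D c j y * v y) := by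
    intro v
    rw [PhZ_eq, LfZ_rep, sg_add, mul_assoc]
  rw [Mop, av_congr h1, av_mul, av_char, PhZ_eq]
  by_cases h : cjZ D c j = 0
  · rw [if_pos h, ind_pos h, mul_one, one_mul, LfZ_self R c j a 0 h]
  · rw [if_neg h, ind_neg h, mul_zero, zero_mul]

theorem MM_PhZ (l : List ι) (c : (VZ ι Z × VZ ι Z) × (VZ ι Z × VZ ι Z)) (a : Arr ι τ) :
    MM l (PhZ R c) a = ind (∀ j ∈ l, cjZ D c j = 0) * PhZ R c a := by
  induction l with
  | nil =>
    rw [ind_pos (by simp), one_mul]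
    rfl
  | cons j l ih =>
    show MM l (Mop j (PhZ R c)) a = _
    rw [Mop_PhZ, MM_mul, ih, ← mul_assoc]
    congr 1
    by_cases h : cjZ D c j = 0
    · rw [ind_pos h, one_mul]
      apply ind_congr
      simp [h]
    · rw [ind_neg h, zero_mul, ind_neg]
      intro h'
      exact h (h' j (by simp))

theorem MM_PhZ_le (l : List ι) (c : (VZ ι Z × VZ ι Z) × (VZ ι Z × VZ ι Z)) (a : Arr ι τ) :
    MM l (PhZ R c) a ≤ ind ((∀ j ∈ l, cjZ D c j = 0) ∧ cqZ c = 0) := by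
  rw [MM_PhZ, PhZ_eq]
  have h1 : sg (LfZ R c a 0) ≤ 1 := by
    have := abs_sg (LfZ R c a 0)
    exact (le_abs_self _).trans this.le
  by_cases h2 : ∀ j ∈ l, cjZ D c j = 0
  · by_cases h3 : cqZ c = 0
    · rw [ind_pos h2, ind_pos h3, ind_pos ⟨h2, h3⟩, one_mul, one_mul]
      exact h1
    · rw [ind_neg h3, zero_mul, mul_zero]
      exact ind_nonneg _
  · rw [ind_neg h2, zero_mul]
    exact ind_nonneg _

/-! ### The configurations -/

variable (D) in
/-- the pairs which can occur -/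
noncomputable def RRZ (S : Finset ι) : Finset (VZ ι Z × VZ ι Z) :=
  univ.filter fun p => (p.1 ∈ SZ S ∧ p.2 ∈ SZ S) ∧ RelZ D p.1 p.2 ∧
    (p.1.1 = 0 → D.xh p.1.2 = 0 → p.1.2 = 0) ∧ (p.2.1 = 0 → D.xh p.2.2 = 0 → p.2.2 = 0)

/-- the constant part is not degenerate -/
def HI (S : Finset ι) : Prop := ∀ z : Z, D.xh z = 0 → (∀ w ∈ SZ (Z := Z) S, R.B (0, z) w = 0) → z = 0

variable {R} in
theorem HI_mono {S S' : Finset ι} (h : S ⊆ S') (hI : HI R S) : HI R S' :=
  fun z hz hw => hI z hz fun w hw' => hw w fun i hi => hw' i fun h' => hi (h h')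

variable {R} in
theorem kr_zeroZ {S : Finset ι} (hI : HI R S) {a : Arr ι τ} {x : ι → ZMod 2} {κ : VZ ι Z}
    (hκ : κ ∈ kr (fz R a x) (SZ S)) (h1 : κ.1 = 0) (h2 : D.xh κ.2 = 0) : κ.2 = 0 := by
  apply hI _ h2
  intro w hw
  have h := hκ.2 w hw
  rw [fz_apply] at h
  have e1 : AZ a κ w = 0 := by
    rw [AZ]
    refine sum_eq_zero fun i _ => sum_eq_zero fun j _ => ?_
    rw [h1]
    show a.A i j * (om 0 (w.1 i) + om 0 (w.1 i)) = 0
    rw [om_zero_left, add_zero, mul_zero]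
  have e2 : BZ D a κ w = 0 := by
    rw [BZ]
    refine sum_eq_zero fun i _ => sum_eq_zero fun s _ => ?_
    rw [h1, h2]
    show a.B i s * ez (D.t s) (D.m s) 0 (D.xh w.2 s) (0, w.1 i) = 0
    rw [ez]
    simp only [om_zero_left, mul_zero, add_zero, zero_mul]
  have e3 : ∑ i, x i * om (κ.1 i) (w.1 i) = 0 := by
    refine sum_eq_zero fun i _ => ?_
    rw [h1]
    show x i * om 0 (w.1 i) = 0
    rw [om_zero_left, mul_zero]
  rw [e1, e2, e3, zero_add, zero_add, zero_add] at h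
  have e4 : κ = (0, κ.2) := Prod.ext h1 rfl
  rw [e4] at h
  exact h

/-- the vectors of a subspace -/
noncomputable def VfZ (S : Finset ι) : Finset (VZ ι Z) := univ.filter fun w => w ∈ SZ S

theorem card_VfZ (S : Finset ι) : ((VfZ S : Finset (VZ ι Z)).card : ℝ) =
    4 ^ S.card * Fintype.card Z := by
  have h1 := card_SZ (Z := Z) S
  have h2 : (VfZ S : Finset (VZ ι Z)).card = Fintype.card (SZ (Z := Z) S) := by
    rw [Fintype.card_subtype]
    rfl
  rw [h2, h1]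
  push_cast
  rfl

theorem ind_krZ {S : Finset ι} (a : Arr ι τ) (x : ι → ZMod 2) {κ : VZ ι Z} (hκ : κ ∈ SZ S) :
    ind (κ ∈ kr (fz R a x) (SZ S)) * (VfZ S : Finset (VZ ι Z)).card =
      ∑ w ∈ (VfZ S : Finset (VZ ι Z)), sg (fz R a x κ w) := by
  have h1 := sum_hom (((fz R a x) κ).toAddMonoidHom.comp (SZ (Z := Z) S).subtype.toAddMonoidHom)
  have h2 : ∑ w ∈ (VfZ S : Finset (VZ ι Z)), sg (fz R a x κ w) =
      ∑ g : SZ (Z := Z) S, sg ((((fz R a x) κ).toAddMonoidHom.comp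
        (SZ (Z := Z) S).subtype.toAddMonoidHom) g) := by
    exact sum_subtype (p := fun w => w ∈ SZ (Z := Z) S) (VfZ S)
      (fun w => by rw [VfZ, mem_filter]; exact ⟨fun h => h.2, fun h => ⟨mem_univ _, h⟩⟩)
      fun w => sg (fz R a x κ w)
  have h3 : (VfZ S : Finset (VZ ι Z)).card = Fintype.card (SZ (Z := Z) S) := by
    rw [Fintype.card_subtype]
    rfl
  rw [h2, h1, h3]
  by_cases h : κ ∈ kr (fz R a x) (SZ S)
  · rw [ind_pos h, one_mul, if_pos]
    intro g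
    exact h.2 g.1 g.2
  · rw [ind_neg h, zero_mul, if_neg]
    intro h'
    exact h ⟨hκ, fun w hw => h' ⟨w, hw⟩⟩

variable {R} in
theorem ind_NGZ {S : Finset ι} (hI : HI R S) (a : Arr ι τ) (x : ι → ZMod 2) :
    ind (NGZ R S a x) * ((VfZ S : Finset (VZ ι Z)).card : ℝ) ^ 2 ≤
      ∑ p ∈ RRZ D S, ∑ q ∈ (VfZ S : Finset (VZ ι Z)) ×ˢ (VfZ S : Finset (VZ ι Z)),
        sg (LfZ R (p, q) a x) := by
  have h1 : ∀ p ∈ RRZ D S, ∑ q ∈ (VfZ S : Finset (VZ ι Z)) ×ˢ (VfZ S : Finset (VZ ι Z)),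
      sg (LfZ R (p, q) a x) = (ind (p.1 ∈ kr (fz R a x) (SZ S)) *
        ind (p.2 ∈ kr (fz R a x) (SZ S))) * ((VfZ S : Finset (VZ ι Z)).card : ℝ) ^ 2 := by
    intro p hp
    have hp' := (mem_filter.1 hp).2.1
    have e1 := ind_krZ R a x hp'.1
    have e2 := ind_krZ R a x hp'.2
    calc ∑ q ∈ (VfZ S : Finset (VZ ι Z)) ×ˢ (VfZ S : Finset (VZ ι Z)), sg (LfZ R (p, q) a x) =
        (∑ w ∈ (VfZ S : Finset (VZ ι Z)), sg (fz R a x p.1 w)) *
          (∑ w ∈ (VfZ S : Finset (VZ ι Z)), sg (fz R a x p.2 w)) := by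
          rw [sum_mul_sum, sum_product]
          refine sum_congr rfl fun w _ => sum_congr rfl fun w' _ => ?_
          rw [LfZ, sg_add]
      _ = _ := by rw [← e1, ← e2]; ring
  rw [sum_congr rfl h1, ← sum_mul]
  apply mul_le_mul_of_nonneg_right _ (by positivity)
  by_cases h : NGZ R S a x
  · obtain ⟨κ₁, h2, κ₂, h3, h4⟩ := h
    rw [ind_pos ⟨κ₁, h2, κ₂, h3, h4⟩]
    have h5 : (κ₁, κ₂) ∈ RRZ D S := mem_filter.2 ⟨mem_univ _, ⟨h2.1, h3.1⟩, h4,
      fun e1 e2 => kr_zeroZ hI h2 e1 e2, fun e1 e2 => kr_zeroZ hI h3 e1 e2⟩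
    refine le_trans ?_ (single_le_sum (f := fun p : VZ ι Z × VZ ι Z =>
      ind (p.1 ∈ kr (fz R a x) (SZ S)) * ind (p.2 ∈ kr (fz R a x) (SZ S)))
      (fun p _ => mul_nonneg (ind_nonneg _) (ind_nonneg _)) h5)
    show 1 ≤ ind (κ₁ ∈ kr (fz R a x) (SZ S)) * ind (κ₂ ∈ kr (fz R a x) (SZ S))
    rw [ind_pos h2, ind_pos h3, one_mul]
  · rw [ind_neg h]
    exact sum_nonneg fun p _ => mul_nonneg (ind_nonneg _) (ind_nonneg _)

/-- the label of a configuration -/
def zzZ (c : (VZ ι Z × VZ ι Z) × (VZ ι Z × VZ ι Z)) (i : ι) : Lb :=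
  ((c.1.1.1 i, c.2.1.1 i), (c.1.2.1 i, c.2.2.1 i))

variable (D) in
/-- the configurations -/
noncomputable def CfZ (S : Finset ι) (l : List ι) :
    Finset ((VZ ι Z × VZ ι Z) × (VZ ι Z × VZ ι Z)) :=
  (RRZ D S ×ˢ ((VfZ S : Finset (VZ ι Z)) ×ˢ (VfZ S : Finset (VZ ι Z)))).filter fun c =>
    (∀ j ∈ l, cjZ D c j = 0) ∧ cqZ c = 0

theorem labels_fewZ (h2t : ∀ u : W, u ≠ 0 → ∃ s, om u (D.t s) ≠ 0) {S : Finset ι} {l : List ι}
    {c : (VZ ι Z × VZ ι Z) × (VZ ι Z × VZ ι Z)} (hc : c ∈ CfZ D S l) :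
    (l.toFinset.image (zzZ c)).card < 16 := by
  rw [CfZ, mem_filter, mem_product] at hc
  obtain ⟨⟨hR, -⟩, hcj, hcq⟩ := hc
  obtain ⟨-, -, ⟨hne, hrel, -⟩, hz1, hz2⟩ := mem_filter.1 hR
  have q0 : ∀ i, Oq (zzZ c i).1 + Oq (zzZ c i).2 = 0 := fun i => congrFun hcq i
  have key : ∀ j ∈ l, ∀ i, qf (zzZ c j) (zzZ c i) = 0 := by
    intro j hj i
    by_cases hij : i = j
    · rw [hij]
      exact qf_self _
    · have h1 : cjZ D c j (Sum.inl i) = 0 := by rw [hcj j hj]; rfl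
      have h2 : Oq ((zzZ c i).1 + (zzZ c j).1) + Oq ((zzZ c i).2 + (zzZ c j).2) = 0 := by
        have : cjZ D c j (Sum.inl i) = (if i = j then 0 else Oq ((zzZ c i).1 + (zzZ c j).1)) +
          (if i = j then 0 else Oq ((zzZ c i).2 + (zzZ c j).2)) := rfl
        rw [this, if_neg hij, if_neg hij] at h1
        exact h1
      have h3 := q0 i
      have h4 := q0 j
      have h5 : qf (zzZ c j) (zzZ c i) =
          (Oq ((zzZ c i).1 + (zzZ c j).1) + Oq ((zzZ c i).2 + (zzZ c j).2)) +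
          (Oq (zzZ c i).1 + Oq (zzZ c i).2) + (Oq (zzZ c j).1 + Oq (zzZ c j).2) := by
        simp only [qf, Oq, Prod.fst_add, Prod.snd_add, om_add_left, om_add_right]
        have h : ∀ x : ZMod 2, x + x = 0 := F2s
        linear_combination -(h (om (zzZ c i).1.1 (zzZ c i).1.2) + h (om (zzZ c j).1.1 (zzZ c j).1.2) +
          h (om (zzZ c i).2.1 (zzZ c i).2.2) + h (om (zzZ c j).2.1 (zzZ c j).2.2))
      rw [h5, h2, h3, h4, add_zero, add_zero]
  have kb : ∀ s, ∀ x ∈ l.toFinset.image (zzZ c),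
      bez (D.t s) (D.m s) (D.xh c.1.1.2 s) (D.xh c.2.1.2 s) (D.xh c.1.2.2 s) (D.xh c.2.2.2 s) x = 0 := by
    intro s x hx
    obtain ⟨j, hj, rfl⟩ := mem_image.1 hx
    have h1 : cjZ D c j (Sum.inr s) = 0 := by rw [hcj j (List.mem_toFinset.1 hj)]; rfl
    exact h1
  by_cases hex : ∃ i, c.1.1.1 i ≠ 0 ∨ c.1.2.1 i ≠ 0
  · obtain ⟨i, hi⟩ := hex
    refine fewz h2t ?_ (z := zzZ c i) ?_ hi ?_ kb
    · intro x hx y hy
      obtain ⟨j, hj, rfl⟩ := mem_image.1 hx
      obtain ⟨j', hj', rfl⟩ := mem_image.1 hy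
      exact key j (List.mem_toFinset.1 hj) j'
    · intro x hx
      obtain ⟨j, hj, rfl⟩ := mem_image.1 hx
      exact key j (List.mem_toFinset.1 hj) i
    · intro x hx
      obtain ⟨j, hj, rfl⟩ := mem_image.1 hx
      exact hrel j
  · push Not at hex
    have h11 : c.1.1.1 = 0 := funext fun i => (hex i).1
    have h12 : c.1.2.1 = 0 := funext fun i => (hex i).2
    have h1 : ∃ s, D.xh c.1.1.2 s ≠ 0 ∨ D.xh c.1.2.2 s ≠ 0 := by
      by_contra hno
      push Not at hno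
      have e1 : D.xh c.1.1.2 = 0 := funext fun s => (hno s).1
      have e2 : D.xh c.1.2.2 = 0 := funext fun s => (hno s).2
      rcases hne with h | h
      · exact h (Prod.ext h11 (hz1 h11 e1))
      · exact h (Prod.ext h12 (hz2 h12 e2))
    obtain ⟨s, hs⟩ := h1
    refine fewz' hs ?_ ?_ (kb s)
    · intro x hx
      obtain ⟨j, -, rfl⟩ := mem_image.1 hx
      exact (hex j).1
    · intro x hx
      obtain ⟨j, -, rfl⟩ := mem_image.1 hx
      exact (hex j).2

theorem card_CfZ (h2t : ∀ u : W, u ≠ 0 → ∃ s, om u (D.t s) ≠ 0) {S : Finset ι} {l : List ι}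
    (hl : l.Nodup) (hlS : ∀ j ∈ l, j ∈ S) :
    (CfZ D S l).card ≤ CX * Fintype.card Z ^ 4 * (15 ^ l.length * 256 ^ (S.card - l.length)) := by
  set P : Finset Lb → ι → Finset Lb := fun X i =>
    if i ∈ S then (if i ∈ l then X else univ) else {0} with hP
  have hcard : ∀ X : Finset Lb, X.card ≤ 15 →
      (Fintype.piFinset (P X)).card ≤ 15 ^ l.length * 256 ^ (S.card - l.length) := by
    intro X hX
    rw [Fintype.card_piFinset]
    have h1 : ∏ i, (P X i).card ≤ ∏ i, (if i ∈ l.toFinset then 15 else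
        if i ∈ S \ l.toFinset then 256 else 1) := by
      apply prod_le_prod'
      intro i _
      by_cases h2 : i ∈ l
      · rw [if_pos (List.mem_toFinset.2 h2)]
        show (if i ∈ S then (if i ∈ l then X else univ) else {0}).card ≤ 15
        rw [if_pos (hlS i h2), if_pos h2]
        exact hX
      · rw [if_neg (fun h => h2 (List.mem_toFinset.1 h))]
        show (if i ∈ S then (if i ∈ l then X else univ) else {0}).card ≤ _
        by_cases h3 : i ∈ S
        · rw [if_pos h3, if_neg h2, if_pos (mem_sdiff.2 ⟨h3, fun h => h2 (List.mem_toFinset.1 h)⟩)]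
          rw [card_univ]
          simp [Lb, W]
        · rw [if_neg h3, if_neg (fun h => h3 (mem_sdiff.1 h).1), card_singleton]
    refine h1.trans (le_of_eq ?_)
    have h2 : ∏ i, (if i ∈ l.toFinset then 15 else if i ∈ S \ l.toFinset then 256 else 1) =
        (∏ i, (if i ∈ l.toFinset then 15 else 1)) *
          ∏ i, (if i ∈ S \ l.toFinset then 256 else 1) := by
      rw [← prod_mul_distrib]
      refine prod_congr rfl fun i _ => ?_
      by_cases h3 : i ∈ l.toFinset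
      · rw [if_pos h3, if_pos h3, if_neg (fun h => (mem_sdiff.1 h).2 h3), mul_one]
      · rw [if_neg h3, if_neg h3, one_mul]
    have h3 : (S \ l.toFinset).card = S.card - l.length := by
      rw [card_sdiff_of_subset (fun i hi => hlS i (List.mem_toFinset.1 hi)),
        List.toFinset_card_of_nodup hl]
    rw [h2, prod_ite_mem, prod_ite_mem, univ_inter, univ_inter, prod_const, prod_const, h3,
      List.toFinset_card_of_nodup hl]
  have hsub : (CfZ D S l).card ≤ ((XS.biUnion fun X => Fintype.piFinset (P X)) ×ˢ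
      (univ : Finset ((Z × Z) × (Z × Z)))).card := by
    apply card_le_card_of_injOn (fun c => (zzZ c, ((c.1.1.2, c.1.2.2), (c.2.1.2, c.2.2.2))))
    · intro c hc
      have hc' := mem_coe.1 hc
      rw [mem_coe, mem_product]
      refine ⟨?_, mem_univ _⟩
      show zzZ c ∈ XS.biUnion fun X => Fintype.piFinset (P X)
      rw [mem_biUnion]
      refine ⟨l.toFinset.image (zzZ c), mem_XS.2 ?_, ?_⟩
      · have := labels_fewZ h2t hc'
        omega
      · rw [Fintype.mem_piFinset]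
        intro i
        show zzZ c i ∈ (if i ∈ S then (if i ∈ l then l.toFinset.image (zzZ c) else univ) else {0})
        rw [CfZ, mem_filter, mem_product, mem_product] at hc'
        obtain ⟨⟨hR, hw1, hw2⟩, -⟩ := hc'
        obtain ⟨-, ⟨hk1, hk2⟩, -⟩ := mem_filter.1 hR
        split_ifs with h1 h2
        · exact mem_image_of_mem _ (List.mem_toFinset.2 h2)
        · exact mem_univ _
        · rw [mem_singleton, zzZ, hk1 i h1, hk2 i h1, (mem_filter.1 hw1).2 i h1,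
            (mem_filter.1 hw2).2 i h1]
          rfl
    · rintro ⟨⟨⟨a1, b1⟩, ⟨a2, b2⟩⟩, ⟨⟨a3, b3⟩, ⟨a4, b4⟩⟩⟩ _
        ⟨⟨⟨a1', b1'⟩, ⟨a2', b2'⟩⟩, ⟨⟨a3', b3'⟩, ⟨a4', b4'⟩⟩⟩ _ h
      simp only [Prod.mk.injEq] at h
      obtain ⟨h1, ⟨h2, h3⟩, h4, h5⟩ := h
      have e1 : a1 = a1' := funext fun i => congrArg (fun z : Lb => z.1.1) (congrFun h1 i)
      have e2 : a2 = a2' := funext fun i => congrArg (fun z : Lb => z.2.1) (congrFun h1 i)
      have e3 : a3 = a3' := funext fun i => congrArg (fun z : Lb => z.1.2) (congrFun h1 i)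
      have e4 : a4 = a4' := funext fun i => congrArg (fun z : Lb => z.2.2) (congrFun h1 i)
      rw [e1, e2, e3, e4, h2, h3, h4, h5]
  refine hsub.trans ?_
  rw [card_product]
  have h1 : ((XS.biUnion fun X => Fintype.piFinset (P X))).card ≤ CX * (15 ^ l.length * 256 ^ (S.card - l.length)) := by
    refine card_biUnion_le.trans ?_
    refine (sum_le_sum fun X hX => hcard X (mem_XS.1 hX)).trans ?_
    rw [sum_const, smul_eq_mul]
    exact Nat.mul_le_mul_right _ card_XS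
  have h2 : (univ : Finset ((Z × Z) × (Z × Z))).card = Fintype.card Z ^ 4 := by
    rw [card_univ, Fintype.card_prod, Fintype.card_prod]
    ring
  rw [h2]
  calc _ ≤ CX * (15 ^ l.length * 256 ^ (S.card - l.length)) * Fintype.card Z ^ 4 :=
        Nat.mul_le_mul_right _ h1
    _ = _ := by ring

variable {R} in
/-- **kernels are generic** -/
theorem ng_boundZ (h2t : ∀ u : W, u ≠ 0 → ∃ s, om u (D.t s) ≠ 0) {S : Finset ι} (hI : HI R S)
    {l : List ι} (hl : l.Nodup) (hlS : ∀ j ∈ l, j ∈ S) (a : Arr ι τ) :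
    MM l (fun a => av fun x : ι → ZMod 2 => ind (NGZ R S a x)) a ≤
      CX * Fintype.card Z ^ 2 * ((15 / 16) ^ l.length * 16 ^ (S.card - l.length)) := by
  set v : ℝ := ((VfZ S : Finset (VZ ι Z)).card : ℝ) with hv
  have hZp : (0 : ℝ) < Fintype.card Z := by exact_mod_cast Fintype.card_pos
  have hvp : 0 < v := by
    rw [hv, card_VfZ]
    positivity
  have h1 : ∀ a : Arr ι τ, v ^ 2 * av (fun x : ι → ZMod 2 => ind (NGZ R S a x)) ≤
      ∑ c ∈ RRZ D S ×ˢ ((VfZ S : Finset (VZ ι Z)) ×ˢ (VfZ S : Finset (VZ ι Z))), PhZ R c a := by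
    intro a
    rw [← av_mul]
    have h2 : ∀ x : ι → ZMod 2, v ^ 2 * ind (NGZ R S a x) ≤
        ∑ c ∈ RRZ D S ×ˢ ((VfZ S : Finset (VZ ι Z)) ×ˢ (VfZ S : Finset (VZ ι Z))),
          sg (LfZ R c a x) := by
      intro x
      rw [sum_product, mul_comm]
      exact ind_NGZ hI a x
    refine (av_mono h2).trans (le_of_eq ?_)
    exact av_sum _ fun c (x : ι → ZMod 2) => sg (LfZ R c a x)
  have h2 := MM_mono l h1 a
  rw [MM_mul, MM_sum] at h2
  have h3 : ∑ c ∈ RRZ D S ×ˢ ((VfZ S : Finset (VZ ι Z)) ×ˢ (VfZ S : Finset (VZ ι Z))),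
      MM l (PhZ R c) a ≤ ((CfZ D S l).card : ℝ) := by
    refine (sum_le_sum fun c _ => MM_PhZ_le R l c a).trans (le_of_eq ?_)
    rw [CfZ, card_filter]
    push_cast
    refine sum_congr rfl fun c _ => ?_
    by_cases h : (∀ j ∈ l, cjZ D c j = 0) ∧ cqZ c = 0
    · rw [ind_pos h, if_pos h]
    · rw [ind_neg h, if_neg h]
  have h4 : ((CfZ D S l).card : ℝ) ≤
      CX * Fintype.card Z ^ 4 * (15 ^ l.length * 256 ^ (S.card - l.length)) := by
    exact_mod_cast card_CfZ h2t hl hlS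
  have h5 : l.length ≤ S.card := by
    rw [← List.toFinset_card_of_nodup hl]
    exact card_le_card fun i hi => hlS i (List.mem_toFinset.1 hi)
  have h6 : (CX : ℝ) * Fintype.card Z ^ 4 * (15 ^ l.length * 256 ^ (S.card - l.length)) =
      v ^ 2 * (CX * Fintype.card Z ^ 2 * ((15 / 16) ^ l.length * 16 ^ (S.card - l.length))) := by
    rw [hv, card_VfZ]
    obtain ⟨m, hm⟩ : ∃ m, S.card = l.length + m := ⟨S.card - l.length, by omega⟩
    rw [hm, Nat.add_sub_cancel_left]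
    have e1 : (4 : ℝ) ^ (l.length + m) = 4 ^ l.length * 4 ^ m := pow_add _ _ _
    have e2 : (256 : ℝ) ^ m = (4 ^ m) ^ 2 * 16 ^ m := by
      rw [← pow_mul, mul_comm m 2, pow_mul, ← mul_pow]; norm_num
    have e3 : (15 : ℝ) ^ l.length = (4 ^ l.length) ^ 2 * (15 / 16) ^ l.length := by
      rw [← pow_mul, mul_comm l.length 2, pow_mul, ← mul_pow]; norm_num
    rw [e1, e2, e3]
    ring
  have h7 := h2.trans (h3.trans h4)
  rw [h6] at h7
  exact le_of_mul_le_mul_left h7 (by positivity)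

end

end Pool.Agent.V8H26.YG
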