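import Pool.Agent.V8H26.YG.Ev

/-!
# The classes of a given set of ramified and of split primes
-/

set_option autoImplicit false
set_option linter.all false

open Polynomial Filter Topology
open scoped Classical

namespace Pool.Agent.V8H26.YG

open Pool.Agent.TH115.GD Pool.Agent.H341R2.Sharp Finset Pool.Agent.Y164.PS Pool.Agent.V8H26.XA
open Pool.Agent.V8H26.YL (P1E P2E gclE be be_mem cnt_law)
open Pool.Agent.V8H26.YA (sgn NSpl NSq gclE_iff nspl_iff sgT ga)

section
variable {k : Type} [Field k] [Fintype k] [DecidableEq k] (K : Type) [Field K] [Algebra k[X] K]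
  [IsFractionRing k[X] K]
variable {a b : k[X]} {N : ℕ} (H : Hyp a b N)

/-- the density of a class -/
noncomputable def dn (a b : k[X]) (Γ : Set k[X]) : ℝ :=
  ∏ s : Tau a b, if QQ a b s ∈ Γ then 1 / ((Fintype.card k : ℝ) ^ (QQ a b s).natDegree + 1)
    else (Fintype.card k : ℝ) ^ (QQ a b s).natDegree /
      (2 * ((Fintype.card k : ℝ) ^ (QQ a b s).natDegree + 1))

theorem RE_card (Γ T : Set k[X]) :
    (univ.filter (RE (mS a b Γ) (sgT a b T))).card = ∏ s : Tau a b, if QQ a b s ∈ Γ then 2 else 1 := by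
  have h1 : univ.filter (RE (mS a b Γ) (sgT a b T)) = Fintype.piFinset fun s : Tau a b =>
      if QQ a b s ∈ Γ then (univ : Finset F2) else {sgT a b T s} := by
    ext ep
    rw [mem_filter, Fintype.mem_piFinset]
    constructor
    · rintro ⟨-, h⟩ s
      by_cases hs : QQ a b s ∈ Γ
      · rw [if_pos hs]
        exact mem_univ _
      · rw [if_neg hs, mem_singleton]
        exact h s (fun h3 => hs (mS_iff.1 h3))
    · intro h
      refine ⟨mem_univ _, fun s hs => ?_⟩
      have h3 := h s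
      rw [if_neg (fun h4 => hs (mS_iff.2 h4)), mem_singleton] at h3
      exact h3
  rw [h1, Fintype.card_piFinset]
  refine prod_congr rfl fun s _ => ?_
  split_ifs
  · rw [card_univ, ZMod.card]
  · rw [card_singleton]

include H in
theorem dn_eq (Γ T : Set k[X]) :
    ((univ.filter (RE (mS a b Γ) (sgT a b T))).card : ℝ) * c00 a b /
      (Fintype.card k : ℝ) ^ dg (mS a b Γ) = (1 - 1 / (Fintype.card k : ℝ)) * dn a b Γ := by
  have hq := q_gt (k := k)
  have h1 : ((univ.filter (RE (mS a b Γ) (sgT a b T))).card : ℝ) / 2 ^ Fintype.card (Tau a b) *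
      rh a b * (1 / (Fintype.card k : ℝ) ^ dg (mS a b Γ)) = dn a b Γ := by
    rw [RE_card, w_eq H, rh, dn, ← card_univ, ← prod_const]
    push_cast
    rw [← prod_div_distrib, ← prod_mul_distrib, ← prod_mul_distrib]
    refine prod_congr rfl fun s _ => ?_
    have h6 : (0 : ℝ) < (Fintype.card k : ℝ) ^ (QQ a b s).natDegree := by positivity
    by_cases hs : QQ a b s ∈ Γ
    · rw [if_pos hs, if_pos hs, val_one _ (mS_iff.2 hs), one_mul]
      field_simp
    · rw [if_neg hs, if_neg hs, val_ne _ (fun h3 => hs (mS_iff.1 h3)), zero_mul, pow_zero]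
      field_simp
  rw [← h1, c00]
  ring

include H in
theorem dn_pos (Γ : Set k[X]) : 0 < dn a b Γ := prod_pos fun s _ => by
  have := q_gt (k := k)
  split_ifs
  · positivity
  · positivity

variable {Γ T : Set k[X]} (hΓ : ∀ Q ∈ Γ, Q.Monic ∧ Irreducible Q ∧ Q ∣ a * b * (a - b))
  (hT : ∀ Q ∈ T, Q.Monic ∧ Irreducible Q ∧ Q ∣ a * b * (a - b)) (hd : Disjoint Γ T)

include H hΓ hT hd in
theorem GT_ct (G : k[X] → Prop) (n : ℕ) :
    ct (fun D => ramS a b D = Γ ∧ splT a b D = T ∧ G D) (dg (mS a b Γ) + n) =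
      ∑ ep ∈ univ.filter (RE (mS a b Γ) (sgT a b T)), cE (mS a b Γ) ep G n := by
  rw [← cnt_GT H hΓ hT hd, ct_of]

include H hT hd in
theorem RE_spz {ep : Tau a b → F2} (hep : RE (mS a b Γ) (sgT a b T) ep) :
    spz (mS a b Γ) ep = T.ncard := by
  have h1 : T = QQ a b '' {s | mS a b Γ s ≠ 1 ∧ ep s = 0} := by
    ext Q
    constructor
    · intro hQ
      obtain ⟨s, rfl⟩ := bad_ex H (hT Q hQ)
      have h3 : mS a b Γ s ≠ 1 := fun h4 => Set.disjoint_left.1 hd (mS_iff.1 h4) hQ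
      exact ⟨s, ⟨h3, by rw [hep s h3]; exact sgT_iff.2 hQ⟩, rfl⟩
    · rintro ⟨s, ⟨h3, h4⟩, rfl⟩
      rw [hep s h3] at h4
      exact sgT_iff.1 h4
  rw [h1, Set.ncard_image_of_injective _ QQ_inj, spz, ← Set.ncard_coe_finset]
  congr 1
  ext s
  simp

include H hΓ hT hd in
theorem GT_true (hq : 4 ≤ Fintype.card k) :
    Tendsto (fun n : ℕ => (ct (fun D => ramS a b D = Γ ∧ splT a b D = T ∧ True) n : ℝ) /
      (Fintype.card k : ℝ) ^ n) atTop (𝓝 ((1 - 1 / (Fintype.card k : ℝ)) * dn a b Γ)) := by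
  rw [← dn_eq H Γ T]
  refine shift (u := fun n => ∑ ep ∈ univ.filter (RE (mS a b Γ) (sgT a b T)),
    (cE (mS a b Γ) ep (fun _ => True) n : ℝ)) ?_ ?_
  · intro n
    rw [GT_ct H hΓ hT hd (fun _ => True) n]
    push_cast
    rfl
  · simp only [sum_div]
    have h1 : ((univ.filter (RE (mS a b Γ) (sgT a b T))).card : ℝ) * c00 a b =
        ∑ ep ∈ univ.filter (RE (mS a b Γ) (sgT a b T)), c00 a b := by
      rw [sum_const, nsmul_eq_mul]
    rw [h1]
    exact tendsto_finset_sum _ fun ep _ => cE_true H (mS a b Γ) hq ep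

include H hΓ hT hd in
theorem GT_law (hq : 4 ≤ Fintype.card k)
    (h2t : ∀ u : W, u ≠ 0 → ∃ s, om u ((datum H).t s) ≠ 0) {r : ℕ} (hr : Even (r + T.ncard)) :
    Tendsto (fun n : ℕ => (ct (fun D => ramS a b D = Γ ∧ splT a b D = T ∧
      so k K a b D = 2 ^ (r + 2)) n : ℝ) / (Fintype.card k : ℝ) ^ n) atTop
      (𝓝 (be r * ((1 - 1 / (Fintype.card k : ℝ)) * dn a b Γ))) := by
  rw [← dn_eq H Γ T, ← mul_div_assoc]
  refine shift (u := fun n => ∑ ep ∈ univ.filter (RE (mS a b Γ) (sgT a b T)),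
    (cE (mS a b Γ) ep (fun D => so k K a b D = 2 ^ (r + 2)) n : ℝ)) ?_ ?_
  · intro n
    rw [GT_ct H hΓ hT hd (fun D => so k K a b D = 2 ^ (r + 2)) n]
    push_cast
    rfl
  · simp only [sum_div]
    have h1 : be r * (((univ.filter (RE (mS a b Γ) (sgT a b T))).card : ℝ) * c00 a b) =
        ∑ ep ∈ univ.filter (RE (mS a b Γ) (sgT a b T)), be r * c00 a b := by
      rw [sum_const, nsmul_eq_mul]
      ring
    rw [h1]
    refine tendsto_finset_sum _ fun ep hep => ?_
    have h3 := cE_law K H (mS a b Γ) hq h2t ep r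
    rw [if_pos] at h3
    · exact h3
    · rw [RE_spz H hT hd (mem_filter.1 hep).2]
      rw [Nat.even_iff] at hr
      omega

include H in
/-- the statement for one polynomial -/
theorem one_D (h2t : ∀ u : W, u ≠ 0 → ∃ s, om u ((datum H).t s) ≠ 0) {D : k[X]} (hm : D.Monic)
    (hs : Squarefree D) (hF : ¬ D ∣ a * b * (a - b)) :
    (∃ r : ℕ, Even (r + (splT a b D).ncard) ∧ so k K a b D = 2 ^ (r + 2)) ∧
      (so k K a b D = 4 ↔
        Finite (Pt (crv (algebraMap k[X] K (a * D)) (algebraMap k[X] K (b * D))) K) ∧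
        ShaTwo k (crv (algebraMap k[X] K (a * D)) (algebraMap k[X] K (b * D)))) := by
  obtain ⟨m, hm'⟩ : ∃ m : Tau a b → F2, Ty m D := ⟨tyOf D, (tyOf_iff _).1 rfl⟩
  obtain ⟨h1, D', h4, h5, h6⟩ := ty_div H m (mem_Sf.2 ⟨hm, rfl, hs⟩) hm'
  have hn : 1 ≤ D.natDegree - dg m := by
    by_contra h0
    have h7 := mem_Sf.1 h4
    have h8 : D' = 1 := by
      rw [← h7.1.natDegree_eq_zero]
      omega
    apply hF
    rw [← h6, h8, mul_one, gm]
    refine Finset.prod_dvd_of_coprime ?_ ?_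
    · intro s _ s' _ h
      exact (H.fam.coprime h).pow
    · intro s _
      by_cases h9 : m s = 1
      · rw [val_one _ h9, pow_one]
        exact ((mem_bp H).1 s.2).2.2
      · rw [val_ne _ h9, pow_zero]
        exact one_dvd _
  obtain ⟨⟨r, k1, k2⟩, k3⟩ := one_clsG K H m (cm m D') h2t hn h4 ⟨h5, (gclE_epc m).2 rfl⟩
  rw [h6] at k2 k3
  refine ⟨⟨r, ?_, k2⟩, k3⟩
  rw [← h6, spl_card H m h5, Nat.even_iff]
  omega

end

end Pool.Agent.V8H26.YG
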