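import Pool.Agent.V8H26.YG.Vec
import Pool.Agent.V8H26.YG.Mod

/-!
# The order of the 2-Selmer group of the twists with bad prime factors
-/

set_option autoImplicit false
set_option linter.all false

open Polynomial IsDedekindDomain WeierstrassCurve WeierstrassCurve.Affine
open scoped Classical

namespace Pool.Agent.V8H26.YG

open Pool.Agent.TH115.GD Pool.Agent.H341R2.Sharp Finset Pool.Agent.Y164.PS Pool.Agent.V8H26.XA
open Pool.Agent.V8H26.XL (Arr arr dm F2s F2c kr mem_kr rho)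
open Pool.Agent.V8H26.YA (split_pl locSol_congr el_even)
open Pool.Agent.V8H26.YB (rr rr_ne ch_rr sq_lc sqEq_inf good_inf par_inf)

section
variable {k K : Type} [Field k] [Fintype k] [DecidableEq k] [Field K] [Algebra k[X] K]
  [IsFractionRing k[X] K]
variable {a b : k[X]} {N : ℕ} (H : Hyp a b N) (m ep : Tau a b → F2)
variable {ι : Type} [Fintype ι] {P : ι → k[X]} (hR : Fam (RR a b P))
variable (hcl : ∀ s, ∑ i, BT (QQ a b) P i s = ep s + gg' (dT H) m s)

/-- the polynomials of a solution -/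
noncomputable def g0 (H : Hyp a b N) (P : ι → k[X]) (p : UU ι (Tau a b) × W) : k[X] :=
  el (RR a b P) (rr H.hk p.2.1) (ne0 p.1)

noncomputable def g1 (H : Hyp a b N) (P : ι → k[X]) (p : UU ι (Tau a b) × W) : k[X] :=
  el (RR a b P) (rr H.hk p.2.2) (ne1 p.1)

include hR in
theorem g_ne (p : UU ι (Tau a b) × W) : g0 H P p ≠ 0 ∧ g1 H P p ≠ 0 :=
  ⟨el_ne hR (rr_ne H.hk _) _, el_ne hR (rr_ne H.hk _) _⟩

theorem ch_g (p : UU ι (Tau a b) × W) :
    ((ch (rr (k := k) H.hk p.2.1), ch (rr (k := k) H.hk p.2.2)) : W) = p.2 := by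
  rw [ch_rr, ch_rr]

/-! ### Infinity -/

theorem lc_el {κ : Type} [Fintype κ] {R : κ → k[X]} (hm : ∀ x, (R x).Monic) (r : k) (n : κ → ℕ) :
    (el R r n).leadingCoeff = r := by
  rw [el, leadingCoeff_mul, leadingCoeff_C, (monic_prod_of_monic _ _ fun x _ =>
    (hm x).pow _).leadingCoeff, mul_one]

include hR in
/-- the degrees -/
theorem deg_g {r0 r1 : k} (hr0 : r0 ≠ 0) (hr1 : r1 ≠ 0) (n0 n1 : ι ⊕ Tau a b → ℕ) :
    ((((el (RR a b P) r0 n0).natDegree : F2), ((el (RR a b P) r1 n1).natDegree : F2)) : W) =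
      dL (dT H) (dm P) (fun i => ((n0 (Sum.inl i) : F2), (n1 (Sum.inl i) : F2)),
        fun s => ((n0 (Sum.inr s) : F2), (n1 (Sum.inr s) : F2))) := by
  have e1 : ∀ {r : k} (hr : r ≠ 0) (n : ι ⊕ Tau a b → ℕ), ((el (RR a b P) r n).natDegree : F2) =
      ∑ i, (n (Sum.inl i) : F2) * ((P i).natDegree : F2) +
      ∑ s, (n (Sum.inr s) : F2) * ((QQ a b s).natDegree : F2) := by
    intro r hr n
    have h6 : el (RR a b P) r n = C r * el (RR a b P) 1 n := by
      rw [el, el, C_1, one_mul]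
    rw [h6, natDegree_C_mul hr, deg_el hR.mon, Fintype.sum_sum_type]
    rfl
  rw [e1 hr0, e1 hr1, dL_apply]
  apply Prod.ext
  · rw [Prod.fst_add, Prod.fst_sum, Prod.fst_sum]
    refine congrArg₂ (· + ·) ?_ ?_
    · exact sum_congr rfl fun i _ => mul_comm _ _
    · exact sum_congr rfl fun i _ => mul_comm _ _
  · rw [Prod.snd_add, Prod.snd_sum, Prod.snd_sum]
    refine congrArg₂ (· + ·) ?_ ?_
    · exact sum_congr rfl fun i _ => mul_comm _ _
    · exact sum_congr rfl fun i _ => mul_comm _ _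

include hR in
theorem deg_w' {r0 r1 : k} (hr0 : r0 ≠ 0) (hr1 : r1 ≠ 0) (w : UU ι (Tau a b)) :
    ((((el (RR a b P) r0 (ne0 w)).natDegree : F2),
      ((el (RR a b P) r1 (ne1 w)).natDegree : F2)) : W) = dL (dT H) (dm P) w := by
  rw [deg_g H hR hr0 hr1]
  congr 1
  exact Prod.ext (funext fun i => ne_inl w i) (funext fun s => ne_inr w s)

include hR in
theorem deg_T (y : W) :
    ((((el (RR a b P) (rp0 a b y) (nq0 m ι y)).natDegree : F2),
      ((el (RR a b P) (rp1 a b y) (nq1 m ι y)).natDegree : F2)) : W) =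
        dL (dT H) (dm P) (Th (dT H) m y) := by
  rw [deg_g H hR (rp_ne H y).1 (rp_ne H y).2]
  congr 1
  exact Prod.ext (funext fun i => nq_inl m y i) (funext fun s => nq_inr H m y s)

/-- polynomials whose degrees and leading coefficients have the same classes -/
theorem sqEq_infG (h2 : (2 : k) ≠ 0) {p q : k[X]} (hp : p ≠ 0) (hq : q ≠ 0)
    (hd : (p.natDegree : F2) = (q.natDegree : F2)) (h : ch p.leadingCoeff = ch q.leadingCoeff) :
    SqEq (algebraMap K (CompInf k K) (algebraMap k[X] K p))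
      (algebraMap K (CompInf k K) (algebraMap k[X] K q)) := by
  have lp : p.leadingCoeff ≠ 0 := leadingCoeff_ne_zero.2 hp
  have lq : q.leadingCoeff ≠ 0 := leadingCoeff_ne_zero.2 hq
  have he : Even (p * q).natDegree := by
    rw [← cast_eq_zero_iff_even, natDegree_mul hp hq, Nat.cast_add, hd, F2_add_self]
  have hl : SqEq (p * q).leadingCoeff (1 : k[X]).leadingCoeff := by
    rw [leadingCoeff_mul, leadingCoeff_one]
    have h3 : IsSquare (p.leadingCoeff * q.leadingCoeff) := by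
      rw [← ch_eq_zero_iff (mul_ne_zero lp lq), ch_mul lp lq, h, F2_add_self]
    obtain ⟨z, hz⟩ := h3
    refine ⟨z, ?_, by rw [hz]; ring⟩
    rintro rfl
    rw [mul_zero] at hz
    exact mul_ne_zero lp lq hz
  have h4 := sqEq_inf (K := K) h2 (mul_ne_zero hp hq) one_ne_zero he
    (by rw [natDegree_one]; exact ⟨0, rfl⟩) hl
  have jq : algebraMap K (CompInf k K) (algebraMap k[X] K q) ≠ 0 := by
    have : algebraMap k[X] K q ≠ 0 := by simpa using hq
    exact (_root_.map_ne_zero _).2 this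
  obtain ⟨c, hc, e⟩ := h4
  refine ⟨c / algebraMap K (CompInf k K) (algebraMap k[X] K q), div_ne_zero hc jq, ?_⟩
  rw [map_mul, map_mul, map_one, map_one, mul_one] at e
  field_simp
  linear_combination e

include H hR in
/-- the solutions are locally soluble at infinity, if the reduction is additive -/
theorem inf_o (hN : ∑ i, dm P i + (N : F2) + ∑ s, m s * ((QQ a b s).natDegree : F2) = 1)
    {p : UU ι (Tau a b) × W} (hx : p.2 = ks (datum H).l (dL (dT H) (dm P) p.1)) :
    LocSol (F := K) (crv (am K m a P) (am K m b P)) (am K m a P) (am K m b P) (CompInf k K)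
      (algebraMap k[X] K (g0 H P p)) (algebraMap k[X] K (g1 H P p)) := by
  have h2 := two_ne H
  set y := dL (dT H) (dm P) p.1 with hy
  obtain ⟨T, -, e0, e1⟩ := tor_Tm (K := K) H m hR y
  have hN' : ∑ i, dm P i + (dT H).N + ∑ s, m s * (dT H).e s = 1 := hN
  have hd : dL (dT H) (dm P) (Th (dT H) m y) = y := by rw [dL_Th, hN', one_smul]
  have d1 := deg_w' H hR (rr_ne (k := k) H.hk p.2.1) (rr_ne (k := k) H.hk p.2.2) p.1
  have d2 := deg_T H m hR y
  rw [hd, hy] at d2
  have hdeg := d1.trans d2.symm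
  have hlc : ((ch (rr (k := k) H.hk p.2.1), ch (rr (k := k) H.hk p.2.2)) : W) =
      (ch (rp0 a b y), ch (rp1 a b y)) := by rw [ch_g H p, rp_ch H, hx]
  refine locSol_pt2 (compInfAlgebra' k K K) (compInfAlgebra k K) (fun x => rfl) T ?_ ?_
  · rw [e0]
    refine sqEq_infG h2 (g_ne H hR p).1 (el_ne hR (rp_ne H y).1 _) (congrArg Prod.fst hdeg) ?_
    rw [g0, lc_el hR.mon, lc_el hR.mon]
    exact congrArg Prod.fst hlc
  · rw [e1]
    refine sqEq_infG h2 (g_ne H hR p).2 (el_ne hR (rp_ne H y).2 _) (congrArg Prod.snd hdeg) ?_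
    rw [g1, lc_el hR.mon, lc_el hR.mon]
    exact congrArg Prod.snd hlc

include H hR in
/-- the degrees -/
theorem even_dm (hN : ∑ i, dm P i + (N : F2) + ∑ s, m s * ((QQ a b s).natDegree : F2) = 0) :
    ∃ n : ℕ, (a * (gm m * ∏ i, P i)).natDegree = 2 * n ∧
      (b * (gm m * ∏ i, P i)).natDegree = 2 * n ∧
      ((a - b) * (gm m * ∏ i, P i)).natDegree = 2 * n := by
  have hP : (∏ i, P i).Monic := monic_prod_of_monic _ _ fun i _ => hR.mon (Sum.inl i)
  have hg : (gm (k := k) m).Monic := monic_prod_of_monic _ _ fun s _ => (H.fam.mon s).pow _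
  have hd : (∏ i, P i).natDegree = ∑ i, (P i).natDegree :=
    natDegree_prod_of_monic _ _ fun i _ => hR.mon (Sum.inl i)
  have hd' : (gm (k := k) m).natDegree = ∑ s, (m s).val * (QQ a b s).natDegree := by
    rw [gm, natDegree_prod_of_monic _ _ fun s _ => (H.fam.mon s).pow _]
    exact sum_congr rfl fun s _ => (H.fam.mon s).natDegree_pow _
  have hgP : (gm m * ∏ i, P i).Monic := hg.mul hP
  have hgd : (gm m * ∏ i, P i).natDegree =
      ∑ s, (m s).val * (QQ a b s).natDegree + ∑ i, (P i).natDegree := by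
    rw [hg.natDegree_mul hP, hd, hd']
  have he : Even (∑ s, (m s).val * (QQ a b s).natDegree + ∑ i, (P i).natDegree + N) := by
    rw [← cast_eq_zero_iff_even]
    push_cast
    simp only [ZMod.natCast_zmod_val]
    rw [← hN]
    show _ = ∑ i, ((P i).natDegree : F2) + _ + _
    ring
  obtain ⟨n, hn⟩ := he
  refine ⟨n, ?_, ?_, ?_⟩
  · rw [natDegree_mul H.ha hgP.ne_zero, H.da, hgd]
    omega
  · rw [natDegree_mul H.hb hgP.ne_zero, H.db, hgd]
    omega
  · rw [natDegree_mul (sub_ne_zero.2 H.hab) hgP.ne_zero, H.dc, hgd]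
    omega

include H hR in
/-- local solubility at infinity, if the reduction is good -/
theorem inf_e (hN : ∑ i, dm P i + (N : F2) + ∑ s, m s * ((QQ a b s).natDegree : F2) = 0)
    {p : UU ι (Tau a b) × W} (hx : dL (dT H) (dm P) p.1 = 0) :
    LocSol (F := K) (crv (am K m a P) (am K m b P)) (am K m a P) (am K m b P) (CompInf k K)
      (algebraMap k[X] K (g0 H P p)) (algebraMap k[X] K (g1 H P p)) := by
  have h2 := two_ne H
  have h2K : (2 : K) ≠ 0 := tt h2
  obtain ⟨haK, hbK, habK⟩ := ne_tm (K := K) H m hR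
  obtain ⟨t1, t2, t3⟩ := tm_ne H m hR
  have hd := deg_w' H hR (rr_ne (k := k) H.hk p.2.1) (rr_ne (k := k) H.hk p.2.2) p.1
  rw [hx] at hd
  have d0' : Even (g0 H P p).natDegree := by
    rw [← cast_eq_zero_iff_even]
    exact congrArg Prod.fst hd
  have d1' : Even (g1 H P p).natDegree := by
    rw [← cast_eq_zero_iff_even]
    exact congrArg Prod.snd hd
  obtain ⟨n, dA, dB, dAB⟩ := even_dm H m hR hN
  have sAB : (a - b) * (gm m * ∏ i, P i) = a * (gm m * ∏ i, P i) - b * (gm m * ∏ i, P i) :=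
    sub_mul _ _ _
  have t3' : a * (gm m * ∏ i, P i) - b * (gm m * ∏ i, P i) ≠ 0 := sub_ne_zero.2 t3
  rcases good_inf (K := K) h2 t1 t2 t3' dA dB (by rw [← sAB]; exact dAB) (g_ne H hR p).1
    (g_ne H hR p).2 d0' d1' with ⟨T, s0, s1⟩ | ⟨x, y, e, x0, xa, s0, s1⟩
  · exact locSol_pt2 (compInfAlgebra' k K K) (compInfAlgebra k K) (fun x => rfl) T s0 s1
  · exact locSol_xy (compInfAlgebra' k K K) (compInfAlgebra k K) (fun x => rfl) h2K haK hbK
      habK e x0 xa s0 s1

include H hR in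
theorem nec_e (hN : ∑ i, dm P i + (N : F2) + ∑ s, m s * ((QQ a b s).natDegree : F2) = 0)
    {p : UU ι (Tau a b) × W} {x y : K} (s0 : SqEq x (algebraMap k[X] K (g0 H P p)))
    (s1 : SqEq y (algebraMap k[X] K (g1 H P p)))
    (hls : LSg (F := K) k (crv (am K m a P) (am K m b P)) (am K m a P) (am K m b P) x y) :
    dL (dT H) (dm P) p.1 = 0 := by
  have h2 := two_ne H
  obtain ⟨t1, t2, t3⟩ := tm_ne H m hR
  obtain ⟨n, dA, dB, dAB⟩ := even_dm H m hR hN
  have sAB : (a - b) * (gm m * ∏ i, P i) = a * (gm m * ∏ i, P i) - b * (gm m * ∏ i, P i) :=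
    sub_mul _ _ _
  have t3' : a * (gm m * ∏ i, P i) - b * (gm m * ∏ i, P i) ≠ 0 := sub_ne_zero.2 t3
  obtain ⟨c0, hc0, q0⟩ := s0
  obtain ⟨c1, hc1, q1⟩ := s1
  obtain ⟨v0, v1⟩ := par_inf (K := K) h2 t1 t2 t3' dA dB (by rw [← sAB]; exact dAB)
    (g_ne H hR p).1 (g_ne H hR p).2 q0 q1 hc0 hc1 hls
  rw [← deg_w' H hR (rr_ne (k := k) H.hk p.2.1) (rr_ne (k := k) H.hk p.2.2) p.1]
  exact Prod.ext ((cast_eq_zero_iff_even _).2 v0) ((cast_eq_zero_iff_even _).2 v1)

end

end Pool.Agent.V8H26.YG
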