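import Pool.Agent.V8H26.YG.Den
import Pool.Agent.V8H26.YA.Cla

/-!
# The types and the classes of the squarefree polynomials
-/

set_option autoImplicit false
set_option linter.all false

open Polynomial Filter Topology
open scoped Classical

namespace Pool.Agent.V8H26.YG

open Pool.Agent.TH115.GD Pool.Agent.H341R2.Sharp Finset Pool.Agent.Y164.PS Pool.Agent.V8H26.XA
open Pool.Agent.V8H26.YL (P1E P2E gclE be)
open Pool.Agent.V8H26.YA (sgn NSpl NSq gclE_iff nspl_iff sgT)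

theorem val_one : ∀ x : F2, x = 1 → x.val = 1 := by decide

theorem val_ne : ∀ x : F2, x ≠ 1 → x.val = 0 := by decide

section
variable {k : Type} [Field k] [Fintype k] [DecidableEq k]
variable {a b : k[X]} {N : ℕ} (H : Hyp a b N) (m : Tau a b → F2)

/-- the bad primes which divide `D` are those of `m` -/
def Ty (D : k[X]) : Prop := ∀ s, QQ a b s ∣ D ↔ m s = 1

include H in
theorem gm_monic : (gm m).Monic := monic_prod_of_monic _ _ fun s _ => (H.fam.mon s).pow _

include H in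
theorem gm_sq : Squarefree (gm m) := by
  rw [gm]
  refine Finset.squarefree_prod_of_pairwise_isCoprime ?_ ?_
  · intro s _ s' _ h
    exact (H.fam.coprime h).pow.isRelPrime
  · intro s _
    by_cases h : m s = 1
    · rw [val_one _ h, pow_one]
      exact (H.fam.irr s).squarefree
    · rw [val_ne _ h, pow_zero]
      exact squarefree_one

include H in
theorem dvd_gm (s : Tau a b) : QQ a b s ∣ gm m ↔ m s = 1 := by
  constructor
  · intro h
    obtain ⟨s', -, h1⟩ := (H.fam.irr s).prime.exists_mem_finset_dvd h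
    have h2 := (H.fam.irr s).prime.dvd_of_dvd_pow h1
    have h3 : s = s' := QQ_inj (eq_of_monic_of_associated (H.fam.mon s) (H.fam.mon s')
      ((H.fam.irr s).associated_of_dvd (H.fam.irr s') h2))
    subst h3
    by_contra h4
    rw [val_ne _ h4, pow_zero] at h1
    exact (H.fam.irr s).not_isUnit (isUnit_of_dvd_one h1)
  · intro h
    have h1 : QQ a b s ^ (m s).val ∣ gm m := dvd_prod_of_mem _ (mem_univ s)
    rwa [val_one _ h, pow_one] at h1

include H in
theorem gm_cop {D : k[X]} (h : nb a b D) : IsCoprime (gm m) D :=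
  IsCoprime.prod_left fun s _ => ((H.fam.irr s).coprime_iff_not_dvd.2 (h s)).pow_left

/-- the degree of the ramified part -/
noncomputable def dg : ℕ := (gm m).natDegree

include H in
theorem ty_mul {D : k[X]} (h : nb a b D) : Ty m (gm m * D) := by
  intro s
  rw [← dvd_gm H m s]
  constructor
  · intro h1
    exact ((H.fam.irr s).prime.dvd_or_dvd h1).resolve_right (h s)
  · exact fun h1 => h1.mul_right _

include H in
theorem gm_dvd {D : k[X]} (h : Ty m D) : gm m ∣ D := by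
  rw [gm]
  refine Finset.prod_dvd_of_coprime ?_ ?_
  · intro s _ s' _ h
    exact (H.fam.coprime h).pow
  · intro s _
    by_cases h1 : m s = 1
    · rw [val_one _ h1, pow_one]
      exact (h s).2 h1
    · rw [val_ne _ h1, pow_zero]
      exact one_dvd _

include H in
theorem ty_div {n : ℕ} {D : k[X]} (hD : D ∈ Sf k n) (h : Ty m D) :
    dg m ≤ n ∧ ∃ D' ∈ Sf k (n - dg m), nb a b D' ∧ gm m * D' = D := by
  obtain ⟨D', rfl⟩ := gm_dvd H m h
  have h1 := mem_Sf.1 hD
  have hg := gm_monic H m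
  have h2 : D'.Monic := hg.of_mul_monic_left h1.1
  have h3 := h1.2.1
  rw [hg.natDegree_mul h2] at h3
  have h4 : dg m = (gm m).natDegree := rfl
  refine ⟨by omega, D', mem_Sf.2 ⟨h2, by omega, h1.2.2.squarefree_of_dvd (dvd_mul_left _ _)⟩,
    fun s hs => ?_, rfl⟩
  have h5 : m s = 1 := (h s).1 (hs.mul_left _)
  have h6 := (dvd_gm H m s).2 h5
  exact (H.fam.irr s).not_isUnit (h1.2.2 _ (mul_dvd_mul h6 hs))

include H in
theorem cnt_ty (G : k[X] → Prop) (n : ℕ) :
    ((Sf k (dg m + n)).filter fun D => Ty m D ∧ G D).card =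
      ((Sf k n).filter fun D => nb a b D ∧ G (gm m * D)).card := by
  symm
  refine Finset.card_bij (fun D _ => gm m * D) ?_ ?_ ?_
  · intro D hD
    obtain ⟨h1, h2, h3⟩ := mem_filter.1 hD
    exact mem_filter.2 ⟨mulSf (gm_monic H m) (gm_sq H m) h1 (gm_cop H m h2), ty_mul H m h2, h3⟩
  · intro D _ D' _ h
    exact mul_left_cancel₀ (gm_monic H m).ne_zero h
  · intro D hD
    obtain ⟨h1, h2, h3⟩ := mem_filter.1 hD
    obtain ⟨-, D', h4, h5, rfl⟩ := ty_div H m h1 h2
    rw [Nat.add_sub_cancel_left] at h4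
    exact ⟨D', mem_filter.2 ⟨h4, h5, h3⟩, rfl⟩

/-- the class of a polynomial prime to the bad primes -/
noncomputable def cm (D : k[X]) (s : Tau a b) : F2 :=
  sgn a b D s + ∑ s', m s' * L (QQ a b s) (QQ a b s')

theorem gclE_epc {ep : Tau a b → F2} {D : k[X]} : gclE a b (epc m ep) D ↔ cm m D = ep := by
  rw [gclE_iff, funext_iff, funext_iff]
  apply forall_congr'
  intro s
  rw [epc, cm]
  have h : ∀ x y z : F2, x = y + z ↔ x + z = y := by decide
  exact h _ _ _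

/-- the number of the polynomials in a class -/
noncomputable def cE (m ep : Tau a b → F2) (G : k[X] → Prop) (n : ℕ) : ℕ :=
  ((Sf k n).filter (P2E (fun D => G (gm m * D)) a b (epc m ep))).card

theorem cnt_cls (R : (Tau a b → F2) → Prop) (G : k[X] → Prop) (n : ℕ) :
    ((Sf k n).filter fun D => nb a b D ∧ R (cm m D) ∧ G (gm m * D)).card =
      ∑ ep ∈ univ.filter R, cE m ep G n := by
  rw [Finset.card_eq_sum_card_fiberwise (f := cm m) (t := univ.filter R)]
  · refine sum_congr rfl fun ep hep => ?_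
    rw [cE, filter_filter]
    congr 1
    apply filter_congr
    intro D _
    rw [P2E, P1E, gclE_epc]
    have := (mem_filter.1 hep).2
    constructor
    · rintro ⟨⟨h1, h2, h3⟩, h4⟩
      exact ⟨⟨h1, h4⟩, h3⟩
    · rintro ⟨⟨h1, h4⟩, h3⟩
      exact ⟨⟨h1, h4 ▸ this, h3⟩, h4⟩
  · intro D hD
    have := (mem_filter.1 hD).2
    exact mem_coe.2 (mem_filter.2 ⟨mem_univ _, this.2.1⟩)

include H in
theorem sgn_gm {D : k[X]} (h : nb a b D) {s : Tau a b} (hs : m s ≠ 1) :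
    sgn a b (gm m * D) s = cm m D s := by
  have hg : ¬ QQ a b s ∣ gm m := fun hd => hs ((dvd_gm H m s).1 hd)
  have hL1 : L (1 : k[X]) (QQ a b s) = 0 := by
    have := L_pow (f := (1 : k[X])) (g := QQ a b s) (H.fam.mon s).ne_zero one_ne_zero
      isCoprime_one_left 0
    simpa using this
  have h1 : L (gm m) (QQ a b s) = ∑ s', m s' * L (QQ a b s) (QQ a b s') := by
    rw [gm, L_prod_left (H.fam.mon s).ne_zero (fun s' _ => pow_ne_zero _ (H.fam.mon s').ne_zero)]
    · refine sum_congr rfl fun s' _ => ?_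
      by_cases h2 : m s' = 1
      · rw [val_one _ h2, pow_one, h2, one_mul, L_comm H.hm]
      · have h3 : ∀ x : F2, x ≠ 1 → x = 0 := by decide
        rw [val_ne _ h2, pow_zero, hL1, h3 _ h2, zero_mul]
    · intro s' _
      by_cases h2 : s' = s
      · rw [h2, val_ne _ hs, pow_zero]
        exact isCoprime_one_left
      · exact (H.fam.coprime h2).pow_left
  rw [sgn, cm, L_mul_nd (fun _ => trivial) (H.fam.irr s) hg (h s), sgn, h1]
  ring

/-- the bad primes which divide `D` -/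
def ramS {k : Type} [Field k] (a b D : k[X]) : Set k[X] :=
  {Q | Q.Monic ∧ Irreducible Q ∧ Q ∣ a * b * (a - b) ∧ Q ∣ D}

/-- the bad primes with split reduction -/
def splT {k : Type} [Field k] (a b D : k[X]) : Set k[X] :=
  {Q | Q.Monic ∧ Irreducible Q ∧ Q ∣ a * b * (a - b) ∧ ¬ Q ∣ D ∧ ¬ NSpl a b D Q}

include H in
theorem ramS_iff {D : k[X]} {s : Tau a b} : QQ a b s ∈ ramS a b D ↔ QQ a b s ∣ D := by
  have h1 := (mem_bp H).1 s.2
  exact ⟨fun h => h.2.2.2, fun h => ⟨h1.1, h1.2.1, h1.2.2, h⟩⟩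

include H in
theorem splT_iff {D : k[X]} {s : Tau a b} :
    QQ a b s ∈ splT a b D ↔ ¬ QQ a b s ∣ D ∧ sgn a b D s = 0 := by
  have h1 := (mem_bp H).1 s.2
  have h01 : ∀ x : F2, x = 0 ↔ ¬ x = 1 := by decide
  constructor
  · rintro ⟨-, -, -, h2, h3⟩
    refine ⟨h2, ?_⟩
    rw [h01, nspl_iff H h2]
    exact h3
  · rintro ⟨h2, h3⟩
    rw [h01, nspl_iff H h2] at h3
    exact ⟨h1.1, h1.2.1, h1.2.2, h2, h3⟩

include H in
theorem bad_ex {Q : k[X]} (h : Q.Monic ∧ Irreducible Q ∧ Q ∣ a * b * (a - b)) :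
    ∃ s : Tau a b, QQ a b s = Q := ⟨⟨Q, (mem_bp H).2 h⟩, rfl⟩

include H in
theorem spl_card {D : k[X]} (h : nb a b D) : (splT a b (gm m * D)).ncard = spz m (cm m D) := by
  have h1 : splT a b (gm m * D) = QQ a b '' {s | m s ≠ 1 ∧ cm m D s = 0} := by
    ext Q
    constructor
    · intro hQ
      obtain ⟨s, rfl⟩ := bad_ex H ⟨hQ.1, hQ.2.1, hQ.2.2.1⟩
      obtain ⟨h2, h3⟩ := (splT_iff H).1 hQ
      have h4 : m s ≠ 1 := fun h4 => h2 ((ty_mul H m h s).2 h4)
      rw [sgn_gm H m h h4] at h3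
      exact ⟨s, ⟨h4, h3⟩, rfl⟩
    · rintro ⟨s, ⟨h2, h3⟩, rfl⟩
      rw [splT_iff H, sgn_gm H m h h2]
      exact ⟨fun h4 => h2 ((ty_mul H m h s).1 h4), h3⟩
  rw [h1, Set.ncard_image_of_injective _ QQ_inj, spz, ← Set.ncard_coe_finset]
  congr 1
  ext s
  simp

/-- the type of a set of primes -/
noncomputable def mS (a b : k[X]) (Γ : Set k[X]) (s : Tau a b) : F2 := if QQ a b s ∈ Γ then 1 else 0

theorem mS_iff {Γ : Set k[X]} {s : Tau a b} : mS a b Γ s = 1 ↔ QQ a b s ∈ Γ := by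
  rw [mS]
  split_ifs with h
  · simp [h]
  · simp [h]

theorem sgT_iff {T : Set k[X]} {s : Tau a b} : sgT a b T s = 0 ↔ QQ a b s ∈ T := by
  rw [sgT]
  split_ifs with h
  · simp [h]
  · simp [h]

include H in
theorem mem_GT {Γ T : Set k[X]} (hΓ : ∀ Q ∈ Γ, Q.Monic ∧ Irreducible Q ∧ Q ∣ a * b * (a - b))
    (hT : ∀ Q ∈ T, Q.Monic ∧ Irreducible Q ∧ Q ∣ a * b * (a - b)) (hd : Disjoint Γ T) {D : k[X]} :
    (ramS a b D = Γ ∧ splT a b D = T) ↔ (Ty (mS a b Γ) D ∧
      ∀ s, mS a b Γ s ≠ 1 → sgn a b D s = sgT a b T s) := by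
  have key : ∀ x y : F2, (x = 0 ↔ y = 0) → x = y := by decide
  constructor
  · rintro ⟨h1, h2⟩
    have hty : Ty (mS a b Γ) D := fun s => by rw [mS_iff, ← h1, ramS_iff H]
    refine ⟨hty, fun s hs => key _ _ ?_⟩
    rw [sgT_iff, ← h2, splT_iff H]
    exact ⟨fun h => ⟨fun h3 => hs ((hty s).1 h3), h⟩, fun h => h.2⟩
  · rintro ⟨h1, h2⟩
    constructor
    · ext Q
      constructor
      · intro hQ
        obtain ⟨s, rfl⟩ := bad_ex H ⟨hQ.1, hQ.2.1, hQ.2.2.1⟩
        exact mS_iff.1 ((h1 s).1 hQ.2.2.2)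
      · intro hQ
        obtain ⟨s, rfl⟩ := bad_ex H (hΓ Q hQ)
        exact (ramS_iff H).2 ((h1 s).2 (mS_iff.2 hQ))
    · ext Q
      constructor
      · intro hQ
        obtain ⟨s, rfl⟩ := bad_ex H ⟨hQ.1, hQ.2.1, hQ.2.2.1⟩
        obtain ⟨h3, h4⟩ := (splT_iff H).1 hQ
        rw [h2 s (fun h5 => h3 ((h1 s).2 h5))] at h4
        exact sgT_iff.1 h4
      · intro hQ
        obtain ⟨s, rfl⟩ := bad_ex H (hT Q hQ)
        have h3 : mS a b Γ s ≠ 1 := fun h4 => Set.disjoint_left.1 hd (mS_iff.1 h4) hQ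
        rw [splT_iff H, h2 s h3]
        exact ⟨fun h5 => h3 ((h1 s).1 h5), sgT_iff.2 hQ⟩

/-- the admissible classes for a set of primes -/
def RE (m e ep : Tau a b → F2) : Prop := ∀ s, m s ≠ 1 → ep s = e s

include H in
theorem cnt_GT {Γ T : Set k[X]} (hΓ : ∀ Q ∈ Γ, Q.Monic ∧ Irreducible Q ∧ Q ∣ a * b * (a - b))
    (hT : ∀ Q ∈ T, Q.Monic ∧ Irreducible Q ∧ Q ∣ a * b * (a - b)) (hd : Disjoint Γ T)
    (G : k[X] → Prop) (n : ℕ) :
    ((Sf k (dg (mS a b Γ) + n)).filter fun D => ramS a b D = Γ ∧ splT a b D = T ∧ G D).card =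
      ∑ ep ∈ univ.filter (RE (mS a b Γ) (sgT a b T)), cE (mS a b Γ) ep G n := by
  rw [← cnt_cls]
  obtain ⟨G', hG'⟩ : ∃ G' : k[X] → Prop, ∀ D, G' D ↔
      ((∀ s, mS a b Γ s ≠ 1 → sgn a b D s = sgT a b T s) ∧ G D) := ⟨_, fun _ => Iff.rfl⟩
  have h1 := cnt_ty H (mS a b Γ) G' n
  refine Eq.trans ?_ (h1.trans ?_)
  · congr 1
    apply filter_congr
    intro D _
    rw [hG' D]
    have := mem_GT H hΓ hT hd (D := D)
    tauto
  congr 1
  apply filter_congr
  intro D _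
  rw [hG' _]
  constructor
  · rintro ⟨h3, h4, h5⟩
    exact ⟨h3, fun s hs => by rw [← sgn_gm H _ h3 hs]; exact h4 s hs, h5⟩
  · rintro ⟨h3, h4, h5⟩
    exact ⟨h3, fun s hs => by rw [sgn_gm H _ h3 hs]; exact h4 s hs, h5⟩

end

end Pool.Agent.V8H26.YG
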