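import Pool.Agent.V8H26.YG.Cls

/-!
# The number of the squarefree polynomials
-/

set_option autoImplicit false
set_option linter.all false

open Polynomial Filter Topology
open scoped Classical

namespace Pool.Agent.V8H26.YG

open Pool.Agent.H341R2.Sharp Finset Pool.Agent.Y164.PS

section
variable {k : Type} [Field k]

theorem sq_dvd {A A' B : k[X]} (hA : A ≠ 0) (hA' : A' ≠ 0) (hB : Squarefree B)
    (h : A' ^ 2 ∣ A ^ 2 * B) : A' ∣ A := by
  have hB0 : B ≠ 0 := hB.ne_zero
  rw [UniqueFactorizationMonoid.dvd_iff_normalizedFactors_le_normalizedFactors (pow_ne_zero 2 hA')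
    (mul_ne_zero (pow_ne_zero 2 hA) hB0)] at h
  rw [UniqueFactorizationMonoid.dvd_iff_normalizedFactors_le_normalizedFactors hA' hA]
  rw [Multiset.le_iff_count] at h ⊢
  intro P
  have h1 := h P
  rw [UniqueFactorizationMonoid.normalizedFactors_mul (pow_ne_zero 2 hA) hB0,
    UniqueFactorizationMonoid.normalizedFactors_pow, UniqueFactorizationMonoid.normalizedFactors_pow,
    Multiset.count_add, Multiset.count_nsmul, Multiset.count_nsmul] at h1
  have h2 := Multiset.nodup_iff_count_le_one.1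
    ((UniqueFactorizationMonoid.squarefree_iff_nodup_normalizedFactors hB0).1 hB) P
  omega

theorem sq_exists (n : ℕ) : ∀ D : k[X], D ≠ 0 → D.natDegree = n →
    ∃ A B : k[X], D = A ^ 2 * B ∧ Squarefree B := by
  induction n using Nat.strong_induction_on with
  | _ n ih =>
    intro D hD hn
    by_cases hs : Squarefree D
    · exact ⟨1, D, by ring, hs⟩
    · rw [Squarefree] at hs
      push Not at hs
      obtain ⟨x, ⟨y, hy⟩, hx⟩ := hs
      have hxy : x * x * y ≠ 0 := hy ▸ hD
      have hx0 : x ≠ 0 := fun h => hxy (by rw [h]; ring)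
      have hy0 : y ≠ 0 := fun h => hxy (by rw [h]; ring)
      have hdx : 0 < x.natDegree := by
        rw [natDegree_pos_iff_degree_pos]
        exact degree_pos_of_ne_zero_of_nonunit hx0 hx
      have hd : D.natDegree = x.natDegree + x.natDegree + y.natDegree := by
        rw [hy, natDegree_mul (mul_ne_zero hx0 hx0) hy0, natDegree_mul hx0 hx0]
      obtain ⟨A, B, h1, h2⟩ := ih y.natDegree (by omega) y hy0 rfl
      exact ⟨x * A, B, by rw [hy, h1]; ring, h2⟩

theorem sq_monic {D : k[X]} (hD : D.Monic) :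
    ∃ A B : k[X], A.Monic ∧ B.Monic ∧ Squarefree B ∧ A ^ 2 * B = D := by
  obtain ⟨A, B, h1, h2⟩ := sq_exists _ D hD.ne_zero rfl
  have hB : B ≠ 0 := h2.ne_zero
  have hA : A ≠ 0 := by
    rintro rfl
    apply hD.ne_zero
    rw [h1]
    ring
  refine ⟨normalize A, normalize B, monic_normalize hA, monic_normalize hB, ?_, ?_⟩
  · exact ((normalize_associated B).squarefree_iff).2 h2
  · rw [← hD.normalize_eq_self, h1, pow_two, pow_two, normalize_mul, normalize_mul]

end

section
variable {k : Type} [Field k] [Fintype k] [DecidableEq k]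

theorem mon_sum (hk : ringChar k ≠ 2) (n : ℕ) : Fintype.card k ^ n =
    ∑ j ∈ range (n / 2 + 1), Fintype.card k ^ j * (Sf k (n - 2 * j)).card := by
  have h1 : ((range (n / 2 + 1)).sigma fun j => Mon k j ×ˢ Sf k (n - 2 * j)).card =
      (Mon k n).card := by
    refine Finset.card_bij (fun x _ => x.2.1 ^ 2 * x.2.2) ?_ ?_ ?_
    · rintro ⟨j, A, B⟩ hx
      rw [mem_sigma, mem_product, mem_range] at hx
      obtain ⟨hj, hA, hB⟩ := hx
      have hA' := mem_Mon.1 hA
      have hB' := mem_Sf.1 hB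
      show A ^ 2 * B ∈ Mon k n
      rw [mem_Mon]
      refine ⟨(hA'.1.pow 2).mul hB'.1, ?_⟩
      rw [(hA'.1.pow 2).natDegree_mul hB'.1, hA'.1.natDegree_pow, hA'.2, hB'.2.1]
      have hj' : j < n / 2 + 1 := hj
      show 2 * j + (n - 2 * j) = n
      omega
    · rintro ⟨j, A, B⟩ hx ⟨j', A', B'⟩ hx' he
      rw [mem_sigma, mem_product, mem_range] at hx hx'
      have hA := mem_Mon.1 hx.2.1
      have hB := mem_Sf.1 hx.2.2
      have hA' := mem_Mon.1 hx'.2.1
      have hB' := mem_Sf.1 hx'.2.2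
      have he' : A ^ 2 * B = A' ^ 2 * B' := he
      have h2 : A' ∣ A := sq_dvd hA.1.ne_zero hA'.1.ne_zero hB.2.2 ⟨B', he'⟩
      have h3 : A ∣ A' := sq_dvd hA'.1.ne_zero hA.1.ne_zero hB'.2.2 ⟨B, he'.symm⟩
      have h4 : A = A' := eq_of_monic_of_associated hA.1 hA'.1 (associated_of_dvd_dvd h3 h2)
      subst h4
      have h5 : B = B' := mul_left_cancel₀ (pow_ne_zero 2 hA.1.ne_zero) he'
      subst h5
      have h6 : j = j' := hA.2.symm.trans hA'.2
      subst h6
      rfl
    · intro D hD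
      have hD' := mem_Mon.1 hD
      obtain ⟨A, B, h2, h3, h4, h5⟩ := sq_monic hD'.1
      have h6 : A.natDegree * 2 + B.natDegree = n := by
        rw [← hD'.2, ← h5, (h2.pow 2).natDegree_mul h3, h2.natDegree_pow, mul_comm]
      refine ⟨⟨A.natDegree, A, B⟩, ?_, h5⟩
      rw [mem_sigma, mem_product, mem_range]
      refine ⟨?_, mem_Mon.2 ⟨h2, rfl⟩, mem_Sf.2 ⟨h3, ?_, h4⟩⟩
      · show A.natDegree < n / 2 + 1
        omega
      · show B.natDegree = n - 2 * A.natDegree
        omega
  rw [card_Mon hk] at h1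
  rw [← h1, card_sigma]
  refine sum_congr rfl fun j _ => ?_
  rw [card_product, card_Mon hk]

theorem card_Sf (hk : ringChar k ≠ 2) (n : ℕ) :
    (Sf k (n + 2)).card + Fintype.card k ^ (n + 1) = Fintype.card k ^ (n + 2) := by
  have h1 := mon_sum (k := k) hk (n + 2)
  have h2 := mon_sum (k := k) hk n
  have e1 : (n + 2) / 2 = n / 2 + 1 := by omega
  rw [e1, sum_range_succ'] at h1
  rw [h1, pow_succ (Fintype.card k) n, h2, sum_mul]
  have e2 : ∀ j ∈ range (n / 2 + 1), Fintype.card k ^ (j + 1) * (Sf k (n + 2 - 2 * (j + 1))).card =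
      Fintype.card k ^ j * (Sf k (n - 2 * j)).card * Fintype.card k := by
    intro j hj
    have e3 : n + 2 - 2 * (j + 1) = n - 2 * j := by omega
    rw [e3, pow_succ]
    ring
  rw [sum_congr rfl e2, pow_zero, one_mul]
  simp only [Nat.mul_zero, Nat.sub_zero]
  ring

theorem Sf_lim (hk : ringChar k ≠ 2) : Tendsto (fun n : ℕ => ((Sf k n).card : ℝ) /
    (Fintype.card k : ℝ) ^ n) atTop (𝓝 (1 - 1 / (Fintype.card k : ℝ))) := by
  refine (tendsto_const_nhds (x := (1 - 1 / (Fintype.card k : ℝ)))).congr' ?_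
  filter_upwards [eventually_ge_atTop 2] with n hn
  obtain ⟨m, rfl⟩ : ∃ m, n = m + 2 := ⟨n - 2, by omega⟩
  have h1 : ((Sf k (m + 2)).card : ℝ) + (Fintype.card k : ℝ) ^ (m + 1) =
      (Fintype.card k : ℝ) ^ (m + 2) := by exact_mod_cast card_Sf (k := k) hk m
  have hq : (Fintype.card k : ℝ) ≠ 0 := by exact_mod_cast Fintype.card_ne_zero
  have h2 : ((Sf k (m + 2)).card : ℝ) = (Fintype.card k : ℝ) ^ (m + 2) -
      (Fintype.card k : ℝ) ^ (m + 1) := by linarith
  rw [h2]
  field_simp
  ring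

/-- a contraction -/
theorem contr {x y : ℕ → ℝ} {c α M : ℝ} (hc0 : 0 ≤ c) (hc1 : c < 1) {d : ℕ}
    (hM : ∀ n, |x n| ≤ M) (h : ∀ n, d ≤ n → x n + c * x (n - d) = y n)
    (hy : Tendsto y atTop (𝓝 α)) : Tendsto x atTop (𝓝 (α / (1 + c))) := by
  obtain ⟨M', hM'⟩ : ∃ M', M' = M + |α / (1 + c)| := ⟨_, rfl⟩
  have hM0 : 0 ≤ M' := by
    rw [hM']
    have := (abs_nonneg _).trans (hM 0)
    positivity
  have hb : ∀ n, |x n - α / (1 + c)| ≤ M' := fun n => by
    rw [hM']
    exact (abs_sub _ _).trans (add_le_add (hM n) le_rfl)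
  have hc : 0 < 1 - c := by linarith
  rw [Metric.tendsto_nhds]
  intro ε hε
  have hε' : 0 < ε * (1 - c) / 2 := by positivity
  have hstep : ∀ j : ℕ, ∀ᶠ n in atTop, |x n - α / (1 + c)| ≤ c ^ j * M' + ε / 2 := by
    intro j
    induction j with
    | zero =>
      filter_upwards with n
      rw [pow_zero, one_mul]
      have := hb n
      linarith
    | succ j ih =>
      have h1 : ∀ᶠ n in atTop, |x (n - d) - α / (1 + c)| ≤ c ^ j * M' + ε / 2 :=
        (tendsto_sub_atTop_nat d).eventually ih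
      filter_upwards [h1, (Metric.tendsto_nhds.1 hy) _ hε', eventually_ge_atTop d] with n h2 h3 h4
      rw [Real.dist_eq] at h3
      have h5 : x n - α / (1 + c) = (y n - α) - c * (x (n - d) - α / (1 + c)) := by
        rw [← h n h4]
        have : (1 + c) ≠ 0 := by positivity
        field_simp
        ring
      rw [h5]
      calc |(y n - α) - c * (x (n - d) - α / (1 + c))| ≤
            |y n - α| + |c * (x (n - d) - α / (1 + c))| := abs_sub _ _
        _ ≤ ε * (1 - c) / 2 + c * (c ^ j * M' + ε / 2) := by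
            rw [abs_mul, abs_of_nonneg hc0]
            exact add_le_add h3.le (mul_le_mul_of_nonneg_left h2 hc0)
        _ = c ^ (j + 1) * M' + ε / 2 := by ring
  have hlim : Tendsto (fun j : ℕ => c ^ j * M') atTop (𝓝 (0 * M')) :=
    (tendsto_pow_atTop_nhds_zero_of_lt_one hc0 hc1).mul_const M'
  rw [zero_mul] at hlim
  obtain ⟨j, hj⟩ := (hlim.eventually_lt_const (half_pos hε)).exists
  filter_upwards [hstep j] with n hn
  rw [Real.dist_eq]
  linarith

end

end Pool.Agent.V8H26.YG
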