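import Pool.Agent.V8H26.YG.Def

/-!
# One more index
-/

set_option autoImplicit false
set_option linter.all false

namespace Pool.Agent.V8H26.YG

open Module Finset
open Pool.Agent.V8H26.XL (Arr rep rep_rep vh va F2s F2c F2n X_self ex mem_ex Wc kr rho rho_congr kr_congr
  ind ind_congr ind_pos ind_neg ind_nonneg ind_le_one psi_ex finrank_ex gg gg_bd gg_two av av_congr
  av_shift av_ind Mop MM two_sum av_add av_mul av_mul' av_const av_comm av_half av_nonneg av_mono
  abs_av_le av_sub fun_self)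
open Pool.Agent.Y164.PS (W om om_add_left om_add_right om_comm om_self om_zero_left om_zero_right Oq
  om_smul_left om_smul_right eq_zero_of_om W_add_self)
open scoped Classical

section
variable {ι τ Z : Type} [AddCommGroup Z] [Module (ZMod 2) Z] [Fintype ι] [Fintype τ] [Fintype Z]
  {D : DZ τ Z}

/-- the expected value -/
noncomputable def EZ (R : RZ ι D) (F : ℕ → ℝ) (S : Finset ι) (n : ℕ) (a : Arr ι τ) : ℝ :=
  av fun x : ι → ZMod 2 => gg F n (rho (fz R a x) (SZ S))

variable (R : RZ ι D)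

theorem EZ_rep (F : ℕ → ℝ) {S : Finset ι} {j : ι} (hj : j ∉ S) (n : ℕ) (v : ι ⊕ τ → ZMod 2)
    (a : Arr ι τ) : EZ R F S n (rep j v a) = EZ R F S n (rep j 0 a) := by
  rw [EZ, EZ, ← av_shift (vh j v)]
  refine av_congr fun x => ?_
  congr 1
  apply rho_congr
  intro u hu w hw
  exact fz_rest R j v a x u w (hu j hj) (hw j hj)

theorem EZ_self (F : ℕ → ℝ) {S : Finset ι} {j : ι} (hj : j ∉ S) (n : ℕ) (a : Arr ι τ) :
    EZ R F S n a = EZ R F S n (rep j 0 a) := by
  rw [← EZ_rep R F hj n (va j a) a, EZ, EZ]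
  refine av_congr fun x => ?_
  congr 1
  apply rho_congr
  intro u hu w hw
  exact fz_va R j a x u w

variable (D) in
/-- the pairs which are not generic -/
def RelZ (κ₁ κ₂ : VZ ι Z) : Prop := (κ₁ ≠ 0 ∨ κ₂ ≠ 0) ∧ (∀ i, (κ₁.1 i).2 = (κ₂.1 i).1) ∧
  ∀ s, (D.xh κ₁.2 s).2 = (D.xh κ₂.2 s).1

/-- the kernel is not generic -/
def NGZ (S : Finset ι) (a : Arr ι τ) (x : ι → ZMod 2) : Prop :=
  ∃ κ₁ ∈ kr (fz R a x) (SZ S), ∃ κ₂ ∈ kr (fz R a x) (SZ S), RelZ D κ₁ κ₂

theorem NGZ_congr {S : Finset ι} {a a' : Arr ι τ} {x x' : ι → ZMod 2}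
    (h : ∀ u ∈ SZ (Z := Z) S, ∀ w ∈ SZ S, fz R a x u w = fz R a' x' u w) :
    NGZ R S a x ↔ NGZ R S a' x' := by
  rw [NGZ, NGZ, kr_congr h]

variable (D) in
theorem coz_add (j : ι) (w w' u : VZ ι Z) : coz D j (w + w') u = coz D j w u + coz D j w' u := by
  funext y
  rcases y with i | s
  · show (if i = j then 0 else Oq (lz (w + w') u i + lz (w + w') u j)) =
      (if i = j then 0 else Oq (lz w u i + lz w u j)) +
        (if i = j then 0 else Oq (lz w' u i + lz w' u j))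
    split_ifs
    · rw [add_zero]
    · simp only [Oq, lz, Prod.fst_add, Prod.snd_add, Pi.add_apply, om_add_left, om_add_right]
      ring
  · have h : D.xh (w + w').2 s = D.xh w.2 s + D.xh w'.2 s := by
      show D.xh (w.2 + w'.2) s = _
      rw [map_add]; rfl
    show ez (D.t s) (D.m s) (D.xh (w + w').2 s) (D.xh u.2 s) (lz (w + w') u j) =
      ez (D.t s) (D.m s) (D.xh w.2 s) (D.xh u.2 s) (lz w u j) +
      ez (D.t s) (D.m s) (D.xh w'.2 s) (D.xh u.2 s) (lz w' u j)
    rw [h]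
    simp only [ez, lz, Prod.fst_add, Pi.add_apply, om_add_left]
    ring

variable (D) in
theorem coz_inl {j : ι} {w : VZ ι Z} (h : w.1 j = 0) (y : W) (i : ι) :
    coz D j w (vz j y) (Sum.inl i) = om (w.1 i) y := by
  show (if i = j then 0 else Oq (lz w (vz j y) i + lz w (vz j y) j)) = _
  split_ifs with hij
  · rw [hij, h, om_zero_left]
  · show om (w.1 i + w.1 j) ((vz (Z := Z) j y).1 i + (vz (Z := Z) j y).1 j) = _
    rw [h, add_zero, vz_fst, vz_fst, if_neg hij, if_pos rfl, zero_add]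

variable (D) in
theorem coz_inr {j : ι} {w : VZ ι Z} (h : w.1 j = 0) (y : W) (s : τ) :
    coz D j w (vz j y) (Sum.inr s) = om (D.xh w.2 s) y := by
  show ez (D.t s) (D.m s) (D.xh w.2 s) (D.xh (vz (ι := ι) j y).2 s)
    (w.1 j, (vz (Z := Z) j y).1 j) = _
  rw [h, vz_fst, if_pos rfl, vz_snd, ez]
  simp only [om_zero_left, zero_mul, mul_zero, add_zero]

variable (D) in
/-- the value at the new vectors, as a function of a pair of kernel vectors -/
noncomputable def Lz (j : ι) (K : Submodule (ZMod 2) (VZ ι Z)) : (K × K) →+ (ι ⊕ τ → ZMod 2) where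
  toFun p := coz D j p.1.1 (vz j (1, 0)) + coz D j p.2.1 (vz j (0, 1))
  map_zero' := by
    have h : ∀ u : VZ ι Z, coz D j 0 u = 0 := by
      intro u
      have := coz_add D j 0 0 u
      rw [add_zero, fun_self] at this
      exact this
    show coz D j 0 _ + coz D j 0 _ = 0
    rw [h, h, add_zero]
  map_add' p q := by
    show coz D j (p.1.1 + q.1.1) _ + coz D j (p.2.1 + q.2.1) _ = _
    rw [coz_add, coz_add]
    abel

/-- the constant part -/
noncomputable def Cz (j : ι) (a : Arr ι τ) (x : ι → ZMod 2) (K : Submodule (ZMod 2) (VZ ι Z)) :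
    (K × K) →+ ZMod 2 where
  toFun p := fz R (rep j 0 a) x p.1.1 (vz j (1, 0)) + fz R (rep j 0 a) x p.2.1 (vz j (0, 1))
  map_zero' := by
    show fz R (rep j 0 a) x 0 _ + fz R (rep j 0 a) x 0 _ = 0
    rw [map_zero, LinearMap.zero_apply, LinearMap.zero_apply, add_zero]
  map_add' p q := by
    show fz R (rep j 0 a) x (p.1.1 + q.1.1) _ + fz R (rep j 0 a) x (p.2.1 + q.2.1) _ = _
    rw [map_add, map_add, LinearMap.add_apply, LinearMap.add_apply]
    ring

variable {R}

theorem Lz_inj {S : Finset ι} {j : ι} (hj : j ∉ S) {a : Arr ι τ} {x : ι → ZMod 2}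
    (hng : ¬ NGZ R S a x) (p : kr (fz R a x) (SZ S) × kr (fz R a x) (SZ S))
    (h : Lz D j (kr (fz R a x) (SZ S)) p = 0) : p = 0 := by
  by_contra hne
  apply hng
  have h1 : p.1.1.1 j = 0 := p.1.2.1 j hj
  have h2 : p.2.1.1 j = 0 := p.2.2.1 j hj
  refine ⟨p.1.1, p.1.2, p.2.1, p.2.2, ?_, ?_, ?_⟩
  · by_contra hno
    push Not at hno
    apply hne
    exact Prod.ext (Subtype.ext hno.1) (Subtype.ext hno.2)
  · intro i
    have h3 : coz D j p.1.1 (vz j (1, 0)) (Sum.inl i) + coz D j p.2.1 (vz j (0, 1)) (Sum.inl i) = 0 :=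
      congrFun h (Sum.inl i)
    rw [coz_inl D h1, coz_inl D h2] at h3
    have h4 : (p.1.1.1 i).2 + (p.2.1.1 i).1 = 0 := by
      rw [← h3]
      simp [om]
    calc (p.1.1.1 i).2 = (p.1.1.1 i).2 + ((p.2.1.1 i).1 + (p.2.1.1 i).1) := by rw [F2s, add_zero]
      _ = _ := by rw [← add_assoc, h4, zero_add]
  · intro s
    have h3 : coz D j p.1.1 (vz j (1, 0)) (Sum.inr s) + coz D j p.2.1 (vz j (0, 1)) (Sum.inr s) = 0 :=
      congrFun h (Sum.inr s)
    rw [coz_inr D h1, coz_inr D h2] at h3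
    have h4 : (D.xh p.1.1.2 s).2 + (D.xh p.2.1.2 s).1 = 0 := by
      rw [← h3]
      simp [om]
    calc (D.xh p.1.1.2 s).2 = (D.xh p.1.1.2 s).2 +
          ((D.xh p.2.1.2 s).1 + (D.xh p.2.1.2 s).1) := by rw [F2s, add_zero]
      _ = _ := by rw [← add_assoc, h4, zero_add]

theorem av_pairZ {S : Finset ι} {j : ι} (hj : j ∉ S) {a : Arr ι τ} {x : ι → ZMod 2}
    (hng : ¬ NGZ R S (rep j 0 a) x) {G : Type} [AddCommGroup G] [Fintype G]
    (m : G →+ kr (fz R (rep j 0 a) x) (SZ S) × kr (fz R (rep j 0 a) x) (SZ S))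
    (hm : ∀ g, m g = 0 → g = 0) :
    av (fun v : ι ⊕ τ → ZMod 2 => ind (∀ g, fz R (rep j v a) (x + vh j v) (m g).1.1 (vz j (1, 0)) +
      fz R (rep j v a) (x + vh j v) (m g).2.1 (vz j (0, 1)) = 0)) =
      1 / Fintype.card G := by
  refine Eq.trans (av_congr fun v => ?_)
    (av_ind ((Lz D j (kr (fz R (rep j 0 a) x) (SZ S))).comp m)
    ((Cz R j a x (kr (fz R (rep j 0 a) x) (SZ S))).comp m)
    (fun g hg => hm g (Lz_inj hj hng _ hg)))
  have h1 : ∀ g, fz R (rep j v a) (x + vh j v) (m g).1.1 (vz j (1, 0)) +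
      fz R (rep j v a) (x + vh j v) (m g).2.1 (vz j (0, 1)) =
      (∑ z, ((Lz D j (kr (fz R (rep j 0 a) x) (SZ S))).comp m) g z * v z) +
        ((Cz R j a x (kr (fz R (rep j 0 a) x) (SZ S))).comp m) g := by
    intro g
    rw [fz_new R j v a _ _ _, fz_new R j v a _ _ _]
    show _ = (∑ z, (coz D j (m g).1.1 (vz j (1, 0)) + coz D j (m g).2.1 (vz j (0, 1))) z * v z) +
      (fz R (rep j 0 a) x (m g).1.1 (vz j (1, 0)) + fz R (rep j 0 a) x (m g).2.1 (vz j (0, 1)))
    simp only [Pi.add_apply, add_mul, sum_add_distrib]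
    ring
  simp only [h1]

theorem card_krZ (B : LinearMap.BilinForm (ZMod 2) (VZ ι Z)) (U : Submodule (ZMod 2) (VZ ι Z)) :
    (1 : ℝ) / Fintype.card (kr B U) = (1 / 2) ^ rho B U := by
  have := Module.card_eq_pow_finrank (K := ZMod 2) (V := kr B U)
  rw [ZMod.card] at this
  rw [this, rho]
  push_cast
  rw [one_div_pow]

theorem step_genZ (F : ℕ → ℝ) {S : Finset ι} {j : ι} (hj : j ∉ S) (n : ℕ) {a : Arr ι τ}
    {x : ι → ZMod 2} (hng : ¬ NGZ R S (rep j 0 a) x) :
    av (fun v : ι ⊕ τ → ZMod 2 =>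
      gg F n (rho (fz R (rep j v a) (x + vh j v)) (SZ (insert j S))) +
      gg F n (rho (fz R (rep j v a) (x + Pi.single j 1 + vh j v)) (SZ (insert j S)))) =
      2 * gg F (n + 2) (rho (fz R (rep j 0 a) x) (SZ S)) := by
  set K := kr (fz R (rep j 0 a) x) (SZ S) with hK
  set r := rho (fz R (rep j 0 a) x) (SZ S) with hr
  have hrest : ∀ v : ι ⊕ τ → ZMod 2, ∀ u ∈ SZ (Z := Z) S, ∀ w ∈ SZ (Z := Z) S,
      fz R (rep j v a) (x + vh j v) u w = fz R (rep j 0 a) x u w :=
    fun v u hu w hw => fz_rest R j v a x u w (hu j hj) (hw j hj)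
  have hKv : ∀ v : ι ⊕ τ → ZMod 2, kr (fz R (rep j v a) (x + vh j v)) (SZ S) = K :=
    fun v => kr_congr (hrest v)
  have hrv : ∀ v : ι ⊕ τ → ZMod 2, rho (fz R (rep j v a) (x + vh j v)) (SZ S) = r :=
    fun v => rho_congr (hrest v)
  have hxj : ∀ (v : ι ⊕ τ → ZMod 2) (w w' : VZ ι Z),
      fz R (rep j v a) (x + Pi.single j 1 + vh j v) w w' =
      fz R (rep j v a) (x + vh j v) w w' + om (w.1 j) (w'.1 j) := by
    intro v w w'
    rw [add_right_comm, fz_xj]
  have h1 : ∀ v : ι ⊕ τ → ZMod 2,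
      gg F n (rho (fz R (rep j v a) (x + vh j v)) (SZ (insert j S))) +
      gg F n (rho (fz R (rep j v a) (x + Pi.single j 1 + vh j v)) (SZ (insert j S))) =
      2 * gg F n (r - 2) +
      (ind (∀ κ ∈ K, fz R (rep j v a) (x + vh j v) κ (vz j (1, 0)) = 0)) *
        (2 * gg F n r - 2 * gg F n (r - 2)) +
      (ind (∀ κ ∈ K, fz R (rep j v a) (x + vh j v) κ (vz j (0, 1)) = 0)) *
        (2 * gg F n r - 2 * gg F n (r - 2)) +
      (ind (∀ κ ∈ K, fz R (rep j v a) (x + vh j v) κ (vz j (1, 0) + vz j (0, 1)) = 0)) * (2 * gg F n r - 2 * gg F n (r - 2)) +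
      (ind ((∀ κ ∈ K, fz R (rep j v a) (x + vh j v) κ (vz j (1, 0)) = 0) ∧
        (∀ κ ∈ K, fz R (rep j v a) (x + vh j v) κ (vz j (0, 1)) = 0))) *
        (gg F n (r + 2) - 5 * gg F n r + 4 * gg F n (r - 2)) := by
    intro v
    have h2 := two_sum (B := fz R (rep j v a) (x + vh j v))
      (B' := fz R (rep j v a) (x + Pi.single j 1 + vh j v)) (fz_symm R _ _) (fz_symm R _ _)
      (U := SZ S) (e := vz j (1, 0)) (f := vz j (0, 1)) (φ := feZ j) (ψ := ffZ j)
      (feZ_S hj) (feZ_e j)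
      (ffZ_S hj) (ffZ_e j) (ffZ_f j) (z := wc D) (wc_mem S) (fz_diag R _ _)
      (fz_diag R _ _)
      (fun u hu w _ => by rw [hxj, hu j hj, om_zero_left, add_zero])
      (fun u hu => by rw [hxj, hu j hj, om_zero_left, add_zero])
      (fun u hu => by rw [hxj, hu j hj, om_zero_left, add_zero])
      (by rw [hxj, om_self, add_zero])
      (by
        rw [hxj, vz_fst, vz_fst, if_pos rfl, if_pos rfl]
        congr 1) (gg F n)
    rw [hKv v, hrv v, ← SZ_insert hj] at h2
    exact h2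
  rw [av_congr h1, av_add, av_add, av_add, av_add, av_const (α := ι ⊕ τ → ZMod 2), av_mul', av_mul', av_mul', av_mul']
  -- the four probabilities
  have p1 : av (fun v : ι ⊕ τ → ZMod 2 => ind (∀ κ ∈ K,
      fz R (rep j v a) (x + vh j v) κ (vz j (1, 0)) = 0)) = (1 / 2) ^ r := by
    rw [hr, ← card_krZ, ← av_pairZ hj hng (AddMonoidHom.inl K K) (fun g hg => congrArg Prod.fst hg)]
    refine av_congr fun v => ?_
    apply ind_congr
    constructor
    · intro h g
      show fz R (rep j v a) (x + vh j v) g.1 _ + fz R (rep j v a) (x + vh j v) 0 _ = 0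
      rw [h g.1 g.2, map_zero, LinearMap.zero_apply, add_zero]
    · intro h κ hκ
      have h3 : fz R (rep j v a) (x + vh j v) κ (vz j (1, 0)) +
        fz R (rep j v a) (x + vh j v) 0 (vz j (0, 1)) = 0 := h ⟨κ, hκ⟩
      rw [map_zero, LinearMap.zero_apply, add_zero] at h3
      exact h3
  have p2 : av (fun v : ι ⊕ τ → ZMod 2 => ind (∀ κ ∈ K,
      fz R (rep j v a) (x + vh j v) κ (vz j (0, 1)) = 0)) = (1 / 2) ^ r := by
    rw [hr, ← card_krZ, ← av_pairZ hj hng (AddMonoidHom.inr K K) (fun g hg => congrArg Prod.snd hg)]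
    refine av_congr fun v => ?_
    apply ind_congr
    constructor
    · intro h g
      show fz R (rep j v a) (x + vh j v) 0 _ + fz R (rep j v a) (x + vh j v) g.1 _ = 0
      rw [h g.1 g.2, map_zero, LinearMap.zero_apply, zero_add]
    · intro h κ hκ
      have h3 : fz R (rep j v a) (x + vh j v) 0 (vz j (1, 0)) +
        fz R (rep j v a) (x + vh j v) κ (vz j (0, 1)) = 0 := h ⟨κ, hκ⟩
      rw [map_zero, LinearMap.zero_apply, zero_add] at h3
      exact h3
  have p3 : av (fun v : ι ⊕ τ → ZMod 2 => ind (∀ κ ∈ K,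
      fz R (rep j v a) (x + vh j v) κ (vz j (1, 0) + vz j (0, 1)) = 0)) =
      (1 / 2) ^ r := by
    rw [hr, ← card_krZ, ← av_pairZ hj hng ((AddMonoidHom.id K).prod (AddMonoidHom.id K))
      (fun g hg => congrArg Prod.fst hg)]
    refine av_congr fun v => ?_
    apply ind_congr
    constructor
    · intro h g
      have h3 := h g.1 g.2
      rw [map_add] at h3
      exact h3
    · intro h κ hκ
      have h3 : fz R (rep j v a) (x + vh j v) κ (vz j (1, 0)) +
        fz R (rep j v a) (x + vh j v) κ (vz j (0, 1)) = 0 := h ⟨κ, hκ⟩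
      rw [map_add]
      exact h3
  have p4 : av (fun v : ι ⊕ τ → ZMod 2 => ind ((∀ κ ∈ K,
      fz R (rep j v a) (x + vh j v) κ (vz j (1, 0)) = 0) ∧
      (∀ κ ∈ K, fz R (rep j v a) (x + vh j v) κ (vz j (0, 1)) = 0))) =
      ((1 / 2) ^ r) ^ 2 := by
    have h3 : ((1 / 2 : ℝ) ^ r) ^ 2 = 1 / Fintype.card (K × K) := by
      rw [hr, ← card_krZ, Fintype.card_prod]
      push_cast
      rw [div_pow, one_pow, pow_two]
    rw [h3, ← av_pairZ hj hng (AddMonoidHom.id (K × K)) (fun g hg => hg)]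
    refine av_congr fun v => ?_
    apply ind_congr
    constructor
    · intro h g
      show fz R (rep j v a) (x + vh j v) g.1.1 _ + fz R (rep j v a) (x + vh j v) g.2.1 _ = 0
      rw [h.1 g.1.1 g.1.2, h.2 g.2.1 g.2.2, add_zero]
    · intro h
      constructor
      · intro κ hκ
        have h4 : fz R (rep j v a) (x + vh j v) κ (vz j (1, 0)) +
          fz R (rep j v a) (x + vh j v) 0 (vz j (0, 1)) = 0 := h (⟨κ, hκ⟩, 0)
        rw [map_zero, LinearMap.zero_apply, add_zero] at h4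
        exact h4
      · intro κ hκ
        have h4 : fz R (rep j v a) (x + vh j v) 0 (vz j (1, 0)) +
          fz R (rep j v a) (x + vh j v) κ (vz j (0, 1)) = 0 := h (0, ⟨κ, hκ⟩)
        rw [map_zero, LinearMap.zero_apply, zero_add] at h4
        exact h4
  rw [p1, p2, p3, p4, gg_two]
  ring

/-- **one more index** -/
theorem stepZ {F : ℕ → ℝ} (h0 : ∀ r, 0 ≤ F r) (h1 : ∀ r, F r ≤ 1) {S : Finset ι} {j : ι}
    (hj : j ∉ S) (n : ℕ) (a : Arr ι τ) :
    |Mop j (EZ R F (insert j S) n) a - EZ R F S (n + 2) a| ≤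
      av (fun x : ι → ZMod 2 => ind (NGZ R S (rep j 0 a) x)) := by
  have e1 : Mop j (EZ R F (insert j S) n) a = av (fun x : ι → ZMod 2 =>
      1 / 2 * av (fun v : ι ⊕ τ → ZMod 2 =>
      gg F n (rho (fz R (rep j v a) (x + vh j v)) (SZ (insert j S))) +
      gg F n (rho (fz R (rep j v a) (x + Pi.single j 1 + vh j v)) (SZ (insert j S))))) := by
    have e2 : Mop j (EZ R F (insert j S) n) a = av (fun x : ι → ZMod 2 =>
        av (fun v : ι ⊕ τ → ZMod 2 =>
        gg F n (rho (fz R (rep j v a) (x + vh j v)) (SZ (insert j S))))) := by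
      rw [← av_comm (fun (v : ι ⊕ τ → ZMod 2) (x : ι → ZMod 2) =>
        gg F n (rho (fz R (rep j v a) (x + vh j v)) (SZ (insert j S))))]
      refine av_congr fun v => ?_
      exact (av_shift (vh j v) fun x => gg F n (rho (fz R (rep j v a) x) (SZ (insert j S)))).symm
    have e3 := av_shift (Pi.single j 1 : ι → ZMod 2) (fun x : ι → ZMod 2 =>
        av (fun v : ι ⊕ τ → ZMod 2 =>
        gg F n (rho (fz R (rep j v a) (x + vh j v)) (SZ (insert j S)))))
    have e4 := av_half (fun (x : ι → ZMod 2) (v : ι ⊕ τ → ZMod 2) =>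
      gg F n (rho (fz R (rep j v a) (x + vh j v)) (SZ (insert j S))))
      (fun (x : ι → ZMod 2) (v : ι ⊕ τ → ZMod 2) =>
      gg F n (rho (fz R (rep j v a) (x + Pi.single j 1 + vh j v)) (SZ (insert j S))))
    rw [e4, e2]
    have e5 : av (fun x : ι → ZMod 2 => av (fun v : ι ⊕ τ → ZMod 2 =>
      gg F n (rho (fz R (rep j v a) (x + Pi.single j 1 + vh j v)) (SZ (insert j S))))) =
      av (fun x : ι → ZMod 2 => av (fun v : ι ⊕ τ → ZMod 2 =>
      gg F n (rho (fz R (rep j v a) (x + vh j v)) (SZ (insert j S))))) := e3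
    rw [e5]
    ring
  rw [e1, EZ_self R F hj, EZ, ← av_sub]
  apply abs_av_le
  intro x
  have b1 : 0 ≤ av (fun v : ι ⊕ τ → ZMod 2 =>
      gg F n (rho (fz R (rep j v a) (x + vh j v)) (SZ (insert j S))) +
      gg F n (rho (fz R (rep j v a) (x + Pi.single j 1 + vh j v)) (SZ (insert j S)))) :=
    av_nonneg fun v => add_nonneg (gg_bd h0 h1 n _).1 (gg_bd h0 h1 n _).1
  have b2 : av (fun v : ι ⊕ τ → ZMod 2 =>
      gg F n (rho (fz R (rep j v a) (x + vh j v)) (SZ (insert j S))) +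
      gg F n (rho (fz R (rep j v a) (x + Pi.single j 1 + vh j v)) (SZ (insert j S)))) ≤ 2 := by
    have h2 : ∀ v : ι ⊕ τ → ZMod 2,
      gg F n (rho (fz R (rep j v a) (x + vh j v)) (SZ (insert j S))) +
      gg F n (rho (fz R (rep j v a) (x + Pi.single j 1 + vh j v)) (SZ (insert j S))) ≤ 2 :=
      fun v => by
        have h3 := (gg_bd h0 h1 n (rho (fz R (rep j v a) (x + vh j v)) (SZ (insert j S)))).2
        have h4 := (gg_bd h0 h1 n (rho (fz R (rep j v a) (x + Pi.single j 1 + vh j v))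
          (SZ (insert j S)))).2
        linarith
    exact (av_mono h2).trans (le_of_eq (av_const 2))
  have b3 := gg_bd h0 h1 (n + 2) (rho (fz R (rep j 0 a) x) (SZ S))
  by_cases hng : NGZ R S (rep j 0 a) x
  · rw [ind_pos hng, abs_le]
    constructor <;> linarith
  · rw [ind_neg hng, step_genZ F hj n hng]
    have : 1 / 2 * (2 * gg F (n + 2) (rho (fz R (rep j 0 a) x) (SZ S))) -
      gg F (n + 2) (rho (fz R (rep j 0 a) x) (SZ S)) = 0 := by ring
    rw [this, abs_zero]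

end

end Pool.Agent.V8H26.YG
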