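import Pool.Agent.V8H26.YG.Nec

/-!
# The solutions of the local equations are locally soluble at the primes of the family
-/

set_option autoImplicit false
set_option linter.all false

open Polynomial IsDedekindDomain WeierstrassCurve WeierstrassCurve.Affine
open scoped Classical

namespace Pool.Agent.V8H26.YG

open Pool.Agent.TH115.GD Pool.Agent.H341R2.Sharp Finset Pool.Agent.Y164.PS Pool.Agent.V8H26.XA
open Pool.Agent.V8H26.XL (Arr arr dm F2s F2c)
open Pool.Agent.V8H26.YA (split_pl locSol_congr el_even)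

section
variable {k K : Type} [Field k] [Fintype k] [DecidableEq k] [Field K] [Algebra k[X] K]
  [IsFractionRing k[X] K]
variable {a b : k[X]} {N : ℕ} (H : Hyp a b N) (m : Tau a b → F2)
variable {ι : Type} [Fintype ι] {P : ι → k[X]} (hR : Fam (RR a b P))

/-- the exponents of a vector -/
def ne0 (w : UU ι (Tau a b)) : ι ⊕ Tau a b → ℕ :=
  Sum.elim (fun i => (w.1 i).1.val) (fun s => (w.2 s).1.val)

/-- the exponents of a vector -/
def ne1 (w : UU ι (Tau a b)) : ι ⊕ Tau a b → ℕ :=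
  Sum.elim (fun i => (w.1 i).2.val) (fun s => (w.2 s).2.val)

theorem ne_inl (w : UU ι (Tau a b)) (i : ι) :
    (((ne0 w (Sum.inl i) : F2), (ne1 w (Sum.inl i) : F2)) : W) = w.1 i := by
  simp only [ne0, ne1, Sum.elim_inl, ZMod.natCast_zmod_val]

theorem ne_inr (w : UU ι (Tau a b)) (s : Tau a b) :
    (((ne0 w (Sum.inr s) : F2), (ne1 w (Sum.inr s) : F2)) : W) = w.2 s := by
  simp only [ne0, ne1, Sum.elim_inr, ZMod.natCast_zmod_val]

/-- the symbols of a vector and two constants -/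
noncomputable def VM (P : ι → k[X]) (w : UU ι (Tau a b)) (r0 r1 : k) (Q : k[X]) : W :=
  LW (RR a b P) r0 r1 (ne0 w) (ne1 w) Q

theorem VM_eq (w : UU ι (Tau a b)) (r0 r1 : k) (Q : k[X]) : VM P w r0 r1 Q =
    ∑ j, L (P j) Q • w.1 j + ∑ s, L (QQ a b s) Q • w.2 s +
      (Q.natDegree : F2) • ((ch r0, ch r1) : W) := by
  rw [VM, LW_eq]
  simp only [ne_inl, ne_inr]

theorem VM_bad (w : UU ι (Tau a b)) (r0 r1 : k) (s : Tau a b) : VM P w r0 r1 (QQ a b s) =
    V2z (dT H) (arr H.hm (QQ a b) P) w (ch r0, ch r1) s := by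
  rw [VM_eq, V2z]
  congr 1
  congr 1
  exact sum_congr rfl fun s' _ => by
    show L (QQ a b s') (QQ a b s) • _ = L (QQ a b s) (QQ a b s') • _
    rw [L_comm H.hm]

theorem VM_E1 (w : UU ι (Tau a b)) (r0 r1 : k) (i : ι) :
    E1z (dT H) m (dm P) (arr H.hm (QQ a b) P) w (ch r0, ch r1) i =
      VM P w r0 r1 (P i) + TM m P (w.1 i) (P i) := by
  rw [VM_eq, TM_eq H, E1z]
  have a1 : ∀ j, (arr H.hm (QQ a b) P).A i j = L (P j) (P i) := fun j => by
    show L (P i) (P j) = _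
    rw [L_comm H.hm]
  have a2 : ∀ s, (arr H.hm (QQ a b) P).B i s = L (QQ a b s) (P i) := fun s => by
    show L (P i) (QQ a b s) = _
    rw [L_comm H.hm]
  simp only [a1, a2, smul_add, sum_add_distrib]
  show _ + (dm P i • _ + dm P i • ks (datum H).l (w.1 i)) = _
  have a3 : dm P i = ((P i).natDegree : F2) := rfl
  rw [a3]
  abel

include H in
theorem TM_cas (Q : k[X]) : TM m P (0, 1) Q =
      (Lm (RR a b P) a.leadingCoeff (nm m ι a) Q + Lm (RR a b P) b.leadingCoeff (nm m ι b) Q,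
        Lm (RR a b P) a.leadingCoeff (nm m ι a) Q) ∧
    TM m P (1, 0) Q = (Lm (RR a b P) a.leadingCoeff (nm m ι a) Q,
      Lm (RR a b P) a.leadingCoeff (nm m ι a) Q +
        Lm (RR a b P) (a - b).leadingCoeff (nm m ι (a - b)) Q) ∧
    TM m P (1, 1) Q = (Lm (RR a b P) b.leadingCoeff (nm m ι b) Q,
      Lm (RR a b P) (a - b).leadingCoeff (nm m ι (a - b)) Q) := by
  have la : a.leadingCoeff ≠ 0 := leadingCoeff_ne_zero.2 H.ha
  have lb : b.leadingCoeff ≠ 0 := leadingCoeff_ne_zero.2 H.hb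
  have lc : (a - b).leadingCoeff ≠ 0 := leadingCoeff_ne_zero.2 (sub_ne_zero.2 H.hab)
  have e1 : ∀ (r : k) (f : k[X]), Lm (RR a b P) r (nm m ι f) Q = Lm (RR a b P) r (nn ι a b f) Q +
      ∑ s, m s * L (QQ a b s) Q := by
    intro r f
    rw [nm, Lm_mm, Nat.cast_one, one_mul]
  have e2 : ((2 : ℕ) : F2) = 0 := by decide
  refine ⟨?_, ?_, ?_⟩
  · have h0 : Lm (RR a b P) (rp0 a b (0, 1)) (nq0 m ι (0, 1)) Q =
        Lm (RR a b P) (a.leadingCoeff * b.leadingCoeff) (nn ι a b a + nn ι a b b + 2 • mm m ι) Q := by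
      simp only [rp0, nq0, np0, c0, if_true, one_ne_zero, if_false]
      rfl
    have h1 : Lm (RR a b P) (rp1 a b (0, 1)) (nq1 m ι (0, 1)) Q =
        Lm (RR a b P) (-1 * a.leadingCoeff) (nn ι a b a + 1 • mm m ι) Q := by
      simp only [rp1, nq1, np1, c1, if_true, one_ne_zero, if_false]
      rfl
    apply Prod.ext
    · show Lm (RR a b P) (rp0 a b (0, 1)) (nq0 m ι (0, 1)) Q = _
      rw [h0, Lm_mm, Lm_mul la lb, e1, e1, e2]
      linear_combination (-(∑ s, m s * L (QQ a b s) Q)) * F2s 1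
    · show Lm (RR a b P) (rp1 a b (0, 1)) (nq1 m ι (0, 1)) Q = _
      rw [h1, Lm_mm, Lm_neg H la, e1, Nat.cast_one, one_mul]
  · have h0 : Lm (RR a b P) (rp0 a b (1, 0)) (nq0 m ι (1, 0)) Q =
        Lm (RR a b P) a.leadingCoeff (nn ι a b a + 1 • mm m ι) Q := by
      simp only [rp0, nq0, np0, c0, if_true, one_ne_zero, if_false]
      rfl
    have h1 : Lm (RR a b P) (rp1 a b (1, 0)) (nq1 m ι (1, 0)) Q =
        Lm (RR a b P) (a.leadingCoeff * (a - b).leadingCoeff)
          (nn ι a b a + nn ι a b (a - b) + 2 • mm m ι) Q := by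
      simp only [rp1, nq1, np1, c1, if_true, one_ne_zero, if_false]
      rfl
    apply Prod.ext
    · show Lm (RR a b P) (rp0 a b (1, 0)) (nq0 m ι (1, 0)) Q = _
      rw [h0, Lm_mm, e1, Nat.cast_one, one_mul]
    · show Lm (RR a b P) (rp1 a b (1, 0)) (nq1 m ι (1, 0)) Q = _
      rw [h1, Lm_mm, Lm_mul la lc, e1, e1, e2]
      linear_combination (-(∑ s, m s * L (QQ a b s) Q)) * F2s 1
  · have h0 : Lm (RR a b P) (rp0 a b (1, 1)) (nq0 m ι (1, 1)) Q =
        Lm (RR a b P) b.leadingCoeff (nn ι a b b + 1 • mm m ι) Q := by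
      simp only [rp0, nq0, np0, c0, if_true, one_ne_zero, if_false]
      rfl
    have h1 : Lm (RR a b P) (rp1 a b (1, 1)) (nq1 m ι (1, 1)) Q =
        Lm (RR a b P) (-1 * (a - b).leadingCoeff) (nn ι a b (a - b) + 1 • mm m ι) Q := by
      simp only [rp1, nq1, np1, c1, if_true, one_ne_zero, if_false]
      rfl
    apply Prod.ext
    · show Lm (RR a b P) (rp0 a b (1, 1)) (nq0 m ι (1, 1)) Q = _
      rw [h0, Lm_mm, e1, Nat.cast_one, one_mul]
    · show Lm (RR a b P) (rp1 a b (1, 1)) (nq1 m ι (1, 1)) Q =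
        Lm (RR a b P) (a - b).leadingCoeff (nm m ι (a - b)) Q
      rw [h1, Lm_mm, Lm_neg H lc, e1, Nat.cast_one, one_mul]

include H in
/-- the points of order two are locally independent at the places of non-split reduction -/
theorem TM_ne {s : Tau a b} (hcs : ∑ i, BT (QQ a b) P i s = 1 + gg' (dT H) m s) {y : W}
    (hy : y ≠ 0) : TM m P y (QQ a b s) ≠ 0 := by
  obtain ⟨da, db, dc⟩ := dvd3 H
  have hcne : a - b ≠ 0 := sub_ne_zero.2 H.hab
  obtain ⟨l1, l2, l3⟩ := L_types H s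
  obtain ⟨q1, q2, q3⟩ := TM_cas (P := P) H m (QQ a b s)
  set x := Lm (RR a b P) a.leadingCoeff (nm m ι a) (QQ a b s) with hx
  set z := Lm (RR a b P) b.leadingCoeff (nm m ι b) (QQ a b s) with hz
  set u := Lm (RR a b P) (a - b).leadingCoeff (nm m ι (a - b)) (QQ a b s) with hu
  -- at most one of the three symbols is trivial
  have key : ¬ (x = 0 ∧ z = 0) ∧ ¬ (x = 0 ∧ u = 0) ∧ ¬ (z = 0 ∧ u = 0) := by
    rcases tri H s with ⟨h1, h2, h3⟩ | ⟨h1, h2, h3⟩ | ⟨h1, h2, h3⟩
    · have hg : gv a b s = L b (QQ a b s) := if_pos h1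
      have ez : z = 1 := Lm_es H m hcs H.hb db h2 hg
      have eu : u = 1 := Lm_es H m hcs hcne dc h3 (hg.trans (l1 h1).symm)
      rw [ez, eu]
      simp
    · have hg : gv a b s = L a (QQ a b s) := if_neg h1
      have ex : x = 1 := Lm_es H m hcs H.ha da h1 hg
      have eu : u = 1 := Lm_es H m hcs hcne dc h3 (hg.trans (l2 h2).symm)
      rw [ex, eu]
      simp
    · have hg : gv a b s = L a (QQ a b s) := if_neg h1
      have ex : x = 1 := Lm_es H m hcs H.ha da h1 hg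
      have ez : z = 1 := Lm_es H m hcs H.hb db h2 (hg.trans (l3 h3).symm)
      rw [ex, ez]
      simp
  have add0 : ∀ x y : F2, x + y = 0 → x = 0 → y = 0 := by decide
  intro h
  rcases W_cases y with rfl | rfl | rfl | rfl
  · exact hy rfl
  · rw [q1] at h
    have h0 : x + z = 0 := congrArg Prod.fst h
    have h1 : x = 0 := congrArg Prod.snd h
    exact key.1 ⟨h1, add0 _ _ h0 h1⟩
  · rw [q2] at h
    have h0 : x = 0 := congrArg Prod.fst h
    have h1 : x + u = 0 := congrArg Prod.snd h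
    exact key.2.1 ⟨h0, add0 _ _ h1 h0⟩
  · rw [q3] at h
    exact key.2.2 ⟨congrArg Prod.fst h, congrArg Prod.snd h⟩

include H in
theorem TM_add (y y' : W) (Q : k[X]) : TM m P (y + y') Q = TM m P y Q + TM m P y' Q := by
  rw [TM_eq H, TM_eq H, TM_eq H]
  simp only [smul_add, sum_add_distrib, map_add, ks_add]
  abel

include H in
theorem TM_zero (Q : k[X]) : TM m P 0 Q = 0 := by
  have h := TM_add (P := P) H m 0 0 Q
  rw [add_zero] at h
  exact (left_eq_add (a := TM m P 0 Q)).1 h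

include H in
theorem TM_surj {s : Tau a b} (hcs : ∑ i, BT (QQ a b) P i s = 1 + gg' (dT H) m s) (l : W) :
    ∃ y : W, TM m P y (QQ a b s) = l := by
  have hinj : Function.Injective fun y : W => TM m P y (QQ a b s) := by
    intro y y' h
    by_contra hne
    have h1 : y + y' ≠ 0 := by
      intro h0
      apply hne
      calc y = y + (y' + y') := by rw [W_add_self, add_zero]
        _ = y' := by rw [← add_assoc, h0, zero_add]
    apply TM_ne H m hcs h1
    rw [TM_add H]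
    have h2 : TM m P y (QQ a b s) = TM m P y' (QQ a b s) := h
    rw [h2]
    exact W_add_self _
  exact (Finite.injective_iff_surjective.1 hinj) l

include H in
theorem TM_om {s : Tau a b} {es : F2} (hcs : ∑ i, BT (QQ a b) P i s = es + gg' (dT H) m s) (y : W) :
    om (TM m P y (QQ a b s)) (tyv a b s) = es * om y (tyv a b s) := by
  rw [TM_bad H, om_add_left, om_smul_left, hcs]
  have h : om (Mm (dT H) m s y) (tyv a b s) = gg' (dT H) m s * om y (tyv a b s) :=
    Mm_ty (dT H) m s y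
  rw [h]
  linear_combination (gg' (dT H) m s * om y (tyv a b s)) * F2s 1

include H hR in
theorem ne_tm : am K m a P ≠ 0 ∧ am K m b P ≠ 0 ∧ am K m a P ≠ am K m b P := by
  obtain ⟨t1, t2, t3⟩ := tm_ne H m hR
  have inj := IsFractionRing.injective k[X] K
  refine ⟨?_, ?_, fun h => t3 (inj h)⟩
  · rw [am, Ne, IsFractionRing.to_map_eq_zero_iff]; exact t1
  · rw [am, Ne, IsFractionRing.to_map_eq_zero_iff]; exact t2

variable {w : UU ι (Tau a b)} {r0 r1 : k} (hr0 : r0 ≠ 0) (hr1 : r1 ≠ 0)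

include H hR hr0 hr1 in
/-- a place at which the classes are those of a point of order two -/
theorem sol_fam (x : ι ⊕ Tau a b) (y : W)
    (hy : (((ne0 w x : F2), (ne1 w x : F2)) : W) = ((nq0 m ι y x : F2), (nq1 m ι y x : F2)))
    (hL : VM P w r0 r1 (RR a b P x) = TM m P y (RR a b P x)) :
    LocSol (F := K) (crv (am K m a P) (am K m b P)) (am K m a P) (am K m b P)
      (Comp k[X] K (plK (hR.irr x)))
      (algebraMap k[X] K (el (RR a b P) r0 (ne0 w)))
      (algebraMap k[X] K (el (RR a b P) r1 (ne1 w))) := by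
  obtain ⟨T, -, e0, e1⟩ := tor_Tm (K := K) H m hR y
  refine locSol_pt2 (compAlgebra' k[X] K (plK (hR.irr x)) K) (compAlgebra k[X] K (plK (hR.irr x)))
    (fun x => rfl) T ?_ ?_
  · rw [e0]
    exact loc_el' H.hk hR x hr0 (rp_ne H y).1 _ _ (congrArg Prod.fst hy)
      (congrArg Prod.fst hL)
  · rw [e1]
    exact loc_el' H.hk hR x hr1 (rp_ne H y).2 _ _ (congrArg Prod.snd hy)
      (congrArg Prod.snd hL)

include H hR in
/-- the twist of a polynomial prime to a bad prime -/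
theorem tm_res {s : Tau a b} (hs1 : m s ≠ 1) {f : k[X]} (hf : f ≠ 0)
    (hd : ∀ Q : k[X], Q ∣ f → Q ∣ a * b * (a - b)) (hs : ¬ QQ a b s ∣ f) :
    ¬ QQ a b s ∣ f * (gm m * ∏ i, P i) ∧ L (f * (gm m * ∏ i, P i)) (QQ a b s) =
      Lm (RR a b P) f.leadingCoeff (nm m ι f) (QQ a b s) := by
  have hl : f.leadingCoeff ≠ 0 := leadingCoeff_ne_zero.2 hf
  have hm0 : m s = 0 := (F2c _).resolve_right hs1
  have h0 : mu f s.1 = 0 := mu_eq_zero hs
  have e1 : f * (gm m * ∏ i, P i) = el' (RR a b P) (Sum.inr s) f.leadingCoeff (nm m ι f) := by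
    rw [el_tm H m hf hd, el_eq (Sum.inr s), nm_inr, hm0, ZMod.val_zero, add_zero, h0,
      pow_zero, one_mul]
  rw [e1]
  exact ⟨el'_not_dvd hR (Sum.inr s) hl _, L_el' hR (Sum.inr s) hl _⟩

include H hR hr0 hr1 in
theorem sol_splitM {s : Tau a b} (hs1 : m s ≠ 1)
    (hcs : ∑ i, BT (QQ a b) P i s = 0 + gg' (dT H) m s) {y : W}
    (hexp : (((ne0 w (Sum.inr s) : F2), (ne1 w (Sum.inr s) : F2)) : W) =
      ((nq0 m ι y (Sum.inr s) : F2), (nq1 m ι y (Sum.inr s) : F2)))
    (hu : VM P w r0 r1 (QQ a b s) + TM m P y (QQ a b s) = tyv a b s) :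
    LocSol (F := K) (crv (am K m a P) (am K m b P)) (am K m a P) (am K m b P)
      (Comp k[X] K (plK (hR.irr (Sum.inr s))))
      (algebraMap k[X] K (el (RR a b P) r0 (ne0 w)))
      (algebraMap k[X] K (el (RR a b P) r1 (ne1 w))) := by
  have h2 := two_ne H
  have h2K : (2 : K) ≠ 0 := tt h2
  obtain ⟨haK, hbK, habK⟩ := ne_tm (K := K) H m hR
  obtain ⟨da, db, dc⟩ := dvd3 H
  set v := plK (hR.irr (Sum.inr s)) with hv
  have q0n := mul_ne_zero hr0 (rp_ne H y).1
  have q1n := mul_ne_zero hr1 (rp_ne H y).2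
  set p0 := el' (RR a b P) (Sum.inr s) (r0 * rp0 a b y) (ne0 w + nq0 m ι y) with hp0
  set p1 := el' (RR a b P) (Sum.inr s) (r1 * rp1 a b y) (ne1 w + nq1 m ι y) with hp1
  have nd0 : ¬ QQ a b s ∣ p0 := el'_not_dvd hR (Sum.inr s) q0n _
  have nd1 : ¬ QQ a b s ∣ p1 := el'_not_dvd hR (Sum.inr s) q1n _
  have l0 : L p0 (QQ a b s) = (tyv a b s).1 := by
    have h5 : L p0 (QQ a b s) = Lm (RR a b P) (r0 * rp0 a b y) (ne0 w + nq0 m ι y) (QQ a b s) :=
      L_el' hR (Sum.inr s) q0n _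
    rw [h5, Lm_mul hr0 (rp_ne H y).1]
    exact congrArg Prod.fst hu
  have l1 : L p1 (QQ a b s) = (tyv a b s).2 := by
    have h5 : L p1 (QQ a b s) = Lm (RR a b P) (r1 * rp1 a b y) (ne1 w + nq1 m ι y) (QQ a b s) :=
      L_el' hR (Sum.inr s) q1n _
    rw [h5, Lm_mul hr1 (rp_ne H y).2]
    exact congrArg Prod.snd hu
  have hirr := H.fam.irr s
  have htype : (QQ a b s ∣ a * (gm m * ∏ i, P i) ∧ ¬ QQ a b s ∣ b * (gm m * ∏ i, P i) ∧
      L (b * (gm m * ∏ i, P i)) (QQ a b s) = 0 ∧ L p0 (QQ a b s) = 1 ∧ L p1 (QQ a b s) = 1) ∨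
      (¬ QQ a b s ∣ a * (gm m * ∏ i, P i) ∧ QQ a b s ∣ b * (gm m * ∏ i, P i) ∧
        L (a * (gm m * ∏ i, P i)) (QQ a b s) = 0 ∧ L p0 (QQ a b s) = 1 ∧ L p1 (QQ a b s) = 0) ∨
      (¬ QQ a b s ∣ a * (gm m * ∏ i, P i) ∧
        QQ a b s ∣ a * (gm m * ∏ i, P i) - b * (gm m * ∏ i, P i) ∧
        L (a * (gm m * ∏ i, P i)) (QQ a b s) = 0 ∧ L p0 (QQ a b s) = 0 ∧ L p1 (QQ a b s) = 1) := by
    rcases tri H s with ⟨h1, h2', h3⟩ | ⟨h1, h2', h3⟩ | ⟨h1, h2', h3⟩
    · have hty : tyv a b s = (1, 1) := if_pos h1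
      rw [hty] at l0 l1
      obtain ⟨g1, g2⟩ := tm_res (P := P) H m hR hs1 H.hb db h2'
      exact Or.inl ⟨h1.mul_right _, g1, g2.trans (Lm_es H m hcs H.hb db h2' (if_pos h1)), l0, l1⟩
    · have hty : tyv a b s = (1, 0) := by rw [tyv, if_neg h1, if_pos h2']
      rw [hty] at l0 l1
      obtain ⟨g1, g2⟩ := tm_res (P := P) H m hR hs1 H.ha da h1
      exact Or.inr (Or.inl ⟨g1, h2'.mul_right _,
        g2.trans (Lm_es H m hcs H.ha da h1 (if_neg h1)), l0, l1⟩)
    · have hty : tyv a b s = (0, 1) := by rw [tyv, if_neg h1, if_neg h2']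
      rw [hty] at l0 l1
      obtain ⟨g1, g2⟩ := tm_res (P := P) H m hR hs1 H.ha da h1
      refine Or.inr (Or.inr ⟨g1, ?_, g2.trans (Lm_es H m hcs H.ha da h1 (if_neg h1)), l0, l1⟩)
      rw [← sub_mul]
      exact h3.mul_right _
  obtain ⟨x, yy, e, x0, xa, s0, s1⟩ := split_pl (K := K) H.hk h2 H.hm v hirr (H.fam.mon s)
    (fun p => mem_plK (hR.irr (Sum.inr s))) nd0 nd1 htype
  have L1 := locSol_xy (compAlgebra' k[X] K v K) (compAlgebra k[X] K v) (fun x => rfl) h2K haK hbK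
    habK e x0 xa s0 s1
  have hx0 : (ne0 w (Sum.inr s) : F2) = (nq0 m ι y (Sum.inr s) : F2) :=
    congrArg Prod.fst hexp
  have hx1 : (ne1 w (Sum.inr s) : F2) = (nq1 m ι y (Sum.inr s) : F2) :=
    congrArg Prod.snd hexp
  have L2 := locSol_congr (compAlgebra' k[X] K v K) (compAlgebra k[X] K v) L1
    (el_even (K := K) hR (Sum.inr s) (r0 * rp0 a b y) (ne0 w + nq0 m ι y) (by
      rw [Pi.add_apply, Nat.cast_add, hx0]
      exact F2_add_self _))
    (el_even (K := K) hR (Sum.inr s) (r1 * rp1 a b y) (ne1 w + nq1 m ι y) (by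
      rw [Pi.add_apply, Nat.cast_add, hx1]
      exact F2_add_self _))
  obtain ⟨T, -, d0T, d1T⟩ := tor_Tm (K := K) H m hR y
  have l2 := ls_of_point (k := k) h2K haK hbK habK T
  rw [d0T, d1T] at l2
  have L3 := locSol_mul (compAlgebra' k[X] K v K) (compAlgebra k[X] K v) h2K haK hbK habK L2
    (l2.1 v)
  have nz : ∀ {r : k} (n : ι ⊕ Tau a b → ℕ), r ≠ 0 → algebraMap k[X] K (el (RR a b P) r n) ≠ 0 := by
    intro r n hr
    rw [Ne, IsFractionRing.to_map_eq_zero_iff]
    exact el_ne hR hr _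
  refine locSol_congr (compAlgebra' k[X] K v K) (compAlgebra k[X] K v) L3 ?_ ?_
  · rw [← el_mul, map_mul]
    exact SqEq.symm ⟨algebraMap k[X] K (el (RR a b P) (rp0 a b y) (nq0 m ι y)),
      nz _ (rp_ne H y).1, by ring⟩
  · rw [← el_mul, map_mul]
    exact SqEq.symm ⟨algebraMap k[X] K (el (RR a b P) (rp1 a b y) (nq1 m ι y)),
      nz _ (rp_ne H y).2, by ring⟩

include H hR hr0 hr1 in
/-- the ramified classes at the places of split reduction and even multiplicity -/
theorem sol_ram {s : Tau a b} (hs1 : m s ≠ 1)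
    (hcs : ∑ i, BT (QQ a b) P i s = 0 + gg' (dT H) m s) (ht : tv a b s = 0)
    (hw : w.2 s = tyv a b s) (hu : om (VM P w r0 r1 (QQ a b s)) (tyv a b s) = 0) :
    LocSol (F := K) (crv (am K m a P) (am K m b P)) (am K m a P) (am K m b P)
      (Comp k[X] K (plK (hR.irr (Sum.inr s))))
      (algebraMap k[X] K (el (RR a b P) r0 (ne0 w)))
      (algebraMap k[X] K (el (RR a b P) r1 (ne1 w))) := by
  have h2 := two_ne H
  have h2K : (2 : K) ≠ 0 := tt h2
  obtain ⟨haK, hbK, habK⟩ := ne_tm (K := K) H m hR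
  obtain ⟨da, db, dc⟩ := dvd3 H
  obtain ⟨ea, eb, ec⟩ := tm_el (K := K) (P := P) H m
  have la : a.leadingCoeff ≠ 0 := leadingCoeff_ne_zero.2 H.ha
  have lb : b.leadingCoeff ≠ 0 := leadingCoeff_ne_zero.2 H.hb
  have m1 : (-1 : k) ≠ 0 := by simp
  have hm0 : m s = 0 := (F2c _).resolve_right hs1
  have nmr : ∀ f : k[X], nm m ι f (Sum.inr s) = mu f s.1 := by
    intro f
    rw [nm_inr, hm0, ZMod.val_zero, add_zero]
  obtain ⟨va, vb, vc⟩ := val_tm (K := K) H m hR (Sum.inr s)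
  rw [nmr] at va vb vc
  have v0 := val_el (K := K) hR (Sum.inr s) hr0 (ne0 w)
  have v1 := val_el (K := K) hR (Sum.inr s) hr1 (ne1 w)
  set v := plK (hR.irr (Sum.inr s)) with hv
  have hH : Hens (wv v (F := K)) := hensK v h2
  set j := algebraMap K (Comp k[X] K v) with hj
  have one_el : (1 : Comp k[X] K v) = j (algebraMap k[X] K
      (el (RR a b P) (1 : k) (0 : ι ⊕ Tau a b → ℕ))) := by
    rw [el_one, map_one, map_one]
  have wva : wv v (j (am K m a P)) = WithZero.exp (-(mu a s.1 : ℤ)) := by rw [wv_coe, va]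
  have wvb : wv v (j (am K m b P)) = WithZero.exp (-(mu b s.1 : ℤ)) := by rw [wv_coe, vb]
  have wvc : wv v (j (am K m a P) - j (am K m b P)) = WithZero.exp (-(mu (a - b) s.1 : ℤ)) := by
    rw [← map_sub, wv_coe, vc]
  have wv0 : wv v (j (algebraMap k[X] K (el (RR a b P) r0 (ne0 w)))) =
      WithZero.exp (-(ne0 w (Sum.inr s) : ℤ)) := by rw [wv_coe, v0]
  have wv1 : wv v (j (algebraMap k[X] K (el (RR a b P) r1 (ne1 w)))) =
      WithZero.exp (-(ne1 w (Sum.inr s) : ℤ)) := by rw [wv_coe, v1]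
  have h01 : ne0 w (Sum.inr s) = (tyv a b s).1.val := by
    show (w.2 s).1.val = _
    rw [hw]
  have h11 : ne1 w (Sum.inr s) = (tyv a b s).2.val := by
    show (w.2 s).2.val = _
    rw [hw]
  have big : ∀ {f : k[X]}, f ≠ 0 → (∀ Q : k[X], Q ∣ f → Q ∣ a * b * (a - b)) → QQ a b s ∣ f →
      (mu f s.1 : F2) = 0 → 2 ≤ mu f s.1 := by
    intro f hf hd hdv he
    obtain ⟨c, hc⟩ := (cast_eq_zero_iff_even _).1 he
    have hpos : mu f s.1 ≠ 0 := by
      intro h0
      have h3 := el_tw (P := fun i : Empty => (i.elim : k[X])) H hf hd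
      have h4 : ¬ QQ a b s ∣ el (RR a b (fun i : Empty => (i.elim : k[X]))) f.leadingCoeff
          (Sum.elim (fun _ => 1) (fun s => mu f s.1)) := by
        have hR' : Fam (RR a b (fun i : Empty => (i.elim : k[X]))) := by
          refine ⟨?_, ?_, ?_⟩
          · rintro (i | s)
            · exact i.elim
            · exact H.fam.mon s
          · rintro (i | s)
            · exact i.elim
            · exact H.fam.irr s
          · rintro (i | s) (i' | s') h
            · exact i.elim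
            · exact i.elim
            · exact i'.elim
            · exact congrArg Sum.inr (H.fam.inj h)
        rw [el_eq (Sum.inr s)]
        show ¬ QQ a b s ∣ (QQ a b s) ^ (mu f s.1) * _
        rw [h0, pow_zero, one_mul]
        exact el'_not_dvd hR' (Sum.inr s) (leadingCoeff_ne_zero.2 hf) _
      apply h4
      rw [← h3]
      exact hdv.mul_right _
    omega
  have lt2 : ∀ {n : ℕ}, 2 ≤ n → (WithZero.exp (-(n : ℤ)) : WithZero (Multiplicative ℤ)) <
      WithZero.exp (-((1 : ℕ) : ℤ)) := by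
    intro n hn
    rw [WithZero.exp_lt_exp]
    push_cast
    omega
  have lt1 : (WithZero.exp (-((1 : ℕ) : ℤ)) : WithZero (Multiplicative ℤ)) <
      WithZero.exp (-((0 : ℕ) : ℤ)) := by
    rw [WithZero.exp_lt_exp]
    norm_num
  have o1 : ((1 : F2).val : ℕ) = 1 := rfl
  have o0 : ((0 : F2).val : ℕ) = 0 := rfl
  rcases tri H s with ⟨h1, h2', h3⟩ | ⟨h1, h2', h3⟩ | ⟨h1, h2', h3⟩
  · -- type `a`
    have mb : mu b s.1 = 0 := mu_eq_zero h2'
    have mc : mu (a - b) s.1 = 0 := mu_eq_zero h3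
    have hty : tyv a b s = (1, 1) := if_pos h1
    have htv : tv a b s = ((mu a s.1 : F2), (mu a s.1 : F2)) := by
      simp only [tv, mb, mc, Nat.cast_zero, add_zero]
    have hmu : (mu a s.1 : F2) = 0 := congrArg Prod.fst (htv.symm.trans ht)
    have hbig := big H.ha da h1 hmu
    rw [hty] at h01 h11 hu
    rw [o1] at h01 h11
    have hLm : Lm (RR a b P) (-1 * b.leadingCoeff) (nm m ι b) (QQ a b s) = 0 := by
      rw [Lm_neg H lb, Lm_es H m hcs H.hb db h2' (if_pos h1)]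
    have sq : SqEq (-(j (am K m b P))) 1 := by
      rw [← map_neg, show -(am K m b P) = algebraMap k[X] K
        (el (RR a b P) (-1 * b.leadingCoeff) (nm m ι b)) by
          rw [el_neg, map_neg (algebraMap k[X] K), ← eb], one_el]
      exact loc_el' H.hk hR (Sum.inr s) (mul_ne_zero m1 lb) one_ne_zero _ _ (by
        rw [nmr, mb, Pi.zero_apply]) (hLm.trans (Lm_one _).symm)
    obtain ⟨y, hy, x0, xa, sx⟩ := ramA hH (a := j (am K m a P)) (b := j (am K m b P))
      (x := j (algebraMap k[X] K (el (RR a b P) r0 (ne0 w)))) (by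
        rw [wva, wv0, h01]; exact lt2 hbig) (by rw [wv0, wvb, h01, mb]; exact lt1) sq
    refine locSol_xy (compAlgebra' k[X] K v K) (compAlgebra k[X] K v) (fun x => rfl) h2K haK hbK
      habK hy x0 xa (SqEq.refl _) (SqEq.trans ?_ sx)
    refine loc_el' H.hk hR (Sum.inr s) hr1 hr0 _ _ (by rw [h01, h11]) ?_
    have h5 : Lm (RR a b P) r0 (ne0 w) (QQ a b s) * 1 + Lm (RR a b P) r1 (ne1 w) (QQ a b s) * 1 = 0 :=
      hu
    rw [mul_one, mul_one] at h5
    exact (F2_eq_of_add h5).symm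
  · -- type `b`
    have ma : mu a s.1 = 0 := mu_eq_zero h1
    have mc : mu (a - b) s.1 = 0 := mu_eq_zero h3
    have hty : tyv a b s = (1, 0) := by rw [tyv, if_neg h1, if_pos h2']
    have htv : tv a b s = ((mu b s.1 : F2), 0) := by
      simp only [tv, ma, mc, Nat.cast_zero, add_zero, zero_add]
    have hmu : (mu b s.1 : F2) = 0 := congrArg Prod.fst (htv.symm.trans ht)
    have hbig := big H.hb db h2' hmu
    rw [hty] at h01 h11 hu
    rw [o1] at h01
    rw [o0] at h11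
    have hLm : Lm (RR a b P) (-1 * a.leadingCoeff) (nm m ι a) (QQ a b s) = 0 := by
      rw [Lm_neg H la, Lm_es H m hcs H.ha da h1 (if_neg h1)]
    have sq : SqEq (-(j (am K m a P))) 1 := by
      rw [← map_neg, show -(am K m a P) = algebraMap k[X] K
        (el (RR a b P) (-1 * a.leadingCoeff) (nm m ι a)) by
          rw [el_neg, map_neg (algebraMap k[X] K), ← ea], one_el]
      exact loc_el' H.hk hR (Sum.inr s) (mul_ne_zero m1 la) one_ne_zero _ _ (by
        rw [nmr, ma, Pi.zero_apply]) (hLm.trans (Lm_one _).symm)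
    obtain ⟨y, hy, x0, xa, sx⟩ := ramB hH (a := j (am K m a P)) (b := j (am K m b P))
      (x := j (algebraMap k[X] K (el (RR a b P) r0 (ne0 w)))) (by
        rw [wvb, wv0, h01]; exact lt2 hbig) (by rw [wv0, wva, h01, ma]; exact lt1) sq
    refine locSol_xy (compAlgebra' k[X] K v K) (compAlgebra k[X] K v) (fun x => rfl) h2K haK hbK
      habK hy x0 xa (SqEq.refl _) (SqEq.trans ?_ sx)
    rw [one_el]
    refine loc_el' H.hk hR (Sum.inr s) hr1 one_ne_zero _ _ (by rw [h11, Pi.zero_apply]) ?_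
    have h5 : Lm (RR a b P) r0 (ne0 w) (QQ a b s) * 0 + Lm (RR a b P) r1 (ne1 w) (QQ a b s) * 1 = 0 :=
      hu
    rw [mul_one, mul_zero, zero_add] at h5
    exact h5.trans (Lm_one _).symm
  · -- type `a - b`
    have ma : mu a s.1 = 0 := mu_eq_zero h1
    have mb : mu b s.1 = 0 := mu_eq_zero h2'
    have hty : tyv a b s = (0, 1) := by rw [tyv, if_neg h1, if_neg h2']
    have htv : tv a b s = (0, (mu (a - b) s.1 : F2)) := by
      simp only [tv, ma, mb, Nat.cast_zero, add_zero, zero_add]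
    have hmu : (mu (a - b) s.1 : F2) = 0 := congrArg Prod.snd (htv.symm.trans ht)
    have hbig := big (sub_ne_zero.2 H.hab) dc h3 hmu
    rw [hty] at h01 h11 hu
    rw [o0] at h01
    rw [o1] at h11
    have hLm : Lm (RR a b P) a.leadingCoeff (nm m ι a) (QQ a b s) = 0 :=
      Lm_es H m hcs H.ha da h1 (if_neg h1)
    have sq : SqEq (j (am K m a P)) 1 := by
      rw [ea, one_el]
      exact loc_el' H.hk hR (Sum.inr s) la one_ne_zero _ _ (by
        rw [nmr, ma, Pi.zero_apply]) (hLm.trans (Lm_one _).symm)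
    obtain ⟨y, hy, x0, xa, sx⟩ := ramC hH (a := j (am K m a P)) (b := j (am K m b P))
      (e := j (algebraMap k[X] K (el (RR a b P) r1 (ne1 w)))) (by
        rw [wvc, wv1, h11]; exact lt2 hbig) (by rw [wv1, wva, h11, ma]; exact lt1) sq
    refine locSol_xy (compAlgebra' k[X] K v K) (compAlgebra k[X] K v) (fun x => rfl) h2K haK hbK
      habK hy x0 xa (SqEq.trans ?_ sx) (by rw [add_sub_cancel_left]; exact SqEq.refl _)
    rw [one_el]
    refine loc_el' H.hk hR (Sum.inr s) hr0 one_ne_zero _ _ (by rw [h01, Pi.zero_apply]) ?_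
    have h5 : Lm (RR a b P) r0 (ne0 w) (QQ a b s) * 1 + Lm (RR a b P) r1 (ne1 w) (QQ a b s) * 0 = 0 :=
      hu
    rw [mul_one, mul_zero, add_zero] at h5
    exact h5.trans (Lm_one _).symm

end

end Pool.Agent.V8H26.YG
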