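import Pool.Agent.V8H26.YG.Loc
import Pool.Agent.V8H26.YG.Eqn
import Pool.Agent.V8H26.YG.Dat

/-!
# The twist by a polynomial with bad prime factors
-/

set_option autoImplicit false
set_option linter.all false

open Polynomial IsDedekindDomain WeierstrassCurve WeierstrassCurve.Affine
open scoped Classical

namespace Pool.Agent.V8H26.YG

open Pool.Agent.TH115.GD Pool.Agent.H341R2.Sharp Finset Pool.Agent.Y164.PS Pool.Agent.V8H26.XA
open Pool.Agent.V8H26.XL (Arr arr dm F2s F2c)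

section
variable {k K : Type} [Field k] [Fintype k] [DecidableEq k] [Field K] [Algebra k[X] K]
  [IsFractionRing k[X] K]
variable {a b : k[X]} {N : ℕ} (H : Hyp a b N) (m : Tau a b → F2)
variable {ι : Type} [Fintype ι] {P : ι → k[X]} (hR : Fam (RR a b P))

/-- the product of the bad primes of the twist -/
noncomputable def gm : k[X] := ∏ s, QQ a b s ^ (m s).val

/-- the twisted coefficients -/
noncomputable abbrev am (K : Type) [Field K] [Algebra k[X] K] {a b : k[X]} (m : Tau a b → F2)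
    (f : k[X]) (P : ι → k[X]) : K := algebraMap k[X] K (f * (gm m * ∏ i, P i))

/-- the exponents of the bad primes of the twist -/
def mm (ι : Type) : ι ⊕ Tau a b → ℕ := Sum.elim (fun _ => 0) (fun s => (m s).val)

theorem el_mm (r : k) (n : ι ⊕ Tau a b → ℕ) (c : ℕ) :
    el (RR a b P) r (n + c • mm m ι) = el (RR a b P) r n * gm m ^ c := by
  rw [el, el, Fintype.prod_sum_type, Fintype.prod_sum_type, gm, ← prod_pow]
  simp only [Sum.elim_inl, Sum.elim_inr, Pi.add_apply, Pi.smul_apply, mm, smul_eq_mul, mul_zero,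
    add_zero]
  have h1 : ∏ s, QQ a b s ^ (n (Sum.inr s) + c * (m s).val) =
      (∏ s, QQ a b s ^ n (Sum.inr s)) * ∏ s, (QQ a b s ^ (m s).val) ^ c := by
    rw [← prod_mul_distrib]
    refine prod_congr rfl fun s _ => ?_
    rw [← pow_mul, ← pow_add, mul_comm c]
  rw [h1]
  ring

/-- the exponents of the twist of `f` -/
noncomputable def nm (ι : Type) (f : k[X]) : ι ⊕ Tau a b → ℕ := nn ι a b f + 1 • mm m ι

theorem nm_inl (f : k[X]) (i : ι) : nm m ι f (Sum.inl i) = 1 := rfl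

theorem nm_inr (f : k[X]) (s : Tau a b) : nm m ι f (Sum.inr s) = mu f s.1 + (m s).val := by
  show mu f s.1 + 1 • (m s).val = _
  rw [one_smul]

include H in
theorem el_tm {f : k[X]} (hf : f ≠ 0) (hd : ∀ Q : k[X], Q ∣ f → Q ∣ a * b * (a - b)) :
    f * (gm m * ∏ i, P i) = el (RR a b P) f.leadingCoeff (nm m ι f) := by
  rw [nm, el_mm, pow_one]
  have h := el_tw (P := P) H hf hd
  rw [show nn ι a b f = Sum.elim (fun _ => 1) (fun s => mu f s.1) from rfl, ← h]
  ring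

theorem gm_ne (H : Hyp a b N) : gm (k := k) m ≠ 0 :=
  prod_ne_zero_iff.2 fun s _ => pow_ne_zero _ (H.fam.mon s).ne_zero

include H hR in
theorem tm_ne : a * (gm m * ∏ i, P i) ≠ 0 ∧ b * (gm m * ∏ i, P i) ≠ 0 ∧
    a * (gm m * ∏ i, P i) ≠ b * (gm m * ∏ i, P i) := by
  have h := mul_ne_zero (gm_ne m H) (prodP_ne H hR)
  exact ⟨mul_ne_zero H.ha h, mul_ne_zero H.hb h, fun e => H.hab (mul_right_cancel₀ h e)⟩

include H in
/-- the twist in terms of the primes -/
theorem tm_el :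
    am K m a P = algebraMap k[X] K (el (RR a b P) a.leadingCoeff (nm m ι a)) ∧
    am K m b P = algebraMap k[X] K (el (RR a b P) b.leadingCoeff (nm m ι b)) ∧
    am K m a P - am K m b P = algebraMap k[X] K (el (RR a b P) (a - b).leadingCoeff
      (nm m ι (a - b))) := by
  obtain ⟨da, db, dc⟩ := dvd3 H
  refine ⟨?_, ?_, ?_⟩
  · rw [am, el_tm H m H.ha da]
  · rw [am, el_tm H m H.hb db]
  · rw [am, am, ← map_sub, ← sub_mul, el_tm H m (sub_ne_zero.2 H.hab) dc]

theorem Lm_mm (r : k) (n : ι ⊕ Tau a b → ℕ) (c : ℕ) (Q : k[X]) :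
    Lm (RR a b P) r (n + c • mm m ι) Q = Lm (RR a b P) r n Q +
      (c : F2) * ∑ s, m s * L (QQ a b s) Q := by
  rw [Lm, Lm, Fintype.sum_sum_type, Fintype.sum_sum_type]
  simp only [Sum.elim_inl, Sum.elim_inr, Pi.add_apply, Pi.smul_apply, mm, smul_eq_mul, mul_zero,
    add_zero, Nat.cast_add, Nat.cast_mul, ZMod.natCast_zmod_val, add_mul, sum_add_distrib, mul_sum]
  have h1 : ∑ s, (c : F2) * m s * L (QQ a b s) Q = ∑ s, (c : F2) * (m s * L (QQ a b s) Q) :=
    sum_congr rfl fun s _ => mul_assoc _ _ _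
  rw [h1]
  ring

include H in
theorem Lm_tm {f : k[X]} (hf : f ≠ 0) (hd : ∀ Q : k[X], Q ∣ f → Q ∣ a * b * (a - b)) (s : Tau a b)
    (hs : ¬ QQ a b s ∣ f) : Lm (RR a b P) f.leadingCoeff (nm m ι f) (QQ a b s) =
      ∑ i, BT (QQ a b) P i s + (L f (QQ a b s) + ∑ s', m s' * L (QQ a b s) (QQ a b s')) := by
  rw [nm, Lm_mm, Lm_tw H hf hd s hs, Nat.cast_one, one_mul, add_assoc]
  congr 2
  exact sum_congr rfl fun s' _ => by rw [L_comm H.hm]

/-- the exponents of the torsion points -/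
def c0 (y : W) : ℕ := if y.1 = 0 then (if y.2 = 0 then 0 else 2) else 1

def c1 (y : W) : ℕ := if y.1 = 0 then (if y.2 = 0 then 0 else 1) else (if y.2 = 0 then 2 else 1)

theorem c_cast : ∀ y : W, ((c0 y : F2), (c1 y : F2)) = y := by decide

noncomputable def nq0 (ι : Type) (y : W) : ι ⊕ Tau a b → ℕ := np0 ι a b y + c0 y • mm m ι

noncomputable def nq1 (ι : Type) (y : W) : ι ⊕ Tau a b → ℕ := np1 ι a b y + c1 y • mm m ι

theorem nq_inl (y : W) (i : ι) :
    ((nq0 m ι y (Sum.inl i) : F2), (nq1 m ι y (Sum.inl i) : F2)) = y := by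
  have h0 : nq0 m ι y (Sum.inl i) = np0 ι a b y (Sum.inl i) := rfl
  have h1 : nq1 m ι y (Sum.inl i) = np1 ι a b y (Sum.inl i) := rfl
  rw [h0, h1]
  exact np_inl y i

theorem nq_inr (y : W) (s : Tau a b) :
    (((nq0 m ι y (Sum.inr s) : F2), (nq1 m ι y (Sum.inr s) : F2)) : W) = th (dT H) m s y := by
  have h0 : nq0 m ι y (Sum.inr s) = np0 ι a b y (Sum.inr s) + c0 y * (m s).val := rfl
  have h1 : nq1 m ι y (Sum.inr s) = np1 ι a b y (Sum.inr s) + c1 y * (m s).val := rfl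
  have h2 := np_inr (ι := ι) H y s
  have h3 := c_cast y
  rw [h0, h1, th_apply]
  show _ = m s • y + om y (tv a b s) • tv a b s
  have h3a : (c0 y : F2) = y.1 := congrArg Prod.fst h3
  have h3b : (c1 y : F2) = y.2 := congrArg Prod.snd h3
  rw [← h2]
  push_cast
  rw [ZMod.natCast_zmod_val, h3a, h3b]
  apply Prod.ext
  · show _ = m s * y.1 + _
    ring
  · show _ = m s * y.2 + _
    ring

include H in
/-- the coordinates of the torsion points -/
theorem tor_em (y : W) :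
    (y = (0, 0) → el (RR a b P) (rp0 a b y) (nq0 m ι y) = 1 ∧
      el (RR a b P) (rp1 a b y) (nq1 m ι y) = 1) ∧
    (y = (0, 1) → el (RR a b P) (rp0 a b y) (nq0 m ι y) = (a * (gm m * ∏ i, P i)) *
        (b * (gm m * ∏ i, P i)) ∧
      el (RR a b P) (rp1 a b y) (nq1 m ι y) = -(a * (gm m * ∏ i, P i))) ∧
    (y = (1, 0) → el (RR a b P) (rp0 a b y) (nq0 m ι y) = a * (gm m * ∏ i, P i) ∧
      el (RR a b P) (rp1 a b y) (nq1 m ι y) = (a * (gm m * ∏ i, P i)) *
        ((a - b) * (gm m * ∏ i, P i))) ∧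
    (y = (1, 1) → el (RR a b P) (rp0 a b y) (nq0 m ι y) = b * (gm m * ∏ i, P i) ∧
      el (RR a b P) (rp1 a b y) (nq1 m ι y) = -((a - b) * (gm m * ∏ i, P i))) := by
  obtain ⟨g1, g2, g3, g4⟩ := tor_el (P := P) H y
  refine ⟨?_, ?_, ?_, ?_⟩
  · intro h
    obtain ⟨e0, e1⟩ := g1 h
    rw [nq0, nq1, el_mm, el_mm, e0, e1, h]
    simp [c0, c1]
  · intro h
    obtain ⟨e0, e1⟩ := g2 h
    rw [nq0, nq1, el_mm, el_mm, e0, e1, h]
    have h0 : c0 ((0, 1) : W) = 2 := by decide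
    have h1 : c1 ((0, 1) : W) = 1 := by decide
    rw [h0, h1]
    constructor <;> ring
  · intro h
    obtain ⟨e0, e1⟩ := g3 h
    rw [nq0, nq1, el_mm, el_mm, e0, e1, h]
    have h0 : c0 ((1, 0) : W) = 1 := by decide
    have h1 : c1 ((1, 0) : W) = 2 := by decide
    rw [h0, h1]
    constructor <;> ring
  · intro h
    obtain ⟨e0, e1⟩ := g4 h
    rw [nq0, nq1, el_mm, el_mm, e0, e1, h]
    have h0 : c0 ((1, 1) : W) = 1 := by decide
    have h1 : c1 ((1, 1) : W) = 1 := by decide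
    rw [h0, h1]
    constructor <;> ring

include H hR in
/-- the points of order two -/
theorem tor_Tm (y : W) : ∃ T : Pt (crv (am K m a P) (am K m b P)) K, T + T = 0 ∧
    d0 (am K m a P) (am K m b P) T = algebraMap k[X] K (el (RR a b P) (rp0 a b y) (nq0 m ι y)) ∧
    d1 (am K m a P) (am K m b P) T = algebraMap k[X] K (el (RR a b P) (rp1 a b y) (nq1 m ι y)) := by
  have h2 := two_ne H
  obtain ⟨t1, t2, t3⟩ := tm_ne H m hR
  have inj := IsFractionRing.injective k[X] K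
  have h2K : (2 : K) ≠ 0 := tt h2
  have haK : am K m a P ≠ 0 := by
    rw [am, Ne, IsFractionRing.to_map_eq_zero_iff]; exact t1
  have hbK : am K m b P ≠ 0 := by
    rw [am, Ne, IsFractionRing.to_map_eq_zero_iff]; exact t2
  have habK : am K m a P ≠ am K m b P := fun h => t3 (inj h)
  obtain ⟨⟨T1, o1, o2, o3⟩, ⟨T2, o4, o5, o6⟩⟩ := tor_pt h2K haK hbK habK
  obtain ⟨T3, o7, o8, o9⟩ := tor_pt3 h2K haK hbK habK
  have hsub : algebraMap k[X] K ((a - b) * (gm m * ∏ i, P i)) = am K m a P - am K m b P := by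
    rw [sub_mul, map_sub]
  rcases W_cases y with rfl | rfl | rfl | rfl
  · refine ⟨0, add_zero 0, ?_, ?_⟩
    · rw [((tor_em (P := P) H m (0, 0)).1 rfl).1, map_one]
      rfl
    · rw [((tor_em (P := P) H m (0, 0)).1 rfl).2, map_one]
      rfl
  · refine ⟨T1, o1, ?_, ?_⟩
    · rw [((tor_em (P := P) H m (0, 1)).2.1 rfl).1, map_mul, o2]
    · rw [((tor_em (P := P) H m (0, 1)).2.1 rfl).2, map_neg, o3]
  · refine ⟨T2, o4, ?_, ?_⟩
    · rw [((tor_em (P := P) H m (1, 0)).2.2.1 rfl).1, o5]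
    · rw [((tor_em (P := P) H m (1, 0)).2.2.1 rfl).2, map_mul, hsub, o6]
  · refine ⟨T3, o7, ?_, ?_⟩
    · rw [((tor_em (P := P) H m (1, 1)).2.2.2 rfl).1, o8]
    · rw [((tor_em (P := P) H m (1, 1)).2.2.2 rfl).2, map_neg, hsub, neg_sub, o9]

/-- the symbols of the points of order two -/
noncomputable def TM (P : ι → k[X]) (y : W) (Q : k[X]) : W :=
  LW (RR a b P) (rp0 a b y) (rp1 a b y) (nq0 m ι y) (nq1 m ι y) Q

theorem TM_eq (y : W) (Q : k[X]) : TM m P y Q =
    ∑ j, L (P j) Q • y + ∑ s, L (QQ a b s) Q • th (dT H) m s y +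
      (Q.natDegree : F2) • ks (datum H).l y := by
  rw [TM, LW_eq, rp_ch H]
  simp only [nq_inl, nq_inr H]

theorem TM_bad (y : W) (s : Tau a b) : TM m P y (QQ a b s) =
    (∑ i, BT (QQ a b) P i s) • y + Mm (dT H) m s y := by
  rw [TM_eq H, Mm_apply, sum_smul, add_assoc]
  congr 2
  refine sum_congr rfl fun s' _ => ?_
  show L (QQ a b s') (QQ a b s) • _ = L (QQ a b s) (QQ a b s') • _
  rw [L_comm H.hm]

end

end Pool.Agent.V8H26.YG
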