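import Pool.Agent.V8H26.YG.Suf

/-!
# Locally soluble pairs and solutions of the local equations
-/

set_option autoImplicit false
set_option linter.all false

open Polynomial IsDedekindDomain WeierstrassCurve WeierstrassCurve.Affine
open scoped Classical

namespace Pool.Agent.V8H26.YG

open Pool.Agent.TH115.GD Pool.Agent.H341R2.Sharp Finset Pool.Agent.Y164.PS Pool.Agent.V8H26.XA
open Pool.Agent.V8H26.XL (Arr arr dm F2s F2c)
open Pool.Agent.V8H26.YA (split_pl locSol_congr el_even)
open Pool.Agent.V8H26.YB (rr rr_ne ch_rr sq_lc sqEq_inf good_inf par_inf)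

section
variable {k K : Type} [Field k] [Fintype k] [DecidableEq k] [Field K] [Algebra k[X] K]
  [IsFractionRing k[X] K]
variable {a b : k[X]} {N : ℕ} (H : Hyp a b N) (m ep : Tau a b → F2)
variable {ι : Type} [Fintype ι] {P : ι → k[X]} (hR : Fam (RR a b P))
variable (hcl : ∀ s, ∑ i, BT (QQ a b) P i s = ep s + gg' (dT H) m s)

include hcl in
theorem hcl' : ∀ s, ∑ i, (arr H.hm (QQ a b) P).B i s = ep s + gg' (dT H) m s := hcl

include H hR hcl in
/-- the vector of a locally soluble pair -/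
theorem sel_vecG {a0 a1 : K} (ha0 : a0 ≠ 0) (ha1 : a1 ≠ 0)
    (hls : LSg (F := K) k (crv (am K m a P) (am K m b P)) (am K m a P) (am K m b P) a0 a1) :
    ∃ (r0 r1 : k) (n0 n1 : ι ⊕ Tau a b → ℕ) (c0' c1' : K) (w : UU ι (Tau a b)),
      r0 ≠ 0 ∧ r1 ≠ 0 ∧ c0' ≠ 0 ∧ c1' ≠ 0 ∧ a0 = c0' ^ 2 * algebraMap k[X] K (el (RR a b P) r0 n0) ∧
      a1 = c1' ^ 2 * algebraMap k[X] K (el (RR a b P) r1 n1) ∧
      (∀ x, (((n0 x : F2), (n1 x : F2)) : W) = ((ne0 w x : F2), (ne1 w x : F2))) ∧
      SolG (dT H) m ep (dm P) (arr H.hm (QQ a b) P) w (ch r0, ch r1) := by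
  have h2 := two_ne H
  obtain ⟨t1, t2, t3⟩ := tm_ne H m hR
  have hgm : ∀ v : HeightOneSpectrum k[X], a * b * (a - b) * ∏ i, P i ∉ v.asIdeal →
      gm m * ∏ i, P i ∉ v.asIdeal := by
    intro v hv h
    rcases v.isPrime.mem_or_mem h with h3 | h3
    · rw [gm] at h3
      obtain ⟨s, -, h4⟩ := (v.isPrime.prod_mem_iff).1 h3
      have h5 := v.isPrime.mem_of_pow_mem _ h4
      apply hv
      have h6 : QQ a b s ∣ a * b * (a - b) * ∏ i, P i := by
        have h7 : s.1 ∈ bp a b := s.2
        exact ((mem_bp H).1 h7).2.2.mul_right _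
      obtain ⟨c, hc⟩ := h6
      rw [hc]
      exact v.asIdeal.mul_mem_right _ h5
    · exact hv (v.asIdeal.mul_mem_left _ h3)
  have hpar : ∀ v : HeightOneSpectrum k[X], a * b * (a - b) * ∏ i, P i ∉ v.asIdeal →
      IsSquare (v.valuation K a0) ∧ IsSquare (v.valuation K a1) := by
    intro v hv
    have hs := locR_fin h2 t1 t2 t3 hls v
    have hg := hgm v hv
    have m1 : a * (gm m * ∏ i, P i) ∉ v.asIdeal := by
      intro h
      rcases v.isPrime.mem_or_mem h with h3 | h3
      · apply hv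
        have : a * b * (a - b) * ∏ i, P i = (b * (a - b) * ∏ i, P i) * a := by ring
        rw [this]
        exact v.asIdeal.mul_mem_left _ h3
      · exact hg h3
    have m2 : b * (gm m * ∏ i, P i) ∉ v.asIdeal := by
      intro h
      rcases v.isPrime.mem_or_mem h with h3 | h3
      · apply hv
        have : a * b * (a - b) * ∏ i, P i = (a * (a - b) * ∏ i, P i) * b := by ring
        rw [this]
        exact v.asIdeal.mul_mem_left _ h3
      · exact hg h3
    have m3 : (a - b) * (gm m * ∏ i, P i) ∉ v.asIdeal := by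
      intro h
      rcases v.isPrime.mem_or_mem h with h3 | h3
      · apply hv
        have : a * b * (a - b) * ∏ i, P i = (a * b * ∏ i, P i) * (a - b) := by ring
        rw [this]
        exact v.asIdeal.mul_mem_left _ h3
      · exact hg h3
    have q1 : v.valuation K (am K m a P) = 1 := (valK_one v).2 m1
    have q2 : v.valuation K (am K m b P) = 1 := (valK_one v).2 m2
    have q3 : v.valuation K (am K m a P - am K m b P) = 1 := by
      rw [am, am, ← map_sub, ← sub_mul]
      exact (valK_one v).2 m3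
    have g := parR (wv_coe (F := K) v) hs (M := 1) sq_one one_ne_zero q1.le q2.le
    exact ⟨g.1 q1 q2, g.2.1 q1 q3⟩
  obtain ⟨r0, n0, c0', hr0, hc0, e0⟩ := dec1 H hR ha0 fun v hv => (hpar v hv).1
  obtain ⟨r1, n1, c1', hr1, hc1, e1⟩ := dec1 H hR ha1 fun v hv => (hpar v hv).2
  set w : UU ι (Tau a b) := (fun i => ((n0 (Sum.inl i) : F2), (n1 (Sum.inl i) : F2)),
    fun s => ((n0 (Sum.inr s) : F2), (n1 (Sum.inr s) : F2))) with hw
  have hexp : ∀ x, (((n0 x : F2), (n1 x : F2)) : W) = ((ne0 w x : F2), (ne1 w x : F2)) := by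
    rintro (i | s)
    · rw [ne_inl]
    · rw [ne_inr]
  have hVM : ∀ Q, LW (RR a b P) r0 r1 n0 n1 Q = VM P w r0 r1 Q := by
    intro Q
    rw [VM, LW_eq, LW_eq]
    simp only [hexp]
  have hA := locAd H m hR hls hr0 hr1 hc0 hc1 e0 e1
  have hQ := fun s hs1 => locQm H m hR hls hr0 hr1 hc0 hc1 e0 e1 s hs1 (hcl s)
  have hB : ∀ s, m s = 1 → ∃ y : W, w.2 s = th (dT H) m s y ∧
      VM P w r0 r1 (QQ a b s) = TM m P y (QQ a b s) := by
    intro s hs
    have nmr : ∀ f : k[X], nm m ι f (Sum.inr s) = mu f s.1 + 1 := by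
      intro f
      rw [nm_inr, hs]
      rfl
    obtain ⟨y, hy1, hy2⟩ := hA (Sum.inr s) (by
      rw [nmr, nmr, nmr]
      rcases tri H s with ⟨h1, h2', h3⟩ | ⟨h1, h2', h3⟩ | ⟨h1, h2', h3⟩
      · have mb : mu b s.1 = 0 := mu_eq_zero h2'
        have mc : mu (a - b) s.1 = 0 := mu_eq_zero h3
        rw [mb, mc]
        exact Or.inr (Or.inr ⟨odd_one, rfl⟩)
      · have ma : mu a s.1 = 0 := mu_eq_zero h1
        have mc : mu (a - b) s.1 = 0 := mu_eq_zero h3
        rw [ma, mc]
        exact Or.inr (Or.inl ⟨odd_one, rfl⟩)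
      · have ma : mu a s.1 = 0 := mu_eq_zero h1
        have mb : mu b s.1 = 0 := mu_eq_zero h2'
        rw [ma, mb]
        exact Or.inl ⟨odd_one, rfl⟩)
    exact ⟨y, hy1.trans (nq_inr H m y s), (hVM _).symm.trans hy2⟩
  refine ⟨r0, r1, n0, n1, c0', c1', w, hr0, hr1, hc0, hc1, e0, e1, hexp, ⟨?_, ?_, ?_⟩⟩
  · intro s
    by_cases hs : m s = 1
    · rw [Ls, if_pos hs]
      exact Submodule.mem_top
    · obtain ⟨c, k1, k2, -⟩ := hQ s hs
      have k3 : w.2 s = c • tyv a b s := k2
      rw [k3, Ls, if_neg hs]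
      split_ifs with h
      · exact Submodule.smul_mem _ _ (Submodule.mem_span_singleton_self _)
      · push Not at h
        rw [k1 h.1 h.2, zero_smul]
        exact Submodule.zero_mem _
  · intro i
    obtain ⟨y, hy1, hy2⟩ := hA (Sum.inl i) (Or.inl ⟨odd_one, rfl⟩)
    rw [VM_E1 H]
    have k1 : w.1 i = y := hy1.trans (nq_inl m y i)
    have k2 : VM P w r0 r1 (P i) = TM m P y (P i) := (hVM _).symm.trans hy2
    rw [k1, k2]
    exact W_add_self _
  · intro s z hz
    rw [← VM_bad H]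
    by_cases hs : m s = 1
    · obtain ⟨y, k1, k2⟩ := hB s hs
      rw [k1, k2, kap_th (dT H) m ep s y hz, TM_bad H, om_add_left, om_smul_left, hcl s]
      linear_combination ((ep s + gg' (dT H) m s) * om y z + om (Mm (dT H) m s y) z) * F2s 1
    · obtain ⟨c, k1, k2, k3⟩ := hQ s hs
      have k4 : w.2 s = c • tyv a b s := k2
      rw [hVM] at k3
      have h2 : om (tyv a b s) (ud (tyv a b s)) = 1 := om_ud _ (tyv_ne s)
      rcases Ls_cases (dT H) m ep s hz with h | ⟨-, c', rfl, hc'⟩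
      · exact absurd h hs
      · rw [k4, kap_zero (dT H) m ep hs]
        show om _ (c' • tyv a b s) + ep s * (om (c • tyv a b s) (ud (tyv a b s)) *
          om (c' • tyv a b s) (ud (tyv a b s))) = 0
        rw [om_smul_left, om_smul_left, om_smul_right, h2]
        by_cases h : ep s = 0 ∨ tv a b s ≠ 0
        · rw [k3 h]
          linear_combination (c * c' * ep s) * F2s 1
        · push Not at h
          have h6 : c' = 0 := hc' h.1 h.2
          rw [h6]
          ring

variable {w : UU ι (Tau a b)} {r0 r1 : k} (hr0 : r0 ≠ 0) (hr1 : r1 ≠ 0)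

include H hR hcl hr0 hr1 in
/-- the places of multiplicative reduction -/
theorem sol_mult {s : Tau a b} (hs1 : m s ≠ 1)
    (hsol : SolG (dT H) m ep (dm P) (arr H.hm (QQ a b) P) w (ch r0, ch r1)) :
    LocSol (F := K) (crv (am K m a P) (am K m b P)) (am K m a P) (am K m b P)
      (Comp k[X] K (plK (hR.irr (Sum.inr s))))
      (algebraMap k[X] K (el (RR a b P) r0 (ne0 w)))
      (algebraMap k[X] K (el (RR a b P) r1 (ne1 w))) := by
  have he2 := hsol.e2 s
  rw [← VM_bad H] at he2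
  have hm0 : m s = 0 := (F2c _).resolve_right hs1
  have hud : om (tyv a b s) (ud (tyv a b s)) = 1 := om_ud _ (tyv_ne s)
  have hcs := hcl s
  have hthe : ∀ y, th (dT H) m s y = om y (tv a b s) • tv a b s := by
    intro y
    rw [th_apply, hm0, zero_smul, zero_add]
    rfl
  obtain ⟨c, hz, hc⟩ : ∃ c : ZMod 2, w.2 s = c • tyv a b s ∧ (ep s ≠ 0 → tv a b s = 0 → c = 0) := by
    rcases Ls_cases (dT H) m ep s (hsol.mem s) with h | ⟨-, c, h, h'⟩
    · exact absurd h hs1
    · exact ⟨c, h, h'⟩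
  have hmem : ep s = 0 ∨ tv a b s ≠ 0 → tyv a b s ∈ Ls (dT H) m ep s := by
    intro h
    rw [Ls, if_neg hs1, if_pos (show ep s = 0 ∨ (dT H).t s ≠ 0 from h)]
    exact Submodule.mem_span_singleton_self _
  have hval : ep s = 0 ∨ tv a b s ≠ 0 → om (VM P w r0 r1 (QQ a b s)) (tyv a b s) = ep s * c := by
    intro h
    have h3 := he2 _ (hmem h)
    rw [hz, kap_zero (dT H) m ep hs1] at h3
    have h4 : om (VM P w r0 r1 (QQ a b s)) (tyv a b s) + ep s * (om (c • tyv a b s)
      (ud (tyv a b s)) * om (tyv a b s) (ud (tyv a b s))) = 0 := h3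
    rw [om_smul_left, hud, mul_one, mul_one] at h4
    have h5 : ∀ x y : F2, x + y = 0 → x = y := by decide
    exact h5 _ _ h4
  have hcase : ∀ (t u v : W), t ≠ 0 → om u t = 0 → om v t = 0 → u = v ∨ u + v = t := by
    decide
  rcases F2c (ep s) with he | he
  · -- split
    rw [he] at hcs
    have hV := hval (Or.inl he)
    rw [he, zero_mul] at hV
    rcases tv_ty H s with ht | ht
    · rcases F2c c with hc0 | hc1
      · have hexp : (((ne0 w (Sum.inr s) : F2), (ne1 w (Sum.inr s) : F2)) : W) =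
            ((nq0 m ι 0 (Sum.inr s) : F2), (nq1 m ι 0 (Sum.inr s) : F2)) := by
          rw [ne_inr, nq_inr H, hz, hc0, zero_smul, map_zero]
        rcases hcase _ _ _ (tyv_ne s) hV (om_zero_left _) with h5 | h5
        · exact sol_fam H m hR hr0 hr1 (Sum.inr s) 0 hexp (h5.trans (TM_zero H m _).symm)
        · refine sol_splitM H m hR hr0 hr1 hs1 hcs hexp ?_
          rw [TM_zero H]
          exact h5
      · refine sol_ram H m hR hr0 hr1 hs1 hcs ht ?_ hV
        rw [hz, hc1, one_smul]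
    · have hexp : (((ne0 w (Sum.inr s) : F2), (ne1 w (Sum.inr s) : F2)) : W) =
          ((nq0 m ι (c • ud (tyv a b s)) (Sum.inr s) : F2),
            (nq1 m ι (c • ud (tyv a b s)) (Sum.inr s) : F2)) := by
        rw [ne_inr, nq_inr H, hz, hthe, ht, om_smul_left, om_comm, hud, mul_one]
      have hT : om (TM m P (c • ud (tyv a b s)) (QQ a b s)) (tyv a b s) = 0 := by
        rw [TM_om H m hcs, zero_mul]
      rcases hcase _ _ _ (tyv_ne s) hV hT with h5 | h5
      · exact sol_fam H m hR hr0 hr1 (Sum.inr s) _ hexp h5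
      · exact sol_splitM H m hR hr0 hr1 hs1 hcs hexp h5
  · -- non-split
    rw [he] at hcs
    obtain ⟨y, hy⟩ := TM_surj H m hcs (VM P w r0 r1 (QQ a b s))
    refine sol_fam H m hR hr0 hr1 (Sum.inr s) y ?_ hy.symm
    rw [ne_inr, nq_inr H, hz, hthe]
    rcases tv_ty H s with ht | ht
    · rw [hc (by rw [he]; exact one_ne_zero) ht, ht, zero_smul, smul_zero]
    · have h3 := hval (Or.inr (by rw [ht]; exact tyv_ne s))
      rw [he, one_mul, ← hy, TM_om H m hcs, one_mul] at h3
      rw [ht, h3]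

include H hR hcl hr0 hr1 in
/-- the solutions are locally soluble, if they are at infinity -/
theorem ls_sol (hsol : SolG (dT H) m ep (dm P) (arr H.hm (QQ a b) P) w (ch r0, ch r1))
    (hinf : LocSol (F := K) (crv (am K m a P) (am K m b P)) (am K m a P) (am K m b P) (CompInf k K)
      (algebraMap k[X] K (el (RR a b P) r0 (ne0 w)))
      (algebraMap k[X] K (el (RR a b P) r1 (ne1 w)))) :
    LSg (F := K) k (crv (am K m a P) (am K m b P)) (am K m a P) (am K m b P)
      (algebraMap k[X] K (el (RR a b P) r0 (ne0 w)))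
      (algebraMap k[X] K (el (RR a b P) r1 (ne1 w))) := by
  have h2 := two_ne H
  have h2K : (2 : K) ≠ 0 := tt h2
  obtain ⟨haK, hbK, habK⟩ := ne_tm (K := K) H m hR
  refine ⟨?_, hinf⟩
  intro v
  by_cases hv : ∃ x, RR a b P x ∈ v.asIdeal
  · obtain ⟨x, hx⟩ := hv
    have hvx := pl_eq (hR.irr x) hx
    subst hvx
    rcases x with i | s
    · refine sol_fam H m hR hr0 hr1 (Sum.inl i) (w.1 i) ?_ ?_
      · rw [ne_inl, nq_inl]
      · apply F2_eq_of_W
        have h3 := hsol.e1 i
        rw [VM_E1 H] at h3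
        exact h3
    · by_cases hs : m s = 1
      · refine sol_fam H m hR hr0 hr1 (Sum.inr s) (th (dT H) m s (w.2 s)) ?_ ?_
        · rw [ne_inr, nq_inr H, th_th (dT H) m s hs]
        · apply F2_eq_of_W
          apply eq_zero_of_om
          intro z
          have h3 := hsol.e2 s z (by rw [Ls, if_pos hs]; exact Submodule.mem_top)
          rw [← VM_bad H, kap_one (dT H) m ep hs] at h3
          show om (VM P w r0 r1 (QQ a b s) + TM m P (th (dT H) m s (w.2 s)) (QQ a b s)) z = 0
          rw [TM_bad H, om_add_left, om_add_left, om_smul_left, hcl s]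
          exact h3
      · exact sol_mult H m ep hR hcl hr0 hr1 hs hsol
  · push Not at hv
    obtain ⟨π, hπ, hvπ⟩ := exists_gen v
    have hnd : ∀ x, ¬ π ∣ RR a b P x := fun x hx => hv x ((hvπ _).2 hx)
    have hP : ¬ π ∣ gm m * ∏ i, P i := by
      intro h
      rcases hπ.prime.dvd_or_dvd h with h | h
      · rw [gm, hπ.prime.dvd_finset_prod_iff] at h
        obtain ⟨s, -, hs⟩ := h
        exact hnd (Sum.inr s) (hπ.prime.dvd_of_dvd_pow hs)
      · rw [hπ.prime.dvd_finset_prod_iff] at h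
        obtain ⟨i, -, hi⟩ := h
        exact hnd (Sum.inl i) hi
    have hbad : ¬ π ∣ a * b * (a - b) := by
      intro hd
      have hl : π.leadingCoeff ≠ 0 := leadingCoeff_ne_zero.2 hπ.ne_zero
      have hu : IsUnit (C π.leadingCoeff⁻¹ : k[X]) :=
        isUnit_C.2 (isUnit_iff_ne_zero.2 (inv_ne_zero hl))
      have h5 : C π.leadingCoeff⁻¹ * π ∣ π := (hu.mul_left_dvd).2 dvd_rfl
      have h6 : C π.leadingCoeff⁻¹ * π ∈ bp a b := by
        rw [mem_bp H]
        refine ⟨?_, ?_, h5.trans hd⟩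
        · rw [Monic, leadingCoeff_mul, leadingCoeff_C, inv_mul_cancel₀ hl]
        · exact (irreducible_isUnit_mul hu).2 hπ
      exact hnd (Sum.inr ⟨_, h6⟩) (dvd_mul_left _ _)
    have nA : ¬ π ∣ a * (gm m * ∏ i, P i) := fun h => (hπ.prime.dvd_or_dvd h).elim
      (fun h => hbad ((h.mul_right b).mul_right _)) hP
    have nB : ¬ π ∣ b * (gm m * ∏ i, P i) := fun h => (hπ.prime.dvd_or_dvd h).elim
      (fun h => hbad ((h.mul_left a).mul_right _)) hP
    have nAB : ¬ π ∣ a * (gm m * ∏ i, P i) - b * (gm m * ∏ i, P i) := by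
      rw [← sub_mul]
      exact fun h => (hπ.prime.dvd_or_dvd h).elim (fun h => hbad (h.mul_left _)) hP
    have nel : ∀ {r : k} (hr : r ≠ 0) (n : ι ⊕ Tau a b → ℕ), ¬ π ∣ el (RR a b P) r n := by
      intro r hr n h
      have h5 : IsUnit (C r : k[X]) := isUnit_C.2 (isUnit_iff_ne_zero.2 hr)
      have h6 : el (RR a b P) r n = C r * el (RR a b P) 1 n := by
        rw [el, el, C_1, one_mul]
      rw [h6, h5.dvd_mul_left] at h
      exact not_dvd_el hπ hnd n h
    rcases good_pl (K := K) h2 v hπ hvπ nA nB nAB (nel hr0 (ne0 w))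
      (nel hr1 (ne1 w)) with ⟨T, s0, s1⟩ | ⟨x, y, e, x0, xa, s0, s1⟩
    · exact locSol_pt2 (compAlgebra' k[X] K v K) (compAlgebra k[X] K v) (fun x => rfl) T s0 s1
    · exact locSol_xy (compAlgebra' k[X] K v K) (compAlgebra k[X] K v) (fun x => rfl) h2K haK hbK
        habK e x0 xa s0 s1

end

end Pool.Agent.V8H26.YG
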